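import Pool.Agent.Mg.Fa2558b.G4d7624

section

namespace Pool.Agent.MP_a2558b_lc

open Pool.Agent.MP_c6cf52_lc Name Set

universe u

variable {P : Type u} [Preorder P] [OrderTop P] {Ω : Type u} [LinearOrder Ω] [WellFoundedLT Ω]

omit [WellFoundedLT Ω] in
theorem triO (a b : Ω) : a < b ∨ a = b ∨ b < a := lt_trichotomy a b

theorem oN_eq (x : Ω) : (oN x : Name P) = sN (Iio x) := ordN_eq wfO x

theorem E_sN {g : Gen P} {s : Set Ω} (h : sN s ∈ g.N) {x : g.M} :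
    g.E x (g.v (sN s)) ↔ ∃ y ∈ s, oN y ∈ g.N ∧ g.v (oN y) = x := Gen.E_setN wfO h

theorem E_oN {g : Gen P} {a : Ω} (h : oN a ∈ g.N) {x : g.M} :
    g.E x (g.v (oN a)) ↔ ∃ y, y < a ∧ oN y ∈ g.N ∧ g.v (oN y) = x := Gen.E_ordN wfO h

theorem oN_inj {g : Gen P} {a b : Ω} (ha : oN a ∈ g.N) (hb : oN b ∈ g.N)
    (h : g.v (oN a) = g.v (oN b)) : a = b := Gen.ord_inj wfO triO ha hb h

theorem oN_lt_iff {g : Gen P} {a b : Ω} (ha : oN a ∈ g.N) (hb : oN b ∈ g.N) :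
    g.E (g.v (oN a)) (g.v (oN b)) ↔ a < b := Gen.ord_lt_iff wfO triO ha hb

theorem oN_mem_sN_iff {g : Gen P} {s : Set Ω} {a : Ω} (ha : oN a ∈ g.N) (hs : sN s ∈ g.N) :
    g.E (g.v (oN a)) (g.v (sN s)) ↔ a ∈ s := Gen.ord_mem_setN_iff wfO triO ha hs

theorem isOrd_sN {g : Gen P} {s : Set Ω} (hs : sN s ∈ g.N) (low : ∀ a b, a < b → b ∈ s → a ∈ s) :
    IsOrd g.E (g.v (sN s)) := Gen.isOrd_setN wfO triO hs low

theorem isOrd_oN {g : Gen P} {a : Ω} (ha : oN a ∈ g.N) : IsOrd g.E (g.v (oN a)) := by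
  rw [oN_eq] at ha ⊢
  exact isOrd_sN ha fun _ _ h h' => lt_trans h h'

/-- A generic filter through a condition whose name set contains a given list. -/
theorem exists_gen_list (p : P) (l : List (Name P)) :
    ∃ g : Gen P, p ∈ g.G ∧ ∀ x ∈ l, x ∈ g.N := by
  obtain ⟨g, hg, h⟩ := exists_gen p {x | x ∈ l} (List.finite_toSet l).countable
  exact ⟨g, hg, fun x hx => h hx⟩

/-- `q` forces that `σ` maps the ordinal `i` to the ordinal `x`. -/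
def FApp (σ : Name P) (q : P) (i x : Ω) : Prop :=
  ∀ g : Gen P, q ∈ g.G → σ ∈ g.N → oN i ∈ g.N → oN x ∈ g.N →
    App g.E (g.v σ) (g.v (oN i)) (g.v (oN x))

theorem FApp.mono {σ : Name P} {p q : P} {i x : Ω} (h : FApp σ p i x) (hq : q ≤ p) :
    FApp σ q i x := fun g hg => h g (g.up hg hq)

theorem fApp_of_app {g : Gen P} {σ : Name P} {i x : Ω} (hσ : σ ∈ g.N) (hi : oN i ∈ g.N)
    (hx : oN x ∈ g.N) (h : App g.E (g.v σ) (g.v (oN i)) (g.v (oN x))) {p : P} (hp : p ∈ g.G) :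
    ∃ r ∈ g.G, r ≤ p ∧ FApp σ r i x := by
  obtain ⟨s, hs, H⟩ := Gen.transfer_app hσ hi hx h
  obtain ⟨r, hr, h₁, h₂⟩ := g.dir hp hs
  exact ⟨r, hr, h₁, fun g' hg' => H g' (g'.up hg' h₂)⟩

/-- `p` forces that `σ` is a function from `A` to `B`. -/
def FFun (σ : Name P) (p : P) (A B : Set Ω) : Prop :=
  ∀ g : Gen P, p ∈ g.G → σ ∈ g.N → sN A ∈ g.N → sN B ∈ g.N →
    IsFun g.E (g.v σ) (g.v (sN A)) (g.v (sN B))

theorem FFun.exists_val {σ : Name P} {p r : P} {A B : Set Ω} (hp : FFun σ p A B) (hr : r ≤ p)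
    {i : Ω} (hi : i ∈ A) : ∃ t ≤ r, ∃ x ∈ B, FApp σ t i x := by
  obtain ⟨g, hg, hl⟩ := exists_gen_list r [σ, sN A, sN B, oN i]
  simp only [List.mem_cons, List.not_mem_nil, or_false, forall_eq_or_imp, forall_eq] at hl
  obtain ⟨hσ, hA, hB, hiN⟩ := hl
  have hf := hp g (g.up hg hr) hσ hA hB
  obtain ⟨b, hb, happ⟩ := Gen.fun_ex hf ((oN_mem_sN_iff hiN hA).2 hi)
  obtain ⟨x, hx, hxN, rfl⟩ := (E_sN hB).1 hb
  obtain ⟨t, -, ht, H⟩ := fApp_of_app hσ hiN hxN happ hg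
  exact ⟨t, ht, x, hx, H⟩

theorem FFun.uniq {σ : Name P} {p r : P} {A B : Set Ω} (hp : FFun σ p A B) (hr : r ≤ p)
    {i x y : Ω} (hx : FApp σ r i x) (hy : FApp σ r i y) : x = y := by
  obtain ⟨g, hg, hl⟩ := exists_gen_list r [σ, sN A, sN B, oN i, oN x, oN y]
  simp only [List.mem_cons, List.not_mem_nil, or_false, forall_eq_or_imp, forall_eq] at hl
  obtain ⟨hσ, hA, hB, hiN, hxN, hyN⟩ := hl
  have hf := hp g (g.up hg hr) hσ hA hB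
  exact oN_inj hxN hyN (Gen.fun_uniq hf (hx g hg hσ hiN hxN) (hy g hg hσ hiN hyN))

/-- The decision relation for the value of `σ` at `i`. -/
def mkNm {σ : Name P} {p : P} {A B : Set Ω} (hp : FFun σ p A B) (x₀ i : Ω) : Nm P Ω where
  dec q x := (i ∈ A ∧ q ≤ p ∧ x ∈ B ∧ FApp σ q i x) ∨ ((i ∉ A ∨ ∀ r ≤ q, ¬ r ≤ p) ∧ x = x₀)
  mono := by
    rintro q q' x hq (⟨h₁, h₂, h₃, h₄⟩ | ⟨h₁, h₂⟩)
    · exact Or.inl ⟨h₁, hq.trans h₂, h₃, h₄.mono hq⟩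
    · exact Or.inr ⟨h₁.imp id fun h r hr => h r (hr.trans hq), h₂⟩
  dense := by
    intro q
    by_cases h : i ∉ A ∨ ∀ r ≤ q, ¬ r ≤ p
    · exact ⟨q, le_rfl, x₀, Or.inr ⟨h, rfl⟩⟩
    · push Not at h
      obtain ⟨hi, r, hr, hrp⟩ := h
      obtain ⟨t, ht, x, hx, H⟩ := hp.exists_val hrp hi
      exact ⟨t, ht.trans hr, x, Or.inl ⟨hi, ht.trans hrp, hx, H⟩⟩
  func := by
    rintro q x y (⟨h₁, h₂, -, h₄⟩ | ⟨h₁, h₂⟩) (⟨k₁, k₂, -, k₄⟩ | ⟨k₁, k₂⟩)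
    · exact hp.uniq h₂ h₄ k₄
    · exact (k₁.elim (fun h => h h₁) fun h => h q le_rfl h₂).elim
    · exact (h₁.elim (fun h => h k₁) fun h => h q le_rfl k₂).elim
    · exact h₂.trans k₂.symm

theorem mkNm_dec {σ : Name P} {p : P} {A B : Set Ω} (hp : FFun σ p A B) (x₀ : Ω) {i x : Ω} {q : P}
    (hi : i ∈ A) (hq : q ≤ p) (hx : x ∈ B) (h : FApp σ q i x) : (mkNm hp x₀ i).dec q x :=
  Or.inl ⟨hi, hq, hx, h⟩

theorem not_cofMap_set {A B : Set Ω} (x₁ : Ω)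
    (H : ∀ h : Ω → Nm P Ω, (∀ i ∈ A, ∀ p x, (h i).dec p x → x ∈ B) →
      ∀ p, ∃ q ≤ p, ∃ b ∈ B, ∀ i ∈ A, ∀ r ≤ q, ∀ x, (h i).dec r x → x < b)
    (g : Gen P) (hA : sN A ∈ g.N) (hB : sN B ∈ g.N) :
    ¬ CofMap g.E (g.v (sN A)) (g.v (sN B)) := by
  rintro ⟨f, hf⟩
  obtain ⟨σ, hσ, rfl⟩ := Gen.exists_v f
  have hU : UDef.{u + 1} (fun _ E w => IsFun E (w 0) (w 1) (w 2) ∧
      ∀ b, E b (w 2) → ∃ i a, App E (w 0) i a ∧ (E b a ∨ b = a)) := by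
    repeat' first
      | exact UDef.mem _ _ | exact UDef.eq _ _ | exact UDef.isFun _ _ _ | exact UDef.app _ _ _
      | apply UDef.and | apply UDef.or | apply UDef.imp | apply UDef.all | apply UDef.ex
  obtain ⟨p, -, hp⟩ := Gen.transfer hU (Gen.l3 hσ hA hB) hf
  have hF : FFun σ p A B := fun g' h₁ h₂ h₃ h₄ => (hp g' h₁ (Gen.l3 h₂ h₃ h₄)).1
  obtain ⟨x₀, hx₀⟩ : ∃ x₀ : Ω, ∀ i ∈ A, x₀ ∈ B := by
    rcases A.eq_empty_or_nonempty with rfl | ⟨i, hi⟩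
    · exact ⟨x₁, by simp⟩
    · obtain ⟨_, -, x, hx, -⟩ := hF.exists_val le_rfl hi
      exact ⟨x, fun _ _ => hx⟩
  obtain ⟨q, hq, b, hb, Hb⟩ := H (mkNm hF x₀) (by
    rintro i hi q x (⟨-, -, h, -⟩ | ⟨-, rfl⟩)
    exacts [h, hx₀ i hi]) p
  obtain ⟨g', hg', hl⟩ := exists_gen_list q [σ, sN A, sN B, oN b]
  simp only [List.mem_cons, List.not_mem_nil, or_false, forall_eq_or_imp, forall_eq] at hl
  obtain ⟨hσ', hA', hB', hbN⟩ := hl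
  obtain ⟨hf', hc⟩ := hp g' (g'.up hg' hq) (Gen.l3 hσ' hA' hB')
  obtain ⟨i, a, happ, hba⟩ := hc (g'.v (oN b)) ((oN_mem_sN_iff hbN hB').2 hb)
  obtain ⟨hi, ha⟩ := Gen.fun_mem hf' happ
  obtain ⟨i', hi', hiN, rfl⟩ := (E_sN hA').1 hi
  obtain ⟨x, hx, hxN, rfl⟩ := (E_sN hB').1 ha
  obtain ⟨r, -, hr, Hr⟩ := fApp_of_app hσ' hiN hxN happ hg'
  have h₁ : x < b := Hb i' hi' r hr x (mkNm_dec hF x₀ hi' (hr.trans hq) hx Hr)
  rcases hba with h | h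
  · exact lt_asymm h₁ ((oN_lt_iff hbN hxN).1 h)
  · exact h₁.ne' (oN_inj hbN hxN h)

theorem not_cofMap {z c : Ω} (h : Bdd P z c) (g : Gen P) (hz : oN z ∈ g.N) (hc : oN c ∈ g.N) :
    ¬ CofMap g.E (g.v (oN z)) (g.v (oN c)) := by
  rw [oN_eq] at hz hc
  rw [oN_eq, oN_eq]
  exact not_cofMap_set z h g hz hc

/-- The name of the function given by a family of decision relations. -/
noncomputable def famN (h : Ω → Nm P Ω) (z : Ω) : Name P :=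
  Gen.relN (ι := {t : Ω × P × Ω // t.1 < z ∧ (h t.1).dec t.2.1 t.2.2})
    (fun t => oN t.1.1) (fun t => oN t.1.2.2) (fun t => t.1.2.1)

theorem app_famN {h : Ω → Nm P Ω} {z : Ω} {g : Gen P} (hN : famN h z ∈ g.N) {s t : g.M} :
    App g.E (g.v (famN h z)) s t ↔ ∃ i < z, ∃ q ∈ g.G, ∃ x, (h i).dec q x ∧ oN i ∈ g.N ∧
      oN x ∈ g.N ∧ s = g.v (oN i) ∧ t = g.v (oN x) := by
  unfold famN at hN ⊢
  rw [Gen.app_relN hN]
  exact ⟨fun ⟨⟨⟨i, q, x⟩, h₁, h₂⟩, h₃, h₄⟩ => ⟨i, h₁, q, h₃, x, h₂, h₄⟩,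
    fun ⟨i, h₁, q, h₃, x, h₂, h₄⟩ => ⟨⟨⟨i, q, x⟩, h₁, h₂⟩, h₃, h₄⟩⟩

theorem isFun_famN {h : Ω → Nm P Ω} {z c : Ω} (hb : ∀ i < z, ∀ p x, (h i).dec p x → x < c)
    {g : Gen P} (hN : famN h z ∈ g.N) (hz : oN z ∈ g.N) (hc : oN c ∈ g.N) :
    IsFun g.E (g.v (famN h z)) (g.v (oN z)) (g.v (oN c)) := by
  refine ⟨fun p hp => ?_, fun a ha => ?_⟩
  · obtain ⟨⟨⟨i, q, x⟩, h₁, h₂⟩, -, h₄, h₅, rfl⟩ := (Gen.E_relN hN).1 hp
    exact ⟨_, _, (oN_lt_iff h₄ hz).2 h₁, (oN_lt_iff h₅ hc).2 (hb _ h₁ _ _ h₂), Gen.isPair_pr _ _⟩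
  · obtain ⟨i, hi, hiN, rfl⟩ := (E_oN hz).1 ha
    have hU : UDef.{u + 1} (fun _ E w => ∃ b, App E (w 0) (w 1) b) := UDef.ex (UDef.app _ _ _)
    obtain ⟨b, hb'⟩ := Gen.dens hU (Gen.l2 hN hiN) fun p _ => by
      obtain ⟨q, hq, x, hx⟩ := (h i).dense p
      refine ⟨q, hq, {oN x}, countable_singleton _, fun g' hq' hC hl => ?_⟩
      have h₁ : famN h z ∈ g'.N := hl _ (by simp)
      have h₂ : oN i ∈ g'.N := hl _ (by simp)
      exact ⟨g'.v (oN x), (app_famN h₁).2 ⟨i, hi, q, hq', x, hx, h₂, hC rfl, rfl, rfl⟩⟩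
    refine ⟨b, hb', fun b' hb'' => ?_⟩
    obtain ⟨i₁, -, q₁, hq₁, x₁, d₁, n₁, -, e₁, rfl⟩ := (app_famN hN).1 hb'
    obtain ⟨i₂, -, q₂, hq₂, x₂, d₂, n₂, -, e₂, rfl⟩ := (app_famN hN).1 hb''
    obtain rfl := oN_inj hiN n₁ e₁
    obtain rfl := oN_inj hiN n₂ e₂
    obtain ⟨r, -, k₁, k₂⟩ := g.dir hq₁ hq₂
    rw [(h i).func ((h i).mono k₂ d₂) ((h i).mono k₁ d₁)]

theorem cofMap {z c : Ω} (h : CofN P z c) (g : Gen P) (hz : oN z ∈ g.N) (hc : oN c ∈ g.N) :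
    CofMap g.E (g.v (oN z)) (g.v (oN c)) := by
  obtain ⟨h, hb, hcof⟩ := h
  refine Gen.dens (UD.cofMap 0 1) (Gen.l2 hz hc) fun p _ => ⟨p, le_rfl, {famN h z},
    countable_singleton _, fun g' _ hC hl => ?_⟩
  have hN : famN h z ∈ g'.N := hC rfl
  have hz' : oN z ∈ g'.N := hl _ (by simp)
  have hc' : oN c ∈ g'.N := hl _ (by simp)
  refine ⟨g'.v (famN h z), isFun_famN hb hN hz' hc', fun b hb' => ?_⟩
  obtain ⟨b', hlt, hbN, rfl⟩ := (E_oN hc').1 hb'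
  have hU : UDef.{u + 1} (fun _ E w => ∃ i a, App E (w 0) i a ∧ (E (w 1) a ∨ w 1 = a)) :=
    UDef.ex (UDef.ex ((UDef.app _ _ _).and ((UDef.mem _ _).or (UDef.eq _ _))))
  refine Gen.dens hU (Gen.l2 hN hbN) fun p _ => ?_
  obtain ⟨q, hq, i, hi, x, hbx, hx⟩ := hcof b' hlt p
  refine ⟨q, hq, {oN i, oN x}, (toFinite _).countable, fun g'' hq' hC hl => ?_⟩
  have h₁ : famN h z ∈ g''.N := hl _ (by simp)
  have h₂ : oN b' ∈ g''.N := hl _ (by simp)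
  have h₃ : oN i ∈ g''.N := hC (by simp)
  have h₄ : oN x ∈ g''.N := hC (by simp)
  refine ⟨g''.v (oN i), g''.v (oN x),
    (app_famN h₁).2 ⟨i, hi, q, hq', x, hx, h₃, h₄, rfl, rfl⟩, ?_⟩
  rcases hbx.lt_or_eq with h' | rfl
  · exact Or.inl ((oN_lt_iff h₂ h₄).2 h')
  · exact Or.inr rfl

theorem not_cofMap_top {z : Ω} (h : BddTop P z) (g : Gen P) (hz : oN z ∈ g.N)
    (hk : sN (univ : Set Ω) ∈ g.N) : ¬ CofMap g.E (g.v (oN z)) (g.v (sN (univ : Set Ω))) := by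
  rw [oN_eq] at hz
  rw [oN_eq]
  refine not_cofMap_set z (fun f _ p => ?_) g hz hk
  obtain ⟨q, hq, b, H⟩ := h f p
  exact ⟨q, hq, b, trivial, H⟩

/-- A function of the model from `k` to `k` has closure points in `S β` below every condition. -/
theorem exists_closure_pt (F : Facts P Ω) {β : Ω} (hβ : β < F.w1) (σ : Name P) (p : P)
    (hp : ∀ g : Gen P, p ∈ g.G → σ ∈ g.N → sN (univ : Set Ω) ∈ g.N →
      IsFun g.E (g.v σ) (g.v (sN (univ : Set Ω))) (g.v (sN (univ : Set Ω)))) :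
    ∃ r ≤ p, ∃ d ∈ F.S β, ∀ g : Gen P, r ∈ g.G → σ ∈ g.N → sN (univ : Set Ω) ∈ g.N →
      oN d ∈ g.N → ∀ a b, g.E a (g.v (oN d)) → App g.E (g.v σ) a b → g.E b (g.v (oN d)) := by
  have hF : FFun σ p (univ : Set Ω) univ := fun g h₁ h₂ h₃ _ => hp g h₁ h₂ h₃
  obtain ⟨r, hr, d, hd, H⟩ := F.stat β hβ (mkNm hF β) p
  refine ⟨r, hr, d, hd, fun g hg hσ hk hdN a b ha happ => ?_⟩
  obtain ⟨a', ha', haN, rfl⟩ := (E_oN hdN).1 ha
  obtain ⟨x, -, hxN, rfl⟩ := (E_sN hk).1 (Gen.fun_mem (hp g (g.up hg hr) hσ hk) happ).2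
  obtain ⟨t, -, ht, Ht⟩ := fApp_of_app hσ haN hxN happ hg
  exact (oN_lt_iff hxN hdN).2
    (H a' ha' t ht x (mkNm_dec hF β trivial (ht.trans hr) trivial Ht))

theorem isCof_S (F : Facts P Ω) {β d : Ω} (hβ : β < F.w1) (hd : d ∈ F.S β) (g : Gen P)
    (h₁ : oN d ∈ g.N) (h₂ : oN (F.mu β) ∈ g.N) :
    IsCof g.E (g.v (oN d)) (g.v (oN (F.mu β))) := by
  obtain ⟨k₁, k₂⟩ := F.cofS β hβ d hd
  refine ⟨isOrd_oN h₂, cofMap k₁ g h₂ h₁, fun n hn => ?_⟩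
  obtain ⟨z, hz, hzN, rfl⟩ := (E_oN h₂).1 hn
  exact not_cofMap (k₂ z hz) g hzN h₁

end Pool.Agent.MP_a2558b_lc

end

section

namespace Pool.Agent.MP_a2558b_lc

open Pool.Agent.MP_c6cf52_lc Name Set

universe u

variable {P : Type u} [Preorder P] [OrderTop P] {Ω : Type u} [LinearOrder Ω] [WellFoundedLT Ω]

namespace S2

open Gen Gen.Cd

theorem exists_gen_list (p : P) (l : List (Name P)) : ∃ g : Gen P, p ∈ g.G ∧ ∀ x ∈ l, x ∈ g.N :=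
  exists_gen p {x | x ∈ l} (List.finite_toSet l).countable

theorem not_chain (F : Facts P Ω) {B : Set Ω} {d n : Ω}
    (hB : ∀ (H : Ω → Set P) (p : P), (∀ b, IsLowerSet (H b)) →
      (∀ a < d, ∀ q ≤ p, ∃ r ≤ q, ∃ b ∈ B, a ≤ b ∧ r ∈ H b) →
      (∀ a < d, ∀ q ≤ p, ∃ r ≤ q, ∃ c ∈ B, ∀ b ∈ B, b < a → ∀ s ≤ r, s ∈ H b → F.D n b c) → False)
    {g : Gen P} (h₁ : sN B ∈ g.N) (h₂ : Dn F.D ∈ g.N) (h₃ : oN n ∈ g.N) (h₄ : oN d ∈ g.N)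
    (H : g.M) : ¬ Chain g.E H (g.v (sN B)) (g.v (Dn F.D)) (g.v (oN n)) (g.v (oN d)) := by
  intro h
  obtain ⟨σ, hσ, rfl⟩ := exists_v H
  obtain ⟨p, -, hp⟩ := transfer (ud_chain 0 1 2 3 4) (lcons hσ (l4 h₁ h₂ h₃ h₄)) h
  refine hB (fun b => {s | FMem (oN b) σ s}) p (fun b r r' hr h => FMem.mono h hr)
    (fun a ha q hq => ?_) fun a ha q hq => ?_
  · obtain ⟨g', hq', hl⟩ := exists_gen_list q [oN a, σ, sN B, Dn F.D, oN n, oN d]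
    have hc := hp g' (g'.up hq' hq) fun x hx => hl x (List.mem_cons_of_mem _ hx)
    simp only [List.mem_cons, List.not_mem_nil, or_false, forall_eq_or_imp, forall_eq] at hl
    obtain ⟨k₀, k₁, k₂, k₃, k₄, k₅⟩ := hl
    obtain ⟨x, hx, hax, hxσ⟩ := hc.1 (g'.v (oN a)) ((oN_lt k₀ k₅).2 ha)
    obtain ⟨b, hb, hN, rfl⟩ := (E_sN k₂).1 hx
    obtain ⟨s, hs, hf⟩ := (v_mem_iff hN k₁).1 hxσ
    obtain ⟨r, -, e₁, e₂⟩ := g'.dir hq' hs
    refine ⟨r, e₁, b, hb, ?_, hf.mono e₂⟩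
    rcases hax with h | h
    exacts [((oN_lt k₀ hN).1 h).le, (oN_inj k₀ hN h).le]
  · obtain ⟨g', hq', hl⟩ := exists_gen_list q [oN a, σ, sN B, Dn F.D, oN n, oN d]
    have hc := hp g' (g'.up hq' hq) fun x hx => hl x (List.mem_cons_of_mem _ hx)
    simp only [List.mem_cons, List.not_mem_nil, or_false, forall_eq_or_imp, forall_eq] at hl
    obtain ⟨k₀, k₁, k₂, k₃, k₄, k₅⟩ := hl
    obtain ⟨x, hx, ht⟩ := hc.2 (g'.v (oN a)) ((oN_lt k₀ k₅).2 ha)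
    obtain ⟨c, hc, hN, rfl⟩ := (E_sN k₂).1 hx
    obtain ⟨s, hs, ht'⟩ := transfer (ud_top 0 1 2 3 4 5)
      (lcons k₁ (lcons k₂ (l4 k₃ k₄ k₀ hN))) ht
    obtain ⟨r, -, e₁, e₂⟩ := g'.dir hq' hs
    refine ⟨r, e₁, c, hc, fun b hb hba s' hs' hf => ?_⟩
    obtain ⟨g'', hs'', hl⟩ := exists_gen_list s' [oN b, σ, sN B, Dn F.D, oN n, oN a, oN c]
    have ht'' := ht' g'' (g''.up hs'' (hs'.trans e₂)) fun x hx => hl x (List.mem_cons_of_mem _ hx)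
    simp only [List.mem_cons, List.not_mem_nil, or_false, forall_eq_or_imp, forall_eq] at hl
    obtain ⟨j₀, j₁, j₂, j₃, j₄, j₅, j₆⟩ := hl
    exact (tri_Dn j₃ j₄ j₀ j₆).1 (ht'' (g''.v (oN b)) ((oN_mem_sN j₀ j₂).2 hb)
      ((oN_lt j₀ j₅).2 hba) ((v_mem_iff j₀ j₁).2 ⟨s', hs'', hf⟩))

end S2

open S2 Gen Gen.Cd in
theorem not_inI (F : Facts P Ω) {β : Ω} (hβ : β < F.w1) (g : Gen P) (h₁ : oN F.w1 ∈ g.N)
    (h₂ : oN F.lam ∈ g.N) (h₃ : sN (univ : Set Ω) ∈ g.N) (h₄ : oN (F.mu β) ∈ g.N)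
    (h₅ : sN (F.S β) ∈ g.N) :
    ¬ InI g.E (g.v (sN (univ : Set Ω))) (g.v (sN (F.S β))) := by
  intro h
  obtain ⟨O, hO⟩ := F.few β hβ
  obtain ⟨p₀, -, hp₀⟩ := transfer (UD.inI 0 1) (l2 h₃ h₅) h
  obtain ⟨g₁, hg₁, hl⟩ := exists_gen_list p₀ [sN (univ : Set Ω), sN (F.S β), oN F.w1, oN F.lam,
    oN (F.mu β), Dn F.D, On O]
  simp only [List.mem_cons, List.not_mem_nil, or_false, forall_eq_or_imp, forall_eq] at hl
  obtain ⟨k₁, k₂, k₃, k₄, k₅, k₆, k₇⟩ := hl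
  haveI : Fact (sN (univ : Set Ω) ∈ g₁.N) := ⟨k₁⟩
  obtain ⟨a, C, f, hG⟩ := exists_good (g := g₁) (Ω := Ω) (l := ⟨F.lam, k₄⟩)
    (m := g₁.v (oN (F.mu β))) (t := g₁.v (oN F.w1)) (D := g₁.v (Dn F.D)) (O := g₁.v (On O))
    (S := g₁.v (sN (F.S β))) (not_cofMap_top F.bdd_top g₁ k₄ k₁) ⟨⟨F.w1, k₃⟩, F.w1_lt⟩
    (fun n hn => by
      obtain ⟨x, hx, hN, rfl⟩ := (E_oN k₃).1 hn
      exact (oN_lt hN k₄).2 (hx.trans F.w1_lt))
    (few_On hO k₇ k₄ k₅) (hp₀ g₁ hg₁ (l2 k₁ k₂))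
  obtain ⟨a, ha, rfl⟩ := exists_v a
  obtain ⟨C, hC, rfl⟩ := exists_v C
  obtain ⟨f, hf, rfl⟩ := exists_v f
  obtain ⟨p₁, hG₁, hp₁⟩ := transfer (ud_good 0 1 2 3 4 5 6 7)
    (lcons k₁ (lcons k₂ (lcons ha (lcons hC (l4 hf k₆ k₃ k₅))))) hG
  obtain ⟨p₂, hG₁', hp₂⟩ := transfer (UDef.isFun 0 1 1) (l2 hf k₁) hG.1
  obtain ⟨p, -, e₁, e₂⟩ := g₁.dir hG₁ hG₁'
  obtain ⟨r, hr, d, hd, hcl⟩ := exists_closure_pt F hβ f p fun g' hg' j₁ j₂ =>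
    hp₂ g' (g'.up hg' e₂) (l2 j₁ j₂)
  obtain ⟨B, hB₁, hB₂, hB⟩ := F.nochain β hβ d hd
  obtain ⟨g₂, hg₂, hl⟩ := exists_gen_list r [oN d, sN B, sN (univ : Set Ω), sN (F.S β), a, C, f,
    Dn F.D, oN F.w1, oN (F.mu β)]
  have hG₂ := hp₁ g₂ (g₂.up hg₂ (hr.trans e₁)) fun x hx =>
    hl x (List.mem_cons_of_mem _ (List.mem_cons_of_mem _ hx))
  simp only [List.mem_cons, List.not_mem_nil, or_false, forall_eq_or_imp, forall_eq] at hl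
  obtain ⟨j₁, j₂, j₃, j₄, j₅, j₆, j₇, j₈, j₉, j₀⟩ := hl
  haveI : Fact (sN (univ : Set Ω) ∈ g₂.N) := ⟨j₃⟩
  obtain ⟨H, n, hn, hc⟩ := exists_chain (g := g₂) (Ω := Ω) (d := ⟨d, j₁⟩) (t := ⟨F.w1, j₉⟩)
    (B := g₂.v (sN B)) (D := fun n a b => F.D n.1 a.1 b.1)
    (fun n a b => tri_Dn j₈ n.2 a.2 b.2) (fun _ _ _ _ => F.D_trans _ _ _ _)
    (fun _ _ _ _ => F.D_mono _ _ _ _)
    (fun a b hab => by
      obtain ⟨n, hn, hN, h⟩ := total_D F j₈ j₉ a.2 b.2 hab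
      exact ⟨⟨n, hN⟩, hn, h⟩)
    hG₂ ((oN_mem_sN j₁ j₄).2 hd) (isCof_S F hβ hd g₂ j₁ j₀) ((oN_lt j₉ j₀).2 (F.w1_mu β hβ))
    (hcl g₂ hg₂ j₇ j₃ j₁)
    (fun x hx => by
      obtain ⟨b, hb, hN, rfl⟩ := (E_sN j₂).1 hx
      exact (oN_lt hN j₁).2 (hB₁ hb))
    (fun x hx => by
      obtain ⟨b, hb, hN, h⟩ := unb_B j₂ x.2 (hB₂ x.1 hx)
      exact ⟨⟨b, hN⟩, (oN_mem_sN hN j₂).2 hb, h⟩)
  exact not_chain F (hB n.1 hn) j₂ j₈ n.2 j₁ H hc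

end Pool.Agent.MP_a2558b_lc

end

section

namespace Pool.Agent.MP_a2558b_lc

open Pool.Agent.MP_c6cf52_lc Name Set

universe u v

namespace UD3

theorem isOrd (i : ℕ) : UDef.{v} (fun _ E w => IsOrd E (w i)) := by
  unfold IsOrd
  repeat' first
    | exact UDef.mem _ _ | exact UDef.eq _ _ | apply UDef.and | apply UDef.or
    | apply UDef.imp | apply UDef.all

theorem hasOtp (i j : ℕ) : UDef.{v} (fun _ E w => HasOtp E (w i) (w j)) := by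
  unfold HasOtp
  repeat' first
    | exact UDef.mem _ _ | exact UDef.isFun _ _ _ | exact UDef.app _ _ _ | apply UDef.and
    | apply UDef.imp | apply UDef.all | apply UDef.ex

theorem unb (i j : ℕ) : UDef.{v} (fun _ E w => Unb E (w i) (w j)) := by
  unfold Unb
  repeat' first
    | exact UDef.mem _ _ | exact UDef.eq _ _ | apply UDef.and | apply UDef.or
    | apply UDef.imp | apply UDef.all | apply UDef.ex

theorem cofMap (i j : ℕ) : UDef.{v} (fun _ E w => CofMap E (w i) (w j)) := by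
  unfold CofMap
  repeat' first
    | exact UDef.mem _ _ | exact UDef.eq _ _ | exact UDef.isFun _ _ _ | exact UDef.app _ _ _
    | apply UDef.and | apply UDef.or | apply UDef.imp | apply UDef.all | apply UDef.ex

theorem isCof (i j : ℕ) : UDef.{v} (fun _ E w => IsCof E (w i) (w j)) := by
  unfold IsCof
  repeat' first
    | exact UDef.mem _ _ | exact isOrd _ | exact cofMap _ _ | apply UDef.and | apply UDef.not
    | apply UDef.imp | apply UDef.all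

theorem isLimit (i : ℕ) : UDef.{v} (fun _ E w => IsLimit E (w i)) := by
  unfold IsLimit
  repeat' first
    | exact UDef.mem _ _ | exact isOrd _ | apply UDef.and | apply UDef.imp | apply UDef.all
    | apply UDef.ex

theorem isClub (i j : ℕ) : UDef.{v} (fun _ E w => IsClub E (w i) (w j)) := by
  unfold IsClub
  repeat' first
    | exact UDef.mem _ _ | exact unb _ _ | apply UDef.and | apply UDef.imp | apply UDef.all
    | apply UDef.ex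

theorem isStat (i j : ℕ) : UDef.{v} (fun _ E w => IsStat E (w i) (w j)) := by
  unfold IsStat
  repeat' first
    | exact UDef.mem _ _ | exact isClub _ _ | apply UDef.and | apply UDef.imp | apply UDef.all
    | apply UDef.ex

theorem appr (i j : ℕ) : UDef.{v} (fun _ E w => Appr E (w i) (w j)) := by
  unfold Appr
  repeat' first
    | exact UDef.mem _ _ | exact isLimit _ | exact isCof _ _ | exact unb _ _ | exact hasOtp _ _
    | exact UDef.app _ _ _ | apply UDef.and | apply UDef.iff | apply UDef.imp | apply UDef.all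
    | apply UDef.ex

theorem inI (i j : ℕ) : UDef.{v} (fun _ E w => InI E (w i) (w j)) := by
  unfold InI
  repeat' first
    | exact UDef.mem _ _ | exact UDef.isFun _ _ _ | exact UDef.app _ _ _ | exact isClub _ _
    | exact appr _ _ | apply UDef.and | apply UDef.imp | apply UDef.all | apply UDef.ex

end UD3

variable {P : Type u} [Preorder P] [OrderTop P] {Ω : Type u} [LinearOrder Ω] [WellFoundedLT Ω]

namespace S3

open Gen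

variable {g : Gen P}

omit [WellFoundedLT Ω] in
theorem tri (a b : Ω) : a < b ∨ a = b ∨ b < a := lt_trichotomy a b

theorem o_eq (x : Ω) : (oN x : Name P) = sN (Iio x) := ordN_eq wfO x

theorem E_sN {s : Set Ω} (h : sN s ∈ g.N) {x : g.M} :
    g.E x (g.v (sN s)) ↔ ∃ y ∈ s, oN y ∈ g.N ∧ g.v (oN y) = x := E_setN wfO h

theorem E_o {a : Ω} (h : oN a ∈ g.N) {x : g.M} :
    g.E x (g.v (oN a)) ↔ ∃ y, y < a ∧ oN y ∈ g.N ∧ g.v (oN y) = x := E_ordN wfO h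

theorem o_lt {a b : Ω} (ha : oN a ∈ g.N) (hb : oN b ∈ g.N) :
    g.E (g.v (oN a)) (g.v (oN b)) ↔ a < b := ord_lt_iff wfO tri ha hb

theorem o_inj {a b : Ω} (ha : oN a ∈ g.N) (hb : oN b ∈ g.N) (h : g.v (oN a) = g.v (oN b)) :
    a = b := ord_inj wfO tri ha hb h

theorem o_mem_sN {s : Set Ω} {a : Ω} (ha : oN a ∈ g.N) (hs : sN s ∈ g.N) :
    g.E (g.v (oN a)) (g.v (sN s)) ↔ a ∈ s := ord_mem_setN_iff wfO tri ha hs

theorem isOrd_o {a : Ω} (h : oN a ∈ g.N) : IsOrd g.E (g.v (oN a)) := by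
  rw [o_eq] at h ⊢
  exact isOrd_setN wfO tri h fun x y h₁ h₂ => lt_trans h₁ h₂

theorem isOrd_k (h : sN (univ : Set Ω) ∈ g.N) : IsOrd g.E (g.v (sN (univ : Set Ω))) :=
  isOrd_setN wfO tri h fun _ _ _ _ => trivial

theorem isOmega_om : IsOmega g.E g.om := by
  refine ⟨isOrd_setN natWf natTri g.omega_mem fun _ _ _ _ => trivial, ⟨_, nat_om 0⟩,
    fun x hx => ?_, fun x hx ⟨y, hy⟩ => ?_⟩
  · obtain ⟨n, rfl⟩ := E_om.1 hx
    exact ⟨_, nat_om (n + 1), nat_lt.2 (Nat.lt_succ_self n)⟩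
  · obtain ⟨n, rfl⟩ := E_om.1 hx
    obtain ⟨m, hm, -⟩ := E_nat.1 hy
    refine ⟨g.nat (n - 1), nat_lt.2 (by omega), fun z hz => ?_⟩
    obtain ⟨k, hk, rfl⟩ := E_nat.1 hz
    rw [nat_lt]
    omega

theorem exists_om {t : Ω} (ht : ¬ (Iio t).Countable) :
    ∃ (i : ℕ → Ω) (w : Ω), (∀ n y, y < i n ↔ ∃ m, i m = y ∧ m < n) ∧
      (∀ y, y < w ↔ ∃ m, i m = y) ∧ w < t := by
  rcases InitialSeg.total (fun a b : ℕ => a < b) (fun a b : Ω => a < b) with f | f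
  · obtain ⟨x, hx⟩ : ∃ x, x ∉ range f := by
      by_contra h
      push Not at h
      exact ht ((countable_range f).mono fun x _ => h x)
    obtain ⟨w, hw, hmin⟩ := wellFounded_lt.has_min {x | x ∉ range f} ⟨x, hx⟩
    have e : ∀ y, y < w ↔ ∃ m, f m = y := by
      refine fun y => ⟨fun h => by_contra fun h' => hmin y h' h, ?_⟩
      rintro ⟨m, rfl⟩
      rcases lt_trichotomy (f m) w with h | h | h
      exacts [h, absurd ⟨m, h⟩ hw, absurd (f.mem_range_of_rel h) hw]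
    refine ⟨f, w, fun n y => f.exists_eq_iff_rel, e, not_le.1 fun h => ht ?_⟩
    exact (countable_range f).mono fun y hy => (e y).1 (lt_of_lt_of_le hy h)
  · have : Countable Ω := f.injective.countable
    exact absurd (to_countable _) ht

theorem om_mem {t : Ω} (ht : ¬ (Iio t).Countable) (hk : oN t ∈ g.N) :
    g.E g.om (g.v (oN t)) := by
  obtain ⟨i, w, h₁, h₂, h₃⟩ := exists_om ht
  refine dens (UDef.mem 0 1) (l2 g.omega_mem hk) fun p _ =>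
    ⟨p, le_rfl, insert (oN w) (range fun n => oN (i n)), (countable_range _).insert _,
      fun g' _ hC hl => ?_⟩
  have hw : oN w ∈ g'.N := hC (mem_insert _ _)
  have hm : ∀ n, oN (i n) ∈ g'.N := fun n => hC (Or.inr ⟨n, rfl⟩)
  have e : ∀ n, g'.nat n = g'.v (oN (i n)) := by
    intro n
    induction n using Nat.strong_induction_on with
    | h n ih =>
      refine ext fun x => ?_
      rw [E_nat, E_o (hm n)]
      constructor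
      · rintro ⟨j, hj, rfl⟩
        exact ⟨i j, (h₁ _ _).2 ⟨j, rfl, hj⟩, hm j, (ih j hj).symm⟩
      · rintro ⟨y, hy, -, rfl⟩
        obtain ⟨j, rfl, hj⟩ := (h₁ _ _).1 hy
        exact ⟨j, hj, ih j hj⟩
  have e' : g'.om = g'.v (oN w) := by
    refine ext fun x => ?_
    rw [E_om, E_o hw]
    constructor
    · rintro ⟨j, rfl⟩
      exact ⟨i j, (h₂ _).2 ⟨j, rfl⟩, hm j, (e j).symm⟩
    · rintro ⟨y, hy, -, rfl⟩
      obtain ⟨j, rfl⟩ := (h₂ _).1 hy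
      exact ⟨j, e j⟩
  change g'.E g'.om (g'.v (oN t))
  rw [e']
  exact (o_lt hw (hl _ (by simp))).2 h₃

/-- A definable total relation is uniformized by a function of the model. -/
theorem exists_fun {A B : g.M} {Q : g.M → g.M → Prop}
    (hQ : g.Tm (fun z : g.M × g.M => Q z.1 z.2)) (tot : ∀ x, g.E x A → ∃ y, g.E y B ∧ Q x y) :
    ∃ F, IsFun g.E F A B ∧ ∀ s t, App g.E F s t → Q s t := by
  obtain ⟨f, hf, h⟩ := tm_choice (Γ := g.Elt A) (Q := fun x y => g.E y B ∧ Q x.1 y)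
    (tm_and (by fun_prop) (hQ.comp₂ (F := Q) (tm_val tm_id.fst) tm_id.snd)) fun x => tot x.1 x.2
  obtain ⟨F, h₁, h₂⟩ := exists_graph (Γ := g.Elt A) Df.true hf
  refine ⟨F, ⟨fun p hp => ?_, fun a ha => ⟨f ⟨a, ha⟩, (h₂ _ _).2 ⟨⟨a, ha⟩, trivial, rfl, rfl⟩,
    fun b hb => ?_⟩⟩, fun s t hst => ?_⟩
  · obtain ⟨x, -, rfl⟩ := h₁ p hp
    exact ⟨x.1, f x, x.2, (h x).1, isPair_pr _ _⟩
  · obtain ⟨x, -, e, rfl⟩ := (h₂ _ _).1 hb
    obtain rfl : x = ⟨a, ha⟩ := Subtype.ext e.symm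
    rfl
  · obtain ⟨x, -, rfl, rfl⟩ := (h₂ _ _).1 hst
    exact (h x).2

/-- An injection of `l` into `x` gives a map from `x` onto any nonempty subset of `l`. -/
theorem cofMap_of_inj {f l x c e : g.M} (hf : IsInj g.E f l x) (he : g.E e c)
    (hc : ∀ a, g.E a c → g.E a l) : CofMap g.E x c := by
  obtain ⟨F, h₁, h₂⟩ := exists_fun (A := x) (B := c)
    (Q := fun i a => ∀ a', g.E a' c → App g.E f a' i → a = a') (by fun_prop) fun i _ => by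
      by_cases h : ∃ a, g.E a c ∧ App g.E f a i
      · obtain ⟨a, ha, h⟩ := h
        exact ⟨a, ha, fun a' _ h' => hf.2 _ _ _ h h'⟩
      · exact ⟨e, he, fun a' ha' h' => absurd ⟨a', ha', h'⟩ h⟩
  refine ⟨F, h₁, fun b hb => ?_⟩
  obtain ⟨i, hi, hbi⟩ := fun_ex hf.1 (hc b hb)
  obtain ⟨a, -, ha⟩ := fun_ex h₁ hi
  exact ⟨i, a, ha, Or.inr (h₂ _ _ ha b hb hbi).symm⟩

/-- The image of a name under a ground function. -/
def mapNm (φ : Ω → Ω) (h : Nm P Ω) : Nm P Ω where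
  dec p j := ∃ x, h.dec p x ∧ φ x = j
  mono hq := fun ⟨x, h₁, h₂⟩ => ⟨x, h.mono hq h₁, h₂⟩
  dense p := by
    obtain ⟨q, hq, x, hx⟩ := h.dense p
    exact ⟨q, hq, _, x, hx, rfl⟩
  func := by
    rintro p _ _ ⟨x, h₁, rfl⟩ ⟨y, h₂, rfl⟩
    rw [h.func h₁ h₂]

/-- The constant name. -/
def constNm (x : Ω) : Nm P Ω where
  dec _ y := y = x
  mono _ h := h
  dense p := ⟨p, le_rfl, x, rfl⟩
  func h₁ h₂ := h₁.trans h₂.symm

omit [OrderTop P] [WellFoundedLT Ω] in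
theorem exists_emb (F : Facts P Ω) (x : Ω) :
    ∃ e : Iio x → Iio F.lam, Function.Injective e := by
  obtain ⟨e⟩ := (Cardinal.le_def _ _).1 (F.small x)
  exact ⟨e, e.injective⟩

omit [OrderTop P] [WellFoundedLT Ω] in
theorem bddTop (F : Facts P Ω) (x : Ω) : BddTop P x := by
  classical
  obtain ⟨e, he⟩ := exists_emb F x
  intro h p
  obtain ⟨q, hq, b, H⟩ := F.bdd_top
    (fun j => if hj : ∃ i : Iio x, (e i).1 = j then h hj.choose.1 else h j) p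
  refine ⟨q, hq, b, fun i hi r hr y hy => H (e ⟨i, hi⟩).1 (e ⟨i, hi⟩).2 r hr y ?_⟩
  have hj : ∃ i' : Iio x, (e i').1 = (e ⟨i, hi⟩).1 := ⟨_, rfl⟩
  have : hj.choose = ⟨i, hi⟩ := he (Subtype.ext hj.choose_spec)
  simp only [dif_pos hj, this]
  exact hy

omit [WellFoundedLT Ω] in
theorem exists_gt (F : Facts P Ω) (x : Ω) : ∃ y, x < y := by
  obtain ⟨q, -, b, H⟩ := F.bdd_top (fun _ => constNm x) ⊤
  exact ⟨b, H F.w1 F.w1_lt q le_rfl x rfl⟩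

omit [OrderTop P] [WellFoundedLT Ω] in
theorem bdd_lam (F : Facts P Ω) {z : Ω} (hz : z < F.w1) : Bdd P z F.lam := by
  obtain ⟨f, h₁, h₂, h₃⟩ := F.cof_lam
  have : ∀ x, ∃ j < F.w1, x < F.lam → x ≤ f j := fun x => by
    by_cases hx : x < F.lam
    · obtain ⟨j, hj, h⟩ := h₃ x hx
      exact ⟨j, hj, fun _ => h⟩
    · exact ⟨z, hz, fun h => absurd h hx⟩
  choose φ hφ hφ' using this
  intro h hh p
  obtain ⟨q, hq, b, hb, H⟩ := F.bdd_w1 z hz (fun i => mapNm φ (h i))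
    (by rintro i - p _ ⟨x, -, rfl⟩; exact hφ x) p
  obtain ⟨c, hc, hc', -⟩ := F.cards _ (h₁ b hb)
  refine ⟨q, hq, c, hc', fun i hi r hr x hx => ?_⟩
  have := H i hi r hr (φ x) ⟨x, hx, rfl⟩
  exact ((hφ' x (hh i hi r x hx)).trans (h₂ _ _ this.le hb)).trans_lt hc

omit [OrderTop P] [WellFoundedLT Ω] in
theorem cofN_lam (F : Facts P Ω) : CofN P F.w1 F.lam := by
  obtain ⟨f, h₁, -, h₃⟩ := F.cof_lam
  refine ⟨fun i => constNm (f i), fun i hi p x hx => ?_, fun b hb p => ?_⟩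
  · obtain rfl : x = f i := hx
    exact h₁ i hi
  · obtain ⟨i, hi, h⟩ := h₃ b hb
    exact ⟨p, le_rfl, i, hi, f i, h, rfl⟩

theorem isCard_lam (F : Facts P Ω) (h₂ : oN F.lam ∈ g.N) : IsCard g.E (g.v (oN F.lam)) := by
  refine ⟨isOrd_o h₂, fun a ha => ?_⟩
  obtain ⟨x, hx, hxN, rfl⟩ := (E_o h₂).1 ha
  obtain ⟨c, hxc, hc, H⟩ := F.cards x hx
  refine dens (Ψ := fun _ E w => ¬ ∃ f, IsInj E f (w 0) (w 1)) (UDef.ex (UDef.isInj _ _ _)).not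
    (l2 h₂ hxN) fun p _ => ⟨p, le_rfl, {oN c}, countable_singleton _, fun g' _ hC hl => ?_⟩
  have hcN : oN c ∈ g'.N := hC rfl
  have hl' : oN F.lam ∈ g'.N := hl _ (by simp)
  have hx' : oN x ∈ g'.N := hl _ (by simp)
  rintro ⟨f, hf : IsInj g'.E f (g'.v (oN F.lam)) (g'.v (oN x))⟩
  exact not_cofMap (H x hxc) g' hx' hcN (cofMap_of_inj hf ((o_lt hx' hcN).2 hxc)
    fun a ha => (isOrd_o hl').1 _ _ ((o_lt hcN hl').2 hc) ha)

theorem isCard_k (F : Facts P Ω) (h₃ : sN (univ : Set Ω) ∈ g.N) :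
    IsCard g.E (g.v (sN (univ : Set Ω))) := by
  refine ⟨isOrd_k h₃, fun a ha ⟨f, hf⟩ => ?_⟩
  obtain ⟨x, -, hxN, rfl⟩ := (E_sN h₃).1 ha
  exact not_cofMap_top (bddTop F x) g hxN h₃ (cofMap_of_inj hf ha fun _ h => h)

theorem exists_inj (F : Facts P Ω) {y : Ω} (hy : oN y ∈ g.N) (h₂ : oN F.lam ∈ g.N) :
    ∃ f, IsInj g.E f (g.v (oN y)) (g.v (oN F.lam)) := by
  obtain ⟨e, he⟩ := exists_emb F y
  let τ : Name P := relN (fun z : Iio y => oN z.1) (fun z => oN (e z).1) (fun _ => ⊤)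
  refine dens (Ψ := fun _ E w => ∃ f, IsInj E f (w 0) (w 1)) (UDef.ex (UDef.isInj _ _ _))
    (l2 hy h₂) fun p _ => ⟨p, le_rfl, {τ}, countable_singleton _, fun g' _ hC hl => ?_⟩
  have hτ : τ ∈ g'.N := hC rfl
  have hy' : oN y ∈ g'.N := hl _ (by simp)
  have hl' : oN F.lam ∈ g'.N := hl _ (by simp)
  refine ⟨g'.v τ, ⟨fun p hp => ?_, fun a ha => ?_⟩, fun a a' b h₁ h₂ => ?_⟩
  · obtain ⟨z, -, h₁, h₂, rfl⟩ := (E_relN hτ).1 hp
    exact ⟨_, _, (o_lt h₁ hy').2 z.2, (o_lt h₂ hl').2 (e z).2, isPair_pr _ _⟩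
  · obtain ⟨z, hz, hzN, rfl⟩ := (E_o hy').1 ha
    have : ∃ b, App g'.E (g'.v τ) (g'.v (oN z)) b := by
      refine dens (Ψ := fun _ E w => ∃ b, App E (w 0) (w 1) b) (UDef.ex (UDef.app _ _ _))
        (l2 hτ hzN) fun p _ => ⟨p, le_rfl, {oN (e ⟨z, hz⟩).1}, countable_singleton _,
          fun g'' _ hC hl => ?_⟩
      exact ⟨_, (app_relN (show τ ∈ g''.N from hl _ (by simp))).2
        ⟨⟨z, hz⟩, g''.top, hl _ (by simp), hC rfl, rfl, rfl⟩⟩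
    obtain ⟨b, hb⟩ := this
    refine ⟨b, hb, fun b' hb' => ?_⟩
    obtain ⟨i, -, hi, -, e₁, rfl⟩ := (app_relN hτ).1 hb
    obtain ⟨i', -, hi', -, e₂, rfl⟩ := (app_relN hτ).1 hb'
    rw [show i = i' from Subtype.ext (o_inj hi hi' (e₁.symm.trans e₂))]
  · obtain ⟨z, -, -, hz, rfl, rfl⟩ := (app_relN hτ).1 h₁
    obtain ⟨z', -, -, hz', rfl, e₂⟩ := (app_relN hτ).1 h₂
    rw [he (Subtype.ext (o_inj hz hz' e₂))]

theorem noMax_k (F : Facts P Ω) (h₃ : sN (univ : Set Ω) ∈ g.N) {a : g.M}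
    (ha : g.E a (g.v (sN (univ : Set Ω)))) : ∃ b, g.E b (g.v (sN (univ : Set Ω))) ∧ g.E a b := by
  obtain ⟨x, -, hxN, rfl⟩ := (E_sN h₃).1 ha
  obtain ⟨y, hy⟩ := exists_gt F x
  refine dens (Ψ := fun _ E w => ∃ b, E b (w 0) ∧ E (w 1) b)
    (UDef.ex ((UDef.mem _ _).and (UDef.mem _ _))) (l2 h₃ hxN)
    fun p _ => ⟨p, le_rfl, {oN y}, countable_singleton _, fun g' _ hC hl => ?_⟩
  have hyN : oN y ∈ g'.N := hC rfl
  exact ⟨g'.v (oN y), (o_mem_sN hyN (hl _ (by simp))).2 trivial,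
    (o_lt (hl _ (by simp)) hyN).2 hy⟩

omit [WellFoundedLT Ω] in
theorem exists_lt_S (F : Facts P Ω) {β d : Ω} (hβ : β < F.w1) (hd : d ∈ F.S β) : ∃ x, x < d := by
  obtain ⟨⟨h, h₁, -⟩, -⟩ := F.cofS β hβ d hd
  obtain ⟨q, -, x, hx⟩ := (h F.w1).dense ⊤
  exact ⟨x, h₁ _ (F.w1_mu β hβ) q x hx⟩

end S3

open S3 Gen

theorem frame (F : Facts P Ω) (g : Gen P) (h₁ : oN F.w1 ∈ g.N) (h₂ : oN F.lam ∈ g.N)
    (h₃ : sN (univ : Set Ω) ∈ g.N) :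
    IsOmega g.E g.om ∧ IsCard g.E (g.v (oN F.lam)) ∧
      IsCof g.E (g.v (oN F.lam)) (g.v (oN F.w1)) ∧ g.E g.om (g.v (oN F.w1)) ∧
      g.E (g.v (oN F.w1)) (g.v (oN F.lam)) ∧
      IsSucc g.E (g.v (oN F.lam)) (g.v (sN (univ : Set Ω))) := by
  refine ⟨isOmega_om, isCard_lam F h₂, ⟨isOrd_o h₁, cofMap (cofN_lam F) g h₁ h₂, fun n hn => ?_⟩,
    om_mem F.w1_unc h₁, (o_lt h₁ h₂).2 F.w1_lt, isCard_k F h₃, (o_mem_sN h₂ h₃).2 trivial,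
    fun m hm hlm hmk => ?_⟩
  · obtain ⟨z, hz, hzN, rfl⟩ := (E_o h₁).1 hn
    exact not_cofMap (bdd_lam F hz) g hzN h₂
  · obtain ⟨y, -, hyN, rfl⟩ := (E_sN h₃).1 hmk
    exact hm.2 _ hlm (exists_inj F hyN h₂)

theorem isStat_S (F : Facts P Ω) {β : Ω} (hβ : β < F.w1) (g : Gen P)
    (h₃ : sN (univ : Set Ω) ∈ g.N) (h₅ : sN (F.S β) ∈ g.N) :
    IsStat g.E (g.v (sN (F.S β))) (g.v (sN (univ : Set Ω))) := by
  refine ⟨fun d hd => ?_, fun C hC => ?_⟩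
  · obtain ⟨y, -, hyN, rfl⟩ := (E_sN h₅).1 hd
    exact (o_mem_sN hyN h₃).2 trivial
  obtain ⟨f, hf, hf'⟩ := exists_fun (A := g.v (sN (univ : Set Ω))) (B := g.v (sN (univ : Set Ω)))
    (Q := fun a b => g.E b C ∧ g.E a b) (by fun_prop) fun a ha => by
      obtain ⟨b, hb, hab⟩ := noMax_k F h₃ ha
      obtain ⟨c, hc, h | rfl⟩ := hC.1.2 b hb
      · exact ⟨c, hC.1.1 c hc, hc, E_trans (isOrd_k h₃) (hC.1.1 c hc) hab h⟩
      · exact ⟨b, hb, hc, hab⟩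
  obtain ⟨σ, hσ, rfl⟩ := exists_v f
  obtain ⟨τ, hτ, rfl⟩ := exists_v C
  obtain ⟨p₀, hp₀, H₀⟩ := transfer (UDef.isFun 0 1 1) (l2 hσ h₃) hf
  refine dens (Ψ := fun _ E w => IsFun E (w 0) (w 2) (w 2) →
      (∀ a b, App E (w 0) a b → E b (w 1) ∧ E a b) → IsClub E (w 1) (w 2) →
      ∃ d, E d (w 3) ∧ E d (w 1))
    ((UDef.isFun _ _ _).imp ((UDef.all (UDef.all ((UDef.app _ _ _).imp
      ((UDef.mem _ _).and (UDef.mem _ _))))).imp ((UD3.isClub _ _).imp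
      (UDef.ex ((UDef.mem _ _).and (UDef.mem _ _))))))
    (l4 hσ hτ h₃ h₅) (fun p hp => ?_) hf hf' hC
  obtain ⟨p', -, hp₁, hp₂⟩ := g.dir hp hp₀
  obtain ⟨r, hr, d, hd, H⟩ := exists_closure_pt F hβ σ p' fun g' hg' hσ' hk' =>
    H₀ g' (g'.up hg' hp₂) (l2 hσ' hk')
  obtain ⟨x₀, hx₀⟩ := exists_lt_S F hβ hd
  refine ⟨r, hr.trans hp₁, {oN d, oN x₀}, (toFinite _).countable, fun g' hr' hC' hl => ?_⟩
  have hdN : oN d ∈ g'.N := hC' (by simp)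
  have hxN : oN x₀ ∈ g'.N := hC' (by simp)
  have hσ' : σ ∈ g'.N := hl _ (by simp)
  have hk' : sN (univ : Set Ω) ∈ g'.N := hl _ (by simp)
  have hS' : sN (F.S β) ∈ g'.N := hl _ (by simp)
  intro (a₁ : IsFun g'.E (g'.v σ) (g'.v (sN (univ : Set Ω))) (g'.v (sN (univ : Set Ω))))
    (a₂ : ∀ a b, App g'.E (g'.v σ) a b → g'.E b (g'.v τ) ∧ g'.E a b)
    (a₃ : IsClub g'.E (g'.v τ) (g'.v (sN (univ : Set Ω))))
  have hdk : g'.E (g'.v (oN d)) (g'.v (sN (univ : Set Ω))) := (o_mem_sN hdN hk').2 trivial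
  refine ⟨g'.v (oN d), (o_mem_sN hdN hS').2 hd,
    a₃.2 _ hdk ⟨_, (o_lt hxN hdN).2 hx₀⟩ fun x hx => ?_⟩
  obtain ⟨b, -, hb⟩ := fun_ex a₁ ((isOrd_k hk').1 _ _ hdk hx)
  exact ⟨b, (a₂ _ _ hb).1, (a₂ _ _ hb).2, H g' hr' hσ' hk' hdN x b hx hb⟩

theorem sem_main (F : Facts P Ω) : Concl.{u} := by
  obtain ⟨g, -, hg⟩ := exists_gen (⊤ : P) {oN F.w1, oN F.lam, sN (univ : Set Ω)}
    (toFinite _).countable
  have h₁ : oN F.w1 ∈ g.N := hg (by simp)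
  have h₂ : oN F.lam ∈ g.N := hg (by simp)
  have h₃ : sN (univ : Set Ω) ∈ g.N := hg (by simp)
  obtain ⟨a₁, a₂, a₃, a₄, a₅, a₆⟩ := frame F g h₁ h₂ h₃
  refine ⟨g.M, g.E, E_wf, g.isZFC, _, _, _, _, a₁, a₂, a₃, a₄, a₅, a₆, fun m _ hm htm hml => ?_⟩
  obtain ⟨x, hx, hxN, rfl⟩ := (E_o h₂).1 hml
  rcases F.sing x ((o_lt h₁ hxN).1 htm) hx with ⟨β, hβ, rfl⟩ | ⟨z, hz, H⟩
  · refine dens (Ψ := fun _ E w => ∃ S, (∀ d, E d S → IsCof E d (w 0)) ∧ IsStat E S (w 1) ∧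
        ¬ InI E (w 1) S)
      (UDef.ex ((UDef.all ((UDef.mem _ _).imp (UD3.isCof _ _))).and
        ((UD3.isStat _ _).and (UD3.inI _ _).not))) (l2 hxN h₃)
      fun p _ => ⟨p, le_rfl, {sN (F.S β), oN F.w1, oN F.lam}, (toFinite _).countable,
        fun g' _ hC hl => ?_⟩
    have b₁ : oN F.w1 ∈ g'.N := hC (by simp)
    have b₂ : oN F.lam ∈ g'.N := hC (by simp)
    have b₃ : sN (univ : Set Ω) ∈ g'.N := hl _ (by simp)
    have b₄ : oN (F.mu β) ∈ g'.N := hl _ (by simp)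
    have b₅ : sN (F.S β) ∈ g'.N := hC (by simp)
    refine ⟨g'.v (sN (F.S β)), fun d hd => ?_, isStat_S F hβ g' b₃ b₅,
      not_inI F hβ g' b₁ b₂ b₃ b₄ b₅⟩
    obtain ⟨y, hy, hyN, rfl⟩ := (E_sN b₅).1 hd
    exact isCof_S F hβ hy g' hyN b₄
  · exfalso
    have : ∃ n, g.E n (g.v (oN x)) ∧ CofMap g.E n (g.v (oN x)) := by
      refine dens (Ψ := fun _ E w => ∃ n, E n (w 0) ∧ CofMap E n (w 0))
        (UDef.ex ((UDef.mem _ _).and (UD3.cofMap _ _))) (l1 hxN)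
        fun p _ => ⟨p, le_rfl, {oN z}, countable_singleton _, fun g' _ hC hl => ?_⟩
      have hzN : oN z ∈ g'.N := hC rfl
      have hx' : oN x ∈ g'.N := hl _ (by simp)
      exact ⟨_, (o_lt hzN hx').2 hz, cofMap H g' hzN hx'⟩
    obtain ⟨n, hn, h⟩ := this
    exact hm.2.2 n hn h

end Pool.Agent.MP_a2558b_lc

end
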