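import Pool.Agent.MP_a2558b_lc.Defs
import Pool.Agent.MP_c6cf52_lc.Omega1

section

namespace Pool.Agent.MP_a2558b_lc

open Cardinal Set

universe u

/-- A decision relation: a name for an element of `X`. -/
structure Nm (P : Type u) [Preorder P] (X : Type u) where
  dec : P → X → Prop
  mono : ∀ {p q x}, q ≤ p → dec p x → dec q x
  dense : ∀ p, ∃ q ≤ p, ∃ x, dec q x
  func : ∀ {p x y}, dec p x → dec p y → x = y

variable (P : Type u) [Preorder P] {Ω : Type u} [LinearOrder Ω]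

/-- Every family of names for elements below `c` indexed below `z` is forced to be bounded. -/
def Bdd (z c : Ω) : Prop :=
  ∀ h : Ω → Nm P Ω, (∀ i < z, ∀ p x, (h i).dec p x → x < c) →
    ∀ p, ∃ q ≤ p, ∃ b < c, ∀ i < z, ∀ r ≤ q, ∀ x, (h i).dec r x → x < b

/-- Every family of names indexed below `z` is forced to be bounded in `Ω`. -/
def BddTop (z : Ω) : Prop :=
  ∀ h : Ω → Nm P Ω, ∀ p, ∃ q ≤ p, ∃ b, ∀ i < z, ∀ r ≤ q, ∀ x, (h i).dec r x → x < b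

/-- Some family of names indexed below `z` is forced to be cofinal below `c`. -/
def CofN (z c : Ω) : Prop :=
  ∃ h : Ω → Nm P Ω, (∀ i < z, ∀ p x, (h i).dec p x → x < c) ∧
    ∀ b < c, ∀ p, ∃ q ≤ p, ∃ i < z, ∃ x, b ≤ x ∧ (h i).dec q x

/-- The combinatorial facts about a forcing `P` from which the theorem follows.  The well order `Ω`
has the type of the successor of `lam`. -/
structure Facts (Ω : Type u) [LinearOrder Ω] where
  w1 : Ω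
  lam : Ω
  mu : Ω → Ω
  S : Ω → Set Ω
  D : Ω → Ω → Ω → Prop
  w1_unc : ¬ (Iio w1).Countable
  w1_ct : ∀ x < w1, (Iio x).Countable
  w1_lt : w1 < lam
  small : ∀ x : Ω, #(Iio x) ≤ #(Iio lam)
  bdd_w1 : ∀ z < w1, Bdd P z w1
  cards : ∀ x < lam, ∃ c, x < c ∧ c < lam ∧ ∀ z < c, Bdd P z c
  bdd_top : BddTop P lam
  cof_lam : ∃ f : Ω → Ω, (∀ i < w1, f i < lam) ∧ (∀ i j, i ≤ j → j < w1 → f i ≤ f j) ∧
    ∀ b < lam, ∃ i < w1, b ≤ f i
  sing : ∀ x, w1 < x → x < lam → (∃ β < w1, x = mu β) ∨ ∃ z < x, CofN P z x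
  w1_mu : ∀ β < w1, w1 < mu β
  cofS : ∀ β < w1, ∀ d ∈ S β, CofN P (mu β) d ∧ ∀ z < mu β, Bdd P z d
  D_lt : ∀ m a b, D m a b → a < b
  D_trans : ∀ m a b c, D m a b → D m b c → D m a c
  D_mono : ∀ m m' a b, m ≤ m' → m' < w1 → D m a b → D m' a b
  D_total : ∀ a b, a < b → ∃ m < w1, D m a b
  stat : ∀ β < w1, ∀ h : Ω → Nm P Ω, ∀ p, ∃ r ≤ p, ∃ d ∈ S β,
    ∀ a < d, ∀ r' ≤ r, ∀ x, (h a).dec r' x → x < d
  few : ∀ β < w1, ∃ O : Ω → Ω → Set P, ∀ (N : Ω → Set P) (p : P), (∀ i, IsLowerSet (N i)) →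
    (∀ i r, (∀ r' ≤ r, ∃ r'' ≤ r', r'' ∈ N i) → r ∈ N i) →
    ∃ q ≤ p, ∃ w < lam, ∀ i < mu β, ∀ r ≤ q, 
      (r ∈ N i ↔ ∀ r' ≤ r, ∃ r'' ≤ r', ∃ s ∈ O w i, r'' ≤ s)
  nochain : ∀ β < w1, ∀ d ∈ S β, ∃ B : Set Ω, B ⊆ Iio d ∧ (∀ a < d, ∃ b ∈ B, a < b) ∧
    ∀ m < w1, ∀ (H : Ω → Set P) (p : P), (∀ b, IsLowerSet (H b)) →
      (∀ a < d, ∀ q ≤ p, ∃ r ≤ q, ∃ b ∈ B, a ≤ b ∧ r ∈ H b) →
      (∀ a < d, ∀ q ≤ p, ∃ r ≤ q, ∃ c ∈ B, ∀ b ∈ B, b < a → ∀ s ≤ r, s ∈ H b → D m b c) → False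

/-- The conclusion of the main theorem. -/
def Concl : Prop :=
  ∃ (M : Type (u + 1)) (E : M → M → Prop), WellFounded E ∧
    Pool.Agent.MP_c6cf52_lc.IsZFC E ∧
    ∃ w l t k, IsOmega E w ∧ Pool.Agent.MP_c6cf52_lc.IsCard E l ∧ IsCof E l t ∧ E w t ∧ E t l ∧
      IsSucc E l k ∧ ∀ m, Pool.Agent.MP_c6cf52_lc.IsCard E m → IsCof E m m → E t m → E m l →
        ∃ S, (∀ d, E d S → IsCof E d m) ∧ IsStat E S k ∧ ¬ InI E k S

end Pool.Agent.MP_a2558b_lc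

end

section

namespace Pool.Agent.MP_a2558b_lc

open Pool.Agent.MP_c6cf52_lc Name Set

universe u

variable {P : Type u} [Preorder P] [OrderTop P] {Ω : Type u} [LinearOrder Ω] [WellFoundedLT Ω]

theorem wfO : WellFounded (fun a b : Ω => a < b) := wellFounded_lt

/-- The name of the ordinal at position `x`. -/
noncomputable def oN (x : Ω) : Name P := ordN wfO x

/-- The name of a set of ordinals. -/
noncomputable def sN (s : Set Ω) : Name P := setN wfO s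

end Pool.Agent.MP_a2558b_lc

end

section

namespace Pool.Agent.MP_a2558b_lc

open Pool.Agent.MP_c6cf52_lc

universe v

namespace UD

theorem isOrd (i : ℕ) : UDef.{v} (fun _ E w => IsOrd E (w i)) := by
  unfold IsOrd
  repeat' first
    | exact UDef.mem _ _ | exact UDef.eq _ _
    | apply UDef.and | apply UDef.or | apply UDef.imp | apply UDef.all

theorem isCard (i : ℕ) : UDef.{v} (fun _ E w => IsCard E (w i)) := by
  unfold IsCard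
  repeat' first
    | exact UDef.mem _ _ | exact UDef.eq _ _ | exact isOrd _ | exact UDef.isInj _ _ _
    | apply UDef.and | apply UDef.not | apply UDef.imp | apply UDef.all | apply UDef.ex

theorem hasOtp (i j : ℕ) : UDef.{v} (fun _ E w => HasOtp E (w i) (w j)) := by
  unfold HasOtp
  repeat' first
    | exact UDef.mem _ _ | exact UDef.eq _ _ | exact UDef.isFun _ _ _ | exact UDef.app _ _ _
    | apply UDef.and | apply UDef.imp | apply UDef.all | apply UDef.ex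

theorem isOmega (i : ℕ) : UDef.{v} (fun _ E w => IsOmega E (w i)) := by
  unfold IsOmega
  repeat' first
    | exact UDef.mem _ _ | exact UDef.eq _ _ | exact isOrd _
    | apply UDef.and | apply UDef.not | apply UDef.imp | apply UDef.all | apply UDef.ex

theorem isSucc (i j : ℕ) : UDef.{v} (fun _ E w => IsSucc E (w i) (w j)) := by
  unfold IsSucc
  repeat' first
    | exact UDef.mem _ _ | exact UDef.eq _ _ | exact isCard _
    | apply UDef.and | apply UDef.not | apply UDef.imp | apply UDef.all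

theorem unb (i j : ℕ) : UDef.{v} (fun _ E w => Unb E (w i) (w j)) := by
  unfold Unb
  repeat' first
    | exact UDef.mem _ _ | exact UDef.eq _ _
    | apply UDef.and | apply UDef.or | apply UDef.imp | apply UDef.all | apply UDef.ex

theorem cofMap (i j : ℕ) : UDef.{v} (fun _ E w => CofMap E (w i) (w j)) := by
  unfold CofMap
  repeat' first
    | exact UDef.mem _ _ | exact UDef.eq _ _ | exact UDef.isFun _ _ _ | exact UDef.app _ _ _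
    | apply UDef.and | apply UDef.or | apply UDef.imp | apply UDef.all | apply UDef.ex

theorem isCof (i j : ℕ) : UDef.{v} (fun _ E w => IsCof E (w i) (w j)) := by
  unfold IsCof
  repeat' first
    | exact UDef.mem _ _ | exact UDef.eq _ _ | exact isOrd _ | exact cofMap _ _
    | apply UDef.and | apply UDef.not | apply UDef.imp | apply UDef.all

theorem isLimit (i : ℕ) : UDef.{v} (fun _ E w => IsLimit E (w i)) := by
  unfold IsLimit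
  repeat' first
    | exact UDef.mem _ _ | exact UDef.eq _ _ | exact isOrd _
    | apply UDef.and | apply UDef.imp | apply UDef.all | apply UDef.ex

theorem isClub (i j : ℕ) : UDef.{v} (fun _ E w => IsClub E (w i) (w j)) := by
  unfold IsClub
  repeat' first
    | exact UDef.mem _ _ | exact UDef.eq _ _ | exact unb _ _
    | apply UDef.and | apply UDef.imp | apply UDef.all | apply UDef.ex

theorem isStat (i j : ℕ) : UDef.{v} (fun _ E w => IsStat E (w i) (w j)) := by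
  unfold IsStat
  repeat' first
    | exact UDef.mem _ _ | exact UDef.eq _ _ | exact isClub _ _
    | apply UDef.and | apply UDef.imp | apply UDef.all | apply UDef.ex

theorem appr (i j : ℕ) : UDef.{v} (fun _ E w => Appr E (w i) (w j)) := by
  unfold Appr
  repeat' first
    | exact UDef.mem _ _ | exact UDef.eq _ _ | exact isLimit _ | exact isCof _ _ | exact unb _ _
    | exact hasOtp _ _ | exact UDef.app _ _ _
    | apply UDef.and | apply UDef.iff | apply UDef.imp | apply UDef.all | apply UDef.ex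

theorem inI (i j : ℕ) : UDef.{v} (fun _ E w => InI E (w i) (w j)) := by
  unfold InI
  repeat' first
    | exact UDef.mem _ _ | exact UDef.eq _ _ | exact isClub _ _ | exact appr _ _
    | exact UDef.isFun _ _ _ | exact UDef.app _ _ _
    | apply UDef.and | apply UDef.imp | apply UDef.all | apply UDef.ex

end UD

end Pool.Agent.MP_a2558b_lc

end

section

namespace Pool.Agent.MP_a2558b_lc

open Pool.Agent.MP_c6cf52_lc Name Set

universe u v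

namespace S2

section Defs

variable {M : Type v} (E : M → M → Prop)

/-- The triple `(n, a, b)` belongs to `D`. -/
def Tri (D n a b : M) : Prop := ∃ p, IsPair E p a b ∧ App E D n p

/-- The value `e` is large enough for the argument `b`. -/
def Cl (k a C D t m b e : M) : Prop :=
  (∃ c, E c C ∧ E b c ∧ E c e) ∧ ∀ x, App E a b x → (∃ h, IsInj E h x m) → ∀ Z n,
    (∀ z, E z Z → E z x) → E n t → (∃ c, E c k ∧ ∀ z, E z Z → Tri E D n z c) →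
      ∃ c, E c e ∧ ∀ z, E z Z → Tri E D n z c

/-- The property that is transferred to the second generic model. -/
def Good (k S a C f D t m : M) : Prop :=
  IsFun E f k k ∧ IsClub E C k ∧ (∀ d, E d S → E d C → Appr E a d) ∧
    ∀ b e, App E f b e → Cl E k a C D t m b e

/-- All members of `H ∩ B` below `a` are `n`-related to `c`. -/
def Top (H B D n a c : M) : Prop := ∀ b, E b B → E b a → E b H → Tri E D n b c

/-- `H` is an unbounded chain. -/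
def Chain (H B D n d : M) : Prop :=
  (∀ a, E a d → ∃ b, E b B ∧ (E a b ∨ a = b) ∧ E b H) ∧
    ∀ a, E a d → ∃ c, E c B ∧ Top E H B D n a c

end Defs

theorem ud_tri (i j k l : ℕ) : UDef.{v} (fun _ E w => Tri E (w i) (w j) (w k) (w l)) := by
  unfold Tri
  repeat' first
    | exact UDef.isPair _ _ _ | exact UDef.app _ _ _ | apply UDef.and | apply UDef.ex

theorem ud_cl (i₁ i₂ i₃ i₄ i₅ i₆ i₇ i₈ : ℕ) : UDef.{v} (fun _ E w =>
    Cl E (w i₁) (w i₂) (w i₃) (w i₄) (w i₅) (w i₆) (w i₇) (w i₈)) := by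
  unfold Cl
  repeat' first
    | exact UDef.mem _ _ | exact ud_tri _ _ _ _ | exact UDef.app _ _ _ | exact UDef.isInj _ _ _
    | apply UDef.and | apply UDef.imp | apply UDef.all | apply UDef.ex

theorem ud_good (i₁ i₂ i₃ i₄ i₅ i₆ i₇ i₈ : ℕ) : UDef.{v} (fun _ E w =>
    Good E (w i₁) (w i₂) (w i₃) (w i₄) (w i₅) (w i₆) (w i₇) (w i₈)) := by
  unfold Good
  refine (UDef.isFun _ _ _).and ((UD.isClub _ _).and (UDef.and ?_ ?_))
  · exact UDef.all ((UDef.mem _ _).imp ((UDef.mem _ _).imp (UD.appr _ _)))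
  · exact UDef.all (UDef.all ((UDef.app _ _ _).imp (ud_cl _ _ _ _ _ _ _ _)))

theorem ud_top (i₁ i₂ i₃ i₄ i₅ i₆ : ℕ) : UDef.{v} (fun _ E w =>
    Top E (w i₁) (w i₂) (w i₃) (w i₄) (w i₅) (w i₆)) := by
  unfold Top
  exact UDef.all ((UDef.mem _ _).imp ((UDef.mem _ _).imp ((UDef.mem _ _).imp (ud_tri _ _ _ _))))

theorem ud_chain (i₁ i₂ i₃ i₄ i₅ : ℕ) : UDef.{v} (fun _ E w =>
    Chain E (w i₁) (w i₂) (w i₃) (w i₄) (w i₅)) := by
  unfold Chain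
  refine UDef.and ?_ ?_
  · exact UDef.all ((UDef.mem _ _).imp (UDef.ex ((UDef.mem _ _).and
      (((UDef.mem _ _).or (UDef.eq _ _)).and (UDef.mem _ _)))))
  · exact UDef.all ((UDef.mem _ _).imp (UDef.ex ((UDef.mem _ _).and (ud_top _ _ _ _ _ _))))

variable {P : Type u} [Preorder P] [OrderTop P] {Ω : Type u} [LinearOrder Ω] [WellFoundedLT Ω]
variable {g : Gen P}

open Gen Gen.Cd

theorem triO (a b : Ω) : a < b ∨ a = b ∨ b < a := lt_trichotomy a b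

theorem E_sN {s : Set Ω} (h : sN s ∈ g.N) {x : g.M} :
    g.E x (g.v (sN s)) ↔ ∃ y ∈ s, oN y ∈ g.N ∧ g.v (oN y) = x := E_setN wfO h

theorem E_oN {a : Ω} (h : oN a ∈ g.N) {x : g.M} :
    g.E x (g.v (oN a)) ↔ ∃ y, y < a ∧ oN y ∈ g.N ∧ g.v (oN y) = x := E_ordN wfO h

theorem oN_lt {a b : Ω} (ha : oN a ∈ g.N) (hb : oN b ∈ g.N) :
    g.E (g.v (oN a)) (g.v (oN b)) ↔ a < b := ord_lt_iff wfO triO ha hb

theorem oN_inj {a b : Ω} (ha : oN a ∈ g.N) (hb : oN b ∈ g.N)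
    (h : g.v (oN a) = g.v (oN b)) : a = b := ord_inj wfO triO ha hb h

theorem oN_mem_sN {s : Set Ω} {a : Ω} (ha : oN a ∈ g.N) (hs : sN s ∈ g.N) :
    g.E (g.v (oN a)) (g.v (sN s)) ↔ a ∈ s := ord_mem_setN_iff wfO triO ha hs

theorem ord_tri {a b : g.M} (ha : IsOrd g.E a) (hb : IsOrd g.E b) (h₁ : ¬ g.E a b)
    (h₂ : ¬ g.E b a) : a = b := by
  induction a using E_wf.induction generalizing b with
  | _ a iha =>
  induction b using E_wf.induction with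
  | _ b ihb =>
  refine Gen.ext fun x => ⟨fun hx => ?_, fun hx => ?_⟩
  · by_contra h
    by_cases h' : g.E b x
    · exact h₂ (ha.1 _ _ hx h')
    · exact h₂ (iha x hx (isOrd_of_E ha hx) hb h h' ▸ hx)
  · by_contra h
    by_cases h' : g.E a x
    · exact h₁ (hb.1 _ _ hx h')
    · exact h₁ (ihb x hx (isOrd_of_E hb hx) h' h ▸ hx)

theorem isCof_unique {d m m' : g.M} (h : IsCof g.E d m) (h' : IsCof g.E d m') : m = m' :=
  ord_tri h.1 h'.1 (fun e => h'.2.2 _ e h.2.1) (fun e => h.2.2 _ e h'.2.1)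

theorem tri_iff {D n a b : g.M} : Tri g.E D n a b ↔ App g.E D n (pr a b) := by
  simp only [Tri, isPair_iff]
  exact ⟨fun ⟨_, e, h⟩ => e ▸ h, fun h => ⟨_, rfl, h⟩⟩

@[fun_prop] theorem tm_tri {Γ : Type*} [Cd g Γ] {D n a b : Γ → g.M} (hD : g.Tm D) (hn : g.Tm n)
    (ha : g.Tm a) (hb : g.Tm b) : g.Tm (fun x => Tri g.E (D x) (n x) (a x) (b x)) := by
  simp only [tri_iff]
  fun_prop

/-- The name of the relation `D`. -/
noncomputable def Dn (D : Ω → Ω → Ω → Prop) : Name P :=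
  relN (ι := {x : Ω × Ω × Ω // D x.1 x.2.1 x.2.2}) (fun x => oN x.1.1)
    (fun x => pairN (oN x.1.2.1) (oN x.1.2.2)) (fun _ => ⊤)

theorem tri_Dn {D : Ω → Ω → Ω → Prop} (h : Dn D ∈ g.N) {n a b : Ω} (hn : oN n ∈ g.N)
    (ha : oN a ∈ g.N) (hb : oN b ∈ g.N) :
    Tri g.E (g.v (Dn D)) (g.v (oN n)) (g.v (oN a)) (g.v (oN b)) ↔ D n a b := by
  rw [tri_iff]
  unfold Dn at h ⊢
  rw [app_relN h]
  constructor
  · rintro ⟨⟨⟨n', a', b'⟩, hD⟩, -, h₁, h₂, e₁, e₂⟩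
    obtain ⟨h₃, h₄⟩ := pairN_mem_iff.1 h₂
    rw [v_pairN h₃ h₄, pr_inj] at e₂
    obtain rfl := oN_inj hn h₁ e₁
    obtain rfl := oN_inj ha h₃ e₂.1
    obtain rfl := oN_inj hb h₄ e₂.2
    exact hD
  · intro hD
    exact ⟨⟨(n, a, b), hD⟩, g.top, hn, pairN_mem_iff.2 ⟨ha, hb⟩, rfl, (v_pairN ha hb).symm⟩

/-- The name of the family of subsets given by `O`. -/
noncomputable def On (O : Ω → Ω → Set P) : Name P :=
  relN (ι := {x : Ω × Ω × P // x.2.2 ∈ O x.1 x.2.1}) (fun x => oN x.1.1)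
    (fun x => oN x.1.2.1) (fun x => x.1.2.2)

theorem app_On {O : Ω → Ω → Set P} (h : On O ∈ g.N) {w i : Ω} (hw : oN w ∈ g.N)
    (hi : oN i ∈ g.N) :
    App g.E (g.v (On O)) (g.v (oN w)) (g.v (oN i)) ↔ ∃ s ∈ O w i, s ∈ g.G := by
  unfold On at h ⊢
  rw [app_relN h]
  constructor
  · rintro ⟨⟨⟨w', i', s⟩, hs⟩, hG, h₁, h₂, e₁, e₂⟩
    obtain rfl := oN_inj hw h₁ e₁
    obtain rfl := oN_inj hi h₂ e₂
    exact ⟨s, hs, hG⟩
  · rintro ⟨s, hs, hG⟩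
    exact ⟨⟨(w, i, s), hs⟩, hG, hw, hi, rfl, rfl⟩

theorem total_D (F : Facts P Ω) (hD : Dn F.D ∈ g.N) (ht : oN F.w1 ∈ g.N) {a b : Ω}
    (ha : oN a ∈ g.N) (hb : oN b ∈ g.N) (hab : a < b) :
    ∃ n < F.w1, oN n ∈ g.N ∧ F.D n a b := by
  have hU : UDef.{u + 1} (fun _ E w => ∃ n, E n (w 1) ∧ Tri E (w 0) n (w 2) (w 3)) :=
    UDef.ex ((UDef.mem _ _).and (ud_tri _ _ _ _))
  have := dens hU (l4 hD ht ha hb) fun p _ => by
    obtain ⟨m, hm, h⟩ := F.D_total a b hab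
    refine ⟨p, le_rfl, {oN m}, countable_singleton _, fun g' _ hC hl => ?_⟩
    have hm' : oN m ∈ g'.N := hC rfl
    simp only [List.mem_cons, List.not_mem_nil, or_false, forall_eq_or_imp, forall_eq] at hl
    exact ⟨g'.v (oN m), (oN_lt hm' hl.2.1).2 hm, (tri_Dn hl.1 hm' hl.2.2.1 hl.2.2.2).2 h⟩
  obtain ⟨n, h₁, h₂⟩ := this
  obtain ⟨m, hm, hN, rfl⟩ := (E_oN ht).1 h₁
  exact ⟨m, hm, hN, (tri_Dn hD hN ha hb).1 h₂⟩

theorem unb_B {B : Set Ω} (hB : sN B ∈ g.N) {a : Ω} (ha : oN a ∈ g.N) (h : ∃ b ∈ B, a < b) :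
    ∃ b ∈ B, oN b ∈ g.N ∧ a < b := by
  have hU : UDef.{u + 1} (fun _ E w => ∃ b, E b (w 0) ∧ E (w 1) b) :=
    UDef.ex ((UDef.mem _ _).and (UDef.mem _ _))
  have := dens hU (l2 hB ha) fun p _ => by
    obtain ⟨b, hb, h⟩ := h
    refine ⟨p, le_rfl, {oN b}, countable_singleton _, fun g' _ hC hl => ?_⟩
    have hb' : oN b ∈ g'.N := hC rfl
    simp only [List.mem_cons, List.not_mem_nil, or_false, forall_eq_or_imp, forall_eq] at hl
    exact ⟨g'.v (oN b), (oN_mem_sN hb' hl.1).2 hb, (oN_lt hl.2 hb').2 h⟩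
  obtain ⟨x, h₁, h₂⟩ := this
  obtain ⟨b, hb, hN, rfl⟩ := (E_sN hB).1 h₁
  exact ⟨b, hb, hN, (oN_lt ha hN).1 h₂⟩

theorem few_On {lam mu : Ω} {O : Ω → Ω → Set P}
    (hO : ∀ (N : Ω → Set P) (p : P), (∀ i, IsLowerSet (N i)) →
      (∀ i r, (∀ r' ≤ r, ∃ r'' ≤ r', r'' ∈ N i) → r ∈ N i) →
      ∃ q ≤ p, ∃ w < lam, ∀ i < mu, ∀ r ≤ q,
        (r ∈ N i ↔ ∀ r' ≤ r, ∃ r'' ≤ r', ∃ s ∈ O w i, r'' ≤ s))
    (h₁ : On O ∈ g.N) (h₂ : oN lam ∈ g.N) (h₃ : oN mu ∈ g.N) (y : g.M) :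
    ∃ w, g.E w (g.v (oN lam)) ∧ ∀ i, g.E i (g.v (oN mu)) →
      (g.E i y ↔ App g.E (g.v (On O)) w i) := by
  obtain ⟨σ, hσ, rfl⟩ := exists_v y
  have hU : UDef.{u + 1} (fun _ E w => ∃ x, E x (w 1) ∧ ∀ i, E i (w 2) →
      (E i (w 3) ↔ App E (w 0) x i)) :=
    UDef.ex ((UDef.mem _ _).and (UDef.all ((UDef.mem _ _).imp
      ((UDef.mem _ _).iff (UDef.app _ _ _)))))
  refine dens hU (l4 h₁ h₂ h₃ hσ) fun p _ => ?_
  obtain ⟨q, hq, w, hw, H⟩ := hO (fun i => {r | FMem (oN i) σ r}) p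
    (fun i r r' hr h => FMem.mono h hr) (fun i r h => FMem.reg h)
  refine ⟨q, hq, {oN w}, countable_singleton _, fun g' hq' hC hl => ?_⟩
  have hw' : oN w ∈ g'.N := hC rfl
  simp only [List.mem_cons, List.not_mem_nil, or_false, forall_eq_or_imp, forall_eq] at hl
  obtain ⟨k₁, k₂, k₃, k₄⟩ := hl
  refine ⟨g'.v (oN w), (oN_lt hw' k₂).2 hw, fun x hx => ?_⟩
  obtain ⟨i, hi, hN, rfl⟩ := (E_oN k₃).1 hx
  change g'.E (g'.v (oN i)) (g'.v σ) ↔ App g'.E (g'.v (On O)) (g'.v (oN w)) (g'.v (oN i))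
  rw [v_mem_iff hN k₄]
  constructor
  · rintro ⟨r, hr, h⟩
    refine dens (UDef.app 0 1 2) (l3 k₁ hw' hN) fun p' hp' => ?_
    obtain ⟨r₁, hr₁, e₁, e₂⟩ := g'.dir hr hq'
    obtain ⟨r₂, -, e₃, e₄⟩ := g'.dir hr₁ hp'
    obtain ⟨r₃, e₅, s, hs, e₆⟩ := (H i hi r₁ e₂).1 (h.mono e₁) r₂ e₃
    refine ⟨r₃, e₅.trans e₄, ∅, countable_empty, fun g'' hr₃ _ hl => ?_⟩
    simp only [List.mem_cons, List.not_mem_nil, or_false, forall_eq_or_imp, forall_eq] at hl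
    exact (app_On hl.1 hl.2.1 hl.2.2).2 ⟨s, hs, g''.up hr₃ e₆⟩
  · intro h
    obtain ⟨s, hs, hG⟩ := (app_On k₁ hw' hN).1 h
    obtain ⟨r, hr, e₁, e₂⟩ := g'.dir hG hq'
    exact ⟨r, hr, (H i hi r e₂).2 fun r' hr' => ⟨r', le_rfl, s, hs, hr'.trans e₁⟩⟩

end S2

end Pool.Agent.MP_a2558b_lc

end

section

namespace Pool.Agent.MP_a2558b_lc

open Pool.Agent.MP_c6cf52_lc Name Set

universe u v

namespace S2

variable {P : Type u} [Preorder P] [OrderTop P] {Ω : Type u} [LinearOrder Ω] [WellFoundedLT Ω]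

open Gen Gen.Cd

/-- The positions whose ordinal names lie in the generic model. -/
def K (g : Gen P) (Ω : Type u) [LinearOrder Ω] [WellFoundedLT Ω] : Type u :=
  {x : Ω // oN x ∈ g.N}

/-- The value of the name of the set of all positions. -/
noncomputable def kk (g : Gen P) (Ω : Type u) [LinearOrder Ω] [WellFoundedLT Ω] : g.M :=
  g.v (sN (univ : Set Ω))

variable {g : Gen P}

instance : LinearOrder (K g Ω) := inferInstanceAs (LinearOrder {x : Ω // oN x ∈ g.N})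

instance : WellFoundedLT (K g Ω) := inferInstanceAs (WellFoundedLT {x : Ω // oN x ∈ g.N})

theorem K_lt {a b : K g Ω} : a < b ↔ a.1 < b.1 := Iff.rfl

theorem K_le {a b : K g Ω} : a ≤ b ↔ a.1 ≤ b.1 := Iff.rfl

variable [hk : Fact (sN (univ : Set Ω) ∈ g.N)]

noncomputable instance : Cd g (K g Ω) where
  ι := fun x => g.v (oN x.1)
  inj := fun a b h => Subtype.ext (oN_inj a.2 b.2 h)
  rng := PD.congr (D1.memc (kk g Ω)) fun _ => (E_sN hk.out).trans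
    ⟨fun ⟨y, _, h, e⟩ => ⟨⟨y, h⟩, e⟩, fun ⟨y, e⟩ => ⟨y.1, trivial, y.2, e⟩⟩

theorem ι_K (a : K g Ω) : (ι a : g.M) = g.v (oN a.1) := rfl

theorem E_kk {x : g.M} : g.E x (kk g Ω) ↔ ∃ a : K g Ω, ι a = x :=
  (E_sN hk.out).trans ⟨fun ⟨y, _, h, e⟩ => ⟨⟨y, h⟩, e⟩, fun ⟨y, e⟩ => ⟨y.1, trivial, y.2, e⟩⟩

theorem mem_kk (a : K g Ω) : g.E (ι a) (kk g Ω) := E_kk.2 ⟨a, rfl⟩

instance : Bd g (K g Ω) := ⟨⟨kk g Ω, mem_kk⟩⟩

theorem lt_iff {a b : K g Ω} : g.E (ι a) (ι b) ↔ a < b := oN_lt a.2 b.2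

theorem E_ι {a : K g Ω} {x : g.M} : g.E x (ι a) ↔ ∃ b < a, ι b = x :=
  (E_oN a.2).trans ⟨fun ⟨y, h₁, h, e⟩ => ⟨⟨y, h⟩, h₁, e⟩, fun ⟨y, h, e⟩ => ⟨y.1, h, y.2, e⟩⟩

theorem le_iff {a b : K g Ω} : g.E (ι a) (ι b) ∨ (ι a : g.M) = ι b ↔ a ≤ b := by
  rw [lt_iff, inj.eq_iff, le_iff_lt_or_eq]

@[fun_prop] theorem tm_K_lt {Γ : Type*} [Cd g Γ] {f h : Γ → K g Ω} (hf : g.Tm f) (hh : g.Tm h) :
    g.Tm (fun x => f x < h x) := ((tm_E hf.ι hh.ι).df.congr fun _ => lt_iff).tm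

@[fun_prop] theorem tm_K_le {Γ : Type*} [Cd g Γ] {f h : Γ → K g Ω} (hf : g.Tm f) (hh : g.Tm h) :
    g.Tm (fun x => f x ≤ h x) := ((tm_K_lt hh hf).df.not.congr fun _ => not_lt).tm

theorem bdd_gen {z : K g Ω} {d : g.M} (hd : ∀ x, g.E x d → ∃ y : K g Ω, ι y = x)
    (h : ¬ CofMap g.E (ι z) d) {R : K g Ω → K g Ω → Prop}
    (hR : g.Tm (fun p : K g Ω × K g Ω => R p.1 p.2))
    (tot : ∀ i < z, ∃ c, g.E (ι c) d ∧ R i c) :
    ∃ e : K g Ω, g.E (ι e) d ∧ ∀ i < z, ∃ c < e, R i c := by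
  obtain ⟨f, hf, H⟩ := tm_choice (Q := fun (i c : K g Ω) => i < z → g.E (ι c) d ∧ R i c)
    (by fun_prop) fun i => by
      by_cases hi : i < z
      · obtain ⟨c, hc⟩ := tot i hi
        exact ⟨c, fun _ => hc⟩
      · exact ⟨i, fun h => absurd h hi⟩
  obtain ⟨F, hF₁, hF₂⟩ := exists_graph (g := g) (Q := fun i : K g Ω => i < z)
    (Tm.df (by fun_prop)) hf
  by_contra hn
  push Not at hn
  refine h ⟨F, ⟨fun p hp => ?_, fun a ha => ?_⟩, fun b hb => ?_⟩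
  · obtain ⟨x, hx, rfl⟩ := hF₁ p hp
    exact ⟨_, _, lt_iff.2 hx, (H x hx).1, isPair_pr _ _⟩
  · obtain ⟨x, hx, rfl⟩ := E_ι.1 ha
    refine ⟨ι (f x), (hF₂ _ _).2 ⟨x, hx, rfl, rfl⟩, fun b hb => ?_⟩
    obtain ⟨y, -, e, rfl⟩ := (hF₂ _ _).1 hb
    rw [inj e]
  · obtain ⟨e, rfl⟩ := hd b hb
    obtain ⟨i, hi, h'⟩ := hn e hb
    exact ⟨ι i, ι (f i), (hF₂ _ _).2 ⟨i, hi, rfl, rfl⟩,
      le_iff.2 (not_lt.1 fun hlt => h' _ hlt (H i hi).2)⟩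

theorem bdd_top {z : K g Ω} (h : ¬ CofMap g.E (ι z) (kk g Ω)) {R : K g Ω → K g Ω → Prop}
    (hR : g.Tm (fun p : K g Ω × K g Ω => R p.1 p.2)) (tot : ∀ i < z, ∃ c, R i c) :
    ∃ e : K g Ω, ∀ i < z, ∃ c < e, R i c := by
  obtain ⟨e, -, he⟩ := bdd_gen (fun x hx => E_kk.1 hx) h hR fun i hi =>
    (tot i hi).imp fun c hc => ⟨mem_kk c, hc⟩
  exact ⟨e, he⟩

theorem pigeon {t d : K g Ω} (h : ¬ CofMap g.E (ι t) (ι d)) {Q : K g Ω → K g Ω → Prop}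
    (hQ : g.Tm (fun p : K g Ω × K g Ω => Q p.1 p.2))
    (tot : ∀ e < d, ∃ x, e ≤ x ∧ ∃ n < t, Q n x) : ∃ n < t, ∀ a < d, ∃ x, a ≤ x ∧ Q n x := by
  by_contra hn
  push Not at hn
  obtain ⟨e, he, H⟩ := bdd_gen (fun x hx => (E_ι.1 hx).imp fun _ h => h.2) h
    (R := fun n a => ∀ x, a ≤ x → ¬ Q n x) (by fun_prop) fun n hn' =>
      (hn n hn').imp fun a ha => ⟨lt_iff.2 ha.1, ha.2⟩
  obtain ⟨x, hx, n, hn', hq⟩ := tot e (lt_iff.1 he)
  obtain ⟨a, ha, h'⟩ := H n hn'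
  exact h' x (ha.le.trans hx) hq

theorem exists_cl {l : K g Ω} {m t a Y C D O : g.M} (hl : ¬ CofMap g.E (ι l) (kk g Ω))
    (l0 : ∃ i, i < l) (ht : ∀ n, g.E n t → g.E n (ι l))
    (hO : ∀ y, ∃ w, g.E w (ι l) ∧ ∀ i, g.E i m → (g.E i y ↔ App g.E O w i))
    (ha : IsFun g.E a (kk g Ω) Y) (hC : Unb g.E C (kk g Ω)) (b : K g Ω) :
    ∃ e : K g Ω, Cl g.E (kk g Ω) a C D t m (ι b) (ι e) := by
  have nomax : ∀ b : K g Ω, ∃ e, b < e := fun b => by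
    obtain ⟨e, he⟩ := bdd_top hl (R := fun _ c => c = b) (by fun_prop) fun _ _ => ⟨b, rfl⟩
    obtain ⟨i, hi⟩ := l0
    obtain ⟨c, hc, rfl⟩ := he i hi
    exact ⟨e, hc⟩
  obtain ⟨x, -, hx⟩ := fun_ex ha (mem_kk b)
  obtain ⟨b', hb'⟩ := nomax b
  obtain ⟨c, hcC, hc⟩ := hC.2 _ (mem_kk b')
  obtain ⟨c, rfl⟩ := E_kk.1 (hC.1 _ hcC)
  have hbc : b < c := hb'.trans_le (le_iff.1 hc)
  suffices H : ∃ e : K g Ω, (∃ h, IsInj g.E h x m) → ∀ Z n, (∀ z, g.E z Z → g.E z x) →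
      g.E n t → (∃ c, g.E c (kk g Ω) ∧ ∀ z, g.E z Z → Tri g.E D n z c) →
      ∃ c' < e, ∀ z, g.E z Z → Tri g.E D n z (ι c') by
    obtain ⟨e, he⟩ := H
    obtain ⟨e', he'⟩ := nomax (max c e)
    refine ⟨e', ⟨ι c, hcC, lt_iff.2 hbc, lt_iff.2 ((le_max_left _ _).trans_lt he')⟩,
      fun x' hx' hi Z n hZ hn hc => ?_⟩
    obtain rfl := fun_uniq ha hx hx'
    obtain ⟨c', h₁, h₂⟩ := he hi Z n hZ hn hc
    exact ⟨ι c', lt_iff.2 (h₁.trans ((le_max_right _ _).trans_lt he')), h₂⟩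
  by_cases hi : ∃ h, IsInj g.E h x m
  swap
  · exact ⟨b, fun h => absurd h hi⟩
  obtain ⟨h, hh⟩ := hi
  obtain ⟨R, hR, eR⟩ : ∃ R : K g Ω → K g Ω → K g Ω → Prop,
      g.Tm (fun p : K g Ω × K g Ω × K g Ω => R p.1 p.2.1 p.2.2) ∧ ∀ n w c, R n w c ↔
        ∀ z i, g.E z x → App g.E h z i → App g.E O (ι w) i → Tri g.E D (ι n) z (ι c) :=
    ⟨fun n w c => ∀ z i, g.E z x → App g.E h z i → App g.E O (ι w) i → Tri g.E D (ι n) z (ι c),
      by fun_prop, fun _ _ _ => Iff.rfl⟩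
  have stepA : ∀ n, ∃ e, ∀ w < l, ∃ c < e, ((∃ c', R n w c') → R n w c) := fun n =>
    bdd_top hl (R := fun w c => (∃ c', R n w c') → R n w c) (by fun_prop) fun w _ => by
      by_cases h : ∃ c', R n w c'
      · obtain ⟨c', hc'⟩ := h
        exact ⟨c', fun _ => hc'⟩
      · exact ⟨b, fun h' => absurd h' h⟩
  obtain ⟨e, he⟩ := bdd_top hl
    (R := fun n e => ∀ w < l, ∃ c < e, ((∃ c', R n w c') → R n w c)) (by fun_prop)
    fun n _ => stepA n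
  refine ⟨e, fun _ Z n hZ hn ⟨c₀, hc₀, hb⟩ => ?_⟩
  obtain ⟨n, hnl, rfl⟩ := E_ι.1 (ht n hn)
  obtain ⟨c₀, rfl⟩ := E_kk.1 hc₀
  obtain ⟨y, hy⟩ := tm_sep (g := g) (Q := fun i => ∃ z, g.E z Z ∧ App g.E h z i) (by fun_prop) m
  obtain ⟨w, hw, hO'⟩ := hO y
  obtain ⟨w, hwl, rfl⟩ := E_ι.1 hw
  obtain ⟨e', he', H⟩ := he n hnl
  obtain ⟨c', hc', H'⟩ := H w hwl
  have key : ∀ c : K g Ω, R n w c ↔ ∀ z, g.E z Z → Tri g.E D (ι n) z (ι c) := fun c => by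
    rw [eR]
    constructor
    · intro H z hz
      obtain ⟨i, hi, happ⟩ := fun_ex hh.1 (hZ z hz)
      exact H z i (hZ z hz) happ ((hO' i hi).1 ((hy i).2 ⟨hi, z, hz, happ⟩))
    · intro H z i _ happ hOi
      obtain ⟨-, z', hz', happ'⟩ := (hy i).1 ((hO' i (fun_mem hh.1 happ).2).2 hOi)
      exact H z (hh.2 _ _ _ happ' happ ▸ hz')
  exact ⟨c', hc'.trans he', (key c').1 (H' ⟨c₀, (key c₀).2 hb⟩)⟩

theorem exists_good {l : K g Ω} {m t D O S : g.M} (hl : ¬ CofMap g.E (ι l) (kk g Ω))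
    (l0 : ∃ i, i < l) (ht : ∀ n, g.E n t → g.E n (ι l))
    (hO : ∀ y, ∃ w, g.E w (ι l) ∧ ∀ i, g.E i m → (g.E i y ↔ App g.E O w i))
    (h : InI g.E (kk g Ω) S) : ∃ a C f, Good g.E (kk g Ω) S a C f D t m := by
  obtain ⟨-, a, Y, C, ha, -, hC, hS⟩ := h
  obtain ⟨f, hf, H⟩ := tm_choice
    (Q := fun (b e : K g Ω) => Cl g.E (kk g Ω) a C D t m (ι b) (ι e))
    (by unfold Cl; fun_prop) (exists_cl hl l0 ht hO ha hC.1)
  obtain ⟨F, hF₁, hF₂⟩ := exists_graph (g := g) (Q := fun _ : K g Ω => True) Df.true hf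
  refine ⟨a, C, F, ⟨fun p hp => ?_, fun x hx => ?_⟩, hC, hS, fun b e hbe => ?_⟩
  · obtain ⟨x, -, rfl⟩ := hF₁ p hp
    exact ⟨_, _, mem_kk _, mem_kk _, isPair_pr _ _⟩
  · obtain ⟨x, rfl⟩ := E_kk.1 hx
    refine ⟨ι (f x), (hF₂ _ _).2 ⟨x, trivial, rfl, rfl⟩, fun b hb => ?_⟩
    obtain ⟨y, -, e, rfl⟩ := (hF₂ _ _).1 hb
    rw [inj e]
  · obtain ⟨x, -, rfl, rfl⟩ := (hF₂ _ _).1 hbe
    exact H x

theorem exists_chain {d t : K g Ω} {m S a C f Dm B : g.M} {D : K g Ω → K g Ω → K g Ω → Prop}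
    (hD : ∀ n a b, Tri g.E Dm (ι n) (ι a) (ι b) ↔ D n a b)
    (D_trans : ∀ m a b c, D m a b → D m b c → D m a c)
    (D_mono : ∀ m m' a b, m ≤ m' → m' < t → D m a b → D m' a b)
    (D_total : ∀ a b, a < b → ∃ m < t, D m a b)
    (hG : Good g.E (kk g Ω) S a C f Dm (ι t) m) (hdS : g.E (ι d) S) (hcof : IsCof g.E (ι d) m)
    (htm : g.E (ι t) m) (hcl : ∀ x y, g.E x (ι d) → App g.E f x y → g.E y (ι d))
    (hB₁ : ∀ x, g.E x B → g.E x (ι d)) (hB₂ : ∀ x < d, ∃ b, g.E (ι b) B ∧ x < b) :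
    ∃ H, ∃ n < t, Chain g.E H B Dm (ι n) (ι d) := by
  have hT : g.Tm (fun p : K g Ω × K g Ω × K g Ω => D p.1 p.2.1 p.2.2) := by
    simp only [← hD]
    fun_prop
  obtain ⟨hf, hC, hA, hCl⟩ := hG
  have hfd : ∀ b < d, ∃ e < d, App g.E f (ι b) (ι e) := fun b hb => by
    obtain ⟨e, -, he⟩ := fun_ex hf (mem_kk b)
    obtain ⟨e', h₁, rfl⟩ := E_ι.1 (hcl _ _ (lt_iff.2 hb) he)
    exact ⟨e', h₁, he⟩
  have hdC : g.E (ι d) C := by
    refine hC.2 _ (mem_kk d) ?_ fun x hx => ?_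
    · obtain ⟨F, hF, -⟩ := hcof.2.1
      obtain ⟨b, hb, -⟩ := fun_ex hF htm
      exact ⟨b, hb⟩
    · obtain ⟨x, hx', rfl⟩ := E_ι.1 hx
      obtain ⟨e, he, happ⟩ := hfd x hx'
      obtain ⟨c, h₁, h₂, h₃⟩ := (hCl _ _ happ).1
      obtain ⟨c, h₄, rfl⟩ := E_ι.1 h₃
      exact ⟨_, h₁, h₂, lt_iff.2 (h₄.trans he)⟩
  obtain ⟨-, A, m', hm', hU, ⟨o, ho, hsurj, -⟩, hAp⟩ := hA _ hdS hdC
  obtain rfl := isCof_unique hcof hm'
  have nc : ¬ CofMap g.E (ι t) (ι d) := hcof.2.2 _ htm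
  obtain ⟨n₀, hn₀, H₀⟩ := pigeon nc (Q := fun n z => g.E (ι z) A ∧ D n z d) (by fun_prop)
    fun e he => by
      obtain ⟨z, hz, hez⟩ := hU.2 _ (lt_iff.2 he)
      obtain ⟨z, hzd, rfl⟩ := E_ι.1 (hU.1 _ hz)
      obtain ⟨n, hn, h⟩ := D_total z d hzd
      exact ⟨z, le_iff.1 hez, n, hn, hz, h⟩
  have hAd : ∀ z : K g Ω, g.E (ι z) A → z < d := fun z hz => lt_iff.1 (hU.1 _ hz)
  have hBd : ∀ z : K g Ω, g.E (ι z) B → z < d := fun z hz => lt_iff.1 (hB₁ _ hz)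
  haveI : Nonempty (K g Ω) := ⟨d⟩
  obtain ⟨r, hr, hr'⟩ := tm_choice
    (Q := fun (z : K g Ω) (i : g.M) => g.E (ι z) A → App g.E o i (ι z)) (by fun_prop) fun z => by
      by_cases hz : g.E (ι z) A
      · obtain ⟨i, hi⟩ := hsurj _ hz
        exact ⟨i, fun _ => hi⟩
      · exact ⟨m, fun h => absurd h hz⟩
  have star : ∀ c < d, ∃ u < d, ∀ z, g.E (ι z) A → D n₀ z d → z < c → D n₀ z u := fun c hc => by
    obtain ⟨b, x, hb, hx, hxA⟩ := hAp _ (lt_iff.2 hc)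
    obtain ⟨b, hb', rfl⟩ := E_ι.1 hb
    obtain ⟨e, he, happ⟩ := hfd b hb'
    have hx' : ∀ z, g.E z x → App g.E o (r (un (K g Ω) z)) z := fun z hz => by
      obtain ⟨z', -, rfl⟩ := E_ι.1 ((hxA z).1 hz).2
      rw [un_ι]
      exact hr' z' ((hxA _).1 hz).1
    have hinj : ∃ h, IsInj g.E h x m :=
      exists_isInj (f := fun z => r (un (K g Ω) z)) (by fun_prop)
        (fun z hz => (fun_mem ho (hx' z hz)).1)
        fun z z' hz hz' e => fun_uniq ho (hx' z hz) (by rw [show r _ = r _ from e]; exact hx' z' hz')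
    obtain ⟨Z, hZ⟩ := tm_sep (g := g) (Q := fun z => Tri g.E Dm (ι n₀) z (ι d)) (by fun_prop) x
    obtain ⟨u, hu, H⟩ := (hCl _ _ happ).2 x hx hinj Z (ι n₀) (fun z hz => ((hZ z).1 hz).1)
      (lt_iff.2 hn₀) ⟨ι d, mem_kk d, fun z hz => ((hZ z).1 hz).2⟩
    obtain ⟨u, hu', rfl⟩ := E_ι.1 hu
    exact ⟨u, hu'.trans he, fun z h₁ h₂ h₃ =>
      (hD _ _ _).1 (H _ ((hZ _).2 ⟨(hxA _).2 ⟨h₁, lt_iff.2 h₃⟩, (hD _ _ _).2 h₂⟩))⟩
  obtain ⟨n₁, hn₁, H₁⟩ := pigeon nc (Q := fun n b => g.E (ι b) B ∧ ∃ z, g.E (ι z) A ∧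
      D n₀ z d ∧ D n b z ∧ ∀ z', g.E (ι z') A → D n₀ z' d → b < z' → z ≤ z') (by fun_prop)
    fun e he => by
      obtain ⟨b, hb, heb⟩ := hB₂ e he
      obtain ⟨b', hb', hbb⟩ := hB₂ b (hBd b hb)
      obtain ⟨z, hz, h₁, h₂⟩ := H₀ b' (hBd b' hb')
      obtain ⟨z, ⟨h₃, h₄, h₅⟩, hmin⟩ := wellFounded_lt.has_min
        {z : K g Ω | g.E (ι z) A ∧ D n₀ z d ∧ b < z} ⟨z, h₁, h₂, hbb.trans_le hz⟩
      obtain ⟨n, hn, h⟩ := D_total b z h₅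
      exact ⟨b, heb.le, n, hn, hb, z, h₃, h₄, h, fun z' k₁ k₂ k₃ =>
        not_lt.1 (hmin z' ⟨k₁, k₂, k₃⟩)⟩
  obtain ⟨n₂, hn₂, H₂⟩ := pigeon nc (Q := fun n c => ∃ u c', g.E (ι c') B ∧
      (∀ z, g.E (ι z) A → D n₀ z d → z < c → D n₀ z u) ∧ D n u c') (by fun_prop)
    fun e he => by
      obtain ⟨u, hu, h⟩ := star e he
      obtain ⟨c', hc', huc⟩ := hB₂ u hu
      obtain ⟨n, hn, h'⟩ := D_total u c' huc
      exact ⟨e, le_rfl, n, hn, u, c', hc', h, h'⟩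
  obtain ⟨H, hH⟩ := tm_sep (g := g) (Q := fun x => ∃ b : K g Ω, ι b = x ∧ ∃ z, g.E (ι z) A ∧
      D n₀ z d ∧ D n₁ b z ∧ ∀ z', g.E (ι z') A → D n₀ z' d → b < z' → z ≤ z') (by fun_prop) B
  have hn : max n₀ (max n₁ n₂) < t := max_lt hn₀ (max_lt hn₁ hn₂)
  refine ⟨H, _, hn, fun x hx => ?_, fun x hx => ?_⟩
  · obtain ⟨x, hx', rfl⟩ := E_ι.1 hx
    obtain ⟨b, hxb, hb, h⟩ := H₁ x hx'
    exact ⟨ι b, hb, le_iff.2 hxb, (hH _).2 ⟨hb, b, rfl, h⟩⟩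
  · obtain ⟨x, hx', rfl⟩ := E_ι.1 hx
    obtain ⟨z₀, hz₀, h₁, h₂⟩ := H₀ x hx'
    obtain ⟨c, hc, hzc⟩ := hB₂ z₀ (hAd _ h₁)
    obtain ⟨y, hy, u, c', hc', h₃, h₄⟩ := H₂ c (hBd c hc)
    refine ⟨ι c', hc', fun b _ hbx hbH => ?_⟩
    obtain ⟨-, b, rfl, z, k₁, k₂, k₃, k₄⟩ := (hH _).1 hbH
    have k₅ : z < y := ((k₄ z₀ h₁ h₂ ((lt_iff.1 hbx).trans_le hz₀)).trans_lt hzc).trans_le hy
    refine (hD _ _ _).2 (D_trans _ _ _ _ (D_trans _ _ _ _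
      (D_mono _ _ _ _ ((le_max_left _ _).trans (le_max_right _ _)) hn k₃)
      (D_mono _ _ _ _ (le_max_left _ _) hn (h₃ z k₁ k₂ k₅)))
      (D_mono _ _ _ _ ((le_max_right _ _).trans (le_max_right _ _)) hn h₄))

end S2

end Pool.Agent.MP_a2558b_lc

end
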