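import Pool.Agent.Mg.Fa2558b.Gc6f902
import Pool.Agent.Mg.Fa2558b.G2d492d

section

namespace Pool.Agent.MP_a2558b_lc

open Cardinal hiding univ
open Set Base

universe u

variable {Θ Ω : Type u} [LinearOrder Θ] [WellFoundedLT Θ] [LinearOrder Ω] [WellFoundedLT Ω]
  [Inhabited Ω] {X : Ctx Θ Ω} {D : Sys (JJ Θ) Ω} {β : Θ} {k : Θ → Cardinal.{u}}

omit [WellFoundedLT Θ] in
theorem tail_pt_of {j : JJ Θ} (hj : j ∈ levC β) (hc : j ∉ lev (Iio β)) : ∃ i, j = pt β i :=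
  (mem_levC.1 hj).resolve_left hc

theorem tail_mk_keys (hV : Valid X D (Iio β)) (hk : NOK X D β k) (i : Θ) :
    #{w : JJ Θ × Cnd (JJ Θ) Ω | w.1 ∈ levC β ∧ w.1 ∉ lev (Iio β) ∧ w.1 < pt β i ∧
      w.2 ∈ Keys D (Iic w.1)} ≤ clo X D β k i := by
  refine le_trans ?_ (le_add_self : (sum fun i' : Iio i => k i') ≤ clo X D β k i)
  refine le_trans ?_ (sum_le_sum _ _ fun i' : Iio i => mk_keys_pt hV hk i'.1)
  rw [← mk_sigma]
  refine le_trans (mk_le_mk_of_subset (t := range fun z : Σ i' : Iio i, Keys D (Iic (pt β i'.1)) =>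
    ((pt β z.1.1, z.2.1) : JJ Θ × Cnd (JJ Θ) Ω)) ?_) mk_range_le
  rintro ⟨j, q⟩ ⟨h₁, h₂, h₃, h₄⟩
  obtain ⟨i', rfl⟩ := tail_pt_of h₁ h₂
  have hi : i' < i := by
    rcases pt_lt_pt.1 h₃ with h | h
    exacts [absurd h (lt_irrefl _), h.2]
  exact ⟨⟨⟨i', hi⟩, q, h₄⟩, rfl⟩

theorem seg_tail_fam (hV : Valid X D (Iio β)) (hk : NOK X D β k) {ι Z : Type u} [Nonempty Z]
    (hZ : #Z ≤ Order.succ (X.lb β)) (hι : #ι ≤ Order.succ (X.lb β))
    (dec : ι → Cnd (JJ Θ) Ω → Z → Prop)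
    (hn : ∀ i, IsNm (Low D (levC β)) (Le D (levC β)) (dec i))
    {p : Cnd (JJ Θ) Ω} (hp : p ∈ Low D (levC β)) :
    ∃ p' ∈ Low D (levC β), TExt D (lev (Iio β)) (levC β) p' p ∧
      ∀ i, ∀ l ∈ Low D (lev (Iio β)), Le D (lev (Iio β)) l p →
        ∃ l' ∈ Low D (lev (Iio β)), Le D (lev (Iio β)) l' l ∧
          ∃ x, dec i (glue (lev (Iio β)) l' p') x := by
  have hB := basicOn_levC hV hk
  refine tail_fam (levIio_lower β) (levC_lower β) (levIio_sub_levC β) hB dec hn ?_ ?_ hp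
  · intro j hj hc
    obtain ⟨i, rfl⟩ := tail_pt_of hj hc
    exact (cl_pt hk i).anti (hι.trans (mu_le_clo i))
  · intro i q hq
    refine seg_tail (levIio_lower β) (levC_lower β) (levIio_sub_levC β) hB ?_ (dec i) (hn i)
      ?_ ?_ ?_ ?_ hq
    all_goals
      intro j hj hc
      obtain ⟨i', rfl⟩ := tail_pt_of hj hc
    · exact bs_pt β i'
    · exact (hk.comp i').anti (hZ.trans (mu_le_clo i'))
    · exact (comp_pt hk i').anti (mk_low_Iio_pt hk i')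
    · exact (cl_pt hk i').anti (tail_mk_keys hV hk i')
    · exact (cl_pt hk i').anti (low_le_clo i')

/-- `l` has an extension which is direct above the cut `e` and decides the value `x`. -/
def TailG (D : Sys (JJ Θ) Ω) {Z : Type u} (dec : Cnd (JJ Θ) Ω → Z → Prop) (p : Cnd (JJ Θ) Ω)
    (e : Set (JJ Θ)) (l : Cnd (JJ Θ) Ω) (x : Z) : Prop :=
  ∃ r ∈ Low D univ, res e r = l ∧ (∀ j, j ∉ e → DirAt D j r p) ∧ dec r x

omit [WellFoundedLT Θ] [LinearOrder Ω] [WellFoundedLT Ω] in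
theorem TailG.mono (hB : BasicOn D univ) {Z : Type u} {dec : Cnd (JJ Θ) Ω → Z → Prop}
    (hn : IsNm (Low D univ) (Le D univ) dec) {p l l' : Cnd (JJ Θ) Ω} {e : Set (JJ Θ)}
    (he : IsLowerSet e) {x : Z} (h : TailG D dec p e l x) (hl' : l' ∈ Low D e)
    (hle : Le D e l' l) : TailG D dec p e l' x := by
  obtain ⟨r, hr, rfl, h₁, h₂⟩ := h
  have hm := glue_mem' hl' (subset_univ e) hr
  have hg : Le D univ (glue e l' r) r :=
    glue_le isLowerSet_univ hB he hm ((le_res_right he Subset.rfl).1 hle)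
  refine ⟨glue e l' r, hm, (res_glue Subset.rfl).trans (res_eq_self hl'), fun j hj => ?_,
    hn.mono _ hr _ hm hg _ h₂⟩
  refine ⟨by rw [glue_of_notMem hj]; exact (h₁ j hj).1, ?_⟩
  exact LeAt.trans isLowerSet_univ hB (mem_univ j) hr hm (hg.anti (subset_univ _))
    (hg j (mem_univ j)) (h₁ j hj).2

/-- One level of the tail argument. -/
theorem tail_level (hV : Valid X D univ) {Z : Type u} (β : Θ) (hZ : #Z ≤ Order.succ (X.lb β))
    {dec : Cnd (JJ Θ) Ω → Z → Prop} (hn : IsNm (Low D univ) (Le D univ) dec)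
    {p : Cnd (JJ Θ) Ω} (hp : p ∈ Low D univ) :
    ∃ n ∈ Low D (levC β), (∀ j ∈ levC β, j ∉ lev (Iio β) → TDir D j n p) ∧
      ∀ l ∈ Low D (levC β), (∀ j ∈ levC β, j ∉ lev (Iio β) → LeAt D j l n) →
        ∀ x, TailG D dec p (levC β) l x →
          ∃ l' ∈ Low D (lev (Iio β)), Le D (lev (Iio β)) l' l ∧
            ∃ x', TailG D dec p (lev (Iio β)) l' x' := by
  obtain ⟨k, hk⟩ := hV β (mem_univ β)
  have hB := basicOn_univ hV
  have hV' : Valid X D (Iio β) := hV.anti (subset_univ _)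
  have hC := levC_lower β
  have hE := levIio_lower β
  have hEC := levIio_sub_levC β
  have hBC : BasicOn D (levC β) := hB.anti (subset_univ _)
  have hBE : BasicOn D (lev (Iio β)) := hB.anti (subset_univ _)
  let Φ : Cnd (JJ Θ) Ω → Option Z → Prop := fun q o =>
    match o with
    | some x => TailG D dec p (levC β) q x
    | none => ∀ q' ∈ Low D (levC β), Le D (levC β) q' q → ∀ x, ¬ TailG D dec p (levC β) q' x
  obtain ⟨dec', hn', H⟩ := exists_nm (refl_on hC hBC) (trans_on hC hBC) Φ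
    (by
      rintro q hq q' hq' h (_ | x) hx
      · exact fun s hs h' => hx s hs (Le.trans hC hBC hq' hs h' h)
      · exact TailG.mono hB hn hC hx hq' h) ctop (ctop_mem hBC)
    (by
      intro q hq _
      by_cases h : ∀ q' ∈ Low D (levC β), Le D (levC β) q' q → ∀ x, ¬ TailG D dec p (levC β) q' x
      · exact ⟨q, hq, Le.refl hC hBC hq, none, h⟩
      · push Not at h
        obtain ⟨q', hq', h, x, hx⟩ := h
        exact ⟨q', hq', h, some x, hx⟩)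
  have hinf : ℵ₀ ≤ Order.succ (X.lb β) := (X.aleph0_le_lb β).trans (Order.le_succ _)
  have hO : #(Option Z) ≤ Order.succ (X.lb β) := by
    rw [mk_option]
    exact (add_le_add hZ (one_le_aleph0.trans hinf)).trans (add_eq_self hinf).le
  have hp0 : glue (lev (Iio β)) ctop (res (levC β) p) ∈ Low D (levC β) :=
    glue_mem (ctop_mem hBC) (res_mem hp (subset_univ _))
  obtain ⟨n, hnm, hT, hdec⟩ := seg_tail_fam hV' hk.1 (ι := PUnit.{u + 1}) hO
    (by rw [mk_punit]; exact one_le_aleph0.trans hinf) (fun _ => dec') (fun _ => hn') hp0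
  have hTD : ∀ j ∈ levC β, j ∉ lev (Iio β) → TDir D j n p := fun j hj hc =>
    (tdir_congr rfl ((glue_of_notMem hc).trans (res_of_mem hj))).1 (hT.2 j hj hc)
  refine ⟨n, hnm, hTD, fun l hl hln x hx => ?_⟩
  have hl1 : res (lev (Iio β)) l ∈ Low D (lev (Iio β)) := res_mem hl hEC
  obtain ⟨l', hl', h₁, o, ho⟩ := hdec PUnit.unit _ hl1
    ((le_glue_right hE Subset.rfl).2 (le_ctop hE hBE hl1))
  have h₁' : Le D (lev (Iio β)) l' l := (le_res_right hE Subset.rfl).1 h₁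
  have hq : glue (lev (Iio β)) l' n ∈ Low D (levC β) := glue_mem' hl' hEC hnm
  have H' := H _ hq (le_ctop hC hBC hq) o ho
  refine ⟨l', hl', h₁', ?_⟩
  cases o with
  | none =>
    have hq' : glue (lev (Iio β)) l' l ∈ Low D (levC β) := glue_mem' hl' hEC hl
    obtain ⟨r, hr, h₂, h₃⟩ := H' _ hq' (glue_le_glue' hC hBC hE hEC hl' hl h₁' hln)
    exact absurd (TailG.mono hB hn hC hx hr
      (Le.trans hC hBC hq' hr h₂ (glue_le hC hBC hE hq' h₁'))) (h₃ r hr (Le.refl hC hBC hr) x)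
  | some x' =>
    obtain ⟨p'', hp'', hT', hd⟩ := full_mix hC isLowerSet_univ (subset_univ _) hB
      (mixCut_levC hV β) (fun r => dec r x') (fun r hr r' hr' h h' => hn.mono r hr r' hr' h _ h')
      hp (glue (lev (Iio β)) l' n) (by
        intro l2 hl2 h₂
        obtain ⟨r', -, h₃, r, hr, rfl, h₄, h₅⟩ := H' l2 hl2 h₂
        exact ⟨r, hr, (le_res_left hC Subset.rfl).1 h₃, fun j _ hj => h₄ j hj, h₅⟩)
    have hr : glue (levC β) (glue (lev (Iio β)) l' n) p'' ∈ Low D univ :=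
      glue_mem' hq (subset_univ _) hp''
    refine ⟨x', _, hr, (res_glue hEC).trans ((res_glue Subset.rfl).trans (res_eq_self hl')),
      fun j hj => ?_, hn.reg _ hr _ fun s hs h => ?_⟩
    · refine TDir.dirAt isLowerSet_univ hB (mem_univ j) hr ?_
      by_cases e : j ∈ levC β
      · exact (tdir_congr ((glue_of_mem e).trans (glue_of_notMem hj)) rfl).2 (hTD j e hj)
      · exact (tdir_congr (glue_of_notMem e) rfl).2 (hT'.2 j (mem_univ j) e)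
    · obtain ⟨l3, hl3, h₂, h₃⟩ := hd _ (res_mem hs (subset_univ _))
        ((le_res_left hC Subset.rfl).2 ((le_glue_right hC Subset.rfl).1 (h.anti (subset_univ _))))
      have h₂' : Le D (levC β) l3 s := (le_res_right hC Subset.rfl).1 h₂
      have hs' : glue (levC β) l3 s ∈ Low D univ := glue_mem' hl3 (subset_univ _) hs
      refine ⟨_, hs', glue_le isLowerSet_univ hB hC hs' h₂', hn.mono _
        (glue_mem' hl3 (subset_univ _) hp'') _ hs' ?_ _ h₃⟩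
      exact glue_le_glue' isLowerSet_univ hB hC (subset_univ _) hl3 hs h₂' fun j hj e =>
        (leAt_congr rfl (fun _ _ => rfl) (glue_of_notMem e)).1 (h j hj)

theorem tail_core (hV : Valid X D univ) {A : Set Θ} (hA : IsLowerSet A) {Z : Type u}
    (hZ : ∀ β, β ∉ A → #Z ≤ Order.succ (X.lb β)) {dec : Cnd (JJ Θ) Ω → Z → Prop}
    (hn : IsNm (Low D univ) (Le D univ) dec) {p : Cnd (JJ Θ) Ω} (hp : p ∈ Low D univ)
    {l0 : Cnd (JJ Θ) Ω} (hl0 : l0 ∈ Low D (lev A)) :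
    ∃ r ∈ Low D univ, Le D (lev A) r l0 ∧ (∀ j ∈ univ, j ∉ lev A → DirAt D j r p) ∧
      ∃ x, dec r x := by
  classical
  by_contra hcon
  have hB := basicOn_univ hV
  have hc := lev_lower hA
  have key : ∀ β, ∃ n, β ∉ A → n ∈ Low D (levC β) ∧
      (∀ j ∈ levC β, j ∉ lev (Iio β) → TDir D j n p) ∧
      ∀ l ∈ Low D (levC β), (∀ j ∈ levC β, j ∉ lev (Iio β) → LeAt D j l n) →
        ∀ x, TailG D dec p (levC β) l x →
          ∃ l' ∈ Low D (lev (Iio β)), Le D (lev (Iio β)) l' l ∧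
            ∃ x', TailG D dec p (lev (Iio β)) l' x' := by
    intro β
    by_cases h : β ∈ A
    · exact ⟨p, fun h' => absurd h h'⟩
    · obtain ⟨n, hn', H⟩ := tail_level hV β (hZ β h) hn hp
      exact ⟨n, fun _ => ⟨hn', H⟩⟩
  choose n hN using key
  let u : Cnd (JJ Θ) Ω := fun j => if j ∈ levC (ofLex j).1 then n (ofLex j).1 j else p j
  have u_pt : ∀ β i, u (pt β i) = n β (pt β i) := fun β i => if_pos (pt_mem_levC.2 le_rfl)
  have u_cc : ∀ β, u (cc β) = p (cc β) := fun β => if_neg fun h => lt_irrefl _ (cc_mem_levC.1 h)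
  have hnot : ∀ β i : Θ, pt β i ∉ lev (Iio β) := fun β i h => lt_irrefl β h
  let ps : Cnd (JJ Θ) Ω := glue (lev A) l0 u
  have hTD : ∀ j, j ∉ lev A → TDir D j ps p ∧ OkAt D j (ps j) := by
    intro j hj
    have e : ps j = u j := glue_of_notMem hj
    rcases JJ_cases j with ⟨β, i, rfl⟩ | ⟨β, rfl⟩
    · have h := hN β hj
      refine ⟨(tdir_congr (e.trans (u_pt β i)) rfl).2
        (h.2.1 _ (pt_mem_levC.2 le_rfl) (hnot β i)), ?_⟩
      rw [e, u_pt]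
      exact h.1.1 _ (pt_mem_levC.2 le_rfl)
    · refine ⟨(tdir_congr (e.trans (u_cc β)) rfl).2
        (TDir.refl isLowerSet_univ hB (mem_univ _) hp rfl), ?_⟩
      rw [e, u_cc]
      exact hp.1 _ (mem_univ _)
  have hps : ps ∈ Low D univ := by
    refine ⟨fun j _ => ?_, fun j hj => absurd (mem_univ j) hj,
      (hl0.2.2.union hp.2.2).subset fun j hj => ?_⟩
    · by_cases e : j ∈ lev A
      · rw [show ps j = l0 j from glue_of_mem e]; exact hl0.1 j e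
      · exact (hTD j e).2
    · by_cases e : j ∈ lev A
      · left; rwa [mem_ofPred_eq, show ps j = l0 j from glue_of_mem e] at hj
      · right; rwa [mem_ofPred_eq, (hTD j e).1.1] at hj
  have down : ∀ B : Set Θ, IsLowerSet B → A ⊆ B →
      (∀ γ ∈ B, γ ∉ A → ∀ l ∈ Low D (levC γ), Le D (levC γ) l ps →
        ∀ x, ¬ TailG D dec p (levC γ) l x) →
      ∀ r ∈ Low D univ, Le D (lev B) r ps → (∀ j, j ∉ lev B → DirAt D j r p) →
        ∀ x, ¬ dec r x := by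
    intro B hBl hAB ih r hr h₁ h₂ x hx
    by_cases hBA : B ⊆ A
    · obtain rfl : A = B := hAB.antisymm hBA
      exact hcon ⟨r, hr, (le_glue_right hc Subset.rfl).1 h₁, fun j _ hj => h₂ j hj, x, hx⟩
    obtain ⟨γ0, hγB, hγA⟩ := not_subset.1 hBA
    have hfin : (insert γ0 ((fun j : JJ Θ => (ofLex j).1) ''
        ({j | (r j).s ≠ none} ∩ lev B))).Finite :=
      ((hr.2.2.inter_of_left _).image _).insert γ0
    obtain ⟨γ, hγ, hmax⟩ := hfin.exists_maximal ⟨γ0, mem_insert _ _⟩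
    have hmax' : ∀ y ∈ insert γ0 ((fun j : JJ Θ => (ofLex j).1) ''
        ({j | (r j).s ≠ none} ∩ lev B)), y ≤ γ := fun y hy =>
      (le_total y γ).elim id fun h => hmax hy h
    have hγB' : γ ∈ B := by
      rcases hγ with rfl | ⟨j, hj, rfl⟩
      exacts [hγB, hj.2]
    have hγA' : γ ∉ A := fun h => hγA (hA (hmax' γ0 (mem_insert _ _)) h)
    have hsub : levC γ ⊆ lev B :=
      (levC_sub_levIic γ).trans (lev_mono fun y hy => hBl hy hγB')
    refine ih γ hγB' hγA' _ (res_mem hr (subset_univ _))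
      ((le_res_left (levC_lower γ) Subset.rfl).2 (h₁.anti hsub)) x ⟨r, hr, rfl, fun j hj => ?_, hx⟩
    by_cases e : j ∈ lev B
    swap
    · exact h₂ j e
    have hjA : j ∉ lev A := by
      intro h
      refine hj (levIio_sub_levC γ (lev_mono (fun y hy => ?_) h))
      exact lt_of_not_ge fun h' => hγA' (hA h' hy)
    have hle : LeAt D j r p :=
      (h₁ j e).trans_tdir isLowerSet_univ hB (mem_univ j) hr (hTD j hjA).1
    have hs : (r j).s = none := by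
      by_contra hs
      rcases JJ_cases j with ⟨β, i, rfl⟩ | ⟨β, rfl⟩
      · exact hj (pt_mem_levC.2 (hmax' β (mem_insert_of_mem _ ⟨_, ⟨hs, e⟩, rfl⟩)))
      · obtain ⟨k, hk⟩ := hV β (mem_univ β)
        obtain ⟨a, ha⟩ := Option.ne_none_iff_exists'.1 hs
        have := (hr.1 _ (mem_univ _)).1 a ha
        rw [hk.2.pt_eq] at this
        exact this
    refine ⟨?_, hle⟩
    cases e' : (p j).s with
    | none => exact hs
    | some a => rw [hle.1 a e']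
  have hb : ∀ γ, γ ∉ A → ∀ l ∈ Low D (levC γ), Le D (levC γ) l ps →
      ∀ x, ¬ TailG D dec p (levC γ) l x := by
    intro β
    induction β using WellFoundedLT.induction with
    | _ β ih =>
    intro hβ l hl h x hx
    have hAβ : A ⊆ Iio β := fun y hy => lt_of_not_ge fun h' => hβ (hA h' hy)
    obtain ⟨l', hl', h₁, x', r, hr, rfl, h₂, h₃⟩ := (hN β hβ).2.2 l hl (fun j hj hc' => by
      obtain ⟨i, rfl⟩ := tail_pt_of hj hc'
      exact (leAt_congr rfl (fun _ _ => rfl)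
        ((glue_of_notMem (show pt β i ∉ lev A from hβ)).trans (u_pt β i))).1 (h _ hj)) x hx
    refine down (Iio β) (isLowerSet_Iio β) hAβ (fun γ hγ => ih γ hγ) r hr ?_ h₂ x' h₃
    have hE := levIio_lower β
    have hl1 : res (lev (Iio β)) l ∈ Low D (lev (Iio β)) := res_mem hl (levIio_sub_levC β)
    exact (le_res_left hE Subset.rfl).1 (Le.trans hE (hB.anti (subset_univ _)) hl1 hl'
      ((le_res_right hE Subset.rfl).2 h₁)
      ((le_res_left hE Subset.rfl).2 (h.anti (levIio_sub_levC β))))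
  obtain ⟨r, hr, h₁, x, hx⟩ := hn.dense ps hps
  exact down univ isLowerSet_univ (subset_univ A) (fun γ _ => hb γ) r hr h₁
    (fun j hj => absurd (mem_univ j) hj) x hx

/-- The tail of the iteration adds no new small sequences. -/
theorem tail (hV : Valid X D univ) {A : Set Θ} (hA : IsLowerSet A) {ι Z : Type u} [Nonempty Z]
    (hZ : ∀ β, β ∉ A → #Z ≤ Order.succ (X.lb β)) (hι : ∀ β, β ∉ A → #ι ≤ X.lb β)
    (dec : ι → Cnd (JJ Θ) Ω → Z → Prop) (hn : ∀ i, IsNm (Low D univ) (Le D univ) (dec i))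
    {p : Cnd (JJ Θ) Ω} (hp : p ∈ Low D univ) :
    ∃ p' ∈ Low D univ, TExt D (lev A) univ p' p ∧
      ∀ i, ∀ l ∈ Low D (lev A), Le D (lev A) l p →
        ∃ l' ∈ Low D (lev A), Le D (lev A) l' l ∧ ∃ x, dec i (glue (lev A) l' p') x := by
  have hB := basicOn_univ hV
  have hc := lev_lower hA
  refine tail_fam hc isLowerSet_univ (subset_univ _) hB dec hn
    (fun j _ hj => (cl_lb hV (mem_univ j)).anti (hι _ hj)) (fun i q hq => ?_) hp
  exact full_mix hc isLowerSet_univ (subset_univ _) hB (mixCut_lev hV hA)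
    (fun r => ∃ x, dec i r x)
    (fun r hr r' hr' h ⟨x, hx⟩ => ⟨x, (hn i).mono r hr r' hr' h x hx⟩) hq q
    fun l hl _ => tail_core hV hA hZ (hn i) hq hl

end Pool.Agent.MP_a2558b_lc

end

section

namespace Pool.Agent.MP_a2558b_lc

open Cardinal hiding univ
open Set Base

universe u

variable {α τ Q Ω : Type u}

/-- Transport of a coordinate along codings of points and terms. -/
def Crd.tr (C : Crd α τ Q) (Lo : Set Q) (ja : α → Ω) (jt : τ → Ω) : Crd Ω Ω Q where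
  Pt := ja '' C.Pt
  T := jt '' C.T
  null E := C.null (C.Pt ∩ ja ⁻¹' E)
  y b := {s | ∃ a ∈ C.Pt, ja a = b ∧ s ∈ jt '' C.y a}
  le s' s q := q ∈ Lo ∧ ∃ t' ∈ C.T, ∃ t ∈ C.T, jt t' = s' ∧ jt t = s ∧ C.le t' t q

/-- The trivial coordinate. -/
def triv (Lo : Set Q) (o : Ω) : Crd Ω Ω Q where
  Pt := ∅
  T := {o}
  null _ := True
  y _ := ∅
  le s' s q := s' = o ∧ s = o ∧ q ∈ Lo

/-- A coordinate that lives on `z` and `Lo`. -/
structure Bnd (z : Set Ω) (Lo : Set Q) (C : Crd Ω Ω Q) : Prop where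
  pt : C.Pt ⊆ z
  t : C.T ⊆ z
  null : ∀ E, C.null E ↔ C.null (E ∩ z)
  y : ∀ b, C.y b ⊆ z
  y' : ∀ b, b ∉ z → C.y b = ∅
  le : ∀ s' s q, C.le s' s q → s' ∈ z ∧ s ∈ z ∧ q ∈ Lo

theorem mk_bnd (z : Set Ω) (Lo : Set Q) :
    #{C : Crd Ω Ω Q | Bnd z Lo C} ≤ 2 ^ (2 : Cardinal.{u}) ^ (#z + #Lo + ℵ₀) := by
  set k : Cardinal.{u} := #z + #Lo + ℵ₀ with hk
  have hk0 : ℵ₀ ≤ k := le_add_self
  have hz : #z ≤ k := le_self_add.trans le_self_add
  have hL : #Lo ≤ k := le_add_self.trans le_self_add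
  have mul : ∀ {L a b : Cardinal.{u}}, ℵ₀ ≤ L → a ≤ L → b ≤ L → a * b ≤ L :=
    fun h ha hb => (mul_le_mul' ha hb).trans (mul_eq_self h).le
  have pw : ∀ {a b : Cardinal.{u}}, a ≤ b → (2 : Cardinal.{u}) ^ a ≤ 2 ^ b :=
    fun h => power_le_power_left two_ne_zero h
  have up : ∀ {a : Cardinal.{u}}, a ≤ k → (2 : Cardinal.{u}) ^ a ≤ 2 ^ (2 : Cardinal.{u}) ^ k :=
    fun h => pw (h.trans (cantor k).le)
  have hK : ℵ₀ ≤ (2 : Cardinal.{u}) ^ (2 : Cardinal.{u}) ^ k :=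
    hk0.trans ((cantor k).le.trans (cantor _).le)
  let F : {C : Crd Ω Ω Q | Bnd z Lo C} →
      Set z × Set z × Set (Set z) × (z → Set z) × Set (z × z × Lo) := fun C =>
    (Subtype.val ⁻¹' C.1.Pt, Subtype.val ⁻¹' C.1.T, {E | C.1.null (Subtype.val '' E)},
      fun b => Subtype.val ⁻¹' C.1.y b.1, {x | C.1.le x.1.1 x.2.1.1 x.2.2.1})
  have pre : ∀ {A B : Set Ω}, A ⊆ z → B ⊆ z →
      (Subtype.val ⁻¹' A : Set z) = Subtype.val ⁻¹' B → A = B := by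
    intro A B hA hB h
    ext x
    exact ⟨fun hx => (Set.ext_iff.1 h ⟨x, hA hx⟩).1 hx, fun hx => (Set.ext_iff.1 h ⟨x, hB hx⟩).2 hx⟩
  have hF : Function.Injective F := by
    rintro ⟨⟨P, T, n, y, l⟩, h⟩ ⟨⟨P', T', n', y', l'⟩, h'⟩ e
    have h : Bnd z Lo ⟨P, T, n, y, l⟩ := h
    have h' : Bnd z Lo ⟨P', T', n', y', l'⟩ := h'
    simp only [F, Prod.mk.injEq] at e
    obtain ⟨e1, e2, e3, e4, e5⟩ := e
    have a1 : P = P' := pre h.pt h'.pt e1
    have a2 : T = T' := pre h.t h'.t e2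
    have a3 : n = n' := by
      funext E
      have := Set.ext_iff.1 e3 (Subtype.val ⁻¹' E)
      simp only [mem_ofPred_eq, Subtype.image_preimage_coe, inter_comm z E] at this
      exact propext ((h.null E).trans (this.trans (h'.null E).symm))
    have a4 : y = y' := by
      funext b
      by_cases hb : b ∈ z
      · exact pre (h.y b) (h'.y b) (congrFun e4 ⟨b, hb⟩)
      · exact (h.y' b hb).trans (h'.y' b hb).symm
    have a5 : l = l' := by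
      funext s' s q
      refine propext ⟨fun H => ?_, fun H => ?_⟩
      · obtain ⟨h1, h2, h3⟩ := h.le s' s q H
        exact (Set.ext_iff.1 e5 (⟨s', h1⟩, ⟨s, h2⟩, ⟨q, h3⟩)).1 H
      · obtain ⟨h1, h2, h3⟩ := h'.le s' s q H
        exact (Set.ext_iff.1 e5 (⟨s', h1⟩, ⟨s, h2⟩, ⟨q, h3⟩)).2 H
    subst a1 a2 a3 a4 a5
    rfl
  refine (mk_le_of_injective hF).trans ?_
  simp only [mk_prod, lift_id, mk_set, ← power_def]
  refine mul hK (up hz) (mul hK (up hz) (mul hK (pw (pw hz)) (mul hK ?_ (up ?_))))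
  · rw [← power_mul]
    exact up (mul hk0 hz hz)
  · exact mul hk0 hz (mul hk0 hz hL)

variable {C : Crd α τ Q} {Lo : Set Q} {R : Q → Q → Prop} {o : τ} {tp : Q} {ja : α → Ω}
  {jt : τ → Ω} {c : Cardinal.{u}}

theorem tr_le (ht : InjOn jt C.T) {t' t : τ} (h₁ : t' ∈ C.T) (h₂ : t ∈ C.T) {q : Q} (hq : q ∈ Lo) :
    (C.tr Lo ja jt).le (jt t') (jt t) q ↔ C.le t' t q := by
  refine ⟨?_, fun h => ⟨hq, t', h₁, t, h₂, rfl, rfl, h⟩⟩
  rintro ⟨-, a, ha, b, hb, e₁, e₂, h⟩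
  rwa [ht ha h₁ e₁, ht hb h₂ e₂] at h

theorem tr_basic (ha : InjOn ja C.Pt) (ht : InjOn jt C.T) (h : C.Basic Lo R o) :
    (C.tr Lo ja jt).Basic Lo R (jt o) := by
  refine ⟨mem_image_of_mem _ h.o_mem, ?_, ?_, ?_, ?_, ?_, ?_, ?_, ?_, ?_, ?_, ?_, ?_⟩
  · rintro b - s ⟨a, ha', -, t, ht', rfl⟩
    exact mem_image_of_mem _ (h.y_sub a ha' ht')
  · rintro _ ⟨t, ht', rfl⟩ q hq
    exact ⟨hq, t, ht', t, ht', rfl, rfl, h.refl t ht' q hq⟩
  · rintro x y w q hq ⟨-, a, ha', b, hb, rfl, rfl, h₁⟩ ⟨-, b', hb', d, hd, e, rfl, h₂⟩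
    rw [ht hb' hb e] at h₂
    exact ⟨hq, a, ha', d, hd, rfl, rfl, h.trans _ _ _ q hq h₁ h₂⟩
  · rintro x y q hq q' hq' hR ⟨-, a, ha', b, hb, rfl, rfl, h₁⟩
    exact ⟨hq', a, ha', b, hb, rfl, rfl, h.mono _ _ q hq q' hq' hR h₁⟩
  · rintro _ ⟨t, ht', rfl⟩ q hq
    exact ⟨hq, t, ht', o, h.o_mem, rfl, rfl, h.top t ht' q hq⟩
  · exact h.null_mono _ _ (fun a ha' => ha'.2) h.null_empty
  · intro E E' hE H
    refine h.null_mono _ _ (fun a ha' => ?_) H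
    exact ⟨ha'.1, hE ha'.2⟩
  · intro E E' H H'
    refine h.null_mono _ _ (fun a ha' => ?_) (h.null_union _ _ H H')
    exact ha'.2.elim (fun e => Or.inl ⟨ha'.1, e⟩) fun e => Or.inr ⟨ha'.1, e⟩
  · intro E H
    refine h.null_mono _ _ (fun a ha' => ?_) H
    exact ⟨ha'.1, ha'.2, mem_image_of_mem _ ha'.1⟩
  · intro E
    refine (h.ultra (C.Pt ∩ ja ⁻¹' E)).imp id fun H => h.null_mono _ _ (fun a ha' => ?_) H
    exact ⟨ha'.1, fun e => ha'.2.2 e.2⟩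
  · rintro _ ⟨t, ht', rfl⟩
    refine h.null_mono _ _ (fun a ha' => ?_) (h.fine t ht')
    exact ⟨ha'.1, fun e => ha'.2.2 ⟨a, ha'.1, rfl, mem_image_of_mem _ e⟩⟩
  · intro A f _ hn hf
    have : ∀ a, ∃ t, a ∈ C.Pt ∩ ja ⁻¹' A → t ∈ C.y a ∧ jt t = f (ja a) := by
      intro a
      by_cases e : a ∈ C.Pt ∩ ja ⁻¹' A
      · obtain ⟨a', ha', e', t, ht', e''⟩ := hf (ja a) e.2
        rw [ha ha' e.1 e'] at ht'
        exact ⟨t, fun _ => ⟨ht', e''⟩⟩
      · exact ⟨o, fun e' => absurd e' e⟩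
    choose g hg using this
    obtain ⟨t, H⟩ := h.normal _ g inter_subset_left hn fun a e => (hg a e).1
    refine ⟨jt t, fun H' => H (h.null_mono _ _ (fun a e => ?_) H')⟩
    exact ⟨e.1.1, e.1.2, by rw [← (hg a e.1).2, e.2]⟩

theorem tr_comp (h : C.Comp c) : (C.tr Lo ja jt).Comp c := by
  intro ι E hι H
  change C.null (C.Pt ∩ ja ⁻¹' ⋃ i, E i)
  rw [preimage_iUnion, inter_iUnion]
  exact h ι _ hι H

theorem tr_ndc (ha : InjOn ja C.Pt) (ht : InjOn jt C.T) (h : C.Basic Lo R o) (htp : tp ∈ Lo)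
    (h' : C.NDC Lo R tp c) : (C.tr Lo ja jt).NDC Lo R tp c := by
  have key : ∀ S ⊆ C.T, NDCOn C.le Lo R tp S c →
      NDCOn (C.tr Lo ja jt).le Lo R tp (jt '' S) c := by
    rintro S hS H ι t M _ hι ⟨t0, h0, rfl⟩ hm hM h₁ h₂
    choose v hv e using hm
    obtain rfl : t = fun i => jt (v i) := funext fun i => (e i).symm
    obtain ⟨s, hs, h₃, h₄⟩ := H ι v M t0 hι h0 hv hM
      (fun i q hq => (tr_le ht (hS (hv i)) (hS h0) ((hM i).1 hq)).1 (h₁ i q hq))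
      (fun i i' q hq hq' => by
        obtain ⟨q', hq'', hR, k, hk, a, b⟩ := h₂ i i' q hq hq'
        exact ⟨q', hq'', hR, k, hk, (tr_le ht (hS (hv k)) (hS (hv i)) hq'').1 a,
          (tr_le ht (hS (hv k)) (hS (hv i')) hq'').1 b⟩)
    exact ⟨jt s, mem_image_of_mem _ hs, (tr_le ht (hS hs) (hS h0) htp).2 h₃,
      fun i q hq => (tr_le ht (hS hs) (hS (hv i)) ((hM i).1 hq)).2 (h₄ i q hq)⟩
  refine ⟨key _ Subset.rfl h'.1, ?_⟩
  rintro _ ⟨a, ha', rfl⟩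
  have : (C.tr Lo ja jt).y (ja a) = jt '' C.y a := by
    ext s
    refine ⟨?_, fun hs => ⟨a, ha', rfl, hs⟩⟩
    rintro ⟨a', ha'', e, hs⟩
    rwa [ha ha'' ha' e] at hs
  rw [this]
  exact key _ (h.y_sub a ha') (h'.2 a ha')

theorem tr_act (ha : InjOn ja C.Pt) (h : C.Basic Lo R o) (h' : C.Act) : (C.tr Lo ja jt).Act := by
  refine ⟨fun H => h'.1 (h.null_mono _ _ (fun a e => ?_) H), fun b => ?_⟩
  · exact ⟨e, mem_image_of_mem _ e⟩
  by_cases e : ∃ a ∈ C.Pt, ja a = b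
  · obtain ⟨a, ha', rfl⟩ := e
    exact h.null_mono _ _ (fun x hx => ha hx.1 ha' hx.2) (h'.2 a)
  · exact h.null_mono _ _ (fun x hx => e ⟨x, hx.1, hx.2⟩) h.null_empty

theorem tr_bnd (h : C.Basic Lo R o) {z : Set Ω} (ha : ja '' C.Pt ⊆ z) (ht : jt '' C.T ⊆ z) :
    Bnd z Lo (C.tr Lo ja jt) := by
  refine ⟨ha, ht, fun E => ⟨fun H => h.null_mono _ _ (fun a e => ?_) H,
    fun H => h.null_mono _ _ (fun a e => ?_) H⟩, ?_, ?_, ?_⟩
  · exact ⟨e.1, e.2.1⟩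
  · exact ⟨e.1, e.2, ha (mem_image_of_mem _ e.1)⟩
  · rintro b _ ⟨a, ha', -, t, ht', rfl⟩
    exact ht (mem_image_of_mem _ (h.y_sub a ha' ht'))
  · intro b hb
    refine eq_empty_of_forall_notMem ?_
    rintro s ⟨a, ha', rfl, -⟩
    exact hb (ha (mem_image_of_mem _ ha'))
  · rintro _ _ q ⟨hq, a, ha', b, hb, rfl, rfl, -⟩
    exact ⟨ht (mem_image_of_mem _ ha'), ht (mem_image_of_mem _ hb), hq⟩

theorem triv_basic (o : Ω) : (triv Lo o).Basic Lo R o := by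
  refine ⟨rfl, fun _ h => h.elim, fun t ht q hq => ⟨ht, ht, hq⟩,
    fun _ _ _ _ hq h₁ h₂ => ⟨h₁.1, h₂.2.1, hq⟩, fun _ _ _ _ _ hq' _ h => ⟨h.1, h.2.1, hq'⟩,
    fun t ht q hq => ⟨ht, rfl, hq⟩, trivial, fun _ _ _ _ => trivial, fun _ _ _ _ => trivial,
    fun _ _ => trivial, fun _ => Or.inl trivial, fun _ _ => trivial,
    fun _ _ _ h => absurd trivial h⟩

theorem triv_comp (o : Ω) : (triv Lo o).Comp c := by
  exact fun _ _ _ _ => trivial

theorem triv_ndc (o : Ω) (htp : tp ∈ Lo) : (triv Lo o).NDC Lo R tp c := by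
  refine ⟨fun ι t M t0 _ h0 hm hM _ _ => ⟨o, rfl, ⟨rfl, h0, htp⟩, fun i q hq => ?_⟩,
    fun _ h => h.elim⟩
  exact ⟨rfl, hm i, (hM i).1 hq⟩

theorem triv_bnd {o : Ω} {z : Set Ω} (h : o ∈ z) : Bnd z Lo (triv Lo o) := by
  refine ⟨empty_subset _, singleton_subset_iff.2 h, fun _ => Iff.rfl, fun _ => empty_subset _,
    fun _ _ => rfl, ?_⟩
  rintro _ _ q ⟨rfl, rfl, hq⟩
  exact ⟨h, h, hq⟩

/-- A coding of a set into a large enough set, with one prescribed value. -/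
theorem exists_code {A : Set α} {z : Set Ω} {o : Ω} (ho : o ∈ z) (hz : #A ≤ #z) (a0 : α) :
    ∃ j : α → Ω, InjOn j A ∧ j '' A ⊆ z ∧ j a0 = o := by
  classical
  obtain ⟨e⟩ := (le_def _ _).1 hz
  let x : z := if h : a0 ∈ A then e ⟨a0, h⟩ else ⟨o, ho⟩
  let g : A → z := fun a => Equiv.swap x ⟨o, ho⟩ (e a)
  have hg : Function.Injective g := (Equiv.injective _).comp e.injective
  refine ⟨fun a => if h : a ∈ A then (g ⟨a, h⟩).1 else o, fun a ha b hb h => ?_, ?_, ?_⟩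
  · simp only [dif_pos ha, dif_pos hb] at h
    exact congrArg Subtype.val (hg (Subtype.ext h))
  · rintro _ ⟨a, ha, rfl⟩
    simp only [dif_pos ha]
    exact (g ⟨a, ha⟩).2
  · by_cases h : a0 ∈ A
    · simp only [dif_pos h, g, x, Equiv.swap_apply_left]
    · simp only [dif_neg h]

end Pool.Agent.MP_a2558b_lc

end

section

namespace Pool.Agent.MP_a2558b_lc

open Cardinal hiding univ
open Set

universe u

namespace Coll

variable {Q Ω : Type u} [LinearOrder Ω]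

/-- Terms for a bounded partial function from `mu` to `kap`. -/
structure IsTm (L : Set Q) (R : Q → Q → Prop) (mu kap : Ω) (v : Ω → Q → Ω → Prop) : Prop where
  supp : ∀ i q x, v i q x → i < mu ∧ q ∈ L ∧ x < kap
  mono : ∀ i q x, v i q x → ∀ q' ∈ L, R q' q → v i q' x
  func : ∀ i q x y, v i q x → v i q y → x = y
  bdd : ∀ q ∈ L, ∃ q' ∈ L, R q' q ∧ ∃ b < mu, ∀ i, b ≤ i → ∀ q'' ∈ L, R q'' q' → ∀ x, ¬ v i q'' x

def tle (L : Set Q) (R : Q → Q → Prop) (v' v : Ω → Q → Ω → Prop) (q : Q) : Prop :=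
  ∀ i, ∀ q' ∈ L, R q' q → ∀ x, v i q' x → ∃ q'' ∈ L, R q'' q' ∧ v' i q'' x

/-- The collapse coordinate on the terms themselves. -/
def C0 (L : Set Q) (R : Q → Q → Prop) (mu kap : Ω) : Crd Ω (Ω → Q → Ω → Prop) Q where
  Pt := ∅
  T := {v | IsTm L R mu kap v}
  null _ := True
  y _ := ∅
  le := tle L R

/-- The standing assumptions. -/
structure Hyp (L : Set Q) (R : Q → Q → Prop) (mu : Ω) : Prop where
  hr : ∀ p ∈ L, R p p
  ht : ∀ p ∈ L, ∀ q ∈ L, ∀ r ∈ L, R r q → R q p → R r p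
  ne : ∃ a, a < mu
  lim : ∀ a < mu, ∀ b < mu, ∃ c < mu, a < c ∧ b < c

variable {L : Set Q} {R : Q → Q → Prop} {mu kap : Ω}

theorem isTm_empty (H : Hyp L R mu) : IsTm L R mu kap (fun _ _ _ => False) := by
  refine ⟨fun _ _ _ h => h.elim, fun _ _ _ h => h.elim, fun _ _ _ _ h => h.elim, fun q hq => ?_⟩
  obtain ⟨a, ha⟩ := H.ne
  exact ⟨q, hq, H.hr q hq, a, ha, fun _ _ _ _ _ _ h => h⟩

theorem tle_of_sub (H : Hyp L R mu) {v' v : Ω → Q → Ω → Prop} {q : Q}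
    (h : ∀ i, ∀ q' ∈ L, R q' q → ∀ x, v i q' x → v' i q' x) : tle L R v' v q :=
  fun i q' hq' h' x hx => ⟨q', hq', H.hr q' hq', h i q' hq' h' x hx⟩

theorem basic (H : Hyp L R mu) : (C0 L R mu kap).Basic L R (fun _ _ _ => False) where
  o_mem := isTm_empty H
  y_sub _ h := h.elim
  refl _ _ _ _ := tle_of_sub H fun _ _ _ _ _ h => h
  trans a b c q hq h₁ h₂ i q' hq' h' x hx := by
    obtain ⟨q₂, hq₂, r₂, h₃⟩ := h₂ i q' hq' h' x hx
    obtain ⟨q₃, hq₃, r₃, h₄⟩ := h₁ i q₂ hq₂ (H.ht _ hq _ hq' _ hq₂ r₂ h') x h₃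
    exact ⟨q₃, hq₃, H.ht _ hq' _ hq₂ _ hq₃ r₃ r₂, h₄⟩
  mono a b q hq q' hq' r h i q₂ hq₂ r₂ := h i q₂ hq₂ (H.ht _ hq _ hq' _ hq₂ r₂ r)
  top _ _ _ _ _ _ _ _ _ h := h.elim
  null_empty := trivial
  null_mono _ _ _ _ := trivial
  null_union _ _ _ _ := trivial
  null_pt _ _ := trivial
  ultra _ := Or.inl trivial
  fine _ _ := trivial
  normal _ _ _ h _ := (h trivial).elim

/-- Values of comparable terms agree. -/
theorem agree {t t' : Ω → Q → Ω → Prop} (h' : IsTm L R mu kap t') {q : Q} (hq : q ∈ L)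
    (hr : R q q) (hle : tle L R t' t q) {i x y : Ω} (hx : t i q x) (hy : t' i q y) : x = y := by
  obtain ⟨q', hq', r, h⟩ := hle i q hq hr x hx
  exact h'.func i q' x y h (h'.mono i q y hy q' hq' r)

/-- The union of a family of terms along open sets. -/
def sup (L : Set Q) {ι : Type u} (t : ι → Ω → Q → Ω → Prop) (M : ι → Set Q)
    (t0 : Ω → Q → Ω → Prop) : Ω → Q → Ω → Prop :=
  fun i q x => q ∈ L ∧ (t0 i q x ∨ ∃ k, q ∈ M k ∧ t k i q x)

theorem sup_spec (H : Hyp L R mu) {ι : Type u} {t : ι → Ω → Q → Ω → Prop} {M : ι → Set Q}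
    {t0 : Ω → Q → Ω → Prop} (tp : Q) (h0 : IsTm L R mu kap t0) (ht : ∀ k, IsTm L R mu kap (t k))
    (hM : ∀ k, OpenIn L R (M k)) (hle : ∀ k, ∀ q ∈ M k, tle L R (t k) t0 q)
    (hf : ∀ k k' i q x y, q ∈ M k → q ∈ M k' → t k i q x → t k' i q y → x = y)
    (hb : ∀ q ∈ L, ∃ q' ∈ L, R q' q ∧ ∃ b < mu, ∀ i, b ≤ i → ∀ q'' ∈ L, R q'' q' →
      ∀ x, ¬ sup L t M t0 i q'' x) :
    ∃ s ∈ (C0 L R mu kap).T, (C0 L R mu kap).le s t0 tp ∧
      ∀ k, ∀ q ∈ M k, (C0 L R mu kap).le s (t k) q := by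
  refine ⟨sup L t M t0, ⟨?_, ?_, ?_, hb⟩, tle_of_sub H fun i q' hq' _ x hx => ⟨hq', Or.inl hx⟩,
    fun k q hq => tle_of_sub H fun i q' hq' r x hx =>
      ⟨hq', Or.inr ⟨k, (hM k).2 q hq q' hq' r, hx⟩⟩⟩
  · rintro i q x ⟨-, h | ⟨k, -, h⟩⟩
    exacts [h0.supp i q x h, (ht k).supp i q x h]
  · rintro i q x ⟨-, h | ⟨k, hk, h⟩⟩ q' hq' r
    exacts [⟨hq', Or.inl (h0.mono i q x h q' hq' r)⟩,
      ⟨hq', Or.inr ⟨k, (hM k).2 q hk q' hq' r, (ht k).mono i q x h q' hq' r⟩⟩]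
  · rintro i q x y ⟨hq, h | ⟨k, hk, h⟩⟩ ⟨-, h' | ⟨k', hk', h'⟩⟩
    · exact h0.func i q x y h h'
    · exact agree (ht k') hq (H.hr q hq) (hle k' q hk') h h'
    · exact (agree (ht k) hq (H.hr q hq) (hle k q hk) h' h).symm
    · exact hf k k' i q x y hk hk' h h'

theorem mix (H : Hyp L R mu) (tp : Q) : (C0 L R mu kap).Mix L R tp := by
  intro ι t M t0 h0 ht hM hle hd
  refine sup_spec H tp h0 ht hM hle (fun k k' i q x y hk hk' h h' => ?_) fun q hq => ?_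
  · obtain rfl := hd k k' q hk hk'
    exact (ht k).func i q x y h h'
  by_cases e : ∃ k, ∃ q' ∈ M k, R q' q
  · obtain ⟨k, q₁, hq₁, r₁⟩ := e
    have m₁ := (hM k).1 hq₁
    obtain ⟨q₂, m₂, r₂, b₂, hb₂, h₂⟩ := (ht k).bdd q₁ m₁
    obtain ⟨q₃, m₃, r₃, b₃, hb₃, h₃⟩ := h0.bdd q₂ m₂
    refine ⟨q₃, m₃, H.ht _ hq _ m₂ _ m₃ r₃ (H.ht _ hq _ m₁ _ m₂ r₂ r₁), max b₂ b₃,
      max_lt hb₂ hb₃, ?_⟩
    rintro i hi q₄ m₄ r₄ x ⟨-, h | ⟨k', hk', h⟩⟩
    · exact h₃ i ((le_max_right _ _).trans hi) q₄ m₄ r₄ x h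
    · have r := H.ht _ m₂ _ m₃ _ m₄ r₄ r₃
      obtain rfl := hd k k' q₄ ((hM k).2 q₁ hq₁ q₄ m₄ (H.ht _ m₁ _ m₂ _ m₄ r r₂)) hk'
      exact h₂ i ((le_max_left _ _).trans hi) q₄ m₄ r x h
  · obtain ⟨q₃, m₃, r₃, b₃, hb₃, h₃⟩ := h0.bdd q hq
    refine ⟨q₃, m₃, r₃, b₃, hb₃, ?_⟩
    rintro i hi q₄ m₄ r₄ x ⟨-, h | ⟨k', hk', -⟩⟩
    · exact h₃ i hi q₄ m₄ r₄ x h
    · exact e ⟨k', q₄, hk', H.ht _ hq _ m₃ _ m₄ r₄ r₃⟩

/-- Families of at most `c` names of elements below `mu` are forced to be bounded. -/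
def BddFam (L : Set Q) (R : Q → Q → Prop) (mu : Ω) (c : Cardinal.{u}) : Prop :=
  ∀ (ι : Type u), #ι ≤ c → ∀ Φ : ι → Q → Ω → Prop,
    (∀ i, ∀ q ∈ L, ∀ q' ∈ L, R q' q → ∀ b, Φ i q b → Φ i q' b) →
    (∀ i, ∀ q ∈ L, ∃ q' ∈ L, R q' q ∧ ∃ b < mu, Φ i q' b) →
    ∀ p ∈ L, ∃ p' ∈ L, R p' p ∧ ∃ b0 < mu, ∀ i, ∀ q ∈ L, R q p' →
      ∃ q' ∈ L, R q' q ∧ ∃ b < b0, Φ i q' b

theorem ndc (H : Hyp L R mu) (tp : Q) {c : Cardinal.{u}} (hc : ℵ₀ ≤ c) (hB : BddFam L R mu c) :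
    (C0 L R mu kap).NDC L R tp c := by
  refine ⟨?_, fun _ h => h.elim⟩
  intro ι t M t0 hι h0 ht hM hle hd
  refine sup_spec H tp h0 ht hM hle (fun k k' i q x y hk hk' h h' => ?_) fun q hq => ?_
  · have hq := (hM k).1 hk
    obtain ⟨q₁, m₁, r₁, k₁, -, l₁, l₂⟩ := hd k k' q hk hk'
    obtain ⟨q₂, m₂, r₂, h₂⟩ := l₁ i q₁ m₁ (H.hr _ m₁) x ((ht k).mono i q x h q₁ m₁ r₁)
    obtain ⟨q₃, m₃, r₃, h₃⟩ := l₂ i q₂ m₂ r₂ y
      ((ht k').mono i q y h' q₂ m₂ (H.ht _ hq _ m₁ _ m₂ r₂ r₁))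
    exact (ht k₁).func i q₃ x y ((ht k₁).mono i q₂ x h₂ q₃ m₃ r₃) h₃
  let t' : Option ι → Ω → Q → Ω → Prop := fun o => o.elim t0 t
  have ht' : ∀ o, IsTm L R mu kap (t' o) := by
    rintro (_ | k)
    exacts [h0, ht k]
  obtain ⟨p', hp', r', b0, hb0, h⟩ := hB (Option ι)
    (by rw [mk_option]; exact add_le_of_le hc hι (one_le_aleph0.trans hc))
    (fun o q b => ∀ i, b ≤ i → ∀ q'' ∈ L, R q'' q → ∀ x, ¬ t' o i q'' x)
    (fun o q hq q' hq' r b hb i hi q'' hq'' r'' => hb i hi q'' hq'' (H.ht _ hq _ hq' _ hq'' r'' r))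
    (fun o q hq => (ht' o).bdd q hq) q hq
  refine ⟨p', hp', r', b0, hb0, fun i hi q₁ m₁ r₁ x hx => ?_⟩
  obtain ⟨o, ho⟩ : ∃ o, t' o i q₁ x := by
    obtain ⟨-, hx | ⟨k, -, hx⟩⟩ := hx
    exacts [⟨none, hx⟩, ⟨some k, hx⟩]
  obtain ⟨q₂, m₂, r₂, b, hb, h₂⟩ := h o q₁ m₁ r₁
  exact h₂ i (hb.le.trans hi) q₂ m₂ (H.hr _ m₂) x ((ht' o).mono i q₁ x ho q₂ m₂ r₂)

/-- Adding one value. -/
theorem add (H : Hyp L R mu) {t : Ω → Q → Ω → Prop} (ht : IsTm L R mu kap t) {q : Q}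
    (hq : q ∈ L) {i ξ : Ω} (hi : i < mu) (hξ : ξ < kap)
    (hn : ∀ q' ∈ L, R q' q → ∀ x, ¬ t i q' x) :
    ∃ t', IsTm L R mu kap t' ∧ tle L R t' t q ∧ t' i q ξ := by
  refine ⟨fun j q' x => t j q' x ∨ (j = i ∧ q' ∈ L ∧ R q' q ∧ x = ξ), ⟨?_, ?_, ?_, ?_⟩,
    tle_of_sub H fun _ _ _ _ _ h => Or.inl h, Or.inr ⟨rfl, hq, H.hr q hq, rfl⟩⟩
  · rintro j q' x (h | ⟨rfl, h₁, -, rfl⟩)
    exacts [ht.supp j q' x h, ⟨hi, h₁, hξ⟩]
  · rintro j q' x (h | ⟨rfl, h₁, h₂, rfl⟩) q'' hq'' r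
    exacts [Or.inl (ht.mono j q' x h q'' hq'' r),
      Or.inr ⟨rfl, hq'', H.ht _ hq _ h₁ _ hq'' r h₂, rfl⟩]
  · rintro j q' x y (h | ⟨rfl, h₁, h₂, rfl⟩) (h' | ⟨e, h₃, h₄, rfl⟩)
    · exact ht.func j q' x y h h'
    · subst e; exact (hn q' h₃ h₄ x h).elim
    · exact (hn q' h₁ h₂ y h').elim
    · rfl
  · intro q₁ m₁
    obtain ⟨q₂, m₂, r₂, b, hb, h⟩ := ht.bdd q₁ m₁
    obtain ⟨c, hc, h₁, h₂⟩ := H.lim b hb i hi
    refine ⟨q₂, m₂, r₂, c, hc, ?_⟩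
    rintro j hj q₃ m₃ r₃ x (h' | ⟨rfl, -⟩)
    · exact h j (h₁.le.trans hj) q₃ m₃ r₃ x h'
    · exact absurd h₂ (not_lt.2 hj)

theorem col₂ (H : Hyp L R mu) {t : Ω → Q → Ω → Prop} (ht : IsTm L R mu kap t) {q : Q}
    (hq : q ∈ L) {ξ : Ω} (hξ : ξ < kap) :
    ∃ q' ∈ L, R q' q ∧ ∃ t', IsTm L R mu kap t' ∧ ∃ i < mu, tle L R t' t q' ∧ t' i q' ξ := by
  obtain ⟨q', hq', r, b, hb, h⟩ := ht.bdd q hq
  obtain ⟨t', h₁, h₂, h₃⟩ := add H ht hq' hb hξ (h b le_rfl)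
  exact ⟨q', hq', r, t', h₁, b, hb, h₂, h₃⟩

theorem col₃ (H : Hyp L R mu) (hk : mu < kap) {t : Ω → Q → Ω → Prop} (ht : IsTm L R mu kap t)
    {q : Q} (hq : q ∈ L) {i : Ω} (hi : i < mu) :
    ∃ q' ∈ L, R q' q ∧ ∃ t', IsTm L R mu kap t' ∧ ∃ ξ, tle L R t' t q' ∧ t' i q' ξ := by
  by_cases e : ∀ q' ∈ L, R q' q → ∀ x, ¬ t i q' x
  · obtain ⟨t', h₁, h₂, h₃⟩ := add H ht hq hi hk e
    exact ⟨q, hq, H.hr q hq, t', h₁, mu, h₂, h₃⟩
  · push Not at e
    obtain ⟨q', hq', r, x, hx⟩ := e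
    exact ⟨q', hq', r, t, ht, x, tle_of_sub H fun _ _ _ _ _ h => h, hx⟩

/-- Counting the terms. -/
theorem size {κ : Cardinal.{u}} (hκ : κ.IsInaccessible) (hL : #L < κ) (hmu : #(Iio mu) < κ)
    (hkap : #(Iio kap) ≤ κ) : #(C0 L R mu kap).T ≤ κ := by
  let A := (Iio mu × L × Iio kap) ⊕ κ.out
  have h0 : ℵ₀ ≤ κ := hκ.aleph0_lt.le
  have hA : #A = κ := by
    refine le_antisymm ?_ ?_
    · simp only [A, mk_sum, mk_prod, lift_id, mk_out]
      exact add_le_of_le h0 (mul_le_of_le h0 hmu.le (mul_le_of_le h0 hL.le hkap)) le_rfl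
    · simp only [A, mk_sum, lift_id, mk_out]
      exact le_add_self
  have hs := mk_subset_mk_lt_cof (α := A) (by rw [hA]; exact hκ.isStrongPrelimit)
  let g : (Ω → Q → Ω → Prop) → Set (Iio mu × L × Iio kap) := fun v => {w | v w.1 w.2.1 w.2.2}
  have hg : ∀ v ∈ (C0 L R mu kap).T, #(Sum.inl '' g v : Set A) < Ordinal.cof (#A).ord := by
    intro v hv
    rw [hA]
    refine lt_of_lt_of_le ?_ hκ.le_cof_ord
    refine (mk_image_le.trans ?_).trans_lt (mul_lt_of_lt h0 hmu hL)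
    have : #(Iio mu) * #L = #(Iio mu × L) := by simp
    rw [this]
    refine mk_le_of_injective (f := fun w : g v => (w.1.1, w.1.2.1)) ?_
    rintro ⟨⟨i, q, x⟩, h⟩ ⟨⟨i', q', x'⟩, h'⟩ e
    obtain ⟨rfl, rfl⟩ := Prod.mk.inj e
    obtain rfl : x = x' := Subtype.ext (IsTm.func hv _ _ _ _ h h')
    rfl
  rw [← hA, ← hs]
  refine mk_le_of_injective (f := fun v : (C0 L R mu kap).T =>
    (⟨Sum.inl '' g v.1, hg v.1 v.2⟩ : {s : Set A // #s < Ordinal.cof (#A).ord})) ?_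
  rintro ⟨v, hv⟩ ⟨v', hv'⟩ e
  have e' : g v = g v' := (image_injective.2 Sum.inl_injective) (congrArg Subtype.val e)
  have key : ∀ {v v'}, IsTm L R mu kap v → g v = g v' → ∀ i q x, v i q x → v' i q x := by
    intro v v' hv e i q x h
    obtain ⟨h₁, h₂, h₃⟩ := hv.supp i q x h
    have : (⟨⟨i, h₁⟩, ⟨q, h₂⟩, ⟨x, h₃⟩⟩ : Iio mu × L × Iio kap) ∈ g v := h
    rw [e] at this
    exact this
  refine Subtype.ext (funext fun i => funext fun q => funext fun x => propext ⟨?_, ?_⟩)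
  exacts [key hv e' i q x, key hv' e'.symm i q x]

omit [LinearOrder Ω] in
theorem tr_mix {α τ : Type u} {C : Crd α τ Q} {ja : α → Ω} {jt : τ → Ω} {tp : Q}
    (hj : InjOn jt C.T) (htp : tp ∈ L) (h : C.Mix L R tp) : (C.tr L ja jt).Mix L R tp := by
  intro ι t M t0 h0 ht hM hle hd
  obtain ⟨u0, hu0, rfl⟩ := h0
  choose u hu e using ht
  obtain rfl : t = fun i => jt (u i) := funext fun i => (e i).symm
  obtain ⟨s, hs, h₁, h₂⟩ := h ι u M u0 hu0 hu hM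
    (fun i q hq => (tr_le hj (hu i) hu0 ((hM i).1 hq)).1 (hle i q hq)) hd
  exact ⟨jt s, ⟨s, hs, rfl⟩, (tr_le hj hs hu0 htp).2 h₁,
    fun i q hq => (tr_le hj hs (hu i) ((hM i).1 hq)).2 (h₂ i q hq)⟩

end Coll

end Pool.Agent.MP_a2558b_lc

end

section

namespace Pool.Agent.MP_a2558b_lc

open Cardinal hiding univ
open Set Base

universe u

variable {Θ Ω : Type u} [LinearOrder Θ] [WellFoundedLT Θ] [LinearOrder Ω] [WellFoundedLT Ω]
  [Inhabited Ω] {X : Ctx Θ Ω} {D : Sys (JJ Θ) Ω} {β : Θ} {k : Θ → Cardinal.{u}}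

/-- The cofinality of `mu β` is preserved below the collapse coordinate. -/
theorem bdd_mu (hV : Valid X D (Iio β)) (hk : NOK X D β k) {ι : Type u} (hι : #ι ≤ X.lb β)
    (Φ : ι → Cnd (JJ Θ) Ω → Ω → Prop)
    (mono : ∀ i, ∀ q ∈ Low D (levC β), ∀ q' ∈ Low D (levC β), Le D (levC β) q' q →
      ∀ b, Φ i q b → Φ i q' b)
    (dense : ∀ i, ∀ q ∈ Low D (levC β), ∃ q' ∈ Low D (levC β), Le D (levC β) q' q ∧
      ∃ b < X.mu β, Φ i q' b)
    {p : Cnd (JJ Θ) Ω} (hp : p ∈ Low D (levC β)) :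
    ∃ p' ∈ Low D (levC β), Le D (levC β) p' p ∧ ∃ b0 < X.mu β, ∀ i, ∀ q ∈ Low D (levC β),
      Le D (levC β) q p' → ∃ q' ∈ Low D (levC β), Le D (levC β) q' q ∧ ∃ b < b0, Φ i q' b := by
  have hd := levC_lower β
  have hc := levIio_lower β
  have hcd := levIio_sub_levC β
  have hB := basicOn_levC hV hk
  have hB0 := hB.anti hcd
  have : Nonempty (Iio (X.mu β)) := ⟨⟨X.w1, X.w1_mu β⟩⟩
  choose dec hn hdec using fun i => exists_nm (X := Iio (X.mu β)) (refl_on hd hB) (trans_on hd hB)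
    (fun q b => Φ i q b.1) (fun p hp q hq h x => mono i p hp q hq h x.1) ctop (ctop_mem hB)
    (fun p hp _ => by
      obtain ⟨q, hq, h, b, hb, h'⟩ := dense i p hp
      exact ⟨q, hq, h, ⟨b, hb⟩, h'⟩)
  obtain ⟨p1, hp1, hT, H1⟩ := seg_tail_fam hV hk (X.mk_mu β).le (hι.trans (Order.le_succ _))
    dec hn hp
  have hl0 := res_mem hp hcd
  choose dec' hn' hdec' using fun i => exists_nm (X := Iio (X.mu β)) (refl_on hc hB0)
    (trans_on hc hB0) (fun l x => dec i (glue (lev (Iio β)) l p1) x)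
    (fun l hl l' hl' h x => (hn i).mono _ (glue_mem' hl hcd hp1) _ (glue_mem' hl' hcd hp1)
      (glue_le_glue hd hB hc (glue_mem' hl' hcd hp1) h
        fun j hj _ => TDir.refl hd hB hj hp1 rfl) x)
    (res (lev (Iio β)) p) hl0
    (fun l hl h => H1 i l hl ((le_res_right hc Subset.rfl).1 h))
  obtain ⟨l1, hl1, r1, V, hV', H2⟩ := low_cov hV hι dec' hn' hl0
  obtain ⟨b0, hb0, H3⟩ := X.mu_bdd β (Subtype.val '' V) (by rintro _ ⟨x, -, rfl⟩; exact x.2)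
    (mk_image_le.trans hV')
  have hm := glue_mem' hl1 hcd hp1
  refine ⟨_, hm, Le.trans hd hB hp1 hm (glue_le hd hB hc hm ?_) (hT.le hd hB hp1), b0, hb0,
    fun i q hq hqp => ?_⟩
  · exact (le_congr hc (fun _ _ => rfl) hT.1).2 ((le_res_right hc Subset.rfl).1 r1)
  have hq0 := res_mem hq hcd
  have r2 : Le D (lev (Iio β)) (res (lev (Iio β)) q) l1 :=
    (le_res_left hc Subset.rfl).2 ((le_glue_right hc Subset.rfl).1 (hqp.anti hcd))
  obtain ⟨r, hr, r3, x, hx⟩ := (hn' i).dense _ hq0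
  have r4 := Le.trans hc hB0 hq0 hr r3 r2
  obtain ⟨r', hr', r5, hx'⟩ := hdec' i r hr (Le.trans hc hB0 hl1 hr r4 r1) x hx r hr
    (Le.refl hc hB0 hr)
  have r6 : Le D (lev (Iio β)) r' q :=
    (le_res_right hc Subset.rfl).1 (Le.trans hc hB0 hr hr' r5 r3)
  have hm' := glue_mem' hr' hcd hq
  have r7 := glue_le_glue' (u := p1) hd hB hc hcd hr' hq r6 fun j hj e =>
    (leAt_congr rfl (fun _ _ => rfl) (glue_of_notMem e)).1 (hqp j hj)
  obtain ⟨s, hs, r8, h⟩ := hdec i _ hm' (le_ctop hd hB hm') x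
    ((hn i).mono _ (glue_mem' hr' hcd hp1) _ hm' r7 x hx') _ hm' (Le.refl hd hB hm')
  exact ⟨s, hs, Le.trans hd hB hm' hs r8 (glue_le hd hB hc hm' r6), x.1,
    H3 _ ⟨x, H2 i x r hr r4 hx, rfl⟩, h⟩

/-- The term order of the collapse of `κ β` to `mu β`. -/
theorem exists_C (hV : Valid X D (Iio β)) (hk : NOK X D β k) :
    ∃ C, COK X β C (Low D (levC β)) (Le D (levC β)) := by
  have hd := levC_lower β
  have hB := basicOn_levC hV hk
  have H : Coll.Hyp (Low D (levC β)) (Le D (levC β)) (X.mu β) := by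
    refine ⟨refl_on hd hB, trans_on hd hB, ⟨X.w1, X.w1_mu β⟩, fun a ha b hb => ?_⟩
    obtain ⟨c, hc, h⟩ := X.mu_bdd β {a, b} (by rintro _ (rfl | rfl); exacts [ha, hb])
      (((toFinite _).lt_aleph0).le.trans (X.aleph0_le_lb β))
    exact ⟨c, hc, h a (Or.inl rfl), h b (Or.inr rfl)⟩
  have hsz := Coll.size (R := Le D (levC β)) (X.inacc β) (mk_low_levC hk)
    (mu := X.mu β) (by rw [X.mk_mu]; exact X.lb_lt β) (X.mk_kap β).le
  obtain ⟨jt, hj, -, ho⟩ := exists_code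
    (A := (Coll.C0 (Low D (levC β)) (Le D (levC β)) (X.mu β) (X.kap β)).T) (z := univ)
    (o := (default : Ω)) trivial
    (hsz.trans ((X.mk_kap β).ge.trans (mk_le_mk_of_subset (subset_univ _)))) fun _ _ _ => False
  have hb := Coll.basic (kap := X.kap β) H
  have ha : InjOn (id : Ω → Ω)
    (Coll.C0 (Low D (levC β)) (Le D (levC β)) (X.mu β) (X.kap β)).Pt := injOn_id _
  refine ⟨(Coll.C0 (Low D (levC β)) (Le D (levC β)) (X.mu β) (X.kap β)).tr (Low D (levC β)) id jt,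
    ho ▸ tr_basic ha hj hb, image_empty _, fun _ => trivial,
    tr_ndc ha hj hb (ctop_mem hB) (Coll.ndc H _ (X.aleph0_le_lb β)
      fun ι hι Φ h₁ h₂ p hp => bdd_mu hV hk hι Φ h₁ h₂ hp),
    Coll.tr_mix hj (ctop_mem hB) (Coll.mix H _), mk_image_le.trans hsz,
    fun s i q ξ => ∃ t, Coll.IsTm (Low D (levC β)) (Le D (levC β)) (X.mu β) (X.kap β) t ∧
      jt t = s ∧ t i q ξ, ?_, ?_, ?_⟩
  · rintro _ _ i ξ ξ' q hq q' hq' - - r ⟨t, ht, rfl, h⟩ hle ⟨t', ht', rfl, h'⟩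
    exact Coll.agree ht' hq' (H.hr _ hq') ((tr_le hj ht' ht hq').1 hle)
      (ht.mono i q ξ h q' hq' r) h'
  · rintro _ ⟨t, ht, rfl⟩ q hq ξ hξ
    obtain ⟨q', hq', r, t', ht', i, hi, h₁, h₂⟩ := Coll.col₂ H ht hq hξ
    exact ⟨q', hq', r, jt t', ⟨t', ht', rfl⟩, i, hi, (tr_le hj ht' ht hq').2 h₁, t', ht', rfl, h₂⟩
  · rintro _ ⟨t, ht, rfl⟩ q hq i hi
    obtain ⟨q', hq', r, t', ht', ξ, h₁, h₂⟩ := Coll.col₃ H (X.mu_kap β) ht hq hi
    exact ⟨q', hq', r, jt t', ⟨t', ht', rfl⟩, ξ, (tr_le hj ht' ht hq').2 h₁, t', ht', rfl, h₂⟩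

end Pool.Agent.MP_a2558b_lc

end

section

namespace Pool.Agent.MP_a2558b_lc

open Cardinal hiding univ
open Set Base

universe u

variable {κ : Cardinal.{u}} {Y α τ Q γ : Type u}

/-- The reflection of a coordinate to `x`. -/
def Crd.rf (C : Crd α τ Q) (ia : α → Y) (it : τ → Y) (ie : Set α → Y) (x : Set Y) :
    Crd α τ Q where
  Pt := cut ia x C.Pt
  T := cut it x C.T
  null E := ∃ E', ie E' ∈ x ∧ C.null E' ∧ E ∩ cut ia x C.Pt ⊆ E'
  y a := cut it x (C.y a)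
  le := C.le

variable (S : SCM κ Y) {C : Crd α τ Q} {ia : α → Y} {it : τ → Y} {ie : Set α → Y}
  {Lo : Set Q} {R : Q → Q → Prop} {o : τ} {tp : Q}

/-- A statement about all objects holds almost everywhere once it holds along every choice. -/
theorem rf_ev_all {X β : Type*} [Nonempty β] {F : Filter X} {Φ : β → X → Prop}
    (h : ∀ f : X → β, ∀ᶠ x in F, Φ (f x) x) : ∀ᶠ x in F, ∀ b, Φ b x := by
  classical
  have H : ∀ x, ∃ b, Φ b x → ∀ b', Φ b' x := by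
    intro x
    by_cases hx : ∀ b', Φ b' x
    · exact ⟨Classical.arbitrary β, fun _ => hx⟩
    · obtain ⟨b, hb⟩ := not_forall.1 hx
      exact ⟨b, fun h' => absurd h' hb⟩
  choose f hf using H
  exact (h f).mono fun x hx => hf x hx

theorem rf_null_mono {x : Set Y} {E E' : Set α} (hE : E' ⊆ E) (h : (C.rf ia it ie x).null E) :
    (C.rf ia it ie x).null E' := by
  obtain ⟨F, h₁, h₂, h₃⟩ := h
  exact ⟨F, h₁, h₂, fun a ha => h₃ ⟨hE ha.1, ha.2⟩⟩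

/-- The reflected ideal agrees with the ideal on limits of families of sets. -/
theorem rf_null_iff (he : Function.Injective ie) (h : C.Basic Lo R o) {b : Set Y → Set α}
    {b0 : Set α}
    (hb : ∀ᶠ x in (S.U : Filter (Set Y)), ∀ a, ia a ∈ x → (a ∈ b x ↔ a ∈ b0)) :
    ∀ᶠ x in (S.U : Filter (Set Y)), ((C.rf ia it ie x).null (b x) ↔ C.null b0) := by
  by_cases h0 : C.null b0
  · filter_upwards [hb, S.fine (ie b0)] with x hx hx'
    exact ⟨fun _ => h0, fun _ => ⟨b0, hx', h0, fun a ha => (hx a ha.2.2).1 ha.1⟩⟩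
  · have H : ∀ E' : Set α, ∀ᶠ x in (S.U : Filter (Set Y)),
        C.null E' → ∃ a ∈ b0, a ∈ C.Pt ∧ a ∉ E' ∧ ia a ∈ x := by
      intro E'
      by_cases hE : C.null E'
      · have : ¬ (b0 ∩ C.Pt ⊆ E') := fun hs => h0 (h.null_pt _ (h.null_mono _ _ hs hE))
        obtain ⟨a, ha, ha'⟩ := not_subset.1 this
        filter_upwards [S.fine (ia a)] with x hx _
        exact ⟨a, ha.1, ha.2, ha', hx⟩
      · exact Filter.Eventually.of_forall fun x h' => absurd h' hE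
    filter_upwards [hb, S.diag he H] with x hx hx'
    refine ⟨?_, fun h' => absurd h' h0⟩
    rintro ⟨E', h₁, h₂, h₃⟩
    obtain ⟨a, a₁, a₂, a₃, a₄⟩ := hx' E' h₁ h₂
    exact absurd (h₃ ⟨(hx a a₄).2 a₁, a₂, a₄⟩) a₃

theorem rf_union (ha : Function.Injective ia) (he : Function.Injective ie) (h : C.Basic Lo R o) :
    ∀ᶠ x in (S.U : Filter (Set Y)), ∀ p : Set α × Set α, (C.rf ia it ie x).null p.1 →
      (C.rf ia it ie x).null p.2 → (C.rf ia it ie x).null (p.1 ∪ p.2) := by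
  refine rf_ev_all fun f => ?_
  obtain ⟨b₁, h₁⟩ := S.los_set ha fun x => (f x).1
  obtain ⟨b₂, h₂⟩ := S.los_set ha fun x => (f x).2
  have h₃ : ∀ᶠ x in (S.U : Filter (Set Y)), ∀ a, ia a ∈ x →
      (a ∈ (f x).1 ∪ (f x).2 ↔ a ∈ b₁ ∪ b₂) := by
    filter_upwards [h₁, h₂] with x e₁ e₂ a hx
    exact or_congr (e₁ a hx) (e₂ a hx)
  filter_upwards [rf_null_iff (it := it) S he h h₁, rf_null_iff (it := it) S he h h₂,
    rf_null_iff (it := it) S he h h₃] with x e₁ e₂ e₃ n₁ n₂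
  exact e₃.2 (h.null_union _ _ (e₁.1 n₁) (e₂.1 n₂))

theorem rf_ultra (ha : Function.Injective ia) (he : Function.Injective ie) (h : C.Basic Lo R o) :
    ∀ᶠ x in (S.U : Filter (Set Y)), ∀ E : Set α, (C.rf ia it ie x).null E ∨
      (C.rf ia it ie x).null ((C.rf ia it ie x).Pt \ E) := by
  refine rf_ev_all fun f => ?_
  obtain ⟨b, h₁⟩ := S.los_set ha f
  have h₂ : ∀ᶠ x in (S.U : Filter (Set Y)), ∀ a, ia a ∈ x →
      (a ∈ (C.rf ia it ie x).Pt \ f x ↔ a ∈ C.Pt \ b) := by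
    filter_upwards [h₁] with x e₁ a hx
    exact ⟨fun H => ⟨H.1.1, fun H' => H.2 ((e₁ a hx).2 H')⟩,
      fun H => ⟨⟨H.1, hx⟩, fun H' => H.2 ((e₁ a hx).1 H')⟩⟩
  filter_upwards [rf_null_iff (it := it) S he h h₁, rf_null_iff (it := it) S he h h₂]
    with x e₁ e₂
  exact (h.ultra b).imp e₁.2 e₂.2

theorem rf_fine (ht : Function.Injective it) (h : C.Basic Lo R o) :
    ∀ᶠ x in (S.U : Filter (Set Y)), ∀ t ∈ (C.rf ia it ie x).T,
      (C.rf ia it ie x).null {a ∈ (C.rf ia it ie x).Pt | t ∉ (C.rf ia it ie x).y a} := by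
  have H : ∀ t : τ, ∀ᶠ x in (S.U : Filter (Set Y)), ie {a ∈ C.Pt | t ∉ C.y a} ∈ x :=
    fun t => S.fine _
  filter_upwards [S.diag ht H] with x hx t htx
  exact ⟨_, hx t htx.2, h.fine t htx.1, fun a ha => ⟨ha.2.1, fun H' => ha.1.2 ⟨H', htx.2⟩⟩⟩

theorem rf_normal (ha : Function.Injective ia) (ht : Function.Injective it)
    (he : Function.Injective ie) (h : C.Basic Lo R o) :
    ∀ᶠ x in (S.U : Filter (Set Y)), ∀ p : Set α × (α → τ), p.1 ⊆ (C.rf ia it ie x).Pt →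
      ¬ (C.rf ia it ie x).null p.1 → (∀ a ∈ p.1, p.2 a ∈ (C.rf ia it ie x).y a) →
      ∃ t, ¬ (C.rf ia it ie x).null {a ∈ p.1 | p.2 a = t} := by
  have : Nonempty τ := ⟨o⟩
  refine rf_ev_all fun f => ?_
  obtain ⟨A, h₁⟩ := S.los_set ha fun x => (f x).1
  have Hg : ∀ a : α, ∃ t, ∀ᶠ x in (S.U : Filter (Set Y)),
      it ((f x).2 a) ∈ x → (f x).2 a = t := by
    intro a
    by_cases hc : ∀ᶠ x in (S.U : Filter (Set Y)), it ((f x).2 a) ∈ x
    · obtain ⟨t, htc⟩ := S.const_in ht (fun x => (f x).2 a) hc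
      exact ⟨t, htc.mono fun x hx _ => hx⟩
    · exact ⟨o, (Ultrafilter.eventually_not.2 hc).mono fun x hx h' => absurd h' hx⟩
  choose g hg using Hg
  have hg' := S.diag ha hg
  by_cases h0 : C.null {a ∈ A | a ∈ C.Pt ∧ g a ∈ C.y a}
  · filter_upwards [h₁, hg', S.fine (ie {a ∈ A | a ∈ C.Pt ∧ g a ∈ C.y a})]
      with x e₁ e₂ e₃ _ p₂ p₃
    refine absurd ⟨_, e₃, h0, fun a ha' => ⟨(e₁ a ha'.2.2).1 ha'.1, ha'.2.1, ?_⟩⟩ p₂
    have := p₃ a ha'.1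
    rw [← e₂ a ha'.2.2 this.2]
    exact this.1
  · obtain ⟨t, ht'⟩ := h.normal _ g (fun a ha' => ha'.2.1) h0 fun a ha' => ha'.2.2
    have h₂ : ∀ᶠ x in (S.U : Filter (Set Y)), ∀ a, ia a ∈ x →
        (a ∈ {a ∈ {a ∈ (f x).1 | a ∈ C.Pt ∧ g a ∈ C.y a} | g a = t} ↔
          a ∈ {a ∈ {a ∈ A | a ∈ C.Pt ∧ g a ∈ C.y a} | g a = t}) := by
      filter_upwards [h₁] with x e₁ a hx
      exact and_congr (and_congr (e₁ a hx) Iff.rfl) Iff.rfl
    filter_upwards [hg', rf_null_iff (it := it) S he h h₂] with x e₂ e₃ p₁ _ p₃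
    refine ⟨t, fun hn => ht' (e₃.1 (rf_null_mono ?_ hn))⟩
    intro a ha'
    refine ⟨ha'.1.1, ?_⟩
    rw [e₂ a (p₁ ha'.1.1).2 (p₃ a ha'.1.1).2]
    exact ha'.2

theorem rf_basic (ha : Function.Injective ia) (ht : Function.Injective it)
    (he : Function.Injective ie) (h : C.Basic Lo R o) :
    ∀ᶠ x in (S.U : Filter (Set Y)), (C.rf ia it ie x).Basic Lo R o := by
  filter_upwards [S.fine (it o), S.fine (ie ∅), rf_union (it := it) S ha he h,
    rf_ultra (it := it) S ha he h, rf_fine (ia := ia) (ie := ie) S ht h, rf_normal S ha ht he h]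
    with x e₁ e₂ e₃ e₄ e₅ e₆
  exact
    { o_mem := ⟨h.o_mem, e₁⟩
      y_sub := fun a ha' t ht' => ⟨h.y_sub a ha'.1 ht'.1, ht'.2⟩
      refl := fun t ht' => h.refl t ht'.1
      trans := h.trans
      mono := h.mono
      top := fun t ht' => h.top t ht'.1
      null_empty := ⟨∅, e₂, h.null_empty, fun a ha' => ha'.1⟩
      null_mono := fun _ _ => rf_null_mono
      null_union := fun E E' => e₃ (E, E')
      null_pt := by
        rintro E ⟨F, h₁, h₂, h₃⟩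
        exact ⟨F, h₁, h₂, fun a ha' => h₃ ⟨ha', ha'.2⟩⟩
      ultra := e₄
      fine := e₅
      normal := fun A f => e₆ (A, f) }

theorem rf_act (ha : Function.Injective ia) (he : Function.Injective ie) (h : C.Basic Lo R o)
    (h' : C.Act) : ∀ᶠ x in (S.U : Filter (Set Y)), (C.rf ia it ie x).Act := by
  have h₁ : ∀ᶠ x in (S.U : Filter (Set Y)), ∀ a, ia a ∈ x →
      (a ∈ (C.rf ia it ie x).Pt ↔ a ∈ C.Pt) :=
    Filter.Eventually.of_forall fun x a hx => ⟨fun H => H.1, fun H => ⟨H, hx⟩⟩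
  have H : ∀ a : α, ∀ᶠ x in (S.U : Filter (Set Y)), ie {a} ∈ x := fun a => S.fine _
  filter_upwards [rf_null_iff (it := it) S he h h₁, S.diag ha H, S.fine (ie ∅)] with x e₁ e₂ e₃
  refine ⟨fun hn => h'.1 (e₁.1 hn), fun a => ?_⟩
  by_cases hx : ia a ∈ x
  · exact ⟨{a}, e₂ a hx, h'.2 a, fun b hb => hb.1⟩
  · refine ⟨∅, e₃, h.null_empty, fun b hb => hx ?_⟩
    have : b = a := hb.1
    exact this ▸ hb.2.2

theorem rf_comp (ha : Function.Injective ia) (he : Function.Injective ie) (h : C.Basic Lo R o)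
    {e : γ → Y} (hi : Function.Injective e) {Z : Set γ} (h' : C.Comp #Z) :
    ∀ᶠ x in (S.U : Filter (Set Y)), (C.rf ia it ie x).Comp #(cut e x Z) := by
  classical
  have H : ∀ᶠ x in (S.U : Filter (Set Y)), ∀ E : γ → Set α,
      (∀ z ∈ cut e x Z, (C.rf ia it ie x).null (E z)) →
        (C.rf ia it ie x).null {a | ∃ z ∈ cut e x Z, a ∈ E z} := by
    refine rf_ev_all fun f => ?_
    choose E0 hE0 using fun z => S.los_set ha fun x => f x z
    have hF : C.null (⋃ z : Z, if C.null (E0 z) then E0 z else ∅) := by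
      refine h' Z _ le_rfl fun z => ?_
      split_ifs with hz
      exacts [hz, h.null_empty]
    filter_upwards [S.diag hi hE0, S.diag hi fun z => rf_null_iff (it := it) S he h (hE0 z),
      S.fine (ie (⋃ z : Z, if C.null (E0 z) then E0 z else ∅))] with x e₁ e₂ e₃ hn
    refine ⟨_, e₃, hF, ?_⟩
    rintro a ⟨⟨z, hz, haz⟩, hax⟩
    refine mem_iUnion.2 ⟨⟨z, hz.1⟩, ?_⟩
    rw [if_pos ((e₂ z hz.2).1 (hn z hz))]
    exact (e₁ z hz.2 a hax.2).1 haz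
  filter_upwards [H, S.fine (ie ∅)] with x e₁ e₂ ι E hι hE
  obtain ⟨j⟩ := (Cardinal.le_def _ _).1 hι
  refine rf_null_mono ?_ (e₁ (fun z => {a | ∃ i, (j i).1 = z ∧ a ∈ E i}) fun z _ => ?_)
  · intro a ha'
    obtain ⟨i, hi'⟩ := mem_iUnion.1 ha'
    exact ⟨(j i).1, (j i).2, i, rfl, hi'⟩
  · by_cases hz : ∃ i, (j i).1 = z
    · obtain ⟨i, rfl⟩ := hz
      refine rf_null_mono ?_ (hE i)
      rintro a ⟨k, hk, ha'⟩
      rwa [← j.injective (Subtype.ext hk)]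
    · exact ⟨∅, e₂, h.null_empty, fun a ⟨⟨i, hi', _⟩, _⟩ => hz ⟨i, hi'⟩⟩

theorem rf_ndc (ha : Function.Injective ia) (ht : Function.Injective it) (hLo : #Lo < κ)
    {e : γ → Y} (hi : Function.Injective e) {Z : Set γ} (h' : C.NDC Lo R tp #Z) :
    ∀ᶠ x in (S.U : Filter (Set Y)), (C.rf ia it ie x).NDC Lo R tp #(cut e x Z) := by
  have H : ∀ a : α, ∀ᶠ x in (S.U : Filter (Set Y)), a ∈ C.Pt →
      NDCOn C.le Lo R tp (cut it x (C.y a)) #(cut e x Z) := by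
    intro a
    by_cases hp : a ∈ C.Pt
    · exact (S.ndc ht hi hLo (h'.2 a hp)).mono fun x hx _ => hx
    · exact Filter.Eventually.of_forall fun x h => absurd h hp
  filter_upwards [S.ndc ht hi hLo h'.1, S.diag ha H] with x e₁ e₂
  exact ⟨e₁, fun a ha' => e₂ a ha'.2 ha'.1⟩

end Pool.Agent.MP_a2558b_lc

end

section

namespace Pool.Agent.MP_a2558b_lc

open Cardinal hiding univ
open Set Base Function

universe u

theorem exists_emb (A B C D E : Type u) : ∃ (Y : Type u) (a : A → Y) (b : B → Y) (c : C → Y)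
    (d : D → Y) (e : E → Y), Injective a ∧ Injective b ∧ Injective c ∧ Injective d ∧
      Injective e :=
  ⟨A ⊕ B ⊕ C ⊕ D ⊕ E, Sum.inl, Sum.inr ∘ Sum.inl, Sum.inr ∘ Sum.inr ∘ Sum.inl,
    Sum.inr ∘ Sum.inr ∘ Sum.inr ∘ Sum.inl, Sum.inr ∘ Sum.inr ∘ Sum.inr ∘ Sum.inr,
    Sum.inl_injective, Sum.inr_injective.comp Sum.inl_injective,
    Sum.inr_injective.comp (Sum.inr_injective.comp Sum.inl_injective),
    Sum.inr_injective.comp (Sum.inr_injective.comp (Sum.inr_injective.comp Sum.inl_injective)),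
    Sum.inr_injective.comp (Sum.inr_injective.comp (Sum.inr_injective.comp Sum.inr_injective))⟩

theorem cut_mono {α Y : Type u} {e : α → Y} {x : Set Y} {A B : Set α} (h : A ⊆ B) :
    cut e x A ⊆ cut e x B := fun _ ha => ⟨h ha.1, ha.2⟩

variable {Θ Ω : Type u} [LinearOrder Θ] [WellFoundedLT Θ] [LinearOrder Ω] [WellFoundedLT Ω]
  [Inhabited Ω]

omit [WellFoundedLT Θ] [WellFoundedLT Ω] [Inhabited Ω] in
theorem Ctx.mk_Θ_lt (X : Ctx Θ Ω) (β : Θ) : #Θ < X.κ β :=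
  X.mk_Θ ▸ (X.aleph1_le_lb β).trans_lt (X.lb_lt' β)

omit [WellFoundedLT Θ] [Inhabited Ω] in
/-- The ordinals of a typical small set. -/
theorem ev_ord (X : Ctx Θ Ω) (β : Θ) {Y : Type u} (S : SCM (X.κ β) Y) {e : Ω → Y}
    (he : Injective e) {c : Cardinal.{u}} (hc : c < X.κ β) :
    ∀ᶠ x in (S.U : Filter (Set Y)), ∀ k : Θ → Cardinal.{u},
      (∀ i, k i = #(cut e x (Iio (X.kap (max i β))))) →
      (Monotone k ∧ (∀ i, k i ^ ℵ₀ ≤ k i) ∧ (∀ i, c + Order.succ (X.lb β) ≤ k i) ∧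
        ∀ i, k i < X.κ β) ∧ ∃ d, BProp X β k (cut e x univ) d := by
  have hΘ := X.mk_Θ_lt β
  have hi := X.inacc β
  obtain ⟨Z0, hZ0, hZ⟩ : ∃ Z0 ⊆ Iio (X.kap β), #Z0 = c + Order.succ (X.lb β) :=
    le_mk_iff_exists_subset.1 (X.mk_kap β ▸ (add_lt_of_lt hi.aleph0_lt.le hc (X.lb_lt β)).le)
  have h₁ := S.sub_small e (A := Z0) (hZ ▸ add_lt_of_lt hi.aleph0_lt.le hc (X.lb_lt β))
  have h₂ := S.cut_small he
  have h₃ := S.all hΘ fun γ => S.pow he (A := Iio (X.kap γ))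
    (X.mk_kap γ ▸ inacc_pow_le (X.inacc γ) (X.aleph0_lt_κ γ))
  have h₄ := S.bdd he (A := Iio X.lam) fun Z hZ => X.top_bdd Z (X.mk_lam ▸ hZ)
  have h₅ := S.all hΘ fun m => S.diag he fun b => S.card_le he he (A := {a | X.Dr m a b})
    (A' := Iio (X.kap (max m β))) ((X.Dr_card m b).trans
      ((X.κ_mono.monotone (le_max_left m β)).trans (X.mk_kap _).ge))
  filter_upwards [h₁, h₂, h₃, h₄, h₅] with x h₁ h₂ h₃ h₄ h₅ k hk
  have hck : ∀ i, c + Order.succ (X.lb β) ≤ k i := fun i => by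
    rw [hk, ← hZ]
    exact mk_le_mk_of_subset fun a ha =>
      ⟨lt_of_lt_of_le (hZ0 ha) (X.kap_mono (le_max_right i β)), h₁ a ha⟩
  refine ⟨⟨fun i i' h => ?_, fun i => hk i ▸ h₃ _, hck, fun i => hk i ▸ h₂ _⟩, ?_⟩
  · rw [hk, hk]
    exact mk_le_mk_of_subset (cut_mono (Iio_subset_Iio (X.kap_mono (max_le_max_right β h))))
  have wf : WellFounded (fun a b : Ω => a < b) := wellFounded_lt
  obtain ⟨d, hd, hmin⟩ := wf.has_min {d | ∀ z ∈ cut e x univ, z < d}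
    (X.top_bdd _ ((h₂ _).le.trans (X.κ_le_sum β)))
  have hkl : ∀ i, k i ≤ #(cut e x (Iio X.lam)) := fun i =>
    hk i ▸ mk_le_mk_of_subset (cut_mono (Iio_subset_Iio (X.kap_lam _).le))
  have h1 : ℵ₁ ≤ #(cut e x (Iio X.lam)) :=
    ((X.aleph1_le_lb β).trans (Order.le_succ _)).trans (le_add_self.trans ((hck β).trans (hkl β)))
  have h0 : ℵ₀ ≤ #(cut e x (Iio X.lam)) := aleph0_lt_aleph_one.le.trans h1
  have hb : ∀ Z ⊆ cut e x univ, #Z ≤ #(cut e x (Iio X.lam)) →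
      ∃ b ∈ cut e x univ, ∀ z ∈ Z, z < b := fun Z hZ hZ' => by
    obtain ⟨b, hb, hb'⟩ := h₄ Z (fun z hz => (hZ hz).2) hZ'
    exact ⟨b, ⟨mem_univ _, hb⟩, hb'⟩
  refine ⟨d, fun z hz => hd z hz, ?_, fun a ha => ?_, fun Z hZ hZ' => hb Z hZ (hZ'.trans ?_),
    fun m b hb' => ?_, (h₂ _).le⟩
  · obtain ⟨b, hb, -⟩ := hb ∅ (empty_subset _) (by simp)
    exact ⟨b, hb⟩
  · have := mt (fun h => hmin a h ha) not_false
    simp only [mem_ofPred_eq, not_forall, not_lt] at this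
    obtain ⟨z, hz, haz⟩ := this
    obtain ⟨b, hb, hb'⟩ := hb {z} (singleton_subset_iff.2 hz)
      (by simpa using one_le_aleph0.trans h0)
    exact ⟨b, hb, haz.trans_lt (hb' z rfl)⟩
  · refine (sum_le_sum _ _ hkl).trans ?_
    rw [sum_const', X.mk_Θ]
    exact mul_le_of_le h0 h1 le_rfl
  · rw [hk]
    refine le_trans (mk_le_mk_of_subset fun a ha => ?_) (h₅ m b hb'.2)
    exact ⟨ha.2, ha.1.2⟩

namespace Fam

variable {X : Ctx Θ Ω} {D0 : Sys (JJ Θ) Ω} {β : Θ} {K : Type u} (F : Fam X D0 β K)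

theorem exists_CC (hV : Valid X D0 (Iio β)) :
    ∃ C : Θ → Crd (Set (Tm0 Θ Ω K)) (Tm0 Θ Ω K) (Cnd (JJ Θ) Ω), ∀ γ, β < γ →
      (C γ).T = F.T γ ∧ (C γ).le = F.le γ ∧
      (C γ).Basic (Low D0 (lev (Iio β))) (Le D0 (lev (Iio β))) (F.o γ) ∧ (C γ).Act ∧
      (∀ c' < X.κ γ, (C γ).Comp c') ∧
      (C γ).NDC (Low D0 (lev (Iio β))) (Le D0 (lev (Iio β))) ctop (X.lb γ) ∧
      #(C γ).Pt ≤ X.κ γ := by
  have : Nonempty (Crd (Set (Tm0 Θ Ω K)) (Tm0 Θ Ω K) (Cnd (JJ Θ) Ω)) :=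
    ⟨⟨∅, ∅, fun _ => True, fun _ => ∅, fun _ _ _ => True⟩⟩
  choose! C hC using fun (γ : Θ) (h : β < γ) => exists_top (X.sc γ) (X.inacc γ) (F.o_mem γ)
    (F.le_refl h.le) (F.le_trans h.le) (F.le_mono h.le) (F.le_top h.le) (X.lb_lt' γ)
    (F.ndc (basicOn_lev hV) h.le) ((mk_low_Iio hV).trans (X.κ_mono h)) (F.mk_T h)
  exact ⟨C, hC⟩

/-- The reflected coordinates. -/
theorem reflect₀ (hV : Valid X D0 (Iio β)) (ζ : K → Ω → Cnd (JJ Θ) Ω → Ω → Prop)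
    (hζ : ∀ N a, IsNm (Low (F.D N) univ) (Le (F.D N) univ) (ζ N a)) :
    ∃ (C : Θ → Crd (Set (Tm0 Θ Ω K)) (Tm0 Θ Ω K) (Cnd (JJ Θ) Ω)) (k : Θ → Cardinal.{u})
      (B : Set Ω) (d : Ω), (Monotone k ∧ (∀ i, k i ^ ℵ₀ ≤ k i) ∧
        (∀ i, #(Low D0 (lev (Iio β))) + Order.succ (X.lb β) ≤ k i) ∧ ∀ i, k i < X.κ β) ∧
      BProp X β k B d ∧
      (∀ γ, β < γ → (C γ).T ⊆ F.T γ ∧ (C γ).le = F.le γ ∧
        (C γ).Basic (Low D0 (lev (Iio β))) (Le D0 (lev (Iio β))) (F.o γ) ∧ (C γ).Act ∧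
        (C γ).Comp (clo X D0 β k γ) ∧
        (C γ).NDC (Low D0 (lev (Iio β))) (Le D0 (lev (Iio β))) ctop (clo X D0 β k γ) ∧
        #(C γ).Pt ≤ k γ ∧ #(C γ).T ≤ k γ) ∧
      ∀ N, ∀ t : Θ → Tm0 Θ Ω K, (∀ γ, β < γ → t γ ∈ (C γ).T) → ∀ a < d, ∃ t' : Θ → Tm0 Θ Ω K,
        ∃ b < d, (∀ γ, β < γ → t' γ ∈ (C γ).T ∧ F.le γ (t' γ) (t γ) ctop) ∧
          F.Cov N (ζ N a) t' b := by
  classical
  obtain ⟨C, hC⟩ := F.exists_CC hV
  obtain ⟨Y, e, it, ia, ie, es, he, hit, hia, hie, hes⟩ := exists_emb Ω (Tm0 Θ Ω K)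
    (Set (Tm0 Θ Ω K)) (Set (Set (Tm0 Θ Ω K))) (Θ → Tm0 Θ Ω K)
  obtain ⟨S⟩ := (X.sc β).scm Y
  have hΘ := X.mk_Θ_lt β
  have hLo := mk_low_Iio hV
  choose Λ hΛ' hΛ using fun γ => le_mk_iff_exists_subset.1 (X.mk_kap γ ▸ (X.lb_lt' γ).le :
    X.lb γ ≤ #(Iio (X.kap γ)))
  choose op ob hop using F.exists_cov ζ hζ
  have h₁ := ev_ord X β S he hLo
  have h₂ := S.all hΘ (Φ := fun γ x => β < γ →
      ((C γ).rf ia it ie x).Basic (Low D0 (lev (Iio β))) (Le D0 (lev (Iio β))) (F.o γ) ∧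
      ((C γ).rf ia it ie x).Act ∧ ((C γ).rf ia it ie x).Comp #(cut e x (Λ γ)) ∧
      ((C γ).rf ia it ie x).NDC (Low D0 (lev (Iio β))) (Le D0 (lev (Iio β))) ctop
        #(cut e x (Λ γ)) ∧
      #(cut ia x (C γ).Pt) ≤ #(cut e x (Iio (X.kap γ))) ∧
      #(cut it x (C γ).T) ≤ #(cut e x (Iio (X.kap γ))) ∧
      ∀ δ, δ < γ → #(cut e x (Iio (X.kap δ))) ≤ #(cut e x (Λ γ))) fun γ => by
    by_cases h : β < γ
    swap
    · exact Filter.Eventually.of_forall fun x h' => absurd h' h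
    obtain ⟨c₁, -, c₃, c₄, c₅, c₆, c₇⟩ := hC γ h
    have a₇ := S.all hΘ (Φ := fun δ x => δ < γ →
        #(cut e x (Iio (X.kap δ))) ≤ #(cut e x (Λ γ))) fun δ => by
      by_cases h' : δ < γ
      · filter_upwards [S.card_le he he (A := Iio (X.kap δ)) (A' := Λ γ)
          (by rw [X.mk_kap, hΛ]; exact X.κ_le_lb h')] with x hx _ using hx
      · exact Filter.Eventually.of_forall fun x h'' => absurd h'' h'
    filter_upwards [rf_basic S hia hit hie c₃, rf_act (it := it) S hia hie c₃ c₄,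
      rf_comp (it := it) S hia hie c₃ he (Z := Λ γ) (c₅ _ (hΛ γ ▸ X.lb_lt' γ)),
      rf_ndc (ie := ie) S hia hit hLo he (Z := Λ γ) (hΛ γ ▸ c₆),
      S.card_le hia he (A := (C γ).Pt) (A' := Iio (X.kap γ)) (X.mk_kap γ ▸ c₇),
      S.card_le hit he (A := (C γ).T) (A' := Iio (X.kap γ))
        (by rw [X.mk_kap, c₁, F.mk_T h]), a₇] with x a₁ a₂ a₃ a₄ a₅ a₆ a₇ _
    exact ⟨a₁, a₂, a₃, a₄, a₅, a₆, a₇⟩
  have h₃ := S.diag hes (Φ := fun t x => ∀ a, e a ∈ x → (∀ γ, it (op t a γ) ∈ x) ∧ e (ob t a) ∈ x)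
    fun t => S.diag he fun a => (S.all hΘ fun γ => S.fine _).and (S.fine _)
  have h₄ := S.seq hΘ hit es
  have h₅ := S.all hΘ fun γ => S.fine (it (F.o γ))
  obtain ⟨x, h₁, h₂, h₃, h₄, h₅⟩ := (h₁.and (h₂.and (h₃.and (h₄.and h₅)))).exists
  obtain ⟨hk, d, hd⟩ := h₁ (fun i => #(cut e x (Iio (X.kap (max i β))))) fun _ => rfl
  refine ⟨fun γ => (C γ).rf ia it ie x, _, _, d, hk, hd, fun γ h => ?_, fun N t ht a ha => ?_⟩
  · obtain ⟨a₁, a₂, a₃, a₄, a₅, a₆, a₇⟩ := h₂ γ h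
    have hβ : #(Low D0 (lev (Iio β))) + Order.succ (X.lb β) ≤ #(cut e x (Λ γ)) :=
      (hk.2.2.1 β).trans (a₇ _ (by simpa using h))
    have h0 : ℵ₀ ≤ #(cut e x (Λ γ)) :=
      ((X.aleph0_le_lb β).trans (Order.le_succ _)).trans (le_add_self.trans hβ)
    have hclo : clo X D0 β (fun i => #(cut e x (Iio (X.kap (max i β))))) γ ≤ #(cut e x (Λ γ)) := by
      refine add_le_of_le h0 hβ ((sum_le_sum _ (fun _ => #(cut e x (Λ γ))) fun i =>
        a₇ _ (max_lt i.2 h)).trans ?_)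
      rw [sum_const']
      exact mul_le_of_le h0 ((mk_le_aleph0_iff.2 (X.ct γ)).trans h0) le_rfl
    refine ⟨fun t ht => (hC γ h).1 ▸ ht.1, (hC γ h).2.1, a₁, a₂, a₃.anti hclo, a₄.anti hclo,
      ?_, ?_⟩
    · rw [max_eq_left h.le]; exact a₅
    · rw [max_eq_left h.le]; exact a₆
  · obtain ⟨a1, ha1, haa⟩ := hd.cof a ha
    let t1 : Θ → Tm0 Θ Ω K := fun γ => if β < γ then t γ else F.o γ
    have e1 : ∀ γ, β < γ → t1 γ = t γ := fun γ h => if_pos h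
    have hx : es t1 ∈ x := h₄ t1 fun γ => by
      by_cases h : β < γ
      · rw [e1 γ h]; exact (ht γ h).2
      · rw [show t1 γ = F.o γ from if_neg h]; exact h₅ γ
    obtain ⟨b₁, b₂⟩ := h₃ t1 hx a1 ha1.2
    obtain ⟨b₃, b₄⟩ := hop t1 a1 fun γ h => e1 γ h ▸ (hC γ h).1 ▸ (ht γ h).1
    exact ⟨op t1 a1, ob t1 a1, hd.sub ⟨mem_univ _, b₂⟩, fun γ h =>
      ⟨⟨(hC γ h).1 ▸ (b₃ γ h).1, b₁ γ⟩, e1 γ h ▸ (b₃ γ h).2⟩, b₄ N a haa⟩

/-- The reflected level. -/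
theorem reflect (hV : Valid X D0 (Iio β)) (ζ : K → Ω → Cnd (JJ Θ) Ω → Ω → Prop)
    (hζ : ∀ N a, IsNm (Low (F.D N) univ) (Le (F.D N) univ) (ζ N a)) :
    ∃ (Ns : Θ → Crd Ω Ω (Cnd (JJ Θ) Ω)) (k : Θ → Cardinal.{u}) (B : Set Ω) (d : Ω),
      (∃ z ⊆ Iio (X.kap β), #z < X.κ β ∧
        ∀ i, Bnd (insert default z) (Low D0 (lev (Iio β))) (Ns i)) ∧
      (∀ D : Sys (JJ Θ) Ω, (∀ j ∈ lev (Iio β), D j = D0 j) → (∀ i, D (pt β i) = Ns i) →
        NOK X D β k) ∧ BProp X β k B d ∧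
      ∀ N, (∀ i, F.D N (pt β i) = Ns i) → ∃ r ∈ Low (F.D N) univ, Le (F.D N) univ r (F.p N) ∧
        ∀ a < d, ∀ r' ∈ Low (F.D N) univ, Le (F.D N) univ r' r → ∀ x, ζ N a r' x → x < d := by
  classical
  obtain ⟨C, k, B, d, ⟨k₁, k₂, k₃, k₄⟩, hd, hC, hcl⟩ := F.reflect₀ hV ζ hζ
  have hi := X.inacc β
  have hs : sum k < X.κ β := sum_lt_of_isRegular hi.isRegular (X.mk_Θ_lt β) k₄
  obtain ⟨z, hz, hz'⟩ : ∃ z ⊆ Iio (X.kap β), #z = sum k :=
    le_mk_iff_exists_subset.1 (X.mk_kap β ▸ hs.le)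
  have hkz : ∀ i, k i ≤ #(insert default z : Set Ω) := fun i =>
    (le_sum k i).trans (hz' ▸ mk_le_mk_of_subset (subset_insert _ _))
  have hz0 : (default : Ω) ∈ insert default z := mem_insert _ _
  choose! ja ja₁ ja₂ ja₃ using fun (γ : Θ) (h : β < γ) =>
    exists_code hz0 ((hC γ h).2.2.2.2.2.2.1.trans (hkz γ)) ∅
  choose! jt jt₁ jt₂ jt₃ using fun (γ : Θ) (h : β < γ) =>
    exists_code hz0 ((hC γ h).2.2.2.2.2.2.2.trans (hkz γ)) (F.o γ)
  let Ns : Θ → Crd Ω Ω (Cnd (JJ Θ) Ω) := fun i => if β < i then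
    (C i).tr (Low D0 (lev (Iio β))) (ja i) (jt i) else triv (Low D0 (lev (Iio β))) default
  have e₁ : ∀ i, β < i → Ns i = (C i).tr (Low D0 (lev (Iio β))) (ja i) (jt i) :=
    fun i h => if_pos h
  have e₂ : ∀ i, ¬ β < i → Ns i = triv (Low D0 (lev (Iio β))) default := fun i h => if_neg h
  have htp : ctop ∈ Low D0 (lev (Iio β)) := ctop_mem (basicOn_lev hV)
  have h0 : ∀ i, ℵ₀ ≤ k i := fun i =>
    ((X.aleph0_le_lb β).trans (Order.le_succ _)).trans (le_add_self.trans (k₃ i))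
  refine ⟨Ns, k, B, d, ⟨z, hz, hz' ▸ hs, fun i => ?_⟩, fun D h₁ h₂ => ?_, hd, fun N hN => ?_⟩
  · by_cases h : β < i
    · rw [e₁ i h]; exact tr_bnd (hC i h).2.2.1 (ja₂ i h) (jt₂ i h)
    · rw [e₂ i h]; exact triv_bnd hz0
  · have l₁ : Low D (lev (Iio β)) = Low D0 (lev (Iio β)) := Low_congr h₁
    have l₂ : Le D (lev (Iio β)) = Le D0 (lev (Iio β)) := Le_congr h₁
    have l₃ : clo X D β k = clo X D0 β k := by
      funext i
      simp only [clo, l₁]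
    refine ⟨fun i => ?_, k₁, k₂, fun i => l₁ ▸ le_self_add.trans (k₃ i),
      fun i => le_add_self.trans (k₃ i), k₄, fun i => ?_, fun i => ?_, fun i => ?_, fun i h => ?_⟩
    · rw [l₁, l₂, h₂]
      by_cases h : β < i
      · rw [e₁ i h, ← jt₃ i h]; exact tr_basic (ja₁ i h) (jt₁ i h) (hC i h).2.2.1
      · rw [e₂ i h]; exact triv_basic _
    · rw [h₂]
      by_cases h : β < i
      · rw [e₁ i h]
        exact ⟨mk_image_le.trans (hC i h).2.2.2.2.2.2.1, mk_image_le.trans (hC i h).2.2.2.2.2.2.2⟩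
      · rw [e₂ i h]
        exact ⟨by simp [triv], by simpa [triv] using one_le_aleph0.trans (h0 i)⟩
    · rw [l₃, h₂]
      by_cases h : β < i
      · rw [e₁ i h]; exact tr_comp (hC i h).2.2.2.2.1
      · rw [e₂ i h]; exact triv_comp _
    · rw [l₃, l₁, l₂, h₂]
      by_cases h : β < i
      · rw [e₁ i h]; exact tr_ndc (ja₁ i h) (jt₁ i h) (hC i h).2.2.1 htp (hC i h).2.2.2.2.2.1
      · rw [e₂ i h]; exact triv_ndc _ htp
    · rw [h₂, e₁ i h]; exact tr_act (ja₁ i h) (hC i h).2.2.1 (hC i h).2.2.2.1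
  · refine Codes.master (Tb := fun γ => (C γ).T) (jt := jt) ⟨fun γ h => (hC γ h).1,
      fun γ h => (hC γ h).2.2.2.2.2.2.2.trans (k₄ γ).le, fun γ h => ?_,
      fun γ h u hu u' hu' q hq => ?_⟩ (ζ N) (hζ N) (hcl N)
    · rw [hN, e₁ γ h]; rfl
    · rw [hN, e₁ γ h, tr_le (jt₁ γ h) hu' hu hq, (hC γ h).2.1]

end Fam

end Pool.Agent.MP_a2558b_lc

end

section

namespace Pool.Agent.MP_a2558b_lc

open Cardinal hiding univ
open Set Base

universe u

variable {Θ Ω : Type u} [LinearOrder Θ] [WellFoundedLT Θ] [LinearOrder Ω] [WellFoundedLT Ω]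
  [Inhabited Ω] {X : Ctx Θ Ω} {D : Sys (JJ Θ) Ω} {β : Θ} {k : Θ → Cardinal.{u}}

omit [WellFoundedLT Θ] [WellFoundedLT Ω] in
/-- There are few candidates for a level. -/
theorem mk_cand {Q : Type u} {Lo : Set Q} (hLo : #Lo < X.κ β) :
    #{N : Θ → Crd Ω Ω Q | ∃ z ⊆ Iio (X.kap β), #z < X.κ β ∧
      ∀ i, Bnd (insert default z) Lo (N i)} ≤ X.κ β := by
  have hi := X.inacc β
  have h0 : ℵ₀ ≤ X.κ β := hi.aleph0_lt.le
  let I := {z : Set Ω // z ⊆ Iio (X.kap β) ∧ #z < X.κ β}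
  have hI : #I ≤ X.κ β := by
    rw [← inacc_small_sets hi (X.mk_kap β)]
    refine mk_le_of_injective (f := fun z => ⟨Subtype.val ⁻¹' z.1,
      (mk_preimage_of_injective _ _ Subtype.val_injective).trans_lt z.2.2⟩) fun z z' h => ?_
    have h' : (Subtype.val ⁻¹' z.1 : Set (Iio (X.kap β))) = Subtype.val ⁻¹' z'.1 :=
      congrArg Subtype.val h
    refine Subtype.ext (Set.ext fun a => ⟨fun ha => ?_, fun ha => ?_⟩)
    · exact (Set.ext_iff.1 h' ⟨a, z.2.1 ha⟩).1 ha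
    · exact (Set.ext_iff.1 h' ⟨a, z'.2.1 ha⟩).2 ha
  have hS : ∀ z : I, #{N : Θ → Crd Ω Ω Q | ∀ i, Bnd (insert default z.1) Lo (N i)} ≤ X.κ β := by
    intro z
    have h₁ : #{C : Crd Ω Ω Q | Bnd (insert default z.1) Lo C} ≤ X.κ β :=
      (mk_bnd _ _).trans (inacc_two_pow hi (inacc_two_pow hi (add_lt_of_lt h0 (add_lt_of_lt h0
        (mk_insert_le.trans_lt (add_lt_of_lt h0 z.2.2 (one_lt_aleph0.trans hi.aleph0_lt))) hLo)
        hi.aleph0_lt))).le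
    calc #{N : Θ → Crd Ω Ω Q | ∀ i, Bnd (insert default z.1) Lo (N i)}
        ≤ #(Θ → {C : Crd Ω Ω Q | Bnd (insert default z.1) Lo C}) :=
          mk_le_of_injective (f := fun N i => ⟨N.1 i, N.2 i⟩) fun N N' h =>
            Subtype.ext (funext fun i => congrArg Subtype.val (congrFun h i))
      _ = #{C : Crd Ω Ω Q | Bnd (insert default z.1) Lo C} ^ #Θ := (power_def _ _).symm
      _ ≤ X.κ β ^ #Θ := power_le_power_right h₁
      _ ≤ X.κ β := inacc_pow_le hi (X.mk_Θ_lt β)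
  calc _ ≤ #(⋃ z : I, {N : Θ → Crd Ω Ω Q | ∀ i, Bnd (insert default z.1) Lo (N i)}) :=
        mk_le_mk_of_subset fun N hN => by
          obtain ⟨z, h₁, h₂, h₃⟩ := hN
          exact mem_iUnion.2 ⟨⟨z, h₁, h₂⟩, h₃⟩
    _ ≤ sum fun _ : I => X.κ β := mk_iUnion_le_sum_mk.trans (sum_le_sum _ _ hS)
    _ ≤ X.κ β := by
        rw [sum_const']
        exact mul_le_of_le h0 hI le_rfl

open Classical in
/-- The system with new point coordinates and a new collapse at level `β`. -/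
noncomputable def sysN (D0 : Sys (JJ Θ) Ω) (β : Θ) (N : Θ → Crd Ω Ω (Cnd (JJ Θ) Ω))
    (C : Crd Ω Ω (Cnd (JJ Θ) Ω)) : Sys (JJ Θ) Ω :=
  fun j => if h : ∃ i, j = pt β i then N h.choose else if j = cc β then C else D0 j

section

variable {D0 : Sys (JJ Θ) Ω} {N : Θ → Crd Ω Ω (Cnd (JJ Θ) Ω)} {C C' : Crd Ω Ω (Cnd (JJ Θ) Ω)}

omit [WellFoundedLT Θ] [WellFoundedLT Ω] [LinearOrder Ω] [Inhabited Ω]

theorem sysN_pt (i : Θ) : sysN D0 β N C (pt β i) = N i := by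
  have h : ∃ i', pt β i = pt β i' := ⟨i, rfl⟩
  rw [sysN, dif_pos h, ← (pt_inj.1 h.choose_spec).2]

theorem sysN_cc : sysN D0 β N C (cc β) = C := by
  rw [sysN, dif_neg fun ⟨_, h⟩ => pt_ne_cc h.symm, if_pos rfl]

theorem sysN_low : ∀ j ∈ lev (Iio β), sysN D0 β N C j = D0 j := by
  intro j hj
  rw [sysN, dif_neg, if_neg]
  · rintro rfl
    exact lt_irrefl β hj
  · rintro ⟨i, rfl⟩
    exact lt_irrefl β hj

theorem sysN_levC : ∀ j ∈ levC β, sysN D0 β N C j = sysN D0 β N C' j := by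
  intro j hj
  rcases mem_levC.1 hj with h | ⟨i, rfl⟩
  · rw [sysN_low j h, sysN_low j h]
  · rw [sysN_pt, sysN_pt]

end

theorem exists_good {D0 : Sys (JJ Θ) Ω} (hV : Valid X D0 (Iio β)) :
    ∃ D1 : Sys (JJ Θ) Ω, (∀ j ∈ lev (Iio β), D1 j = D0 j) ∧ (∃ k, LevelOK X D1 β k) ∧
      ∀ D : Sys (JJ Θ) Ω, (∀ j ∈ lev (Iic β), D j = D1 j) → Valid X D univ → Stat X D β := by
  by_contra H
  let K := {N : Θ → Crd Ω Ω (Cnd (JJ Θ) Ω) // (∃ z ⊆ Iio (X.kap β), #z < X.κ β ∧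
    ∀ i, Bnd (insert default z) (Low D0 (lev (Iio β))) (N i)) ∧
      ∃ k, NOK X (sysN D0 β N (D0 (cc β))) β k}
  have hK : #K ≤ X.κ β :=
    le_trans (mk_le_mk_of_subset fun N hN => hN.1) (mk_cand (mk_low_Iio hV))
  have key : ∀ N : K, ∃ D : Sys (JJ Θ) Ω, Valid X D univ ∧ (∀ j ∈ lev (Iio β), D j = D0 j) ∧
      (∀ i, D (pt β i) = N.1 i) ∧
      (∀ k, NOK X (sysN D0 β N.1 (D0 (cc β))) β k → LevelOK X D β k) ∧ ¬ Stat X D β := by
    rintro ⟨N, -, k, hk⟩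
    have hV' : Valid X (sysN D0 β N (D0 (cc β))) (Iio β) := fun γ hγ => by
      obtain ⟨k', hk'⟩ := hV γ hγ
      exact ⟨k', LevelOK_congr (fun j hj => (sysN_low j (levIic_sub_levIio hγ hj)).symm) hk'⟩
    obtain ⟨C, hC⟩ := exists_C hV' hk
    have hL : ∀ k, NOK X (sysN D0 β N (D0 (cc β))) β k → LevelOK X (sysN D0 β N C) β k := by
      intro k hk
      refine ⟨NOK_congr sysN_levC hk, ?_⟩
      rw [sysN_cc, Low_congr (sysN_levC (C' := D0 (cc β))), Le_congr (sysN_levC (C' := D0 (cc β)))]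
      exact hC
    by_contra H'
    refine H ⟨sysN D0 β N C, sysN_low, ⟨k, hL k hk⟩, fun D h₁ h₂ => ?_⟩
    by_contra h₃
    exact H' ⟨D, h₂, fun j hj => (h₁ j (lev_mono Iio_subset_Iic_self hj)).trans (sysN_low j hj),
      fun i => (h₁ _ (pt_mem_lev.2 (mem_Iic.2 le_rfl))).trans (sysN_pt i),
      fun k hk => LevelOK_congr (fun j hj => (h₁ j hj).symm) (hL k hk), h₃⟩
  choose DD h₁ h₂ h₃ h₄ h₅ using key
  simp only [Stat, not_forall] at h₅
  choose ζ hζ pp hp h₅ using h₅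
  let F : Fam X D0 β K := ⟨DD, pp, h₁, h₂, hp, hK⟩
  obtain ⟨Ns, k, B, d, a₁, a₂, a₃, a₄⟩ := F.reflect hV ζ hζ
  have hk := a₂ (sysN D0 β Ns (D0 (cc β))) sysN_low sysN_pt
  obtain ⟨r, hr, hle, h⟩ := a₄ ⟨Ns, a₁, k, hk⟩ (h₃ _)
  exact h₅ ⟨Ns, a₁, k, hk⟩ ⟨r, hr, hle, d, ⟨k, B, h₄ _ k hk, a₃⟩, h⟩

end Pool.Agent.MP_a2558b_lc

end

section

namespace Pool.Agent.MP_a2558b_lc

open Cardinal hiding univ
open Set Base

universe u

variable {Θ Ω : Type u} [LinearOrder Θ] [WellFoundedLT Θ] [LinearOrder Ω] [WellFoundedLT Ω]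
  [Inhabited Ω] {X : Ctx Θ Ω} {D : Sys (JJ Θ) Ω} {β : Θ} {k : Θ → Cardinal.{u}}

omit [WellFoundedLT Θ] [WellFoundedLT Ω] in
theorem chain_cc_none (hk : LevelOK X D β k) {u : Cnd (JJ Θ) Ω} (hu : u ∈ Low D (lev (Iic β))) :
    (u (cc β)).s = none ∧ (u (cc β)).E = ∅ := by
  have h := hu.1 (cc β) (by simp)
  refine ⟨?_, ?_⟩
  · cases e : (u (cc β)).s with
    | none => rfl
    | some a =>
      have := h.1 a e
      rw [hk.2.pt_eq] at this
      exact this.elim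
  · exact subset_eq_empty h.2.1 hk.2.pt_eq

omit [WellFoundedLT Θ] in
theorem chain_eq_cc {j : JJ Θ} (h : j ∈ lev (Iic β)) (h' : j ∉ levC β) : j = cc β :=
  (mem_levIic.1 h).resolve_left h'

omit [WellFoundedLT Θ] [WellFoundedLT Ω] in
theorem chain_mixCut (hk : LevelOK X D β k) : MixCut D (levC β) (lev (Iic β)) := by
  intro j hj hj'
  obtain rfl := chain_eq_cc hj hj'
  rw [bs_cc]
  exact ⟨Subset.rfl, Or.inr ⟨hk.2.pt_eq, hk.2.mix⟩⟩

/-- One task of the step lemma: a term at the collapse coordinate and a bound. -/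
theorem chain_task (hV : Valid X D (Iic β)) (hk : LevelOK X D β k) {B : Set Ω} {d : Ω}
    (hB : BProp X β k B d) (H : Ω → Set (Cnd (JJ Θ) Ω))
    (hH : ∀ b, ∀ q ∈ Low D (lev (Iic β)), ∀ q' ∈ Low D (lev (Iic β)), Le D (lev (Iic β)) q' q →
      q ∈ H b → q' ∈ H b)
    {u : Cnd (JJ Θ) Ω} (hu : u ∈ Low D (lev (Iic β)))
    (h₁ : ∀ a < d, ∀ q ∈ Low D (lev (Iic β)), Le D (lev (Iic β)) q u →
      ∃ r ∈ Low D (lev (Iic β)), Le D (lev (Iic β)) r q ∧ ∃ b ∈ B, a ≤ b ∧ r ∈ H b)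
    (i : Θ) {a0 : Ω} (ha0 : a0 < d) {v : Cnd (JJ Θ) Ω} (hv : v ∈ Low D (levC β))
    (hvu : ∀ j ∈ levC β, j ∉ Iic (pt β i) → TDir D j v u) :
    ∃ v' ∈ Low D (levC β), TExt D (Iic (pt β i)) (levC β) v' v ∧
      ∃ z ∈ Low D (lev (Iic β)), TDir D (cc β) z u ∧ ∃ b ∈ B,
        ∀ q ∈ Low D (levC β), Le D (Iic (pt β i)) q u →
          (∀ j ∈ levC β, j ∉ Iic (pt β i) → LeAt D j q v') →
          ∃ q' ∈ Low D (levC β), Le D (levC β) q' q ∧ ∃ b' ∈ B, a0 ≤ b' ∧ b' < b ∧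
            glue (levC β) q' z ∈ H b' := by
  have hV' : Valid X D (Iio β) := hV.anti Iio_subset_Iic_self
  have he := levIic_lower β
  have hc := levC_lower β
  have hce := levC_sub_levIic β
  have hBe : BasicOn D (lev (Iic β)) := basicOn_lev hV
  have hBc : BasicOn D (levC β) := hBe.anti hce
  obtain ⟨z, hz, hzu, hmix⟩ := full_mix hc he hce hBe (chain_mixCut hk)
    (fun r => ∃ b ∈ B, a0 ≤ b ∧ r ∈ H b)
    (fun r hr r' hr' h ⟨b, h₁, h₂, h₃⟩ => ⟨b, h₁, h₂, hH b r hr r' hr' h h₃⟩) hu u (by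
      intro l hl hlu
      have hm := glue_mem' hl hce hu
      obtain ⟨r, hr, hrl, hΦ⟩ := h₁ a0 ha0 _ hm (glue_le he hBe hc hm hlu)
      refine ⟨r, hr, (le_glue_right hc Subset.rfl).1 (hrl.anti hce), fun j hj hj' => ?_, hΦ⟩
      refine ⟨?_, (leAt_congr rfl (fun _ _ => rfl) (glue_of_notMem hj')).1 (hrl j hj)⟩
      obtain rfl := chain_eq_cc hj hj'
      rw [(chain_cc_none hk hr).1, (chain_cc_none hk hu).1])
  have hu0 : res (levC β) u ∈ Low D (levC β) := res_mem hu hce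
  obtain ⟨dec, hdec, hdec'⟩ := exists_nm (X := Ω) (refl_on hc hBc) (trans_on hc hBc)
    (fun q b => b ∈ B ∧ a0 ≤ b ∧ glue (levC β) q z ∈ H b)
    (fun q hq q' hq' h b ⟨h₁, h₂, h₃⟩ => ⟨h₁, h₂, hH b _ (glue_mem' hq hce hz) _
      (glue_mem' hq' hce hz) (glue_le_glue he hBe hc (glue_mem' hq' hce hz) h
        fun j hj _ => TDir.refl he hBe hj hz rfl) h₃⟩)
    (res (levC β) u) hu0 (by
      intro q hq hqu
      obtain ⟨l', hl', h, b, h'⟩ := hmix q hq ((le_res_right hc Subset.rfl).1 hqu)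
      exact ⟨l', hl', h, b, h'⟩)
  obtain ⟨v', hv', hvv, V, hVk, hcov⟩ := seg_cov (ι := PUnit.{u + 1}) (Z := Ω) hV' hk.1 i
    (by
      rw [mk_punit]
      exact ((one_le_aleph0.trans (X.aleph0_le_lb β)).trans (Order.le_succ _)).trans (hk.1.kmu i))
    (fun _ => dec) (fun _ => hdec) hv
  obtain ⟨b, hb, hbV⟩ := hB.bdd (V ∩ B) inter_subset_right
    ((mk_le_mk_of_subset inter_subset_left).trans hVk)
  refine ⟨v', hv', hvv, z, hz, hzu.2 _ (by simp) (by simp), b, hb, fun q hq hq₁ hq₂ => ?_⟩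
  have hqu : Le D (levC β) q (res (levC β) u) := by
    refine (le_res_right hc Subset.rfl).2 fun j hj => ?_
    by_cases e : j ∈ Iic (pt β i)
    · exact hq₁ j e
    · exact ((hq₂ j hj e).trans_tdir hc hBc hj hq (hvv.2 j hj e)).trans_tdir hc hBc hj hq
        (hvu j hj e)
  obtain ⟨q1, hq1, hq1q, x, hx⟩ := hdec.dense q hq
  have hxV : x ∈ V := hcov PUnit.unit x q1 hq1 (fun j hj e =>
    LeAt.trans hc hBc hj hq hq1 (hq1q.anti (bs_sub hc hj)) (hq1q j hj) (hq₂ j hj e)) hx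
  obtain ⟨r, hr, hrq, h₂, h₃, h₄⟩ := hdec' q1 hq1 (Le.trans hc hBc hq hq1 hq1q hqu) x hx q1 hq1
    (Le.refl hc hBc hq1)
  exact ⟨r, hr, Le.trans hc hBc hq1 hr hrq hq1q, x, h₂, h₃, hbV x ⟨hxV, h₂⟩, h₄⟩

/-- The step lemma: different points at `pt β i` force different members of `B`. -/
theorem chain_step (hV : Valid X D (Iic β)) (hk : LevelOK X D β k) {B : Set Ω} {d : Ω}
    (hB : BProp X β k B d) (H : Ω → Set (Cnd (JJ Θ) Ω))
    (hH : ∀ b, ∀ q ∈ Low D (lev (Iic β)), ∀ q' ∈ Low D (lev (Iic β)), Le D (lev (Iic β)) q' q →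
      q ∈ H b → q' ∈ H b)
    {u : Cnd (JJ Θ) Ω} (hu : u ∈ Low D (lev (Iic β)))
    (h₁ : ∀ a < d, ∀ q ∈ Low D (lev (Iic β)), Le D (lev (Iic β)) q u →
      ∃ r ∈ Low D (lev (Iic β)), Le D (lev (Iic β)) r q ∧ ∃ b ∈ B, a ≤ b ∧ r ∈ H b)
    (i : Θ) :
    ∃ u' ∈ Low D (lev (Iic β)), TExt D (lev (Iio β)) (lev (Iic β)) u' u ∧
      ∃ Val : Ω → Set Ω, ∃ bd ∈ B, (∀ a a' b, b ∈ Val a → b ∈ Val a' → a = a') ∧
        (∀ a, ∀ b ∈ Val a, b ∈ B ∧ b < bd) ∧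
        ∀ l ∈ Low D (lev (Iic β)), Le D (lev (Iic β)) l u' → ∀ a, (l (pt β i)).s = some a →
          ∃ l' ∈ Low D (lev (Iic β)), Le D (lev (Iic β)) l' l ∧ ∃ b ∈ Val a, l' ∈ H b := by
  classical
  have he := levIic_lower β
  have hc := levC_lower β
  have hce := levC_sub_levIic β
  have hBe : BasicOn D (lev (Iic β)) := basicOn_lev hV
  have hBc : BasicOn D (levC β) := hBe.anti hce
  have hjc : pt β i ∈ levC β := by simp
  have hI : IsLowerSet (Iic (pt β i)) := isLowerSet_Iic _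
  have hIc := Iic_pt_sub_levC β i
  have hu0 : res (levC β) u ∈ Low D (levC β) := res_mem hu hce
  have hW : #(D (pt β i)).Pt ≤ sum k := (hk.1.size i).1.trans (Cardinal.le_sum k i)
  have : Nonempty (Cnd (JJ Θ) Ω × Ω) := ⟨(ctop, default)⟩
  obtain ⟨v, hv, hvu, h, hG⟩ := rec_closed (c := Iic (pt β i)) hc hBc (W := (D (pt β i)).Pt)
    (Δ := Cnd (JJ Θ) Ω × Ω) (fun _ => Iic (pt β i)) (fun _ => Subset.rfl)
    (by
      intro j hj hj'
      rcases mem_levC.1 hj with h | ⟨i', rfl⟩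
      · exact absurd (mem_Iic.2 (le_of_lt (levIio_sub_Iio β i h))) hj'
      · have hi : i < i' := by
          by_contra h
          exact hj' (mem_Iic.2 (pt_le_pt.2 (Or.inr ⟨rfl, not_lt.1 h⟩)))
        exact (cl_pt hk.1 i').anti ((mk_set_le _).trans ((hk.1.size i).1.trans (k_le_clo hi))))
    (fun a h x v => x.1 ∈ Low D (lev (Iic β)) ∧ TDir D (cc β) x.1 u ∧ x.2 ∈ B ∧ ∃ a0,
      (∀ a' < a, (h a').2 ∈ B → (h a').2 < a0) ∧
        ∀ q ∈ Low D (levC β), Le D (Iic (pt β i)) q u →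
          (∀ j ∈ levC β, j ∉ Iic (pt β i) → LeAt D j q v) →
          ∃ q' ∈ Low D (levC β), Le D (levC β) q' q ∧ ∃ b' ∈ B, a0 ≤ b' ∧ b' < x.2 ∧
            glue (levC β) q' x.1 ∈ H b')
    (by
      rintro a h h' x v e ⟨h₂, h₃, h₄, a0, h₅, h₆⟩
      exact ⟨h₂, h₃, h₄, a0, fun a' ha' => e a' ha' ▸ h₅ a' ha', h₆⟩)
    (by
      rintro a h x v hv v' hv' e ⟨h₂, h₃, h₄, a0, h₅, h₆⟩
      exact ⟨h₂, h₃, h₄, a0, h₅, fun q hq hq₁ hq₂ => h₆ q hq hq₁ fun j hj hj' =>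
        (hq₂ j hj hj').trans_tdir hc hBc hj hq (e j hj hj')⟩)
    hu0 (by
      intro a h v hv hvu
      obtain ⟨a0, ha0, hb⟩ := hB.bdd (range (fun a' => (h a').2) ∩ B) inter_subset_right
        ((mk_le_mk_of_subset inter_subset_left).trans (mk_range_le.trans hW))
      obtain ⟨v', hv', hvv, z, hz, hzu, b, hb', hq⟩ := chain_task hV hk hB H hH hu h₁ i
        (hB.sub ha0) hv fun j hj hj' => (tdir_congr rfl (res_of_mem hj)).1 (hvu.2 j hj hj')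
      exact ⟨v', hv', (z, b), hvv.2, hz, hzu, hb', a0,
        fun a' _ h' => hb _ ⟨mem_range_self a', h'⟩, hq⟩)
  choose hz hzu hb a0 ha0 hq using hG
  obtain ⟨bd, hbd, hbd'⟩ := hB.bdd (range fun a => (h a).2) (range_subset_iff.2 hb)
    (mk_range_le.trans hW)
  have hcc : cc β ∈ lev (Iic β) := by simp
  have hcc' : cc β ∉ levC β := by simp
  obtain ⟨s, hs, hsu, hsa⟩ := hk.2.mix (D (pt β i)).Pt (fun a => ((h a).1 (cc β)).t)
    (fun a => {q | q ∈ Low D (levC β) ∧ (q (pt β i)).s = some a.1}) (u (cc β)).t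
    (t_mem hBe hu hcc) (fun a => t_mem hBe (hz a) hcc)
    (fun a => ⟨fun _ hq => hq.1, fun q hq q' hq' hle => ⟨hq', (hle _ hjc).1 _ hq.2⟩⟩)
    (fun a q hq => tle_of_top he hBe hcc (by rw [bs_cc]; exact hq.1) (hzu a).2.2)
    (fun a a' q hq hq' => Subtype.ext (Option.some.inj (hq.2.symm.trans hq'.2)))
  have hok : OkAt D (cc β) ⟨none, ∅, s⟩ :=
    ⟨fun _ h => by simp at h, empty_subset _, hk.2.null_all _, hs⟩
  have hw := update_mem hu hcc hok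
  have hu' := glue_mem' hv hce hw
  have hu'c : glue (levC β) v (Function.update u (cc β) ⟨none, ∅, s⟩) (cc β) = ⟨none, ∅, s⟩ := by
    rw [glue_of_notMem hcc', Function.update_self]
  refine ⟨_, hu', ⟨fun j hj => ?_, fun j hj hj' => ?_⟩,
    fun a => {b | ∃ ha : a ∈ (D (pt β i)).Pt, b ∈ B ∧ a0 ⟨a, ha⟩ ≤ b ∧ b < (h ⟨a, ha⟩).2},
    bd, hbd, ?_, ?_, ?_⟩
  · have hj' := levIio_sub_levC β hj
    rw [glue_of_mem hj', hvu.1 j (mem_Iic.2 (le_of_lt (levIio_sub_Iio β i hj))), res_of_mem hj']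
  · by_cases e : j ∈ levC β
    · exact (tdir_congr (glue_of_mem e) (res_of_mem e).symm).2 (hvu.tdir hc hBc hv e)
    · obtain rfl := chain_eq_cc hj e
      unfold TDir
      rw [hu'c, (chain_cc_none hk hu).1, (chain_cc_none hk hu).2]
      exact ⟨rfl, Subset.rfl, hsu⟩
  · rintro a a' b ⟨ha, -, h₂, h₃⟩ ⟨ha', -, h₄, h₅⟩
    rcases lt_trichotomy a a' with e | e | e
    · exact absurd (h₃.trans ((ha0 ⟨a', ha'⟩ ⟨a, ha⟩ e (hb _)).trans_le h₄)) (lt_irrefl _)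
    · exact e
    · exact absurd (h₅.trans ((ha0 ⟨a, ha⟩ ⟨a', ha'⟩ e (hb _)).trans_le h₂)) (lt_irrefl _)
  · rintro a b ⟨ha, h₂, -, h₃⟩
    exact ⟨h₂, h₃.trans (hbd' _ (mem_range_self _))⟩
  · intro l hl hlu a hla
    have ha : a ∈ (D (pt β i)).Pt := (hl.1 _ (hce hjc)).1 a hla
    have hl0 : res (levC β) l ∈ Low D (levC β) := res_mem hl hce
    have hlv : Le D (levC β) (res (levC β) l) v :=
      (le_res_left hc Subset.rfl).2 ((le_glue_right hc Subset.rfl).1 (hlu.anti hce))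
    obtain ⟨q', hq', hq'l, b, hbB, h₂, h₃, h₄⟩ := hq ⟨a, ha⟩ _ hl0
      ((le_congr hI (fun _ _ => rfl) fun j hj => (hvu.1 j hj).trans (res_of_mem (hIc hj))).1
        (hlv.anti hIc)) fun j hj _ => hlv j hj
    have hl' := glue_mem' hq' hce hl
    refine ⟨_, hl', glue_le he hBe hc hl' ((le_res_right hc Subset.rfl).1 hq'l), b,
      ⟨ha, hbB, h₂, h₃⟩, hH b _ (glue_mem' hq' hce (hz _)) _ hl' ?_ h₄⟩
    refine le_glue (fun j hj _ => glue_le_low he hBe hc hce hq' hl j hj) fun j hj e => ?_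
    obtain rfl := chain_eq_cc hj e
    refine (dirAt_of ?_ ?_ ?_).2
    · rw [(chain_cc_none hk hl').1, (chain_cc_none hk (hz _)).1]
    · rw [(chain_cc_none hk (hz _)).2]
      exact empty_subset _
    · rw [bs_cc, res_glue Subset.rfl, res_eq_self hq', glue_of_notMem hcc']
      have h₅ := (hlu _ hcc).2.2.2
      rw [hu'c, bs_cc] at h₅
      refine hk.2.basic.trans _ _ _ _ hq' (hk.2.basic.mono _ _ _ hl0 _ hq' hq'l h₅)
        (hsa ⟨a, ha⟩ q' ⟨hq', (hq'l _ hjc).1 a ?_⟩)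
      rw [res_of_mem hjc]
      exact hla

/-- The statement for the iteration up to level `β`. -/
theorem no_chain_loc (hV : Valid X D (Iic β)) (hk : LevelOK X D β k) {B : Set Ω} {d : Ω}
    (hB : BProp X β k B d) (m : Θ) (H : Ω → Set (Cnd (JJ Θ) Ω))
    (hH : ∀ b, ∀ q ∈ Low D (lev (Iic β)), ∀ q' ∈ Low D (lev (Iic β)), Le D (lev (Iic β)) q' q →
      q ∈ H b → q' ∈ H b)
    {p : Cnd (JJ Θ) Ω} (hp : p ∈ Low D (lev (Iic β)))
    (h₁ : ∀ a < d, ∀ q ∈ Low D (lev (Iic β)), Le D (lev (Iic β)) q p →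
      ∃ r ∈ Low D (lev (Iic β)), Le D (lev (Iic β)) r q ∧ ∃ b ∈ B, a ≤ b ∧ r ∈ H b)
    (h₂ : ∀ a < d, ∀ q ∈ Low D (lev (Iic β)), Le D (lev (Iic β)) q p →
      ∃ r ∈ Low D (lev (Iic β)), Le D (lev (Iic β)) r q ∧ ∃ c ∈ B, ∀ b ∈ B, b < a →
        ∀ s ∈ Low D (lev (Iic β)), Le D (lev (Iic β)) s r → s ∈ H b → X.Dr m b c) :
    False := by
  classical
  have he := levIic_lower β
  have hc := levIio_lower β
  have hce : lev (Iio β) ⊆ lev (Iic β) := lev_mono Iio_subset_Iic_self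
  have hBe : BasicOn D (lev (Iic β)) := basicOn_lev hV
  obtain ⟨u, hu, hup, h, hG⟩ := rec_closed (c := lev (Iio β)) he hBe (W := Θ)
    (Δ := (Ω → Set Ω) × Ω) (fun _ => lev (Iio β)) (fun _ => Subset.rfl)
    (fun j hj _ => (cl_lb hV hj).anti ((mk_set_le _).trans (X.mk_Θ.le.trans (X.aleph1_le_lb _))))
    (fun i _ x u => x.2 ∈ B ∧ (∀ a a' b, b ∈ x.1 a → b ∈ x.1 a' → a = a') ∧
      (∀ a, ∀ b ∈ x.1 a, b ∈ B ∧ b < x.2) ∧
        ∀ l ∈ Low D (lev (Iic β)), Le D (lev (Iio β)) l p →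
          (∀ j ∈ lev (Iic β), j ∉ lev (Iio β) → LeAt D j l u) → ∀ a, (l (pt β i)).s = some a →
          ∃ l' ∈ Low D (lev (Iic β)), Le D (lev (Iic β)) l' l ∧ ∃ b ∈ x.1 a, l' ∈ H b)
    (fun _ _ _ _ _ _ h => h)
    (by
      rintro i _ x v hv v' hv' e ⟨h₃, h₄, h₅, h₆⟩
      exact ⟨h₃, h₄, h₅, fun l hl hl₁ hl₂ => h₆ l hl hl₁ fun j hj hj' =>
        (hl₂ j hj hj').trans_tdir he hBe hj hl (e j hj hj')⟩)
    hp (by
      intro i _ u hu hup
      obtain ⟨u', hu', huu, Val, bd, h₃, h₄, h₅, h₆⟩ := chain_step hV hk hB H hH hu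
        (fun a ha q hq hqu => h₁ a ha q hq (Le.trans he hBe hu hq hqu (hup.le he hBe hu))) i
      refine ⟨u', hu', (Val, bd), huu.2, h₃, h₄, h₅, fun l hl hl₁ hl₂ => h₆ l hl fun j hj => ?_⟩
      by_cases e : j ∈ lev (Iio β)
      · exact (leAt_congr rfl (fun _ _ => rfl) ((huu.1 j e).trans (hup.1 j e))).2 (hl₁ j e)
      · exact hl₂ j hj e)
  choose hb hdisj hval hq using hG
  obtain ⟨a, ha, hab⟩ := hB.bdd (range fun i => (h i).2) (range_subset_iff.2 hb)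
    (mk_range_le.trans (X.mk_Θ.le.trans ((X.aleph1_le_lb β).trans ((Order.le_succ _).trans
      ((hk.1.kmu β).trans (Cardinal.le_sum k β))))))
  have hup' := hup.le he hBe hu
  obtain ⟨r, hr, hru, c, hcB, hr'⟩ := h₂ a (hB.sub ha) u hu hup'
  have hfin : {i | (r (pt β i)).s ≠ none}.Finite :=
    hr.2.2.preimage (f := fun i => pt β i) fun _ _ _ _ e => (pt_inj.1 e).2
  obtain ⟨i, hi⟩ := X.exists_bound ((hfin.insert m).insert β).countable
  have hβ : β < i := hi β (Or.inl rfl)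
  have hm : m < i := hi m (Or.inr (Or.inl rfl))
  have hri : (r (pt β i)).s = none := by
    by_contra e
    exact lt_irrefl i (hi i (Or.inr (Or.inr e)))
  have hj : pt β i ∈ lev (Iic β) := by simp
  have hN : (D (pt β i)).null {x | ∃ b ∈ (h i).1 x, b ∈ B ∧ X.Dr m b c} := by
    refine (hk.1.comp i).null_small (hk.1.basic i) (hk.1.act i hβ)
      (le_trans ?_ ((hB.pred m c hcB).trans (k_le_clo hm)))
    have hch : ∀ x : {x | ∃ b ∈ (h i).1 x, b ∈ B ∧ X.Dr m b c},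
        ∃ b : {a | a ∈ B ∧ X.Dr m a c}, b.1 ∈ (h i).1 x.1 :=
      fun ⟨x, b, h₃, h₄⟩ => ⟨⟨b, h₄⟩, h₃⟩
    choose f hf using hch
    exact mk_le_of_injective (f := f) fun x y e =>
      Subtype.ext (hdisj i _ _ _ (hf x) (by rw [e]; exact hf y))
  obtain ⟨x, hx, hxE, hxt⟩ := (hk.1.basic i).exists_pt Subset.rfl (hk.1.act i hβ).1
    ((hk.1.basic i).null_union _ _ hN (hr.1 _ hj).2.2.1) (t_mem hBe hr hj)
  obtain ⟨hr1, hr1r⟩ := add_pt he hBe hr hj hri hx (fun e => hxE (Or.inr e)) hxt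
  have hr1u := Le.trans he hBe hr hr1 hr1r hru
  obtain ⟨l', hl', hl'r, b, hbv, hbH⟩ := hq i _ hr1
    ((Le.trans he hBe hu hr1 hr1u hup').anti hce) (fun j hj _ => hr1u j hj) x
    (by rw [Function.update_self])
  have hb' := hval i x b hbv
  exact hxE (Or.inl ⟨b, hbv, hb'.1, hr' b hb'.1 (hb'.2.trans (hab _ (mem_range_self i))) l' hl'
    (Le.trans he hBe hr1 hl' hl'r hr1r) hbH⟩)

theorem no_chain (hV : Valid X D univ) (hk : LevelOK X D β k) {B : Set Ω} {d : Ω}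
    (hB : BProp X β k B d) (m : Θ) (H : Ω → Set (Cnd (JJ Θ) Ω))
    (hH : ∀ b, ∀ q ∈ Low D univ, ∀ q' ∈ Low D univ, Le D univ q' q → q ∈ H b → q' ∈ H b)
    {p : Cnd (JJ Θ) Ω} (hp : p ∈ Low D univ)
    (h₁ : ∀ a < d, ∀ q ∈ Low D univ, Le D univ q p →
      ∃ r ∈ Low D univ, Le D univ r q ∧ ∃ b ∈ B, a ≤ b ∧ r ∈ H b)
    (h₂ : ∀ a < d, ∀ q ∈ Low D univ, Le D univ q p → ∃ r ∈ Low D univ, Le D univ r q ∧
      ∃ c ∈ B, ∀ b ∈ B, b < a → ∀ s ∈ Low D univ, Le D univ s r → s ∈ H b → X.Dr m b c) :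
    False := by
  have hd : IsLowerSet (univ : Set (JJ Θ)) := isLowerSet_univ
  have hBu : BasicOn D univ := basicOn_univ hV
  have he := levIic_lower β
  have heu : lev (Iic β) ⊆ univ := subset_univ _
  have hBe : BasicOn D (lev (Iic β)) := hBu.anti heu
  obtain ⟨p', hp', hpp, hdec⟩ := tail hV (isLowerSet_Iic β) (ι := B) (Z := ULift.{u} Bool)
    (fun γ _ => ((lt_aleph0_of_finite _).le.trans (X.aleph0_le_lb γ)).trans (Order.le_succ _))
    (fun γ hγ => hB.size.trans (X.κ_le_lb (not_le.1 hγ)))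
    (fun b => tvN (Low D univ) (Le D univ) (H b))
    (fun b => isNm_tvN (refl_on hd hBu) (trans_on hd hBu) (hH b)) hp
  have hgl : ∀ l ∈ Low D (lev (Iic β)), Le D (lev (Iic β)) l (res (lev (Iic β)) p) →
      Le D univ (glue (lev (Iic β)) l p') p := fun l hl h =>
    Le.trans hd hBu hp' (glue_mem' hl heu hp') (glue_le hd hBu he (glue_mem' hl heu hp')
      ((le_congr he (fun _ _ => rfl) fun j hj => (hpp.1 j hj).trans (res_of_mem hj).symm).2 h))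
      (hpp.le hd hBu hp')
  have hkey : ∀ l ∈ Low D (lev (Iic β)), ∀ r ∈ Low D univ, Le D univ r (glue (lev (Iic β)) l p') →
      ∀ l' ∈ Low D (lev (Iic β)), Le D (lev (Iic β)) l' (res (lev (Iic β)) r) →
        Le D univ (glue (lev (Iic β)) l' r) (glue (lev (Iic β)) l' p') ∧
          Le D univ (glue (lev (Iic β)) l' r) r := fun l _ r hr h l' hl' h' =>
    ⟨glue_le_glue' hd hBu he heu hl' hr ((le_res_right he Subset.rfl).1 h') fun j hj e =>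
      (leAt_congr rfl (fun _ _ => rfl) (glue_of_notMem e)).1 (h j hj),
      glue_le hd hBu he (glue_mem' hl' heu hr) ((le_res_right he Subset.rfl).1 h')⟩
  have hres : ∀ l, ∀ r, Le D univ r (glue (lev (Iic β)) l p') →
      Le D (lev (Iic β)) (res (lev (Iic β)) r) l := fun l r h =>
    (le_res_left he Subset.rfl).2 ((le_glue_right he Subset.rfl).1 (h.anti heu))
  refine no_chain_loc (hV.anti (subset_univ _)) hk hB m
    (fun b => {l | ∀ r ∈ Low D univ, Le D univ r (glue (lev (Iic β)) l p') →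
      ∃ s ∈ Low D univ, Le D univ s r ∧ s ∈ H b}) ?_ (res_mem hp heu) ?_ ?_
  · intro b q hq q' hq' h hb r hr h'
    exact hb r hr (Le.trans hd hBu (glue_mem' hq' heu hp') hr h'
      (glue_le_glue hd hBu he (glue_mem' hq' heu hp') h fun j hj _ => TDir.refl hd hBu hj hp' rfl))
  · intro a ha l hl hlp
    obtain ⟨r, hr, hrl, b, hbB, hab, hrH⟩ := h₁ a ha _ (glue_mem' hl heu hp') (hgl l hl hlp)
    have hr0 := res_mem hr heu
    have hr1 := hres l r hrl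
    obtain ⟨l', hl', hl'r, x, hx⟩ := hdec ⟨b, hbB⟩ _ hr0
      ((le_res_right he Subset.rfl).1 (Le.trans he hBe hl hr0 hr1 hlp))
    obtain ⟨h₃, h₄⟩ := hkey l hl r hr hrl l' hl' hl'r
    refine ⟨l', hl', Le.trans he hBe hr0 hl' hl'r hr1, b, hbB, hab, ?_⟩
    rcases hx with ⟨-, hx⟩ | ⟨-, hx⟩
    · exact hx
    · exact absurd (hH b r hr _ (glue_mem' hl' heu hr) h₄ hrH) (hx _ (glue_mem' hl' heu hr) h₃)
  · intro a ha l hl hlp
    obtain ⟨r, hr, hrl, c, hcB, hc⟩ := h₂ a ha _ (glue_mem' hl heu hp') (hgl l hl hlp)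
    refine ⟨_, res_mem hr heu, hres l r hrl, c, hcB, fun b hbB hba l' hl' hl'r hb => ?_⟩
    obtain ⟨h₃, h₄⟩ := hkey l hl r hr hrl l' hl' hl'r
    obtain ⟨s, hs, h₅, h₆⟩ := hb _ (glue_mem' hl' heu hr) h₃
    exact hc b hbB hba s hs (Le.trans hd hBu (glue_mem' hl' heu hr) hs h₅ h₄) h₆

end Pool.Agent.MP_a2558b_lc

end

section

namespace Pool.Agent.MP_a2558b_lc

open Cardinal hiding univ
open Set Base

universe u

section Gen

variable {J Ω : Type u} [Inhabited Ω] [LinearOrder J] [Base J] {D : Sys J Ω} {c d : Set J}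

namespace BoundX

/-- Pulling a decision down to the lower part. -/
theorem pull (hc : IsLowerSet c) (hd : IsLowerSet d) (hcd : c ⊆ d) (hB : BasicOn D d) {Z : Type u}
    {dec : Cnd J Ω → Z → Prop} (hn : IsNm (Low D d) (Le D d) dec) {p p' : Cnd J Ω}
    (hp' : p' ∈ Low D d) (hE : TExt D c d p' p)
    (H : ∀ l ∈ Low D c, Le D c l p → ∃ l' ∈ Low D c, Le D c l' l ∧ ∃ x, dec (glue c l' p') x)
    {r : Cnd J Ω} (hr : r ∈ Low D d) (hrp : Le D d r p') {x : Z} (hx : dec r x) :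
    ∃ l ∈ Low D c, Le D c l r ∧ Le D c l p ∧ dec (glue c l p') x := by
  have h1 : Le D c r p := (le_congr hc (fun _ _ => rfl) hE.1).1 (hrp.anti hcd)
  obtain ⟨l, hl, h2, y, hy⟩ := H _ (res_mem hr hcd) ((le_res_left hc Subset.rfl).2 h1)
  have h3 : Le D c l r := (le_res_right hc Subset.rfl).1 h2
  have hm := glue_mem' hl hcd hr
  have e : x = y := hn.eq_of_le hr (glue_mem' hl hcd hp') hm (glue_le hd hB hc hm h3)
    (glue_le_glue' hd hB hc hcd hl hr h3 fun j hj _ => hrp j hj) hx hy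
  exact ⟨l, hl, h3, Le.trans' hd hB hc hcd hr (Low_mono hB hcd hl) h3 h1, e ▸ hy⟩

/-- Covering passes from the lower part to the whole. -/
theorem cov_lift (hc : IsLowerSet c) (hd : IsLowerSet d) (hcd : c ⊆ d) (hB : BasicOn D d)
    {ι Z : Type u} [Nonempty Z] {dec : ι → Cnd J Ω → Z → Prop}
    (hn : ∀ i, IsNm (Low D d) (Le D d) (dec i)) {p : Cnd J Ω} (hp : p ∈ Low D d)
    (Ψ : Set Z → Prop)
    (htail : ∃ p' ∈ Low D d, TExt D c d p' p ∧ ∀ i, ∀ l ∈ Low D c, Le D c l p →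
      ∃ l' ∈ Low D c, Le D c l' l ∧ ∃ x, dec i (glue c l' p') x)
    (hlow : ∀ dec' : ι → Cnd J Ω → Z → Prop, (∀ i, IsNm (Low D c) (Le D c) (dec' i)) →
      ∀ l ∈ Low D c, ∃ q ∈ Low D c, Le D c q l ∧ ∃ V, Ψ V ∧ ∀ i x, ∀ r ∈ Low D c, Le D c r q →
        dec' i r x → x ∈ V) :
    ∃ q ∈ Low D d, Le D d q p ∧ ∃ V, Ψ V ∧ ∀ i x, ∀ r ∈ Low D d, Le D d r q →
      dec i r x → x ∈ V := by
  obtain ⟨p', hp', hE, H⟩ := htail
  have hBc := hB.anti hcd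
  have mono : ∀ i, ∀ a ∈ Low D c, ∀ b ∈ Low D c, Le D c b a → ∀ x, dec i (glue c a p') x →
      dec i (glue c b p') x := fun i a ha b hb h x hx =>
    (hn i).mono _ (glue_mem' ha hcd hp') _ (glue_mem' hb hcd hp')
      (glue_le_glue hd hB hc (glue_mem' hb hcd hp') h
        fun j hj _ => TDir.refl hd hB hj hp' rfl) x hx
  choose dec' hn' hd' using fun i => exists_nm (refl_on hc hBc) (trans_on hc hBc)
    (fun l x => dec i (glue c l p') x) (mono i) (res c p) (res_mem hp hcd)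
    fun l hl h => H i l hl ((le_res_right hc Subset.rfl).1 h)
  obtain ⟨q, hq, h1, V, hV, h2⟩ := hlow dec' hn' _ (res_mem hp hcd)
  have hm := glue_mem' hq hcd hp'
  have h3 : Le D d (glue c q p') p' := glue_le hd hB hc hm
    ((le_congr hc (fun _ _ => rfl) hE.1).2 ((le_res_right hc Subset.rfl).1 h1))
  refine ⟨_, hm, Le.trans hd hB hp' hm h3 (hE.le hd hB hp'), V, hV, fun i x r hr hrq hx => ?_⟩
  obtain ⟨l, hl, h4, h5, h6⟩ := pull hc hd hcd hB (hn i) hp' hE (H i) hr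
    (Le.trans hd hB hm hr hrq h3) hx
  have h7 : Le D c l q := Le.trans' hd hB hc hcd hr (Low_mono hB hcd hl) h4
    ((le_glue_right hc Subset.rfl).1 (hrq.anti hcd))
  obtain ⟨l', hl', h8, y, hy⟩ := (hn' i).dense l hl
  obtain ⟨s, hs, h9, h10⟩ := hd' i l' hl'
    ((le_res_right hc Subset.rfl).2 (Le.trans hc hBc hl hl' h8 h5)) y hy l' hl'
    (Le.refl hc hBc hl')
  have e : x = y := (hn i).func _ (glue_mem' hs hcd hp') x y
    (mono i l hl s hs (Le.trans hc hBc hl' hs h9 h8) x h6) h10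
  exact e ▸ h2 i y l' hl' (Le.trans hc hBc hl hl' h8 h7) hy

/-- The trivial covering. -/
theorem cov_triv (hc : IsLowerSet c) (hB : BasicOn D c) {ι Z : Type u}
    (dec : ι → Cnd J Ω → Z → Prop) (hn : ∀ i, IsNm (Low D c) (Le D c) (dec i))
    (l : Cnd J Ω) (hl : l ∈ Low D c) :
    ∃ q ∈ Low D c, Le D c q l ∧ ∃ V : Set Z, #V ≤ #ι * #(Low D c) ∧
      ∀ i x, ∀ r ∈ Low D c, Le D c r q → dec i r x → x ∈ V := by
  refine ⟨l, hl, Le.refl hc hB hl, {x | ∃ w : ι × Low D c, dec w.1 w.2 x}, ?_,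
    fun i x r hr _ hx => ⟨(i, ⟨r, hr⟩), hx⟩⟩
  choose f hf using fun x : {x | ∃ w : ι × Low D c, dec w.1 w.2 x} => x.2
  have := mk_le_of_injective (f := f) fun x y h =>
    Subtype.ext ((hn (f x).1).func _ (f x).2.2 _ _ (hf x) (h ▸ hf y))
  simpa using this

/-- Passing to names with values in another type. -/
theorem cov_sub (hd : IsLowerSet d) (hB : BasicOn D d) {ι Y Z : Type u} [Nonempty Z]
    {dec : ι → Cnd J Ω → Y → Prop} (hn : ∀ i, IsNm (Low D d) (Le D d) (dec i))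
    (ρ : Y → Z → Prop) (hρ : ∀ i x, ∀ q ∈ Low D d, dec i q x → ∃ b, ρ x b) {p : Cnd J Ω}
    (Ψ : Set Z → Prop)
    (hcov : ∀ dec' : ι → Cnd J Ω → Z → Prop, (∀ i, IsNm (Low D d) (Le D d) (dec' i)) →
      ∃ q ∈ Low D d, Le D d q p ∧ ∃ V, Ψ V ∧ ∀ i x, ∀ r ∈ Low D d, Le D d r q →
        dec' i r x → x ∈ V) :
    ∃ q ∈ Low D d, Le D d q p ∧ ∃ V, Ψ V ∧ ∀ i x, ∀ r ∈ Low D d, Le D d r q →
      dec i r x → ∃ b ∈ V, ρ x b := by
  choose dec' hn' hd' using fun i => exists_nm (refl_on hd hB) (trans_on hd hB)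
    (fun q b => ∃ x, dec i q x ∧ ρ x b)
    (fun a ha b hb h z ⟨x, hx, hz⟩ => ⟨x, (hn i).mono a ha b hb h x hx, hz⟩) ctop (ctop_mem hB)
    fun l hl _ => by
      obtain ⟨q, hq, h, x, hx⟩ := (hn i).dense l hl
      obtain ⟨b, hb⟩ := hρ i x q hq hx
      exact ⟨q, hq, h, b, x, hx, hb⟩
  obtain ⟨q, hq, h1, V, hV, h2⟩ := hcov dec' hn'
  refine ⟨q, hq, h1, V, hV, fun i x r hr hrq hx => ?_⟩
  obtain ⟨r', hr', h3, b, hb⟩ := (hn' i).dense r hr
  obtain ⟨s, hs, h4, y, hy, h5⟩ := hd' i r' hr' (le_ctop hd hB hr') b hb r' hr' (Le.refl hd hB hr')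
  have e : x = y := (hn i).func s hs x y
    ((hn i).mono r hr s hs (Le.trans hd hB hr' hs h4 h3) x hx) hy
  exact ⟨b, h2 i b r' hr' (Le.trans hd hB hr hr' h3 hrq) hb, e ▸ h5⟩

end BoundX

end Gen

open BoundX

variable {Θ Ω : Type u} [LinearOrder Θ] [WellFoundedLT Θ] [LinearOrder Ω] [WellFoundedLT Ω]
  [Inhabited Ω] {X : Ctx Θ Ω} {D : Sys (JJ Θ) Ω} {β : Θ} {k : Θ → Cardinal.{u}}

/-- Fewer than `mu β` names below a bad point are bounded. -/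
theorem bdd_S (hV : Valid X D univ) (hk : LevelOK X D β k) {B : Set Ω} {d : Ω}
    (hB : BProp X β k B d) {ι : Type u} (hι : #ι ≤ X.lb β) (dec : ι → Cnd (JJ Θ) Ω → Ω → Prop)
    (hn : ∀ i, IsNm (Low D univ) (Le D univ) (dec i))
    (hlt : ∀ i x, ∀ q ∈ Low D univ, dec i q x → x < d) {p : Cnd (JJ Θ) Ω} (hp : p ∈ Low D univ) :
    ∃ q ∈ Low D univ, Le D univ q p ∧ ∃ b < d, ∀ i x, ∀ r ∈ Low D univ, Le D univ r q →
      dec i r x → x < b := by
  have : Nonempty B := hB.ne.to_subtype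
  have hU := basicOn_univ hV
  have hI : BasicOn D (lev (Iic β)) := hU.anti (subset_univ _)
  obtain ⟨q, hq, h1, V, hV', h2⟩ := cov_sub isLowerSet_univ hU hn (fun x (b : B) => x < b.1)
    (fun i x q hq hx => by
      obtain ⟨b, hb, h⟩ := hB.cof x (hlt i x q hq hx)
      exact ⟨⟨b, hb⟩, h⟩) (p := p) (fun V => #V ≤ sum k) fun dec₁ hn₁ =>
    cov_lift (levIic_lower β) isLowerSet_univ (subset_univ _) hU hn₁ hp _
      (tail hV (isLowerSet_Iic β)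
        (fun δ hδ => hB.size.trans ((X.κ_le_lb (not_le.1 hδ)).trans (Order.le_succ _)))
        (fun δ hδ => hι.trans (X.lb_mono (not_le.1 hδ).le)) dec₁ hn₁ hp)
      fun dec₂ hn₂ l hl =>
    cov_lift (levC_lower β) (levIic_lower β) (levC_sub_levIic β) hI hn₂ hl _
      (tail_fam (levC_lower β) (levIic_lower β) (levC_sub_levIic β) hI dec₂ hn₂
        (fun j hj hj' => by
          obtain rfl := (mem_levIic.1 hj).resolve_left hj'
          exact (cl_cc hk).anti hι)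
        (fun i u hu => full_mix (levC_lower β) (levIic_lower β) (levC_sub_levIic β) hI
          (fun j _ => mixCut_levC hV β j trivial) (fun r => ∃ x, dec₂ i r x)
          (fun r hr r' hr' h ⟨x, hx⟩ => ⟨x, (hn₂ i).mono r hr r' hr' h x hx⟩) hu u
          fun a ha _ => by
            obtain ⟨r, hr, h, x, hx⟩ := (hn₂ i).dense _ (glue_mem' ha (levC_sub_levIic β) hu)
            refine ⟨r, hr, (le_glue_right (levC_lower β) Subset.rfl).1
              (h.anti (levC_sub_levIic β)), fun j hj hj' => ⟨?_, (leAt_congr rfl (fun _ _ => rfl)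
                (glue_of_notMem hj')).1 (h j hj)⟩, x, hx⟩
            obtain rfl := (mem_levIic.1 hj).resolve_left hj'
            have e : ∀ w ∈ Low D (lev (Iic β)), (w (cc β)).s = none := fun w hw => by
              rcases hs : (w (cc β)).s with _ | a
              · rfl
              · have := (hw.1 _ hj).1 a hs
                rw [hk.2.pt_eq] at this
                exact this.elim
            rw [e r hr, e u hu]) hl)
      fun dec₃ hn₃ l' hl' => by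
        obtain ⟨p', hp', hE, V, hV₁, hV₂⟩ := seg_cov (hV.anti (subset_univ _)) hk.1 β
          (hι.trans ((Order.le_succ _).trans (hk.1.kmu β))) dec₃ hn₃ hl'
        exact ⟨p', hp', hE.le (levC_lower β) (hU.anti (subset_univ _)) hp', V, hV₁,
          fun i x r hr h hx => hV₂ i x r hr (fun j hj _ => h j hj) hx⟩
  obtain ⟨b, hb, h3⟩ := hB.bdd (Subtype.val '' V) (Subtype.coe_image_subset _ _)
    (mk_image_le.trans hV')
  refine ⟨q, hq, h1, b, hB.sub hb, fun i x r hr h hx => ?_⟩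
  obtain ⟨a, ha, h4⟩ := h2 i x r hr h hx
  exact h4.trans (h3 _ ⟨a, ha, rfl⟩)

/-- The generic collapse. -/
theorem col_names (hV : Valid X D univ) (β : Θ) : ∃ g : Ω → Cnd (JJ Θ) Ω → Ω → Prop,
    (∀ i < X.mu β, IsNm (Low D univ) (Le D univ) (g i)) ∧ ∀ ξ < X.kap β, ∀ p ∈ Low D univ,
      ∃ q ∈ Low D univ, Le D univ q p ∧ ∃ i < X.mu β, g i q ξ := by
  classical
  obtain ⟨k, hk⟩ := hV β trivial
  obtain ⟨val, c1, c2, c3⟩ := hk.2.col
  have hU := basicOn_univ hV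
  have hu := isLowerSet_univ (α := JJ Θ)
  have hC := levC_lower β
  have F : ∀ i x y, ∀ r ∈ Low D univ, ∀ s ∈ Low D univ, Le D univ s r →
      val (r (cc β)).t i (res (levC β) r) x → val (s (cc β)).t i (res (levC β) s) y → x = y := by
    intro i x y r hr s hs h hx hy
    refine c1 _ _ i x y _ (res_mem hr (subset_univ _)) _ (res_mem hs (subset_univ _))
      (t_mem hU hr trivial) (t_mem hU hs trivial) ((le_res_left hC Subset.rfl).2
        ((le_res_right hC Subset.rfl).2 (h.anti (subset_univ _)))) hx ?_ hy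
    have := (h (cc β) trivial).2.2.2
    rwa [bs_cc] at this
  have Ext : ∀ r ∈ Low D univ, ∀ q ∈ Low D (levC β), Le D (levC β) q (res (levC β) r) →
      ∀ t ∈ (D (cc β)).T, (D (cc β)).le t (r (cc β)).t q →
      ∃ s ∈ Low D univ, Le D univ s r ∧ (s (cc β)).t = t ∧ res (levC β) s = q := by
    intro r hr q hq h t ht hle
    have hm := glue_mem' hq (subset_univ _) hr
    have hnc : cc β ∉ levC β := fun h => lt_irrefl β (cc_mem_levC.1 h)
    have e0 : glue (levC β) q r (cc β) = r (cc β) := glue_of_notMem hnc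
    have e1 : res (levC β) (glue (levC β) q r) = q := (res_glue Subset.rfl).trans (res_eq_self hq)
    have es : (r (cc β)).s = none := by
      rcases hs : (r (cc β)).s with _ | a
      · rfl
      · have := (hr.1 _ trivial).1 a hs
        rw [hk.2.pt_eq] at this
        exact this.elim
    have hv : OkAt D (cc β) ⟨none, (r (cc β)).E, t⟩ :=
      ⟨fun a ha => by simp at ha, (hr.1 _ trivial).2.1, (hr.1 _ trivial).2.2.1, ht⟩
    have hs := update_mem hm (j := cc β) trivial hv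
    refine ⟨_, hs, Le.trans hu hU hm hs (update_le hu hU hm trivial hv (fun a ha => ?_)
      (fun a _ ha => by simp at ha) (by rw [e0]) (by rw [bs_cc, e0, e1]; exact hle))
      (glue_le hu hU hC hm ((le_res_right hC Subset.rfl).1 h)), by rw [Function.update_self], ?_⟩
    · rw [e0, es] at ha; simp at ha
    · have := res_bs_update (p := glue (levC β) q r) (j := cc β) ⟨none, (r (cc β)).E, t⟩
      rw [bs_cc] at this
      rw [this, e1]
  have E3 : ∀ i < X.mu β, ∀ r ∈ Low D univ, ∃ s ∈ Low D univ, Le D univ s r ∧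
      ∃ x, val (s (cc β)).t i (res (levC β) s) x := fun i hi r hr => by
    obtain ⟨q, hq, h, t, ht, x, h1, h2⟩ := c3 _ (t_mem hU hr trivial) _
      (res_mem hr (subset_univ _)) i hi
    obtain ⟨s, hs, h3, h4, h5⟩ := Ext r hr q hq h t ht h1
    exact ⟨s, hs, h3, x, by rw [h4, h5]; exact h2⟩
  have G : ∀ i < X.mu β, ∀ s ∈ Low D univ, ∀ x, val (s (cc β)).t i (res (levC β) s) x →
      ∀ r' ∈ Low D univ, Le D univ r' s → ∃ r'' ∈ Low D univ, Le D univ r'' r' ∧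
        val (r'' (cc β)).t i (res (levC β) r'') x := fun i hi s hs x hx r' hr' h => by
    obtain ⟨r'', hr'', h1, y, hy⟩ := E3 i hi r' hr'
    exact ⟨r'', hr'', h1, F i x y s hs r'' hr'' (Le.trans hu hU hr' hr'' h1 h) hx hy ▸ hy⟩
  refine ⟨fun i r x => ∀ r' ∈ Low D univ, Le D univ r' r → ∃ r'' ∈ Low D univ, Le D univ r'' r' ∧
    val (r'' (cc β)).t i (res (levC β) r'') x, fun i hi => ⟨?_, ?_, ?_, ?_⟩, fun ξ hξ p hp => ?_⟩
  · exact fun p _ q hq h x H r' hr' h' => H r' hr' (Le.trans hu hU hq hr' h' h)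
  · intro p hp
    obtain ⟨s, hs, h, x, hx⟩ := E3 i hi p hp
    exact ⟨s, hs, h, x, G i hi s hs x hx⟩
  · intro p hp x y hx hy
    obtain ⟨r, hr, h, hx⟩ := hx p hp (Le.refl hu hU hp)
    obtain ⟨s, hs, h', hy⟩ := hy r hr h
    exact F i x y r hr s hs h' hx hy
  · intro p _ x H q hq h
    obtain ⟨r, hr, h', H'⟩ := H q hq h
    obtain ⟨s, hs, h'', H''⟩ := H' r hr (Le.refl hu hU hr)
    exact ⟨s, hs, Le.trans hu hU hr hs h'' h', H''⟩
  · obtain ⟨q, hq, h, t, ht, i, hi, h1, h2⟩ := c2 _ (t_mem hU hp trivial) _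
      (res_mem hp (subset_univ _)) ξ hξ
    obtain ⟨s, hs, h3, h4, h5⟩ := Ext p hp q hq h t ht h1
    exact ⟨s, hs, h3, i, hi, G i hi s hs ξ (by rw [h4, h5]; exact h2)⟩

theorem bdd_w1 (hV : Valid X D univ) {ι : Type u} [Countable ι]
    (dec : ι → Cnd (JJ Θ) Ω → Ω → Prop) (hn : ∀ i, IsNm (Low D univ) (Le D univ) (dec i))
    (hlt : ∀ i x, ∀ q ∈ Low D univ, dec i q x → x < X.w1) {p : Cnd (JJ Θ) Ω}
    (hp : p ∈ Low D univ) : ∃ q ∈ Low D univ, Le D univ q p ∧ ∃ b < X.w1, ∀ i x,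
      ∀ r ∈ Low D univ, Le D univ r q → dec i r x → x < b := by
  have := X.unc
  obtain ⟨β0⟩ : Nonempty Θ := inferInstance
  have hth : ∀ γ, X.th γ < X.w1 := fun γ => X.th_range.subset (mem_range_self γ)
  have : Nonempty (Iio X.w1) := ⟨⟨_, hth β0⟩⟩
  have hU := basicOn_univ hV
  have hZ : #(Iio X.w1) = ℵ₁ := by
    rw [← X.th_range, mk_range_eq _ X.th_mono.injective, X.mk_Θ]
  have he : IsLowerSet (lev (∅ : Set Θ)) := lev_lower isLowerSet_empty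
  obtain ⟨q, hq, h1, V, hV', h2⟩ := cov_sub isLowerSet_univ hU hn
    (fun x (b : Iio X.w1) => x = b.1) (fun i x q hq hx => ⟨⟨x, hlt i x q hq hx⟩, rfl⟩) (p := p)
    (fun V => #V ≤ #ι * #(Low D (lev (∅ : Set Θ)))) fun dec₁ hn₁ =>
    cov_lift he isLowerSet_univ (subset_univ _) hU hn₁ hp _
      (tail hV isLowerSet_empty
        (fun δ _ => hZ ▸ (X.aleph1_le_lb δ).trans (Order.le_succ _))
        (fun δ _ => mk_le_aleph0.trans (X.aleph0_le_lb δ)) dec₁ hn₁ hp)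
      (cov_triv he (hU.anti (subset_univ _)))
  rw [lev_empty, Low_empty, mk_singleton, mul_one] at hV'
  have hc : V.Countable := le_aleph0_iff_set_countable.1 (hV'.trans mk_le_aleph0)
  obtain ⟨γ, hγ⟩ := X.exists_bound
    ((hc.image Subtype.val).preimage_of_injOn X.th_mono.injective.injOn)
  refine ⟨q, hq, h1, X.th γ, hth γ, fun i x r hr h hx => ?_⟩
  obtain ⟨b, hb, rfl⟩ := h2 i x r hr h hx
  obtain ⟨δ, hδ⟩ : b.1 ∈ range X.th := X.th_range.superset b.2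
  exact hδ ▸ X.th_mono (hγ δ ⟨b, hb, hδ.symm⟩)

theorem bdd_succ (hV : Valid X D univ) {γ : Θ} (hγ : β < γ) (hs : ∀ δ, β < δ → γ ≤ δ)
    {ι : Type u} (hι : #ι ≤ X.lb γ) (dec : ι → Cnd (JJ Θ) Ω → Ω → Prop)
    (hn : ∀ i, IsNm (Low D univ) (Le D univ) (dec i))
    (hlt : ∀ i x, ∀ q ∈ Low D univ, dec i q x → x < X.mu γ) {p : Cnd (JJ Θ) Ω}
    (hp : p ∈ Low D univ) : ∃ q ∈ Low D univ, Le D univ q p ∧ ∃ b < X.mu γ, ∀ i x,
      ∀ r ∈ Low D univ, Le D univ r q → dec i r x → x < b := by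
  have : Nonempty (Iio (X.mu γ)) := ⟨⟨_, X.w1_mu γ⟩⟩
  have hU := basicOn_univ hV
  obtain ⟨k, hk⟩ := hV β trivial
  obtain ⟨q, hq, h1, V, hV', h2⟩ := cov_sub isLowerSet_univ hU hn
    (fun x (b : Iio (X.mu γ)) => x = b.1) (fun i x q hq hx => ⟨⟨x, hlt i x q hq hx⟩, rfl⟩) (p := p)
    (fun V => #V ≤ #ι * #(Low D (lev (Iic β)))) fun dec₁ hn₁ =>
    cov_lift (levIic_lower β) isLowerSet_univ (subset_univ _) hU hn₁ hp _
      (tail hV (isLowerSet_Iic β)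
        (fun δ hδ => X.mk_mu γ ▸ Order.succ_le_succ (X.lb_mono (hs δ (not_le.1 hδ))))
        (fun δ hδ => hι.trans (X.lb_mono (hs δ (not_le.1 hδ)))) dec₁ hn₁ hp)
      (cov_triv (levIic_lower β) (hU.anti (subset_univ _)))
  obtain ⟨b, hb, h3⟩ := X.mu_bdd γ (Subtype.val '' V) (Subtype.coe_image_subset _ _)
    (mk_image_le.trans (hV'.trans ((mul_le_mul' hι ((mk_low_Iic hk).trans (X.κ_le_lb hγ))).trans_eq
      (mul_eq_self (X.aleph0_le_lb γ)))))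
  refine ⟨q, hq, h1, b, hb, fun i x r hr h hx => ?_⟩
  obtain ⟨a, ha, rfl⟩ := h2 i x r hr h hx
  exact h3 _ ⟨a, ha, rfl⟩

theorem bdd_top (hV : Valid X D univ) (dec : Ω → Cnd (JJ Θ) Ω → Ω → Prop)
    (hn : ∀ i, IsNm (Low D univ) (Le D univ) (dec i)) {p : Cnd (JJ Θ) Ω} (hp : p ∈ Low D univ) :
    ∃ q ∈ Low D univ, Le D univ q p ∧ ∃ b, ∀ i < X.lam, ∀ x,
      ∀ r ∈ Low D univ, Le D univ r q → dec i r x → x < b := by
  choose rk hrk using fun i : Iio X.lam => X.lam_cof i.1 i.2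
  obtain ⟨q, hq, h1, V, hV', h2⟩ := lev_cov' (A := univ) isLowerSet_univ hV rk (fun _ => trivial)
    (fun γ => by
      rw [← X.mk_kap γ]
      exact mk_le_of_injective (f := fun i : {i | rk i ≤ γ} =>
        (⟨i.1.1, (hrk i.1).trans_le (X.kap_mono i.2)⟩ : Iio (X.kap γ)))
        fun i i' h => Subtype.ext (Subtype.ext (Subtype.mk.inj h)))
    (fun i => dec i.1) (fun i => hn i.1) hp
  have e : sum (fun γ : (univ : Set Θ) => X.κ γ) = sum X.κ :=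
    mk_congr (Equiv.sigmaCongrLeft (β := fun γ => (X.κ γ).out) (Equiv.Set.univ Θ))
  obtain ⟨b, hb⟩ := X.top_bdd V (e ▸ hV')
  exact ⟨q, hq, h1, b, fun i hi x r hr h hx => hb x (h2 ⟨i, hi⟩ x r hr h hx)⟩

/-- Few subsets of `mu β`. -/
theorem few (hV : Valid X D univ) (β : Θ) : ∃ O : Ω → Ω → Set (Cnd (JJ Θ) Ω),
    (∀ w i, O w i ⊆ Low D univ) ∧ ∀ N : Ω → Set (Cnd (JJ Θ) Ω),
      (∀ i, ∀ q ∈ Low D univ, ∀ q' ∈ Low D univ, Le D univ q' q → q ∈ N i → q' ∈ N i) →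
      (∀ i, ∀ r ∈ Low D univ, (∀ r' ∈ Low D univ, Le D univ r' r →
        ∃ r'' ∈ Low D univ, Le D univ r'' r' ∧ r'' ∈ N i) → r ∈ N i) →
      ∀ p ∈ Low D univ, ∃ q ∈ Low D univ, Le D univ q p ∧ ∃ w < X.lam, ∀ i < X.mu β,
        ∀ r ∈ Low D univ, Le D univ r q → (r ∈ N i ↔ ∀ r' ∈ Low D univ, Le D univ r' r →
          ∃ r'' ∈ Low D univ, Le D univ r'' r' ∧ ∃ s ∈ O w i, Le D univ r'' s) := by
  obtain ⟨k, hk⟩ := hV β trivial
  obtain ⟨γ, hγ⟩ := X.exists_gt β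
  have hU := basicOn_univ hV
  have hu := isLowerSet_univ (α := JJ Θ)
  have hc := levIic_lower β
  have hcard : #(Iio (X.mu β) → Set (Low D (lev (Iic β)))) ≤ #(Iio X.lam) := by
    rw [← power_def, mk_set, ← power_mul, X.mk_mu, X.mk_lam]
    refine le_trans ?_ (((X.inacc γ).isStrongPrelimit (X.κ_mono hγ)).le.trans
      (X.κ_le_sum γ))
    exact power_le_power_left two_ne_zero ((mul_le_mul' (mk_low_Iic hk) (X.lb_lt β).le).trans_eq
      (mul_eq_self (X.aleph0_lt_κ β).le))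
  obtain ⟨f⟩ := (le_def _ _).1 hcard
  refine ⟨fun w i => {s | ∃ φ, (f φ).1 = w ∧ ∃ (hi : i < X.mu β) (hs : s ∈ Low D (lev (Iic β))),
    ⟨s, hs⟩ ∈ φ ⟨i, hi⟩}, fun w i s ⟨_, _, _, hs, _⟩ => Low_mono hU (subset_univ _) hs,
    fun N hN hR p hp => ?_⟩
  have hn : ∀ i : Iio (X.mu β), IsNm (Low D univ) (Le D univ)
      (tvN (Low D univ) (Le D univ) (N i.1)) :=
    fun i => isNm_tvN (refl_on hu hU) (trans_on hu hU) (hN i.1)
  obtain ⟨p', hp', hE, H⟩ := tail hV (isLowerSet_Iic β)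
    (fun δ _ => mk_le_aleph0.trans ((X.aleph0_le_lb δ).trans (Order.le_succ _)))
    (fun δ hδ => X.mk_mu β ▸ (X.lb_lt β).le.trans (X.κ_le_lb (not_le.1 hδ))) _ hn hp
  let φ : Iio (X.mu β) → Set (Low D (lev (Iic β))) :=
    fun i => {l | glue (lev (Iic β)) l.1 p' ∈ N i.1}
  refine ⟨p', hp', hE.le hu hU hp', (f φ).1, (f φ).2, fun i hi r hr h =>
    ⟨fun hrN r' hr' h' => ?_, fun H' => hR i r hr fun r' hr' h' => ?_⟩⟩
  · have h1 : tvN (Low D univ) (Le D univ) (N i) r' ⟨true⟩ := Or.inl ⟨rfl, fun s hs h'' =>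
      ⟨s, hs, Le.refl hu hU hs, hN i r hr s hs (Le.trans hu hU hr' hs h'' h') hrN⟩⟩
    obtain ⟨l, hl, h2, -, ⟨-, h4⟩ | ⟨h4, -⟩⟩ := pull hc hu (subset_univ _) hU (hn ⟨i, hi⟩) hp' hE
      (H ⟨i, hi⟩) hr' (Le.trans hu hU hr hr' h' h) h1
    · have hm := glue_mem' hl (subset_univ _) hr'
      exact ⟨_, hm, glue_le hu hU hc hm h2, l,
        ⟨φ, rfl, hi, hl, hR i _ (glue_mem' hl (subset_univ _) hp') h4⟩,
        glue_le_low hu hU hc (subset_univ _) hl hr'⟩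
    · simp at h4
  · obtain ⟨r'', hr'', h1, s, ⟨ψ, h2, hi', hs, h3⟩, h4⟩ := H' r' hr' h'
    obtain rfl : ψ = φ := f.injective (Subtype.ext h2)
    have h5 := Le.trans hu hU hr hr'' (Le.trans hu hU hr' hr'' h1 h') h
    exact ⟨r'', hr'', h1, hN i _ (glue_mem' hs (subset_univ _) hp') r'' hr''
      (le_glue (fun j hj _ => h4 j hj) fun j hj _ => h5 j hj) h3⟩

end Pool.Agent.MP_a2558b_lc

end

section

namespace Pool.Agent.MP_a2558b_lc

open Cardinal hiding univ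
open Set Base

universe u

/-- A preorder on a subset of a type. -/
structure SubPO (Q : Type u) where
  L : Set Q
  R : Q → Q → Prop
  hr : ∀ p ∈ L, R p p
  ht : ∀ p ∈ L, ∀ q ∈ L, ∀ r ∈ L, R r q → R q p → R r p

namespace SubPO

variable {Q Z : Type u} (F : SubPO Q)

/-- The carrier of the preorder. -/
def Car : Type u := {q // q ∈ F.L}

instance : Preorder F.Car where
  le a b := F.R a.1 b.1
  le_refl a := F.hr a.1 a.2
  le_trans a b c h₁ h₂ := F.ht c.1 c.2 b.1 b.2 a.1 a.2 h₁ h₂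

/-- An element of the carrier. -/
def mk' (q : Q) (h : q ∈ F.L) : F.Car := ⟨q, h⟩

variable {F}

/-- The regularization of a name. -/
def reg (n : Nm F.Car Z) (q : Q) (x : Z) : Prop :=
  ∀ q' ∈ F.L, F.R q' q → ∃ r : F.Car, F.R r.1 q' ∧ n.dec r x

theorem reg_of_dec {n : Nm F.Car Z} {p : F.Car} {x : Z} (h : n.dec p x) : reg n p.1 x :=
  fun q' hq' h' => ⟨F.mk' q' hq', F.hr q' hq', n.mono (p := p) (q := F.mk' q' hq') h' h⟩

theorem isNm_reg (n : Nm F.Car Z) : IsNm F.L F.R (reg n) := by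
  refine ⟨?_, ?_, ?_, ?_⟩
  · exact fun p hp q hq h x H q' hq' h' => H q' hq' (F.ht _ hp _ hq _ hq' h' h)
  · intro p hp
    obtain ⟨q, hq, x, hx⟩ := n.dense (F.mk' p hp)
    exact ⟨q.1, q.2, hq, x, reg_of_dec hx⟩
  · intro p hp x y hx hy
    obtain ⟨q, h, hx⟩ := hx p hp (F.hr p hp)
    obtain ⟨r, h', hy⟩ := hy q.1 q.2 h
    exact n.func (n.mono (p := q) (q := r) h' hx) hy
  · intro p hp x H q hq h
    obtain ⟨r, hr', h', H'⟩ := H q hq h
    obtain ⟨s, h'', H''⟩ := H' r hr' (F.hr r hr')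
    exact ⟨s, F.ht _ hq _ hr' _ s.2 h'' h', H''⟩

theorem reg_elim {n : Nm F.Car Z} {q : Q} (hq : q ∈ F.L) {x : Z} (h : reg n q x) :
    ∃ r, n.dec r x := by
  obtain ⟨r, -, h⟩ := h q hq (F.hr q hq)
  exact ⟨r, h⟩

/-- The image of a regular decision relation under a map, as a name. -/
def img {dec : Q → Z → Prop} (h : IsNm F.L F.R dec) (f : Z → Z) : Nm F.Car Z where
  dec p y := ∃ x, dec p.1 x ∧ y = f x
  mono := by
    rintro p q y hqp ⟨x, hx, rfl⟩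
    exact ⟨x, h.mono p.1 p.2 q.1 q.2 hqp x hx, rfl⟩
  dense p := by
    obtain ⟨q, hq, h', x, hx⟩ := h.dense p.1 p.2
    exact ⟨F.mk' q hq, h', f x, x, hx, rfl⟩
  func := by
    rintro p y y' ⟨x, hx, rfl⟩ ⟨x', hx', rfl⟩
    rw [h.func p.1 p.2 x x' hx hx']

variable [LinearOrder Z]

theorem bdd_of {z c : Z} (H : ∀ dec : Iio z → Q → Z → Prop, (∀ i, IsNm F.L F.R (dec i)) →
    (∀ i x, ∀ q ∈ F.L, dec i q x → x < c) → ∀ p ∈ F.L, ∃ q ∈ F.L, F.R q p ∧ ∃ b < c,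
      ∀ i x, ∀ r ∈ F.L, F.R r q → dec i r x → x < b) : Bdd F.Car z c := by
  intro h hh p
  obtain ⟨q, hq, h₁, b, hb, h₂⟩ := H (fun i => reg (h i)) (fun i => isNm_reg _)
    (fun i x q hq hx => by
      obtain ⟨r, hr⟩ := reg_elim hq hx
      exact hh i i.2 r x hr) p.1 p.2
  exact ⟨F.mk' q hq, h₁, b, hb, fun i hi r hr x hx => h₂ ⟨i, hi⟩ x r.1 r.2 hr (reg_of_dec hx)⟩

end SubPO

/-- The constant name. -/
def constNm (P : Type u) [Preorder P] {Z : Type u} (a : Z) : Nm P Z where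
  dec _ y := y = a
  mono _ h := h
  dense p := ⟨p, le_rfl, a, rfl⟩
  func h h' := h.trans h'.symm

variable {Θ Ω : Type u} [LinearOrder Θ] [WellFoundedLT Θ] [LinearOrder Ω] [WellFoundedLT Ω]
  [Inhabited Ω] {X : Ctx Θ Ω} {D : Sys (JJ Θ) Ω} {β : Θ} {k : Θ → Cardinal.{u}}

/-- The system formed from the earlier levels. -/
noncomputable def preSys (β : Θ) (prev : ∀ γ, γ < β → WithTop Θ → Crd Ω Ω (Cnd (JJ Θ) Ω)) :
    Sys (JJ Θ) Ω := fun j =>
  if h : (ofLex j).1 < β then prev _ h (ofLex j).2 else triv ∅ default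

open Classical in
/-- One step of the recursion. -/
noncomputable def stepSys (X : Ctx Θ Ω) (β : Θ)
    (prev : ∀ γ, γ < β → WithTop Θ → Crd Ω Ω (Cnd (JJ Θ) Ω)) :
    WithTop Θ → Crd Ω Ω (Cnd (JJ Θ) Ω) := fun i =>
  if h : Valid X (preSys β prev) (Iio β) then (exists_good h).choose (toLex (β, i))
  else triv ∅ default

theorem exists_system (X : Ctx Θ Ω) :
    ∃ D : Sys (JJ Θ) Ω, Valid X D univ ∧ ∀ β, Stat X D β := by
  classical
  let L : Θ → WithTop Θ → Crd Ω Ω (Cnd (JJ Θ) Ω) :=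
    (wellFounded_lt (α := Θ)).fix (stepSys X)
  have hL : ∀ β, L β = stepSys X β fun γ _ => L γ := fun β => WellFounded.fix_eq _ _ _
  let D : Sys (JJ Θ) Ω := fun j => L (ofLex j).1 (ofLex j).2
  have key : ∀ β, (∀ γ < β, ∃ k, LevelOK X D γ k) →
      (∃ k, LevelOK X D β k) ∧ (Valid X D univ → Stat X D β) := by
    intro β ih
    have h0 : ∀ j ∈ lev (Iio β), D j = preSys β (fun γ _ => L γ) j := fun j hj => by
      rw [preSys, dif_pos (show (ofLex j).1 < β from hj)]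
    have hV : Valid X (preSys β fun γ _ => L γ) (Iio β) := by
      intro γ hγ
      obtain ⟨k, hk⟩ := ih γ hγ
      exact ⟨k, LevelOK_congr (fun j hj => h0 j (levIic_sub_levIio hγ hj)) hk⟩
    obtain ⟨h₁, ⟨k, h₂⟩, h₃⟩ := (exists_good hV).choose_spec
    have h : ∀ j ∈ lev (Iic β), D j = (exists_good hV).choose j := by
      intro j hj
      rcases (show (ofLex j).1 ≤ β from hj).eq_or_lt with e | e
      · show L (ofLex j).1 (ofLex j).2 = _
        have e' : toLex (β, (ofLex j).2) = j := by rw [← e]; rfl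
        rw [e, hL β, stepSys, dif_pos hV, e']
      · rw [h₁ j e, h0 j e]
    exact ⟨⟨k, LevelOK_congr (fun j hj => (h j hj).symm) h₂⟩, h₃ D h⟩
  have hV : ∀ β, ∃ k, LevelOK X D β k := by
    intro β
    induction β using WellFoundedLT.induction with
    | _ β ih => exact (key β ih).1
  exact ⟨D, fun β _ => hV β, fun β => (key β fun γ _ => hV γ).2 fun γ _ => hV γ⟩

/-- The forcing order of a valid system. -/
def sysPO (hV : Valid X D univ) : SubPO (Cnd (JJ Θ) Ω) where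
  L := Low D univ
  R := Le D univ
  hr := refl_on isLowerSet_univ (basicOn_univ hV)
  ht := trans_on isLowerSet_univ (basicOn_univ hV)

theorem cofN_of (hV : Valid X D univ) (β : Θ) {B : Set Ω} {d : Ω} (h₁ : B ⊆ Iio d)
    (h₂ : B.Nonempty) (h₃ : ∀ a < d, ∃ b ∈ B, a ≤ b) (h₄ : #B ≤ X.κ β) :
    CofN (sysPO hV).Car (X.mu β) d := by
  classical
  obtain ⟨x0, hx0⟩ := h₂
  rw [← X.mk_kap β] at h₄
  obtain ⟨e⟩ := (Cardinal.le_def _ _).1 h₄
  obtain ⟨f, hf₁, hf₂⟩ : ∃ f : Ω → Ω, (∀ ξ, f ξ ∈ B) ∧ ∀ b ∈ B, ∃ ξ < X.kap β, f ξ = b := by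
    refine ⟨fun ξ => if h : ∃ b : B, (e b).1 = ξ then h.choose.1 else x0, fun ξ => ?_,
      fun b hb => ⟨(e ⟨b, hb⟩).1, (e ⟨b, hb⟩).2, ?_⟩⟩
    · by_cases h : ∃ b : B, (e b).1 = ξ
      · simp only [dif_pos h]; exact h.choose.2
      · simp only [dif_neg h]; exact hx0
    · have h : ∃ b' : B, (e b').1 = (e ⟨b, hb⟩).1 := ⟨_, rfl⟩
      simp only [dif_pos h]
      rw [e.injective (Subtype.ext h.choose_spec)]
  obtain ⟨g, hg₁, hg₂⟩ := col_names hV β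
  refine ⟨fun i => if h : i < X.mu β then SubPO.img (F := sysPO hV) (hg₁ i h) f
    else constNm _ x0, fun i hi p x hx => ?_, fun b hb p => ?_⟩
  · simp only [dif_pos hi] at hx
    obtain ⟨y, -, rfl⟩ := hx
    exact h₁ (hf₁ y)
  · obtain ⟨a, ha, hba⟩ := h₃ b hb
    obtain ⟨ξ, hξ, rfl⟩ := hf₂ a ha
    obtain ⟨q, hq, h, i, hi, hg⟩ := hg₂ ξ hξ p.1 p.2
    refine ⟨(sysPO hV).mk' q hq, h, i, hi, f ξ, hba, ?_⟩
    simp only [dif_pos hi]
    exact ⟨ξ, hg, rfl⟩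

theorem exists_facts (hV : Valid X D univ) (hS : ∀ β, Stat X D β) :
    ∃ (P : Type u) (_ : Preorder P) (_ : OrderTop P), Nonempty (Facts P Ω) := by
  classical
  have hu := X.unc
  have hB := basicOn_univ hV
  let inv : Ω → Θ := Function.invFun X.th
  have inv_th : ∀ β, inv (X.th β) = β := Function.leftInverse_invFun X.th_mono.injective
  have th_lt : ∀ β, X.th β < X.w1 := fun β => by
    have : X.th β ∈ range X.th := ⟨β, rfl⟩
    rwa [X.th_range] at this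
  have ex_th : ∀ b < X.w1, ∃ β, X.th β = b := fun b hb => by
    have : b ∈ Iio X.w1 := hb
    rwa [← X.th_range] at this
  have inv_mono : ∀ i j, i ≤ j → j < X.w1 → inv i ≤ inv j := by
    intro i j hij hj
    obtain ⟨a, rfl⟩ := ex_th i (hij.trans_lt hj)
    obtain ⟨b, rfl⟩ := ex_th j hj
    rw [inv_th, inv_th]
    exact X.th_mono.le_iff_le.1 hij
  have w1_ct : ∀ x < X.w1, (Iio x).Countable := by
    intro x hx
    obtain ⟨a, rfl⟩ := ex_th x hx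
    refine ((X.ct a).image X.th).mono fun y hy => ?_
    obtain ⟨b, rfl⟩ := ex_th y (lt_trans hy hx)
    exact ⟨b, X.th_mono.lt_iff_lt.1 hy, rfl⟩
  refine ⟨(sysPO hV).Car, inferInstance,
    { top := (sysPO hV).mk' ctop (ctop_mem hB)
      le_top := fun a => le_ctop isLowerSet_univ hB a.2 }, ⟨?_⟩⟩
  refine
    { w1 := X.w1
      lam := X.lam
      mu := fun b => X.mu (inv b)
      S := fun b => SS X D (inv b)
      D := fun m => X.Dr (inv m)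
      w1_unc := ?_
      w1_ct := w1_ct
      w1_lt := ?_
      small := fun x => X.mk_lam ▸ X.small x
      bdd_w1 := ?_
      cards := ?_
      bdd_top := ?_
      cof_lam := ?_
      sing := ?_
      w1_mu := fun b _ => X.w1_mu _
      cofS := ?_
      D_lt := fun m => X.Dr_lt _
      D_trans := fun m => X.Dr_trans _
      D_mono := fun m m' a b h h' => X.Dr_mono _ _ a b (inv_mono m m' h h')
      D_total := ?_
      stat := ?_
      few := ?_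
      nochain := ?_ }
  · rw [← X.th_range]
    intro h
    exact Set.not_countable_univ (α := Θ)
      ((h.preimage_of_injOn X.th_mono.injective.injOn).mono fun x _ => mem_range_self (f := X.th) x)
  · obtain ⟨β⟩ : Nonempty Θ := inferInstance
    exact (X.w1_mu β).trans ((X.mu_kap β).trans (X.kap_lam β))
  · intro z hz
    have := (w1_ct z hz).to_subtype
    exact SubPO.bdd_of fun dec hn hlt p hp => bdd_w1 hV dec hn hlt hp
  · intro x hx
    obtain ⟨β, hβ⟩ := X.lam_cof x hx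
    obtain ⟨γ, hγ, hmin⟩ := (wellFounded_lt (α := Θ)).has_min {γ | β < γ} (X.exists_gt β)
    refine ⟨X.mu γ, hβ.trans (X.kap_mu _ _ hγ), (X.mu_kap γ).trans (X.kap_lam γ), fun z hz => ?_⟩
    exact SubPO.bdd_of fun dec hn hlt p hp =>
      bdd_succ hV hγ (fun δ hδ => not_lt.1 (hmin δ hδ)) (X.mu_init γ z hz) dec hn hlt hp
  · intro h p
    obtain ⟨q, hq, h₁, b, h₂⟩ := bdd_top hV (fun i => SubPO.reg (h i))
      (fun i => SubPO.isNm_reg (F := sysPO hV) _) p.2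
    exact ⟨(sysPO hV).mk' q hq, h₁, b, fun i hi r hr x hx =>
      h₂ i hi x r.1 r.2 hr (SubPO.reg_of_dec hx)⟩
  · refine ⟨fun i => X.kap (inv i), fun i _ => X.kap_lam _,
      fun i j h h' => X.kap_mono (inv_mono i j h h'), fun b hb => ?_⟩
    obtain ⟨β, hβ⟩ := X.lam_cof b hb
    exact ⟨X.th β, th_lt β, by simp only [inv_th]; exact hβ.le⟩
  · intro x h₁ h₂
    rcases X.sing x h₁ h₂ with ⟨β, h⟩ | ⟨z, hz, f, hf₁, hf₂⟩ | ⟨β, h₃, h₄⟩
    · exact Or.inl ⟨X.th β, th_lt β, by rw [inv_th]; exact h⟩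
    · refine Or.inr ⟨z, hz, fun i => constNm _ (f i), fun i hi p y hy => ?_, fun b hb p => ?_⟩
      · rw [show y = f i from hy]; exact hf₁ i hi
      · obtain ⟨i, hi, h⟩ := hf₂ b hb
        exact ⟨p, le_rfl, i, hi, f i, h, rfl⟩
    · exact Or.inr ⟨X.mu β, h₃, cofN_of hV β Subset.rfl ⟨_, h₃⟩ (fun a ha => ⟨a, ha, le_rfl⟩) h₄⟩
  · rintro b - d ⟨k, B, hk, hP⟩
    refine ⟨cofN_of hV _ hP.sub hP.ne (fun a ha => ?_) hP.size, fun z hz => ?_⟩
    · obtain ⟨c, hc, h⟩ := hP.cof a ha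
      exact ⟨c, hc, h.le⟩
    · exact SubPO.bdd_of fun dec hn hlt p hp =>
        bdd_S hV hk hP (X.mu_init _ z hz) dec hn hlt hp
  · intro a b h
    obtain ⟨m, hm⟩ := X.Dr_total a b h
    exact ⟨X.th m, th_lt m, by rw [inv_th]; exact hm⟩
  · intro b _ h p
    obtain ⟨r, hr, h₁, d, hd, h₂⟩ := hS (inv b) (fun a => SubPO.reg (h a))
      (fun a => SubPO.isNm_reg (F := sysPO hV) _) p.1 p.2
    exact ⟨(sysPO hV).mk' r hr, h₁, d, hd, fun a ha r' hr' x hx =>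
      h₂ a ha r'.1 r'.2 hr' x (SubPO.reg_of_dec hx)⟩
  · intro b _
    obtain ⟨O, hO, H⟩ := few hV (inv b)
    refine ⟨fun w i => {s | s.1 ∈ O w i}, fun N p h₁ h₂ => ?_⟩
    obtain ⟨q, hq, hqp, w, hw, H'⟩ := H (fun i => {q | ∃ h, (sysPO hV).mk' q h ∈ N i})
      (by
        rintro i q hq q' hq' h ⟨_, hN⟩
        exact ⟨hq', h₁ i (a := (sysPO hV).mk' q hq) (b := (sysPO hV).mk' q' hq') h hN⟩)
      (by
        intro i r hr h
        refine ⟨hr, h₂ i _ fun r' hr' => ?_⟩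
        obtain ⟨r'', hr'', h', _, hN⟩ := h r'.1 r'.2 hr'
        exact ⟨(sysPO hV).mk' r'' hr'', h', hN⟩) p.1 p.2
    refine ⟨(sysPO hV).mk' q hq, hqp, w, hw, fun i hi r hr => ?_⟩
    have := H' i hi r.1 r.2 hr
    constructor
    · intro hN r' hr'
      obtain ⟨r'', hr'', h', s, hs, h''⟩ := this.1 ⟨r.2, hN⟩ r'.1 r'.2 hr'
      exact ⟨(sysPO hV).mk' r'' hr'', h', (sysPO hV).mk' s (hO w i hs), hs, h''⟩
    · intro h
      obtain ⟨_, hN⟩ := this.2 fun r' hr' h' => by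
        obtain ⟨r'', h₃, s, hs, h₄⟩ := h ((sysPO hV).mk' r' hr') h'
        exact ⟨r''.1, r''.2, h₃, s.1, hs, h₄⟩
      exact hN
  · rintro b - d ⟨k, B, hk, hP⟩
    refine ⟨B, hP.sub, hP.cof, fun m _ H p h₀ h₁ h₂ => ?_⟩
    refine no_chain hV hk hP (inv m) (fun c => {q | ∃ h, (sysPO hV).mk' q h ∈ H c}) ?_ p.2 ?_ ?_
    · rintro c q hq q' hq' h ⟨_, hN⟩
      exact ⟨hq', @h₀ c ((sysPO hV).mk' q hq) ((sysPO hV).mk' q' hq') h hN⟩
    · intro a ha q hq h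
      obtain ⟨r, hr, c, hc, h₃, h₄⟩ := h₁ a ha ((sysPO hV).mk' q hq) h
      exact ⟨r.1, r.2, hr, c, hc, h₃, r.2, h₄⟩
    · intro a ha q hq h
      obtain ⟨r, hr, c, hc, h₃⟩ := h₂ a ha ((sysPO hV).mk' q hq) h
      refine ⟨r.1, r.2, hr, c, hc, ?_⟩
      rintro b' hb' hlt s hs hsr ⟨_, hN⟩
      exact h₃ b' hb' hlt ((sysPO hV).mk' s hs) hsr hN

theorem main (h : ¬ {κ : Cardinal.{u} | Supercompact κ}.Countable) : Concl.{u} := by
  obtain ⟨Θ, Ω, _, _, _, _, ⟨X⟩⟩ := exists_ctx h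
  let _ : Inhabited Ω := ⟨X.w1⟩
  obtain ⟨D, hV, hS⟩ := exists_system X
  obtain ⟨P, _, _, ⟨F⟩⟩ := exists_facts hV hS
  exact sem_main F

end Pool.Agent.MP_a2558b_lc

end
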