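import Pool.Agent.Mg.Fa2558b.G4d7624

section

namespace Pool.Agent.MP_a2558b_lc

open Cardinal Set

universe u

/-- One coordinate of an iteration: points `Pt` with an ideal `null`, terms `T` with an order
`le t' t q` (read: `q` forces `t' ≤ t`), and for every point `a` the set `y a` of allowed terms. -/
structure Crd (α τ Q : Type u) where
  Pt : Set α
  T : Set τ
  null : Set α → Prop
  y : α → Set τ
  le : τ → τ → Q → Prop

/-- `M` is an open subset of `(Lo, R)`. -/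
def OpenIn {Q : Type u} (Lo : Set Q) (R : Q → Q → Prop) (M : Set Q) : Prop :=
  M ⊆ Lo ∧ ∀ q ∈ M, ∀ q' ∈ Lo, R q' q → q' ∈ M

/-- Named directed closure inside `S` for families of size at most `c`. -/
def NDCOn {τ Q : Type u} (le : τ → τ → Q → Prop) (Lo : Set Q) (R : Q → Q → Prop) (tp : Q)
    (S : Set τ) (c : Cardinal.{u}) : Prop :=
  ∀ (ι : Type u) (t : ι → τ) (M : ι → Set Q) (t0 : τ), #ι ≤ c → t0 ∈ S → (∀ i, t i ∈ S) →
    (∀ i, OpenIn Lo R (M i)) → (∀ i, ∀ q ∈ M i, le (t i) t0 q) →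
    (∀ i i', ∀ q ∈ M i, q ∈ M i' → ∃ q' ∈ Lo, R q' q ∧ ∃ k, q' ∈ M k ∧ le (t k) (t i) q' ∧
      le (t k) (t i') q') →
    ∃ s ∈ S, le s t0 tp ∧ ∀ i, ∀ q ∈ M i, le s (t i) q

namespace Crd

variable {α τ Q : Type u} (C : Crd α τ Q) (Lo : Set Q) (R : Q → Q → Prop)

/-- The allowed terms in a state. -/
def car : Option α → Set τ
  | none => C.T
  | some a => C.y a

structure Basic (o : τ) : Prop where
  o_mem : o ∈ C.T
  y_sub : ∀ a ∈ C.Pt, C.y a ⊆ C.T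
  refl : ∀ t ∈ C.T, ∀ q ∈ Lo, C.le t t q
  trans : ∀ a b c, ∀ q ∈ Lo, C.le a b q → C.le b c q → C.le a c q
  mono : ∀ a b, ∀ q ∈ Lo, ∀ q' ∈ Lo, R q' q → C.le a b q → C.le a b q'
  top : ∀ t ∈ C.T, ∀ q ∈ Lo, C.le t o q
  null_empty : C.null ∅
  null_mono : ∀ E E', E' ⊆ E → C.null E → C.null E'
  null_union : ∀ E E', C.null E → C.null E' → C.null (E ∪ E')
  null_pt : ∀ E, C.null (E ∩ C.Pt) → C.null E
  ultra : ∀ E, C.null E ∨ C.null (C.Pt \ E)
  fine : ∀ t ∈ C.T, C.null {a ∈ C.Pt | t ∉ C.y a}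
  normal : ∀ (A : Set α) (f : α → τ), A ⊆ C.Pt → ¬ C.null A → (∀ a ∈ A, f a ∈ C.y a) →
    ∃ t, ¬ C.null {a ∈ A | f a = t}

/-- The ideal is closed under unions of at most `c` sets. -/
def Comp (c : Cardinal.{u}) : Prop :=
  ∀ (ι : Type u) (E : ι → Set α), #ι ≤ c → (∀ i, C.null (E i)) → C.null (⋃ i, E i)

def NDC (tp : Q) (c : Cardinal.{u}) : Prop :=
  NDCOn C.le Lo R tp C.T c ∧ ∀ a ∈ C.Pt, NDCOn C.le Lo R tp (C.y a) c

/-- Full mixing along disjoint open sets. -/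
def Mix (tp : Q) : Prop :=
  ∀ (ι : Type u) (t : ι → τ) (M : ι → Set Q) (t0 : τ), t0 ∈ C.T → (∀ i, t i ∈ C.T) →
    (∀ i, OpenIn Lo R (M i)) → (∀ i, ∀ q ∈ M i, C.le (t i) t0 q) →
    (∀ i i', ∀ q ∈ M i, q ∈ M i' → i = i') →
    ∃ s ∈ C.T, C.le s t0 tp ∧ ∀ i, ∀ q ∈ M i, C.le s (t i) q

/-- The ideal is proper and contains the singletons. -/
def Act : Prop := ¬ C.null C.Pt ∧ ∀ a, C.null {a}

end Crd

/-- A regular decision relation on `(L, R)`. -/
structure IsNm {Q X : Type u} (L : Set Q) (R : Q → Q → Prop) (dec : Q → X → Prop) : Prop where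
  mono : ∀ p ∈ L, ∀ q ∈ L, R q p → ∀ x, dec p x → dec q x
  dense : ∀ p ∈ L, ∃ q ∈ L, R q p ∧ ∃ x, dec q x
  func : ∀ p ∈ L, ∀ x y, dec p x → dec p y → x = y
  reg : ∀ p ∈ L, ∀ x, (∀ q ∈ L, R q p → ∃ r ∈ L, R r q ∧ dec r x) → dec p x

/-- The value of a condition at one coordinate: chosen point, excluded points, term. -/
@[ext] structure Vl (Ω : Type u) where
  s : Option Ω
  E : Set Ω
  t : Ω

abbrev Cnd (J Ω : Type u) : Type u := J → Vl Ω

abbrev Sys (J Ω : Type u) : Type u := J → Crd Ω Ω (Cnd J Ω)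

/-- The set of coordinates on which the order of a coordinate depends. -/
class Base (J : Type u) [LinearOrder J] where
  bs : J → Set J
  low : ∀ j, IsLowerSet (bs j)
  sub : ∀ j, bs j ⊆ Iio j

open Base

section

variable {J Ω : Type u} [Inhabited Ω]

def vtop : Vl Ω := ⟨none, ∅, default⟩

def ctop : Cnd J Ω := fun _ => vtop

open Classical in
noncomputable def glue (c : Set J) (l p : Cnd J Ω) : Cnd J Ω := fun j => if j ∈ c then l j else p j

noncomputable def res (c : Set J) (p : Cnd J Ω) : Cnd J Ω := glue c p ctop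

def strip (p : Cnd J Ω) : Cnd J Ω := fun j => ⟨(p j).s, ∅, (p j).t⟩

def addE (q p : Cnd J Ω) : Cnd J Ω := fun j => ⟨(q j).s, (q j).E ∪ (p j).E, (q j).t⟩

variable (D : Sys J Ω)

def OkAt (j : J) (v : Vl Ω) : Prop :=
  (∀ a, v.s = some a → a ∈ (D j).Pt) ∧ v.E ⊆ (D j).Pt ∧ (D j).null v.E ∧ v.t ∈ (D j).car v.s

/-- The conditions supported on `c`. -/
def Low (c : Set J) : Set (Cnd J Ω) :=
  {p | (∀ j ∈ c, OkAt D j (p j)) ∧ (∀ j, j ∉ c → p j = vtop) ∧ {j | (p j).s ≠ none}.Finite}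

def Keys (c : Set J) : Set (Cnd J Ω) := {p | p ∈ Low D c ∧ ∀ j, (p j).E = ∅}

/-- Direct extension at `j`, forced by the trivial condition. -/
def TDir (j : J) (q p : Cnd J Ω) : Prop :=
  (q j).s = (p j).s ∧ (p j).E ⊆ (q j).E ∧ (D j).le (q j).t (p j).t ctop

variable [LinearOrder J] [Base J]

def LeAt (j : J) (q p : Cnd J Ω) : Prop :=
  (∀ a, (p j).s = some a → (q j).s = some a) ∧
    (∀ a, (p j).s = none → (q j).s = some a → a ∉ (p j).E) ∧ (p j).E ⊆ (q j).E ∧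
      (D j).le (q j).t (p j).t (res (bs j) q)

def Le (c : Set J) (q p : Cnd J Ω) : Prop := ∀ j ∈ c, LeAt D j q p

/-- Direct extension at `j`. -/
def DirAt (j : J) (q p : Cnd J Ω) : Prop := (q j).s = (p j).s ∧ LeAt D j q p

/-- `q` agrees with `p` on `c` and is a trivially forced direct extension of `p` on `d \ c`. -/
def TExt (c d : Set J) (q p : Cnd J Ω) : Prop :=
  (∀ j ∈ c, q j = p j) ∧ ∀ j ∈ d, j ∉ c → TDir D j q p

def BasicOn (d : Set J) : Prop :=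
  ∀ j ∈ d, (D j).Basic (Low D (bs j)) (Le D (bs j)) default

def Cl (j : J) (c : Cardinal.{u}) : Prop :=
  (D j).Comp c ∧ (D j).NDC (Low D (bs j)) (Le D (bs j)) ctop c

def MixCut (c d : Set J) : Prop :=
  ∀ j ∈ d, j ∉ c → c ⊆ bs j ∧ (Cl D j #(Low D c) ∨
    ((D j).Pt = ∅ ∧ (D j).Mix (Low D (bs j)) (Le D (bs j)) ctop))

end

/-! ### Levels -/

abbrev JJ (Θ : Type u) : Type u := Θ ×ₗ WithTop Θ

section

variable {Θ : Type u}

def lev (A : Set Θ) : Set (JJ Θ) := {j | (ofLex j).1 ∈ A}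

def pt (β i : Θ) : JJ Θ := toLex (β, (i : WithTop Θ))

def cc (β : Θ) : JJ Θ := toLex (β, ⊤)

variable [LinearOrder Θ]

def levC (β : Θ) : Set (JJ Θ) := Iio (cc β)

theorem lev_lower {A : Set Θ} (h : IsLowerSet A) : IsLowerSet (lev A) := by
  intro a b hba ha
  exact h (Prod.Lex.monotone_fst_ofLex hba) ha

open Classical in
noncomputable instance : Base (JJ Θ) where
  bs j := if (ofLex j).2 = ⊤ then Iio j else lev (Iio (ofLex j).1)
  low j := by
    split_ifs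
    exacts [isLowerSet_Iio j, lev_lower (isLowerSet_Iio _)]
  sub j := by
    split_ifs
    · exact Subset.rfl
    · intro i hi
      exact Prod.Lex.lt_iff.2 (Or.inl hi)

end

/-- The large cardinals and the bookkeeping of ordinals. -/
structure Ctx (Θ Ω : Type u) [LinearOrder Θ] [LinearOrder Ω] where
  κ : Θ → Cardinal.{u}
  lb : Θ → Cardinal.{u}
  sc : ∀ β, Supercompact (κ β)
  inacc : ∀ β, (κ β).IsInaccessible
  κ_mono : StrictMono κ
  ct : ∀ β : Θ, (Iio β).Countable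
  unc : Uncountable Θ
  mk_Θ : #Θ = ℵ₁
  lb_eq : ∀ β, lb β = ℵ₁ + sum fun γ : Iio β => κ γ
  lb_lt : ∀ β, Order.succ (lb β) < κ β
  w1 : Ω
  lam : Ω
  th : Θ → Ω
  kap : Θ → Ω
  mu : Θ → Ω
  th_mono : StrictMono th
  th_range : range th = Iio w1
  mk_kap : ∀ β, #(Iio (kap β)) = κ β
  kap_init : ∀ β, ∀ x < kap β, #(Iio x) < κ β
  mk_mu : ∀ β, #(Iio (mu β)) = Order.succ (lb β)
  mu_init : ∀ β, ∀ x < mu β, #(Iio x) ≤ lb β
  mu_bdd : ∀ β, ∀ Z ⊆ Iio (mu β), #Z ≤ lb β → ∃ b < mu β, ∀ z ∈ Z, z < b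
  w1_mu : ∀ β, w1 < mu β
  mu_kap : ∀ β, mu β < kap β
  kap_mu : ∀ β γ, β < γ → kap β < mu γ
  kap_lam : ∀ β, kap β < lam
  lam_cof : ∀ x < lam, ∃ β, x < kap β
  mk_lam : #(Iio lam) = sum κ
  small : ∀ x : Ω, #(Iio x) ≤ sum κ
  top_bdd : ∀ Z : Set Ω, #Z ≤ sum κ → ∃ b, ∀ z ∈ Z, z < b
  sing : ∀ x, w1 < x → x < lam → (∃ β, x = mu β) ∨
    (∃ z < x, ∃ f : Ω → Ω, (∀ i < z, f i < x) ∧ ∀ b < x, ∃ i < z, b ≤ f i) ∨
      ∃ β, mu β < x ∧ #(Iio x) ≤ κ β
  Dr : Θ → Ω → Ω → Prop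
  Dr_lt : ∀ m a b, Dr m a b → a < b
  Dr_trans : ∀ m a b c, Dr m a b → Dr m b c → Dr m a c
  Dr_mono : ∀ m m' a b, m ≤ m' → Dr m a b → Dr m' a b
  Dr_total : ∀ a b, a < b → ∃ m, Dr m a b
  Dr_card : ∀ m b, #{a | Dr m a b} ≤ κ m

section

variable {Θ Ω : Type u} [LinearOrder Θ] [LinearOrder Ω] [Inhabited Ω] (X : Ctx Θ Ω)

/-- The amount of closure of the coordinate `(β, i)`. -/
noncomputable def clo (D : Sys (JJ Θ) Ω) (β : Θ) (k : Θ → Cardinal.{u}) (i : Θ) : Cardinal.{u} :=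
  #(Low D (lev (Iio β))) + Order.succ (X.lb β) + sum fun i' : Iio i => k i'

/-- The point coordinates of level `β` are valid. -/
structure NOK (D : Sys (JJ Θ) Ω) (β : Θ) (k : Θ → Cardinal.{u}) : Prop where
  basic : ∀ i, (D (pt β i)).Basic (Low D (lev (Iio β))) (Le D (lev (Iio β))) default
  kmono : Monotone k
  kpow : ∀ i, k i ^ ℵ₀ ≤ k i
  klow : ∀ i, #(Low D (lev (Iio β))) ≤ k i
  kmu : ∀ i, Order.succ (X.lb β) ≤ k i
  klt : ∀ i, k i < X.κ β
  size : ∀ i, #(D (pt β i)).Pt ≤ k i ∧ #(D (pt β i)).T ≤ k i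
  comp : ∀ i, (D (pt β i)).Comp (clo X D β k i)
  ndc : ∀ i, (D (pt β i)).NDC (Low D (lev (Iio β))) (Le D (lev (Iio β))) ctop (clo X D β k i)
  act : ∀ i, β < i → (D (pt β i)).Act

/-- `C` is a collapse coordinate for level `β` over `(L, R)`. -/
structure COK (β : Θ) (C : Crd Ω Ω (Cnd (JJ Θ) Ω)) (L : Set (Cnd (JJ Θ) Ω))
    (R : Cnd (JJ Θ) Ω → Cnd (JJ Θ) Ω → Prop) : Prop where
  basic : C.Basic L R default
  pt_eq : C.Pt = ∅
  null_all : ∀ E, C.null E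
  ndc : C.NDC L R ctop (X.lb β)
  mix : C.Mix L R ctop
  size : #C.T ≤ X.κ β
  col : ∃ val : Ω → Ω → Cnd (JJ Θ) Ω → Ω → Prop,
    (∀ t t' i ξ ξ', ∀ q ∈ L, ∀ q' ∈ L, t ∈ C.T → t' ∈ C.T → R q' q → val t i q ξ → C.le t' t q' →
      val t' i q' ξ' → ξ = ξ') ∧
    (∀ t ∈ C.T, ∀ q ∈ L, ∀ ξ < X.kap β, ∃ q' ∈ L, R q' q ∧ ∃ t' ∈ C.T, ∃ i < X.mu β,
      C.le t' t q' ∧ val t' i q' ξ) ∧
    ∀ t ∈ C.T, ∀ q ∈ L, ∀ i < X.mu β, ∃ q' ∈ L, R q' q ∧ ∃ t' ∈ C.T, ∃ ξ,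
      C.le t' t q' ∧ val t' i q' ξ

def LevelOK (D : Sys (JJ Θ) Ω) (β : Θ) (k : Θ → Cardinal.{u}) : Prop :=
  NOK X D β k ∧ COK X β (D (cc β)) (Low D (levC β)) (Le D (levC β))

def Valid (D : Sys (JJ Θ) Ω) (A : Set Θ) : Prop := ∀ β ∈ A, ∃ k, LevelOK X D β k

/-- `B` witnesses that `d` is a bad point for the cardinals `k`. -/
structure BProp (β : Θ) (k : Θ → Cardinal.{u}) (B : Set Ω) (d : Ω) : Prop where
  sub : B ⊆ Iio d
  ne : B.Nonempty
  cof : ∀ a < d, ∃ b ∈ B, a < b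
  bdd : ∀ Z ⊆ B, #Z ≤ sum k → ∃ b ∈ B, ∀ z ∈ Z, z < b
  pred : ∀ m, ∀ b ∈ B, #{a | a ∈ B ∧ X.Dr m a b} ≤ k m
  size : #B ≤ X.κ β

def SS (D : Sys (JJ Θ) Ω) (β : Θ) : Set Ω := {d | ∃ k B, LevelOK X D β k ∧ BProp X β k B d}

def Stat (D : Sys (JJ Θ) Ω) (β : Θ) : Prop :=
  ∀ ζ : Ω → Cnd (JJ Θ) Ω → Ω → Prop, (∀ a, IsNm (Low D univ) (Le D univ) (ζ a)) →
    ∀ p ∈ Low D univ, ∃ r ∈ Low D univ, Le D univ r p ∧ ∃ d ∈ SS X D β,
      ∀ a < d, ∀ r' ∈ Low D univ, Le D univ r' r → ∀ x, ζ a r' x → x < d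

end

end Pool.Agent.MP_a2558b_lc

end

section

namespace Pool.Agent.MP_a2558b_lc

open Cardinal hiding univ
open Set Base

universe u

/-! ### Coordinates -/

theorem NDCOn.anti {τ Q : Type u} {le : τ → τ → Q → Prop} {Lo : Set Q} {R : Q → Q → Prop}
    {tp : Q} {S : Set τ} {c c' : Cardinal.{u}} (h : NDCOn le Lo R tp S c) (hc : c' ≤ c) :
    NDCOn le Lo R tp S c' := fun ι t M t0 hι => h ι t M t0 (hι.trans hc)

namespace Crd

variable {α τ Q : Type u} {C : Crd α τ Q} {Lo : Set Q} {R : Q → Q → Prop} {o : τ} {tp : Q}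
  {c c' : Cardinal.{u}}

theorem Comp.anti (h : C.Comp c) (hc : c' ≤ c) : C.Comp c' :=
  fun ι E hι => h ι E (hι.trans hc)

theorem NDC.anti (h : C.NDC Lo R tp c) (hc : c' ≤ c) : C.NDC Lo R tp c' :=
  ⟨h.1.anti hc, fun a ha => (h.2 a ha).anti hc⟩

theorem NDC.car (h : C.NDC Lo R tp c) {s : Option α} (hs : ∀ a, s = some a → a ∈ C.Pt) :
    NDCOn C.le Lo R tp (C.car s) c := by
  cases s with
  | none => exact h.1
  | some a => exact h.2 a (hs a rfl)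

theorem Basic.car_sub (h : C.Basic Lo R o) {s : Option α} (hs : ∀ a, s = some a → a ∈ C.Pt) :
    C.car s ⊆ C.T := by
  cases s with
  | none => exact Subset.rfl
  | some a => exact h.y_sub a (hs a rfl)

/-- A positive set of points contains a point outside a null set that allows a given term. -/
theorem Basic.exists_pt (h : C.Basic Lo R o) {A E : Set α} (hA : A ⊆ C.Pt) (hn : ¬ C.null A)
    (hE : C.null E) {t : τ} (ht : t ∈ C.T) : ∃ a ∈ A, a ∉ E ∧ t ∈ C.y a := by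
  by_contra H
  push Not at H
  refine hn (h.null_mono _ _ (fun a ha => ?_) (h.null_union _ _ hE (h.fine t ht)))
  by_cases e : a ∈ E
  exacts [Or.inl e, Or.inr ⟨hA ha, H a ha e⟩]

theorem Basic.null_diff (h : C.Basic Lo R o) {A : Set α} (hn : ¬ C.null A) :
    C.null (C.Pt \ A) := (h.ultra A).resolve_left hn

/-- A positive set split into few pieces has a positive piece. -/
theorem Comp.exists_pos (h : C.Comp c) (hb : C.Basic Lo R o) {ι : Type u} (hι : #ι ≤ c)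
    {A : Set α} (hn : ¬ C.null A) (B : ι → Set α) (hB : ∀ a ∈ A, ∃ i, a ∈ B i) :
    ∃ i, ¬ C.null (B i) := by
  by_contra H
  push Not at H
  exact hn (hb.null_mono _ _ (fun a ha => mem_iUnion.2 (hB a ha)) (h ι B hι H))

theorem Comp.null_small (h : C.Comp c) (hb : C.Basic Lo R o) (ha : C.Act) {A : Set α}
    (hA : #A ≤ c) : C.null A :=
  hb.null_mono _ _ (fun a ha => mem_iUnion.2 ⟨⟨a, ha⟩, rfl⟩)
    (h A (fun a => {a.1}) hA fun a => ha.2 a.1)

end Crd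

/-! ### Names -/

section Names

variable {Q X : Type u} {L : Set Q} {R : Q → Q → Prop}

theorem IsNm.eq_of_le {dec : Q → X → Prop} (h : IsNm L R dec) {p q r : Q} (hp : p ∈ L)
    (hq : q ∈ L) (hr : r ∈ L) (h₁ : R r p) (h₂ : R r q) {x y : X} (hx : dec p x) (hy : dec q y) :
    x = y := h.func r hr x y (h.mono p hp r hr h₁ x hx) (h.mono q hq r hr h₂ y hy)

/-- Maximum principle: a name for a witness of an open property that is dense below `l0`. -/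
theorem exists_nm [Nonempty X] (hr : ∀ p ∈ L, R p p)
    (ht : ∀ p ∈ L, ∀ q ∈ L, ∀ r ∈ L, R r q → R q p → R r p) (Φ : Q → X → Prop)
    (mono : ∀ p ∈ L, ∀ q ∈ L, R q p → ∀ x, Φ p x → Φ q x) (l0 : Q) (hl0 : l0 ∈ L)
    (dense : ∀ p ∈ L, R p l0 → ∃ q ∈ L, R q p ∧ ∃ x, Φ q x) :
    ∃ dec : Q → X → Prop, IsNm L R dec ∧ ∀ q ∈ L, R q l0 → ∀ x, dec q x →
      ∀ q' ∈ L, R q' q → ∃ r ∈ L, R r q' ∧ Φ r x := by
  classical
  obtain ⟨x0⟩ := ‹Nonempty X›
  let lt : X → X → Prop := WellOrderingRel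
  have wf : WellFounded lt := (inferInstance : IsWellOrder X WellOrderingRel).wf
  let d0 : Q → X → Prop := fun q x =>
    (R q l0 ∧ Φ q x ∧ ∀ y, lt y x → ∀ r ∈ L, R r q → ¬ Φ r y) ∨
      ((∀ r ∈ L, R r q → ¬ R r l0) ∧ x = x0)
  have m0 : ∀ p ∈ L, ∀ q ∈ L, R q p → ∀ x, d0 p x → d0 q x := by
    rintro p hp q hq h x (⟨h₁, h₂, h₃⟩ | ⟨h₁, h₂⟩)
    · exact Or.inl ⟨ht _ hl0 _ hp _ hq h h₁, mono _ hp _ hq h _ h₂,
        fun y hy r hr' h' => h₃ y hy r hr' (ht _ hp _ hq _ hr' h' h)⟩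
    · exact Or.inr ⟨fun r hr' h' => h₁ r hr' (ht _ hp _ hq _ hr' h' h), h₂⟩
  have f0 : ∀ p ∈ L, ∀ x y, d0 p x → d0 p y → x = y := by
    rintro p hp x y (⟨h₁, h₂, h₃⟩ | ⟨h₁, h₂⟩) (⟨h₄, h₅, h₆⟩ | ⟨h₄, h₅⟩)
    · rcases trichotomous_of lt x y with h | h | h
      exacts [absurd h₂ (h₆ x h p hp (hr p hp)), h, absurd h₅ (h₃ y h p hp (hr p hp))]
    · exact absurd h₁ (h₄ p hp (hr p hp))
    · exact absurd h₄ (h₁ p hp (hr p hp))
    · rw [h₂, h₅]
  have e0 : ∀ p ∈ L, ∃ q ∈ L, R q p ∧ ∃ x, d0 q x := by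
    intro p hp
    by_cases h : ∀ r ∈ L, R r p → ¬ R r l0
    · exact ⟨p, hp, hr p hp, x0, Or.inr ⟨h, rfl⟩⟩
    push Not at h
    obtain ⟨r, hr', h₁, h₂⟩ := h
    obtain ⟨x, ⟨q, hq, h₃, h₄⟩, hmin⟩ := wf.has_min {x | ∃ q ∈ L, R q r ∧ Φ q x}
      (by obtain ⟨q, hq, h, x, hx⟩ := dense r hr' h₂; exact ⟨x, q, hq, h, hx⟩)
    exact ⟨q, hq, ht _ hp _ hr' _ hq h₃ h₁, x, Or.inl ⟨ht _ hl0 _ hr' _ hq h₃ h₂, h₄,
      fun y hy s hs h h' => hmin y ⟨s, hs, ht _ hr' _ hq _ hs h h₃, h'⟩ hy⟩⟩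
  refine ⟨fun q x => ∀ q' ∈ L, R q' q → ∃ r ∈ L, R r q' ∧ d0 r x, ⟨?_, ?_, ?_, ?_⟩, ?_⟩
  · exact fun p hp q hq h x H q' hq' h' => H q' hq' (ht _ hp _ hq _ hq' h' h)
  · intro p hp
    obtain ⟨q, hq, h, x, hx⟩ := e0 p hp
    exact ⟨q, hq, h, x, fun q' hq' h' => ⟨q', hq', hr _ hq', m0 _ hq _ hq' h' _ hx⟩⟩
  · intro p hp x y hx hy
    obtain ⟨q, hq, h, hx⟩ := hx p hp (hr p hp)
    obtain ⟨r, hr', h', hy⟩ := hy q hq h
    exact f0 r hr' x y (m0 _ hq _ hr' h' _ hx) hy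
  · intro p hp x H q hq h
    obtain ⟨r, hr', h', H'⟩ := H q hq h
    obtain ⟨s, hs, h'', H''⟩ := H' r hr' (hr r hr')
    exact ⟨s, hs, ht _ hq _ hr' _ hs h'' h', H''⟩
  · intro q hq h x H q' hq' h'
    obtain ⟨r, hr', h'', ⟨-, h₂, -⟩ | ⟨h₁, -⟩⟩ := H q' hq' h'
    · exact ⟨r, hr', h'', h₂⟩
    · exact absurd (ht _ hl0 _ hq _ hr' (ht _ hq _ hq' _ hr' h'' h') h) (h₁ r hr' (hr r hr'))

/-- The name of the truth value of an open set. -/
def tvN (L : Set Q) (R : Q → Q → Prop) (H : Set Q) (q : Q) (b : ULift.{u} Bool) : Prop :=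
  (b.down = true ∧ ∀ r ∈ L, R r q → ∃ s ∈ L, R s r ∧ s ∈ H) ∨
    (b.down = false ∧ ∀ r ∈ L, R r q → r ∉ H)

theorem isNm_tvN (hr : ∀ p ∈ L, R p p)
    (ht : ∀ p ∈ L, ∀ q ∈ L, ∀ r ∈ L, R r q → R q p → R r p) {H : Set Q}
    (hH : ∀ p ∈ L, ∀ q ∈ L, R q p → p ∈ H → q ∈ H) : IsNm L R (tvN L R H) := by
  refine ⟨?_, ?_, ?_, ?_⟩
  · rintro p hp q hq h x (⟨h₁, h₂⟩ | ⟨h₁, h₂⟩)
    · exact Or.inl ⟨h₁, fun r hr' h' => h₂ r hr' (ht _ hp _ hq _ hr' h' h)⟩
    · exact Or.inr ⟨h₁, fun r hr' h' => h₂ r hr' (ht _ hp _ hq _ hr' h' h)⟩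
  · intro p hp
    by_cases h : ∀ r ∈ L, R r p → r ∉ H
    · exact ⟨p, hp, hr p hp, ⟨false⟩, Or.inr ⟨rfl, h⟩⟩
    push Not at h
    obtain ⟨r, hr', h₁, h₂⟩ := h
    exact ⟨r, hr', h₁, ⟨true⟩, Or.inl ⟨rfl, fun s hs h => ⟨s, hs, hr s hs, hH _ hr' _ hs h h₂⟩⟩⟩
  · rintro p hp ⟨x⟩ ⟨y⟩ (⟨h₁, h₂⟩ | ⟨h₁, h₂⟩) (⟨h₃, h₄⟩ | ⟨h₃, h₄⟩)
    · simp_all
    · obtain ⟨s, hs, h, h'⟩ := h₂ p hp (hr p hp)
      exact absurd h' (h₄ s hs h)
    · obtain ⟨s, hs, h, h'⟩ := h₄ p hp (hr p hp)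
      exact absurd h' (h₂ s hs h)
    · simp_all
  · rintro p hp ⟨x⟩ h
    cases x
    · refine Or.inr ⟨rfl, fun q hq h' hH' => ?_⟩
      obtain ⟨r, hr', h'', ⟨h₁, -⟩ | ⟨-, h₂⟩⟩ := h q hq h'
      · simp at h₁
      · exact h₂ r hr' (hr r hr') (hH _ hq _ hr' h'' hH')
    · refine Or.inl ⟨rfl, fun q hq h' => ?_⟩
      obtain ⟨r, hr', h'', ⟨-, h₂⟩ | ⟨h₁, -⟩⟩ := h q hq h'
      · obtain ⟨s, hs, h₃, h₄⟩ := h₂ r hr' (hr r hr')
        exact ⟨s, hs, ht _ hq _ hr' _ hs h₃ h'', h₄⟩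
      · simp at h₁

end Names

/-! ### Conditions -/

variable {J Ω : Type u} [Inhabited Ω]

section

variable {b c d : Set J} {l p q : Cnd J Ω} {j : J}

omit [Inhabited Ω] in
theorem glue_of_mem (h : j ∈ c) : glue c l p j = l j := if_pos h

omit [Inhabited Ω] in
theorem glue_of_notMem (h : j ∉ c) : glue c l p j = p j := if_neg h

theorem res_of_mem (h : j ∈ c) : res c p j = p j := if_pos h

theorem res_of_notMem (h : j ∉ c) : res c p j = vtop := if_neg h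

theorem res_congr (h : ∀ j ∈ c, p j = q j) : res c p = res c q := by
  funext j
  by_cases e : j ∈ c
  · rw [res_of_mem e, res_of_mem e, h j e]
  · rw [res_of_notMem e, res_of_notMem e]

theorem res_glue (h : b ⊆ c) : res b (glue c l p) = res b l :=
  res_congr fun _ hj => glue_of_mem (h hj)

theorem res_res (h : b ⊆ c) : res b (res c p) = res b p := res_glue h

theorem res_ctop : res c (ctop : Cnd J Ω) = ctop := by
  funext j
  by_cases e : j ∈ c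
  exacts [res_of_mem e, res_of_notMem e]

omit [Inhabited Ω] in
theorem glue_self : glue c p p = p := by
  funext j
  by_cases e : j ∈ c
  exacts [glue_of_mem e, glue_of_notMem e]

omit [Inhabited Ω] in
theorem glue_congr {l' p' : Cnd J Ω} (h : ∀ j ∈ c, l j = l' j) (h' : ∀ j, j ∉ c → p j = p' j) :
    glue c l p = glue c l' p' := by
  funext j
  by_cases e : j ∈ c
  · rw [glue_of_mem e, glue_of_mem e, h j e]
  · rw [glue_of_notMem e, glue_of_notMem e, h' j e]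

theorem glue_res : glue c (res c l) p = glue c l p :=
  glue_congr (fun _ h => res_of_mem h) fun _ _ => rfl

theorem glue_res_self : glue c (res c p) p = p := glue_res.trans glue_self

variable {D : Sys J Ω}

theorem res_eq_self (h : p ∈ Low D c) : res c p = p := by
  funext j
  by_cases e : j ∈ c
  exacts [res_of_mem e, (res_of_notMem e).trans (h.2.1 j e).symm]

theorem res_mem (h : p ∈ Low D d) (hc : c ⊆ d) : res c p ∈ Low D c := by
  refine ⟨fun j hj => ?_, fun j hj => res_of_notMem hj, h.2.2.subset fun j hj => ?_⟩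
  · rw [res_of_mem hj]; exact h.1 j (hc hj)
  · by_cases e : j ∈ c
    · simpa [res_of_mem e] using hj
    · simp [res_of_notMem e, vtop] at hj

theorem glue_mem (hl : l ∈ Low D d) (hp : p ∈ Low D d) : glue c l p ∈ Low D d := by
  refine ⟨fun j hj => ?_, fun j hj => ?_, (hl.2.2.union hp.2.2).subset fun j hj => ?_⟩
  · by_cases e : j ∈ c
    · rw [glue_of_mem e]; exact hl.1 j hj
    · rw [glue_of_notMem e]; exact hp.1 j hj
  · by_cases e : j ∈ c
    · rw [glue_of_mem e]; exact hl.2.1 j hj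
    · rw [glue_of_notMem e]; exact hp.2.1 j hj
  · by_cases e : j ∈ c
    · exact Or.inl (by simpa [glue_of_mem e] using hj)
    · exact Or.inr (by simpa [glue_of_notMem e] using hj)

theorem glue_mem' (hl : l ∈ Low D c) (hc : c ⊆ d) (hp : p ∈ Low D d) : glue c l p ∈ Low D d := by
  refine ⟨fun j hj => ?_, fun j hj => ?_, (hl.2.2.union hp.2.2).subset fun j hj => ?_⟩
  · by_cases e : j ∈ c
    · rw [glue_of_mem e]; exact hl.1 j e
    · rw [glue_of_notMem e]; exact hp.1 j hj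
  · rw [glue_of_notMem fun e => hj (hc e)]; exact hp.2.1 j hj
  · by_cases e : j ∈ c
    · exact Or.inl (by simpa [glue_of_mem e] using hj)
    · exact Or.inr (by simpa [glue_of_notMem e] using hj)

theorem Low_congr {D' : Sys J Ω} (h : ∀ j ∈ c, D j = D' j) : Low D c = Low D' c := by
  ext p
  refine and_congr_left fun _ => forall₂_congr fun j hj => ?_
  simp only [OkAt, h j hj]

theorem Low_empty : Low D (∅ : Set J) = {ctop} := by
  ext p
  refine ⟨fun h => funext fun j => h.2.1 j (notMem_empty j), ?_⟩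
  rintro rfl
  exact ⟨fun j hj => hj.elim, fun _ _ => rfl, by simp [ctop, vtop]⟩

end

variable [LinearOrder J] [Base J] {D : Sys J Ω} {b c d e : Set J} {l p q r : Cnd J Ω} {j : J}

theorem bs_sub (hd : IsLowerSet d) (hj : j ∈ d) : bs j ⊆ d :=
  fun _ hi => hd (le_of_lt (sub j hi)) hj

theorem Le_congr {D' : Sys J Ω} (h : ∀ j ∈ c, D j = D' j) : Le D c = Le D' c := by
  funext q p
  refine propext (forall₂_congr fun j hj => ?_)
  simp only [LeAt, h j hj]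

theorem BasicOn.anti (hB : BasicOn D d) (h : c ⊆ d) : BasicOn D c := fun j hj => hB j (h hj)

theorem Le.anti (h : Le D d q p) (hc : c ⊆ d) : Le D c q p := fun j hj => h j (hc hj)

theorem Cl.anti {x y : Cardinal.{u}} (h : Cl D j x) (hy : y ≤ x) : Cl D j y :=
  ⟨h.1.anti hy, h.2.anti hy⟩

theorem okAt_top (hB : BasicOn D d) (hj : j ∈ d) : OkAt D j vtop :=
  ⟨fun _ h => by simp [vtop] at h, empty_subset _, (hB j hj).null_empty, (hB j hj).o_mem⟩

theorem ctop_mem (hB : BasicOn D d) : ctop ∈ Low D d :=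
  ⟨fun _ hj => okAt_top hB hj, fun _ _ => rfl, by simp [ctop, vtop]⟩

theorem Low_mono (hB : BasicOn D d) (hc : c ⊆ d) (h : p ∈ Low D c) : p ∈ Low D d := by
  refine ⟨fun j hj => ?_, fun j hj => h.2.1 j fun e => hj (hc e), h.2.2⟩
  by_cases e : j ∈ c
  · exact h.1 j e
  · rw [h.2.1 j e]; exact okAt_top hB hj

theorem t_mem (hB : BasicOn D d) (hp : p ∈ Low D d) (hj : j ∈ d) : (p j).t ∈ (D j).T :=
  (hB j hj).car_sub (hp.1 j hj).1 (hp.1 j hj).2.2.2

theorem res_bs_mem (hd : IsLowerSet d) (hp : p ∈ Low D d) (hj : j ∈ d) :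
    res (bs j) p ∈ Low D (bs j) := res_mem hp (bs_sub hd hj)

theorem leAt_congr {q' p' : Cnd J Ω} (h₁ : q j = q' j) (h₂ : ∀ i ∈ bs j, q i = q' i)
    (h₃ : p j = p' j) : LeAt D j q p ↔ LeAt D j q' p' := by
  simp only [LeAt, h₁, h₃, res_congr h₂]

theorem le_congr (hc : IsLowerSet c) {q' p' : Cnd J Ω} (h₁ : ∀ j ∈ c, q j = q' j)
    (h₂ : ∀ j ∈ c, p j = p' j) : Le D c q p ↔ Le D c q' p' :=
  forall₂_congr fun j hj => leAt_congr (h₁ j hj) (fun i hi => h₁ i (bs_sub hc hj hi)) (h₂ j hj)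

theorem le_res_left (hc : IsLowerSet c) (hb : c ⊆ b) : Le D c (res b q) p ↔ Le D c q p :=
  le_congr hc (fun _ hj => res_of_mem (hb hj)) fun _ _ => rfl

theorem le_res_right (hc : IsLowerSet c) (hb : c ⊆ b) : Le D c q (res b p) ↔ Le D c q p :=
  le_congr hc (fun _ _ => rfl) fun _ hj => res_of_mem (hb hj)

theorem le_glue_left (hc : IsLowerSet c) (hb : c ⊆ b) : Le D c (glue b l q) p ↔ Le D c l p :=
  le_congr hc (fun _ hj => glue_of_mem (hb hj)) fun _ _ => rfl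

theorem le_glue_right (hc : IsLowerSet c) (hb : c ⊆ b) : Le D c q (glue b l p) ↔ Le D c q l :=
  le_congr hc (fun _ _ => rfl) fun _ hj => glue_of_mem (hb hj)

/-- Monotonicity of the term order in the forcing condition. -/
theorem tle_mono (hd : IsLowerSet d) (hB : BasicOn D d) (hj : j ∈ d) (hq : q ∈ Low D d)
    (hr : r ∈ Low D d) (h : Le D (bs j) r q) {a a' : Ω} (H : (D j).le a a' (res (bs j) q)) :
    (D j).le a a' (res (bs j) r) :=
  (hB j hj).mono _ _ _ (res_bs_mem hd hq hj) _ (res_bs_mem hd hr hj)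
    ((le_res_left (low j) Subset.rfl).2 ((le_res_right (low j) Subset.rfl).2 h)) H

theorem leAt_refl (hd : IsLowerSet d) (hB : BasicOn D d) (hj : j ∈ d) (hq : q ∈ Low D d)
    (h : q j = p j) : LeAt D j q p := by
  refine ⟨fun a ha => h ▸ ha, fun a h₁ h₂ => ?_, h ▸ Subset.rfl, ?_⟩
  · rw [h, h₁] at h₂; simp at h₂
  · rw [← h]; exact (hB j hj).refl _ (t_mem hB hq hj) _ (res_bs_mem hd hq hj)

theorem Le.refl (hd : IsLowerSet d) (hB : BasicOn D d) (hp : p ∈ Low D d) : Le D d p p :=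
  fun _ hj => leAt_refl hd hB hj hp rfl

theorem LeAt.trans (hd : IsLowerSet d) (hB : BasicOn D d) (hj : j ∈ d) (hq : q ∈ Low D d)
    (hr : r ∈ Low D d) (h : Le D (bs j) r q) (h₁ : LeAt D j r q) (h₂ : LeAt D j q p) :
    LeAt D j r p := by
  refine ⟨fun a ha => h₁.1 a (h₂.1 a ha), fun a ha hr' => ?_, h₂.2.2.1.trans h₁.2.2.1,
    (hB j hj).trans _ _ _ _ (res_bs_mem hd hr hj) h₁.2.2.2 (tle_mono hd hB hj hq hr h h₂.2.2.2)⟩
  cases e : (q j).s with
  | none => exact fun h' => h₁.2.1 a e hr' (h₂.2.2.1 h')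
  | some a' =>
    have := h₁.1 a' e
    rw [hr'] at this
    exact h₂.2.1 a ha (e.trans this.symm)

theorem Le.trans (hd : IsLowerSet d) (hB : BasicOn D d) (hq : q ∈ Low D d) (hr : r ∈ Low D d)
    (h₁ : Le D d r q) (h₂ : Le D d q p) : Le D d r p :=
  fun j hj => LeAt.trans hd hB hj hq hr (h₁.anti (bs_sub hd hj)) (h₁ j hj) (h₂ j hj)

/-- Transitivity on a smaller lower set. -/
theorem Le.trans' (hd : IsLowerSet d) (hB : BasicOn D d) (hc : IsLowerSet c) (hcd : c ⊆ d)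
    (hq : q ∈ Low D d) (hr : r ∈ Low D d) (h₁ : Le D c r q) (h₂ : Le D c q p) : Le D c r p :=
  fun j hj => LeAt.trans hd hB (hcd hj) hq hr (h₁.anti (bs_sub hc hj)) (h₁ j hj) (h₂ j hj)

theorem refl_on (hd : IsLowerSet d) (hB : BasicOn D d) : ∀ p ∈ Low D d, Le D d p p :=
  fun _ hp => Le.refl hd hB hp

theorem trans_on (hd : IsLowerSet d) (hB : BasicOn D d) : ∀ p ∈ Low D d, ∀ q ∈ Low D d,
    ∀ r ∈ Low D d, Le D d r q → Le D d q p → Le D d r p :=
  fun _ _ _ hq _ hr h₁ h₂ => Le.trans hd hB hq hr h₁ h₂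

theorem leAt_top (hd : IsLowerSet d) (hB : BasicOn D d) (hj : j ∈ d) (hq : q ∈ Low D d)
    (h : p j = vtop) : LeAt D j q p := by
  unfold LeAt
  rw [h]
  exact ⟨fun a ha => by simp [vtop] at ha, fun a _ _ => notMem_empty a, empty_subset _,
    (hB j hj).top _ (t_mem hB hq hj) _ (res_bs_mem hd hq hj)⟩

theorem le_ctop (hd : IsLowerSet d) (hB : BasicOn D d) (hq : q ∈ Low D d) : Le D d q ctop :=
  fun _ hj => leAt_top hd hB hj hq rfl

/-- To be below a condition supported on `c` it suffices to be below it on `c`. -/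
theorem le_of_low (hd : IsLowerSet d) (hB : BasicOn D d) (hq : q ∈ Low D d) (hl : l ∈ Low D c)
    (h : Le D c q l) : Le D d q l := by
  intro j hj
  by_cases e : j ∈ c
  exacts [h j e, leAt_top hd hB hj hq (hl.2.1 j e)]

theorem le_res (hd : IsLowerSet d) (hB : BasicOn D d) (hq : q ∈ Low D d) : Le D d q (res c q) := by
  intro j hj
  by_cases e : j ∈ c
  exacts [leAt_refl hd hB hj hq (res_of_mem e).symm, leAt_top hd hB hj hq (res_of_notMem e)]

theorem tle_of_top (hd : IsLowerSet d) (hB : BasicOn D d) (hj : j ∈ d) (hq : q ∈ Low D (bs j))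
    {a a' : Ω} (H : (D j).le a a' ctop) : (D j).le a a' q :=
  (hB j hj).mono _ _ _ (ctop_mem (hB.anti (bs_sub hd hj))) _ hq
    (le_ctop (low j) (hB.anti (bs_sub hd hj)) hq) H

theorem TDir.refl (hd : IsLowerSet d) (hB : BasicOn D d) (hj : j ∈ d) (hq : q ∈ Low D d)
    (h : q j = p j) : TDir D j q p :=
  ⟨by rw [h], by rw [h], by
    rw [← h]; exact (hB j hj).refl _ (t_mem hB hq hj) _ (ctop_mem (hB.anti (bs_sub hd hj)))⟩

theorem TDir.trans (hd : IsLowerSet d) (hB : BasicOn D d) (hj : j ∈ d) (h₁ : TDir D j r q)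
    (h₂ : TDir D j q p) : TDir D j r p :=
  ⟨h₁.1.trans h₂.1, h₂.2.1.trans h₁.2.1,
    (hB j hj).trans _ _ _ _ (ctop_mem (hB.anti (bs_sub hd hj))) h₁.2.2 h₂.2.2⟩

omit [LinearOrder J] [Base J] in
theorem tdir_congr {q' p' : Cnd J Ω} (h₁ : q j = q' j) (h₂ : p j = p' j) :
    TDir D j q p ↔ TDir D j q' p' := by
  simp only [TDir, h₁, h₂]

theorem dirAt_congr {q' p' : Cnd J Ω} (h₁ : q j = q' j) (h₂ : ∀ i ∈ bs j, q i = q' i)
    (h₃ : p j = p' j) : DirAt D j q p ↔ DirAt D j q' p' := by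
  rw [DirAt, DirAt, leAt_congr h₁ h₂ h₃, h₁, h₃]

theorem dirAt_of {q p : Cnd J Ω} (h₁ : (q j).s = (p j).s) (h₂ : (p j).E ⊆ (q j).E)
    (h₃ : (D j).le (q j).t (p j).t (res (bs j) q)) : DirAt D j q p :=
  ⟨h₁, fun a ha => h₁.trans ha, fun a h h' => by rw [h₁, h] at h'; simp at h', h₂, h₃⟩

theorem TDir.dirAt (hd : IsLowerSet d) (hB : BasicOn D d) (hj : j ∈ d) (hq : q ∈ Low D d)
    (h : TDir D j q p) : DirAt D j q p :=
  dirAt_of h.1 h.2.1 (tle_of_top hd hB hj (res_bs_mem hd hq hj) h.2.2)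

/-- An extension at `j` followed by a trivially forced direct extension. -/
theorem LeAt.trans_tdir (hd : IsLowerSet d) (hB : BasicOn D d) (hj : j ∈ d) (hr : r ∈ Low D d)
    (h₁ : LeAt D j r q) (h₂ : TDir D j q p) : LeAt D j r p :=
  ⟨fun a ha => h₁.1 a (h₂.1.trans ha), fun a ha hr' h' => h₁.2.1 a (h₂.1.trans ha) hr' (h₂.2.1 h'),
    h₂.2.1.trans h₁.2.2.1, (hB j hj).trans _ _ _ _ (res_bs_mem hd hr hj) h₁.2.2.2
      (tle_of_top hd hB hj (res_bs_mem hd hr hj) h₂.2.2)⟩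

theorem DirAt.trans_tdir (hd : IsLowerSet d) (hB : BasicOn D d) (hj : j ∈ d) (hr : r ∈ Low D d)
    (h₁ : DirAt D j r q) (h₂ : TDir D j q p) : DirAt D j r p :=
  ⟨h₁.1.trans h₂.1, h₁.2.trans_tdir hd hB hj hr h₂⟩

theorem TExt.refl (hd : IsLowerSet d) (hB : BasicOn D d) (hp : p ∈ Low D d) : TExt D c d p p :=
  ⟨fun _ _ => rfl, fun _ hj _ => TDir.refl hd hB hj hp rfl⟩

theorem TExt.trans (hd : IsLowerSet d) (hB : BasicOn D d) (h₁ : TExt D c d r q)
    (h₂ : TExt D c d q p) : TExt D c d r p :=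
  ⟨fun j hj => (h₁.1 j hj).trans (h₂.1 j hj),
    fun j hj hc => (h₁.2 j hj hc).trans hd hB hj (h₂.2 j hj hc)⟩

theorem TExt.tdir (hd : IsLowerSet d) (hB : BasicOn D d) (hq : q ∈ Low D d) (h : TExt D c d q p)
    (hj : j ∈ d) : TDir D j q p := by
  by_cases e : j ∈ c
  exacts [TDir.refl hd hB hj hq (h.1 j e), h.2 j hj e]

theorem TExt.anti (hd : IsLowerSet d) (hB : BasicOn D d) (hq : q ∈ Low D d) (h : TExt D c d q p)
    (hb : b ⊆ c) : TExt D b d q p :=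
  ⟨fun j hj => h.1 j (hb hj), fun _ hj _ => h.tdir hd hB hq hj⟩

theorem TExt.le (hd : IsLowerSet d) (hB : BasicOn D d) (hq : q ∈ Low D d) (h : TExt D c d q p) :
    Le D d q p := fun _ hj => ((h.tdir hd hB hq hj).dirAt hd hB hj hq).2

/-- Gluing a stronger lower part. -/
theorem glue_le (hd : IsLowerSet d) (hB : BasicOn D d) (hc : IsLowerSet c)
    (hm : glue c l p ∈ Low D d) (h : Le D c l p) : Le D d (glue c l p) p := by
  intro j hj
  by_cases e : j ∈ c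
  · exact (le_glue_left hc Subset.rfl).2 h j e
  · exact leAt_refl hd hB hj hm (glue_of_notMem e)

theorem glue_le_low (hd : IsLowerSet d) (hB : BasicOn D d) (hc : IsLowerSet c) (hcd : c ⊆ d)
    (hl : l ∈ Low D c) (hp : p ∈ Low D d) : Le D d (glue c l p) l :=
  le_of_low hd hB (glue_mem' hl hcd hp) hl
    ((le_glue_left hc Subset.rfl).2 (Le.refl hc (hB.anti hcd) hl))

theorem le_glue (h₁ : ∀ j ∈ d, j ∈ c → LeAt D j r l) (h₂ : ∀ j ∈ d, j ∉ c → LeAt D j r p) :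
    Le D d r (glue c l p) := by
  intro j hj
  by_cases e : j ∈ c
  · exact (leAt_congr rfl (fun _ _ => rfl) (glue_of_mem e)).2 (h₁ j hj e)
  · exact (leAt_congr rfl (fun _ _ => rfl) (glue_of_notMem e)).2 (h₂ j hj e)

theorem glue_le_glue (hd : IsLowerSet d) (hB : BasicOn D d) (hc : IsLowerSet c)
    {l' u u' : Cnd J Ω} (hm : glue c l' u' ∈ Low D d) (h₁ : Le D c l' l)
    (h₂ : ∀ j ∈ d, j ∉ c → TDir D j u' u) : Le D d (glue c l' u') (glue c l u) :=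
  le_glue (fun j _ e => (le_glue_left hc Subset.rfl).2 h₁ j e) fun j hj e =>
    (((tdir_congr (glue_of_notMem e) rfl).2 (h₂ j hj e)).dirAt hd hB hj hm).2

/-- If `r ≤ u` and `l ≤ r` on `c`, then `glue c l r ≤ glue c l u`. -/
theorem glue_le_glue' (hd : IsLowerSet d) (hB : BasicOn D d) (hc : IsLowerSet c) (hcd : c ⊆ d)
    {u : Cnd J Ω} (hl : l ∈ Low D c) (hr : r ∈ Low D d) (h₁ : Le D c l r)
    (h₂ : ∀ j ∈ d, j ∉ c → LeAt D j r u) : Le D d (glue c l r) (glue c l u) := by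
  have hm := glue_mem' hl hcd hr
  have h := glue_le hd hB hc hm h₁
  exact le_glue (fun j hj _ => glue_le_low hd hB hc hcd hl hr j hj) fun j hj e =>
    LeAt.trans hd hB hj hr hm (h.anti (bs_sub hd hj)) (h j hj) (h₂ j hj e)

/-- The induction behind half mixing. -/
theorem le_of_mix [WellFoundedLT J] (hd : IsLowerSet d) {r' : Cnd J Ω} (hr' : r' ∈ Low D d)
    (h₁ : ∀ j ∈ d, j ∈ e → LeAt D j r' r)
    (h₂ : ∀ j ∈ d, j ∉ e → (r' j).s = (r j).s ∧ (r j).E ⊆ (r' j).E ∧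
      ∀ q ∈ Low D (bs j), Le D (bs j) q r → (D j).le (r' j).t (r j).t q) : Le D d r' r := by
  intro j
  induction j using WellFoundedLT.induction with
  | _ j ih =>
  intro hj
  by_cases h : j ∈ e
  · exact h₁ j hj h
  · obtain ⟨a, b, c⟩ := h₂ j hj h
    refine (dirAt_of a b (c _ (res_bs_mem hd hr' hj) ?_)).2
    exact (le_res_left (low j) Subset.rfl).2 fun i hi => ih i (sub j hi) (bs_sub hd hj hi)

theorem addE_mem (hB : BasicOn D d) (hq : q ∈ Low D d) (hp : p ∈ Low D d) :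
    addE q p ∈ Low D d := by
  refine ⟨fun j hj => ⟨(hq.1 j hj).1, union_subset (hq.1 j hj).2.1 (hp.1 j hj).2.1,
    (hB j hj).null_union _ _ (hq.1 j hj).2.2.1 (hp.1 j hj).2.2.1, (hq.1 j hj).2.2.2⟩,
    fun j hj => ?_, hq.2.2⟩
  simp [addE, hq.2.1 j hj, hp.2.1 j hj, vtop]

theorem dirAt_addE (hd : IsLowerSet d) (hB : BasicOn D d) (hq : q ∈ Low D d) (hp : p ∈ Low D d)
    (hj : j ∈ d) {r : Cnd J Ω} (hs : (q j).s = (r j).s) (ht : (q j).t = (r j).t)
    (hE : (r j).E ⊆ (q j).E ∪ (p j).E) : DirAt D j (addE q p) r :=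
  dirAt_of hs hE (by
    have := (hB j hj).refl _ (t_mem hB hq hj) _ (res_bs_mem hd (addE_mem hB hq hp) hj)
    rw [← ht]; exact this)

theorem addE_le (hd : IsLowerSet d) (hB : BasicOn D d) (hq : q ∈ Low D d) (hp : p ∈ Low D d) :
    Le D d (addE q p) q :=
  fun _ hj => (dirAt_addE hd hB hq hp hj rfl rfl subset_union_left).2

theorem strip_mem (hB : BasicOn D d) (hp : p ∈ Low D d) : strip p ∈ Keys D d :=
  ⟨⟨fun j hj => ⟨(hp.1 j hj).1, empty_subset _, (hB j hj).null_empty, (hp.1 j hj).2.2.2⟩,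
    fun j hj => by simp [strip, hp.2.1 j hj, vtop], hp.2.2⟩, fun _ => rfl⟩

omit [Inhabited Ω] [LinearOrder J] [Base J] in
theorem strip_eq_iff : strip p = strip q ↔ ∀ j, (p j).s = (q j).s ∧ (p j).t = (q j).t := by
  simp only [funext_iff, strip, Vl.mk.injEq, true_and]

open Classical in
theorem update_mem (hp : p ∈ Low D d) (hj : j ∈ d) {v : Vl Ω} (hv : OkAt D j v) :
    Function.update p j v ∈ Low D d := by
  refine ⟨fun i hi => ?_, fun i hi => ?_, (hp.2.2.insert j).subset fun i hi => ?_⟩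
  · by_cases e : i = j
    · subst e; rwa [Function.update_self]
    · rw [Function.update_of_ne e]; exact hp.1 i hi
  · rw [Function.update_of_ne fun e => hi (by rw [e]; exact hj)]; exact hp.2.1 i hi
  · by_cases e : i = j
    · exact Or.inl e
    · exact Or.inr (by simpa [Function.update_of_ne e] using hi)

open Classical in
theorem res_bs_update (v : Vl Ω) : res (bs j) (Function.update p j v) = res (bs j) p :=
  res_congr fun _ hi => Function.update_of_ne (ne_of_lt (sub j hi)) _ _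

open Classical in
theorem update_le (hd : IsLowerSet d) (hB : BasicOn D d) (hp : p ∈ Low D d) (hj : j ∈ d)
    {v : Vl Ω} (hv : OkAt D j v) (h₁ : ∀ a, (p j).s = some a → v.s = some a)
    (h₂ : ∀ a, (p j).s = none → v.s = some a → a ∉ (p j).E) (h₃ : (p j).E ⊆ v.E)
    (h₄ : (D j).le v.t (p j).t (res (bs j) p)) : Le D d (Function.update p j v) p := by
  intro i hi
  by_cases e : i = j
  · subst e
    unfold LeAt
    rw [res_bs_update, Function.update_self]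
    exact ⟨h₁, h₂, h₃, h₄⟩
  · exact leAt_refl hd hB hi (update_mem hp hj hv) (Function.update_of_ne e _ _)

open Classical in
/-- Adding a point. -/
theorem add_pt (hd : IsLowerSet d) (hB : BasicOn D d) (hp : p ∈ Low D d) (hj : j ∈ d)
    (hs : (p j).s = none) {a : Ω} (ha : a ∈ (D j).Pt) (hE : a ∉ (p j).E)
    (ht : (p j).t ∈ (D j).y a) :
    Function.update p j ⟨some a, (p j).E, (p j).t⟩ ∈ Low D d ∧
      Le D d (Function.update p j ⟨some a, (p j).E, (p j).t⟩) p := by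
  have hv : OkAt D j ⟨some a, (p j).E, (p j).t⟩ :=
    ⟨fun b hb => Option.some.inj hb ▸ ha, (hp.1 j hj).2.1, (hp.1 j hj).2.2.1, ht⟩
  refine ⟨update_mem hp hj hv, update_le hd hB hp hj hv (fun b hb => ?_) (fun b _ hb => ?_)
    Subset.rfl ((hB j hj).refl _ (t_mem hB hp hj) _ (res_bs_mem hd hp hj))⟩
  · rw [hs] at hb; simp at hb
  · exact Option.some.inj hb ▸ hE

theorem openIn_le (hd : IsLowerSet d) (hB : BasicOn D d) (r : Cnd J Ω) :
    OpenIn (Low D d) (Le D d) {q | q ∈ Low D d ∧ Le D d q r} :=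
  ⟨fun _ h => h.1, fun _ hq _ hq' h => ⟨hq', Le.trans hd hB hq.1 hq' h hq.2⟩⟩

end Pool.Agent.MP_a2558b_lc

end

section

namespace Pool.Agent.MP_a2558b_lc

open Cardinal hiding univ
open Set Base

universe u

variable {J Ω : Type u} [Inhabited Ω] [LinearOrder J] [WellFoundedLT J] [Base J] {D : Sys J Ω}
  {c d : Set J}

namespace Rec

/-- Recursion with choice along a well order. -/
theorem exists_rec {W Y : Type u} [LinearOrder W] [WellFoundedLT W] [Nonempty Y]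
    (P : W → (W → Y) → Y → Prop)
    (loc : ∀ w H H' y, (∀ w' < w, H w' = H' w') → P w H y → P w H' y)
    (step : ∀ w H, (∀ w' < w, P w' H (H w')) → ∃ y, P w H y) : ∃ g, ∀ w, P w g (g w) := by
  classical
  let F : ∀ w : W, (∀ w', w' < w → Y) → Y := fun w ih =>
    Classical.epsilon (P w fun w' => if h : w' < w then ih w' h else Classical.arbitrary Y)
  let g : W → Y := (wellFounded_lt (α := W)).fix F
  have hg : ∀ w, g w = Classical.epsilon
      (P w fun w' => if w' < w then g w' else Classical.arbitrary Y) := fun w =>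
    (wellFounded_lt (α := W)).fix_eq F w
  refine ⟨g, fun w => ?_⟩
  induction w using WellFoundedLT.induction with
  | _ w ih =>
  obtain ⟨y, hy⟩ := step w g ih
  refine loc w (fun w' => if w' < w then g w' else Classical.arbitrary Y) g _
    (fun w' h => if_pos h) ?_
  rw [hg w]
  exact Classical.epsilon_spec ⟨y, loc w g _ y (fun w' h => (if_pos h).symm) hy⟩

omit [WellFoundedLT J] in
/-- A chain of trivially forced direct extensions has a lower bound. -/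
theorem bound (hd : IsLowerSet d) (hB : BasicOn D d) {W : Type u} [LinearOrder W]
    (e : W → Set J) (hce : ∀ w, c ⊆ e w) (hcl : ∀ j ∈ d, j ∉ c → Cl D j #{w | j ∉ e w})
    {p : Cnd J Ω} (hp : p ∈ Low D d) (S : Set W) (g : W → Cnd J Ω)
    (h₁ : ∀ w ∈ S, g w ∈ Low D d) (h₂ : ∀ w ∈ S, ∀ j ∈ d, j ∉ e w → TDir D j (g w) p)
    (h₃ : ∀ w ∈ S, ∀ w' ∈ S, w' < w → ∀ j ∈ d, j ∉ e w → j ∉ e w' → TDir D j (g w) (g w')) :
    ∃ u ∈ Low D d, TExt D c d u p ∧ ∀ w ∈ S, ∀ j ∈ d, j ∉ e w → TDir D j u (g w) := by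
  have key : ∀ j, ∃ v : Vl Ω, (j ∈ d → j ∉ c → OkAt D j v ∧ v.s = (p j).s ∧ (p j).E ⊆ v.E ∧
      (D j).le v.t (p j).t ctop ∧ ∀ w ∈ S, j ∉ e w →
        (g w j).E ⊆ v.E ∧ (D j).le v.t (g w j).t ctop) ∧ (¬ (j ∈ d ∧ j ∉ c) → v = p j) := by
    intro j
    by_cases hj : j ∈ d ∧ j ∉ c
    swap
    · exact ⟨p j, fun a b => absurd ⟨a, b⟩ hj, fun _ => rfl⟩
    obtain ⟨hj, hjc⟩ := hj
    have hcard : #{w | w ∈ S ∧ j ∉ e w} ≤ #{w | j ∉ e w} :=
      mk_le_mk_of_subset fun _ h => h.2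
    have hb := hB.anti (bs_sub hd hj)
    obtain ⟨s, hs, hs₁, hs₂⟩ := (hcl j hj hjc).2.car (hp.1 j hj).1 {w | w ∈ S ∧ j ∉ e w}
      (fun i => (g i j).t) (fun _ => Low D (bs j)) (p j).t hcard (hp.1 j hj).2.2.2
      (fun i => (h₂ i i.2.1 j hj i.2.2).1 ▸ ((h₁ i i.2.1).1 j hj).2.2.2)
      (fun _ => ⟨Subset.rfl, fun _ _ _ h _ => h⟩)
      (fun i q hq => tle_of_top hd hB hj hq (h₂ i i.2.1 j hj i.2.2).2.2)
      (fun i i' q hq _ => ⟨q, hq, Le.refl (low j) hb hq, by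
        have r : ∀ i : {w | w ∈ S ∧ j ∉ e w}, (D j).le (g i j).t (g i j).t q := fun i =>
          (hB j hj).refl _ (t_mem hB (h₁ i i.2.1) hj) _ hq
        rcases lt_trichotomy i.1 i'.1 with h | h | h
        · exact ⟨i', hq, tle_of_top hd hB hj hq
            (h₃ _ i'.2.1 _ i.2.1 h j hj i'.2.2 i.2.2).2.2, r i'⟩
        · exact ⟨i, hq, r i, h ▸ r i⟩
        · exact ⟨i, hq, r i, tle_of_top hd hB hj hq
            (h₃ _ i.2.1 _ i'.2.1 h j hj i.2.2 i'.2.2).2.2⟩⟩)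
    refine ⟨⟨(p j).s, (p j).E ∪ ⋃ i : {w | w ∈ S ∧ j ∉ e w}, (g i j).E, s⟩,
      fun _ _ => ⟨⟨(hp.1 j hj).1, union_subset (hp.1 j hj).2.1
        (iUnion_subset fun i => ((h₁ i i.2.1).1 j hj).2.1),
        (hB j hj).null_union _ _ (hp.1 j hj).2.2.1 ((hcl j hj hjc).1 _ _ hcard
          fun i => ((h₁ i i.2.1).1 j hj).2.2.1), hs⟩, rfl, subset_union_left, hs₁,
        fun w hw hwe => ⟨fun a ha => Or.inr (mem_iUnion.2 ⟨⟨w, hw, hwe⟩, ha⟩),
          hs₂ ⟨w, hw, hwe⟩ _ (ctop_mem hb)⟩⟩, fun h => absurd ⟨hj, hjc⟩ h⟩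
  choose u hu hu' using key
  have hs : ∀ j, (u j).s = (p j).s := fun j => by
    by_cases hj : j ∈ d ∧ j ∉ c
    exacts [(hu j hj.1 hj.2).2.1, by rw [hu' j hj]]
  refine ⟨u, ⟨fun j hj => ?_, fun j hj => ?_, by simpa only [hs] using hp.2.2⟩,
    ⟨fun j hj => hu' j fun h => h.2 hj, fun j hj hjc => ?_⟩, fun w hw j hj hwe => ?_⟩
  · by_cases hjc : j ∈ c
    · rw [hu' j fun h => h.2 hjc]
      exact hp.1 j hj
    · exact (hu j hj hjc).1
  · rw [hu' j fun h => hj h.1]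
    exact hp.2.1 j hj
  · exact ⟨hs j, (hu j hj hjc).2.2.1, (hu j hj hjc).2.2.2.1⟩
  · have := (hu j hj fun h => hwe (hce w h)).2.2.2.2 w hw hwe
    exact ⟨(hs j).trans (h₂ w hw j hj hwe).1.symm, this.1, this.2⟩

end Rec

/-- Transfinite recursion along a well order of tasks, using the closure of the coordinates. -/
theorem rec_closed (hd : IsLowerSet d) (hB : BasicOn D d) {W Δ : Type u} [LinearOrder W]
    [WellFoundedLT W] [Nonempty Δ] (e : W → Set J) (hce : ∀ w, c ⊆ e w)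
    (hcl : ∀ j ∈ d, j ∉ c → Cl D j #{w | j ∉ e w})
    (G : W → (W → Δ) → Δ → Cnd J Ω → Prop)
    (loc : ∀ w h h' x u, (∀ w' < w, h w' = h' w') → G w h x u → G w h' x u)
    (pres : ∀ w h x, ∀ u ∈ Low D d, ∀ u' ∈ Low D d, (∀ j ∈ d, j ∉ e w → TDir D j u' u) →
      G w h x u → G w h x u')
    {p : Cnd J Ω} (hp : p ∈ Low D d)
    (step : ∀ w h, ∀ u ∈ Low D d, TExt D c d u p →
      ∃ u' ∈ Low D d, ∃ x, (∀ j ∈ d, j ∉ e w → TDir D j u' u) ∧ G w h x u') :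
    ∃ p' ∈ Low D d, TExt D c d p' p ∧ ∃ h, ∀ w, G w h (h w) p' := by
  have : Nonempty (Cnd J Ω × Δ) := ⟨(p, Classical.arbitrary Δ)⟩
  obtain ⟨g, hg⟩ := Rec.exists_rec (W := W) (Y := Cnd J Ω × Δ)
    (fun w H y => y.1 ∈ Low D d ∧ (∀ j ∈ d, j ∉ e w → TDir D j y.1 p) ∧
      (∀ w' < w, ∀ j ∈ d, j ∉ e w → j ∉ e w' → TDir D j y.1 (H w').1) ∧
      G w (fun w' => (H w').2) y.2 y.1)
    (fun w H H' y h hy => ⟨hy.1, hy.2.1, fun w' hw' => h w' hw' ▸ hy.2.2.1 w' hw',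
      loc w _ _ _ _ (fun w' hw' => congrArg Prod.snd (h w' hw')) hy.2.2.2⟩)
    fun w H ih => by
      obtain ⟨u, hu, h₁, h₂⟩ := Rec.bound hd hB e hce hcl hp (Iio w) (fun w' => (H w').1)
        (fun w' h => (ih w' h).1) (fun w' h => (ih w' h).2.1)
        fun w' h w'' _ h' => (ih w' h).2.2.1 w'' h'
      obtain ⟨u', hu', x, h₃, h₄⟩ := step w (fun w' => (H w').2) u hu h₁
      exact ⟨(u', x), hu', fun j hj h => (h₃ j hj h).trans hd hB hj
        (h₁.2 j hj fun h' => h (hce w h')),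
        fun w' hw' j hj h h' => (h₃ j hj h).trans hd hB hj (h₂ w' hw' j hj h'), h₄⟩
  obtain ⟨u, hu, h₁, h₂⟩ := Rec.bound hd hB e hce hcl hp univ (fun w' => (g w').1)
    (fun w' _ => (hg w').1) (fun w' _ => (hg w').2.1)
    fun w' _ w'' _ h' => (hg w').2.2.1 w'' h'
  exact ⟨u, hu, h₁, fun w => (g w).2, fun w =>
    pres w _ _ _ (hg w).1 u hu (h₂ w trivial) (hg w).2.2.2⟩

/-- From a reduction of one name to a reduction of a family of names. -/
theorem tail_fam (hc : IsLowerSet c) (hd : IsLowerSet d) (hcd : c ⊆ d) (hB : BasicOn D d)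
    {ι Z : Type u} (dec : ι → Cnd J Ω → Z → Prop)
    (hn : ∀ i, IsNm (Low D d) (Le D d) (dec i)) (hcl : ∀ j ∈ d, j ∉ c → Cl D j #ι)
    (one : ∀ i, ∀ p ∈ Low D d, ∃ p' ∈ Low D d, TExt D c d p' p ∧ ∀ l ∈ Low D c, Le D c l p →
      ∃ l' ∈ Low D c, Le D c l' l ∧ ∃ x, dec i (glue c l' p') x)
    {p : Cnd J Ω} (hp : p ∈ Low D d) :
    ∃ p' ∈ Low D d, TExt D c d p' p ∧ ∀ i, ∀ l ∈ Low D c, Le D c l p →
      ∃ l' ∈ Low D c, Le D c l' l ∧ ∃ x, dec i (glue c l' p') x := by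
  obtain ⟨_, _⟩ := exists_wellOrder ι
  obtain ⟨p', hp', h₁, -, h₂⟩ := rec_closed (c := c) hd hB (W := ι) (Δ := PUnit.{u + 1})
    (fun _ => c) (fun _ => Subset.rfl) (fun j hj hjc => (hcl j hj hjc).anti (mk_set_le _))
    (fun w _ _ u => ∀ l ∈ Low D c, Le D c l p →
      ∃ l' ∈ Low D c, Le D c l' l ∧ ∃ x, dec w (glue c l' u) x)
    (fun _ _ _ _ _ _ h => h)
    (fun w _ _ u hu u' hu' ht h l hl hlp => by
      obtain ⟨l', hl', h₁, x, h₂⟩ := h l hl hlp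
      exact ⟨l', hl', h₁, x, (hn w).mono _ (glue_mem' hl' hcd hu) _ (glue_mem' hl' hcd hu')
        (glue_le_glue hd hB hc (glue_mem' hl' hcd hu') (Le.refl hc (hB.anti hcd) hl') ht) x h₂⟩)
    hp fun w _ u hu ht => by
      obtain ⟨u', hu', h₁, h₂⟩ := one w u hu
      exact ⟨u', hu', PUnit.unit, h₁.2, fun l hl hlp =>
        h₂ l hl ((le_congr hc (fun _ _ => rfl) ht.1).2 hlp)⟩
  exact ⟨p', hp', h₁, h₂⟩

end Pool.Agent.MP_a2558b_lc

end

section

namespace Pool.Agent.MP_a2558b_lc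

open Cardinal hiding univ
open Set Base

universe u

variable {J Ω : Type u} [Inhabited Ω] [LinearOrder J] [WellFoundedLT J] [Base J] {D : Sys J Ω}
  {c d : Set J}

omit [LinearOrder J] [WellFoundedLT J] [Base J] in
/-- Changing a condition outside `b` coordinatewise, keeping the chosen points. -/
theorem assemble {p : Cnd J Ω} (hp : p ∈ Low D d) (b : Set J) (P : J → Vl Ω → Prop)
    (h : ∀ j ∈ d, j ∉ b → ∃ v, OkAt D j v ∧ v.s = (p j).s ∧ P j v) :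
    ∃ p' ∈ Low D d, (∀ j ∈ b, p' j = p j) ∧
      ∀ j ∈ d, j ∉ b → (p' j).s = (p j).s ∧ P j (p' j) := by
  classical
  choose v hv using h
  let p' : Cnd J Ω := fun j => if H : j ∈ d ∧ j ∉ b then v j H.1 H.2 else p j
  have h1 : ∀ j (hj : j ∈ d) (hb : j ∉ b), p' j = v j hj hb := fun j hj hb => dif_pos ⟨hj, hb⟩
  have h2 : ∀ j, ¬ (j ∈ d ∧ j ∉ b) → p' j = p j := fun j H => dif_neg H
  refine ⟨p', ⟨fun j hj => ?_, fun j hj => ?_, hp.2.2.subset fun j hj => ?_⟩,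
    fun j hj => h2 j fun H => H.2 hj, fun j hj hb => ?_⟩
  · by_cases hb : j ∈ b
    · rw [h2 j fun H => H.2 hb]; exact hp.1 j hj
    · rw [h1 j hj hb]; exact (hv j hj hb).1
  · rw [h2 j fun H => hj H.1]; exact hp.2.1 j hj
  · by_cases H : j ∈ d ∧ j ∉ b
    · have e := (hv j H.1 H.2).2.1
      rw [← h1 j H.1 H.2] at e
      intro h'
      exact hj (e.trans h')
    · intro h'
      exact hj (by rw [h2 j H]; exact h')
  · rw [h1 j hj hb]; exact (hv j hj hb).2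

omit [WellFoundedLT J] in
/-- A direct extension at `j` is forced by everything below it. -/
theorem DirAt.tle (hd : IsLowerSet d) (hB : BasicOn D d) {j : J} (hj : j ∈ d) {r u q : Cnd J Ω}
    (hr : r ∈ Low D d) (h : DirAt D j r u) (hq : q ∈ Low D (bs j)) (hle : Le D (bs j) q r) :
    (D j).le (r j).t (u j).t q :=
  (hB j hj).mono _ _ _ (res_bs_mem hd hr hj) _ hq
    ((le_res_right (low j) Subset.rfl).2 hle) h.2.2.2.2

omit [WellFoundedLT J] in
/-- Mixing along pairwise disjoint cones, from the closure of a coordinate. -/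
theorem mix_of_ndc (hd : IsLowerSet d) (hB : BasicOn D d) {j : J} (hj : j ∈ d)
    {x : Cardinal.{u}} (hcl : (D j).NDC (Low D (bs j)) (Le D (bs j)) ctop x) {ι : Type u}
    (hι : #ι ≤ x) {u : Cnd J Ω} (hu : u ∈ Low D d) (r : ι → Cnd J Ω) (hr : ∀ i, r i ∈ Low D d)
    (hdir : ∀ i, DirAt D j (r i) u)
    (hdis : ∀ i i', ∀ q ∈ Low D (bs j), Le D (bs j) q (r i) → Le D (bs j) q (r i') → i = i') :
    ∃ s ∈ (D j).car (u j).s, (D j).le s (u j).t ctop ∧
      ∀ i, ∀ q ∈ Low D (bs j), Le D (bs j) q (r i) → (D j).le s (r i j).t q := by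
  have hBj := hB.anti (bs_sub hd hj)
  obtain ⟨s, hs, h₁, h₂⟩ := hcl.car (hu.1 j hj).1 ι (fun i => (r i j).t)
    (fun i => {q | q ∈ Low D (bs j) ∧ Le D (bs j) q (r i)}) (u j).t hι (hu.1 j hj).2.2.2
    (fun i => (hdir i).1 ▸ ((hr i).1 j hj).2.2.2) (fun i => openIn_le (low j) hBj (r i))
    (fun i q hq => (hdir i).tle hd hB hj (hr i) hq.1 hq.2) (by
      intro i i' q hq hq'
      obtain rfl := hdis i i' q hq.1 hq.2 hq'.2
      have h := (hB j hj).refl _ (t_mem hB (hr i) hj) q hq.1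
      exact ⟨q, hq.1, Le.refl (low j) hBj hq.1, i, hq, h, h⟩)
  exact ⟨s, hs, h₁, fun i q hq h => h₂ i q ⟨hq, h⟩⟩

/-- Reduction of direct decisions above a family of cuts. -/
theorem reduce (hd : IsLowerSet d) (hB : BasicOn D d) {A ι Z : Type u} [Nonempty Z]
    (e : A → Set J) (he : ∀ a, IsLowerSet (e a)) (hce : ∀ a, c ⊆ e a) (hed : ∀ a, e a ⊆ d)
    (rk : ι → A → Prop) (dec : ι → Cnd J Ω → Z → Prop)
    (hn : ∀ i, IsNm (Low D d) (Le D d) (dec i))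
    (hcl : ∀ j ∈ d, j ∉ c → Cl D j
      #{w : A × Cnd J Ω × ι | j ∉ e w.1 ∧ w.2.1 ∈ Keys D (e w.1) ∧ rk w.2.2 w.1})
    {p : Cnd J Ω} (hp : p ∈ Low D d) :
    ∃ p' ∈ Low D d, TExt D c d p' p ∧ ∃ val : A → Cnd J Ω → ι → Z, ∀ a i x, rk i a →
      ∀ r ∈ Low D d, (∀ j ∈ d, j ∉ e a → DirAt D j r p') → dec i r x →
        x = val a (strip (res (e a) r)) i ∧ ∃ l ∈ Low D (e a), strip l = strip (res (e a) r) ∧
          Le D (e a) l r ∧ dec i (glue (e a) l p') x := by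
  classical
  let W := {w : A × Cnd J Ω × ι // w.2.1 ∈ Keys D (e w.1) ∧ rk w.2.2 w.1}
  obtain ⟨lo, wf⟩ := exists_wellFoundedLT W
  have hcl' : ∀ j ∈ d, j ∉ c → Cl D j #{w : W | j ∉ e w.1.1} := by
    intro j hj hc
    refine (hcl j hj hc).anti (mk_le_of_injective
      (f := fun w : {w : W | j ∉ e w.1.1} => (⟨w.1.1, w.2, w.1.2⟩ :
        {w : A × Cnd J Ω × ι | j ∉ e w.1 ∧ w.2.1 ∈ Keys D (e w.1) ∧ rk w.2.2 w.1})) ?_)
    intro w w' h
    have h' : w.1.1 = w'.1.1 := Subtype.mk.inj h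
    exact Subtype.ext (Subtype.ext h')
  have : Nonempty (Cnd J Ω × Z) := ⟨(ctop, Classical.arbitrary Z)⟩
  let G : W → (W → Cnd J Ω × Z) → Cnd J Ω × Z → Cnd J Ω → Prop := fun w _ x u =>
    (∃ r ∈ Low D d, strip (res (e w.1.1) r) = w.1.2.1 ∧
      (∀ j ∈ d, j ∉ e w.1.1 → DirAt D j r u) ∧ ∃ z, dec w.1.2.2 r z) →
    x.1 ∈ Low D d ∧ strip (res (e w.1.1) x.1) = w.1.2.1 ∧ dec w.1.2.2 x.1 x.2 ∧
      ∀ j ∈ d, j ∉ e w.1.1 → (u j).s = (x.1 j).s ∧ (x.1 j).E ⊆ (u j).E ∧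
        ∀ q ∈ Low D (bs j), Le D (bs j) q x.1 → (D j).le (u j).t (x.1 j).t q
  obtain ⟨p', hp', hext, h, hG⟩ := rec_closed (c := c) hd hB (fun w : W => e w.1.1)
    (fun w => hce _) hcl' G (fun _ _ _ _ _ _ H => H) (by
      rintro w h x u hu u' hu' ht H ⟨r, hr, h₁, h₂, h₃⟩
      obtain ⟨a₁, a₂, a₃, a₄⟩ := H ⟨r, hr, h₁,
        fun j hj he => (h₂ j hj he).trans_tdir hd hB hj hr (ht j hj he), h₃⟩
      refine ⟨a₁, a₂, a₃, fun j hj he => ?_⟩
      obtain ⟨b₁, b₂, b₃⟩ := a₄ j hj he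
      obtain ⟨t₁, t₂, t₃⟩ := ht j hj he
      exact ⟨t₁.trans b₁, b₂.trans t₂, fun q hq hle =>
        (hB j hj).trans _ _ _ q hq (tle_of_top hd hB hj hq t₃) (b₃ q hq hle)⟩) hp (by
      intro w h u hu _
      by_cases H : ∃ r ∈ Low D d, strip (res (e w.1.1) r) = w.1.2.1 ∧
        (∀ j ∈ d, j ∉ e w.1.1 → DirAt D j r u) ∧ ∃ z, dec w.1.2.2 r z
      swap
      · exact ⟨u, hu, Classical.arbitrary _, fun j hj _ => TDir.refl hd hB hj hu rfl,
          fun H' => absurd H' H⟩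
      obtain ⟨r, hr, h₁, h₂, z, hz⟩ := H
      obtain ⟨u', hu', -, h₃⟩ := assemble hu (e w.1.1) (fun j v => v.E = (r j).E ∧
          (D j).le v.t (u j).t ctop ∧
          ∀ q ∈ Low D (bs j), Le D (bs j) q r → (D j).le v.t (r j).t q) (by
        intro j hj he
        have h1 : #PUnit.{u + 1} ≤ #{w : W | j ∉ e w.1.1} := by
          rw [mk_punit, Cardinal.one_le_iff_ne_zero, mk_ne_zero_iff]
          exact ⟨⟨w, he⟩⟩
        obtain ⟨s, hs, a₁, a₂⟩ := mix_of_ndc hd hB hj (hcl' j hj fun hc => he (hce _ hc)).2 h1 hu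
          (fun _ => r) (fun _ => hr) (fun _ => h₂ j hj he) (fun _ _ _ _ _ _ => rfl)
        exact ⟨⟨(u j).s, (r j).E, s⟩, ⟨(hu.1 j hj).1, (hr.1 j hj).2.1, (hr.1 j hj).2.2.1, hs⟩, rfl,
          rfl, a₁, a₂ PUnit.unit⟩)
      refine ⟨u', hu', (r, z), fun j hj he => ?_, fun _ => ⟨hr, h₁, hz, fun j hj he => ?_⟩⟩
      · obtain ⟨a₁, a₂, a₃, -⟩ := h₃ j hj he
        exact ⟨a₁, a₂ ▸ (h₂ j hj he).2.2.2.1, a₃⟩
      · obtain ⟨a₁, a₂, -, a₄⟩ := h₃ j hj he
        exact ⟨a₁.trans (h₂ j hj he).1.symm, a₂ ▸ Subset.rfl, a₄⟩)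
  refine ⟨p', hp', hext, fun a k i =>
    if H : k ∈ Keys D (e a) ∧ rk i a then (h ⟨(a, k, i), H⟩).2 else Classical.arbitrary Z, ?_⟩
  intro a i x hrk r hr hdir hdec
  have hk : strip (res (e a) r) ∈ Keys D (e a) :=
    strip_mem (hB.anti (hed a)) (res_mem hr (hed a))
  obtain ⟨a₁, a₂, a₃, a₄⟩ := hG ⟨(a, strip (res (e a) r), i), hk, hrk⟩ ⟨r, hr, rfl, hdir, x, hdec⟩
  simp only [dif_pos (And.intro hk hrk)]
  generalize h ⟨(a, strip (res (e a) r), i), hk, hrk⟩ = y at a₁ a₂ a₃ a₄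
  obtain ⟨r0, x0⟩ := y
  simp only at a₁ a₂ a₃ a₄ ⊢
  have hm : addE r r0 ∈ Low D d := addE_mem hB hr a₁
  have hmr : Le D d (addE r r0) r := addE_le hd hB hr a₁
  have hl : res (e a) (addE r r0) ∈ Low D (e a) := res_mem hm (hed a)
  have hg : glue (e a) (res (e a) (addE r r0)) p' ∈ Low D d := glue_mem' hl (hed a) hp'
  have hgr : Le D d (glue (e a) (res (e a) (addE r r0)) p') r0 := by
    refine le_of_mix (e := e a) hd hg (fun j hj hje => ?_) (fun j hj hje => ?_)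
    · have h₁ := strip_eq_iff.1 a₂ j
      rw [res_of_mem hje, res_of_mem hje] at h₁
      refine (leAt_congr (q' := addE r r0) ?_ (fun i hi => ?_) rfl).2
        (dirAt_addE hd hB hr a₁ hj h₁.1.symm h₁.2.symm subset_union_right).2
      · rw [glue_of_mem hje, res_of_mem hje]
      · rw [glue_of_mem (bs_sub (he a) hje hi), res_of_mem (bs_sub (he a) hje hi)]
    · rw [glue_of_notMem hje]; exact a₄ j hj hje
  have hmg : Le D d (addE r r0) (glue (e a) (res (e a) (addE r r0)) p') :=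
    le_glue (fun j hj _ => le_res hd hB hm j hj) fun j hj hje =>
      LeAt.trans hd hB hj hr hm (hmr.anti (bs_sub hd hj)) (hmr j hj) (hdir j hj hje).2
  have hdg := (hn i).mono r0 a₁ _ hg hgr x0 a₃
  obtain rfl : x = x0 := (hn i).eq_of_le hr hg hm hmr hmg hdec hdg
  refine ⟨rfl, _, hl, strip_eq_iff.2 fun j => ?_,
    (le_res_left (he a) Subset.rfl).2 (hmr.anti (hed a)), hdg⟩
  by_cases hje : j ∈ e a
  · rw [res_of_mem hje, res_of_mem hje]; exact ⟨rfl, rfl⟩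
  · rw [res_of_notMem hje, res_of_notMem hje]; exact ⟨rfl, rfl⟩

/-- Full mixing at a cut. -/
theorem full_mix (hc : IsLowerSet c) (hd : IsLowerSet d) (hcd : c ⊆ d) (hB : BasicOn D d)
    (hmix : MixCut D c d) (Φ : Cnd J Ω → Prop)
    (hΦ : ∀ r ∈ Low D d, ∀ r' ∈ Low D d, Le D d r' r → Φ r → Φ r')
    {p : Cnd J Ω} (hp : p ∈ Low D d) (l0 : Cnd J Ω)
    (dense : ∀ l ∈ Low D c, Le D c l l0 →
      ∃ r ∈ Low D d, Le D c r l ∧ (∀ j ∈ d, j ∉ c → DirAt D j r p) ∧ Φ r) :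
    ∃ p' ∈ Low D d, TExt D c d p' p ∧ ∀ l ∈ Low D c, Le D c l l0 →
      ∃ l' ∈ Low D c, Le D c l' l ∧ Φ (glue c l' p') := by
  classical
  have hBc := hB.anti hcd
  let S : Set (Cnd J Ω) := {r | r ∈ Low D d ∧ (∀ j ∈ d, j ∉ c → DirAt D j r p) ∧ Φ r}
  let T : Set (Set (Cnd J Ω)) := {F | F ⊆ S ∧
    ∀ r ∈ F, ∀ r' ∈ F, ∀ q ∈ Low D c, Le D c q r → Le D c q r' → r = r'}
  obtain ⟨F, hF⟩ := zorn_subset T (by
    intro K hK hch
    refine ⟨⋃₀ K, ⟨sUnion_subset fun F hF => (hK hF).1, ?_⟩, fun F hF => subset_sUnion_of_mem hF⟩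
    rintro r ⟨F, hF, hr⟩ r' ⟨F', hF', hr'⟩
    rcases hch.total hF hF' with h | h
    · exact (hK hF').2 r (h hr) r' hr'
    · exact (hK hF).2 r hr r' (h hr'))
  obtain ⟨hFS, hFd⟩ := hF.prop
  have hself : ∀ r ∈ Low D d, Le D c (res c r) r := fun r hr =>
    (le_res_left hc Subset.rfl).2 ((Le.refl hd hB hr).anti hcd)
  have hmax : ∀ r ∈ S, ∃ r' ∈ F, ∃ q ∈ Low D c, Le D c q r ∧ Le D c q r' := by
    intro r hr
    by_contra H
    push Not at H
    have hT : insert r F ∈ T := by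
      refine ⟨insert_subset hr hFS, ?_⟩
      rintro a (rfl | ha) b (rfl | hb) q hq h₁ h₂
      · rfl
      · exact absurd h₂ (H b hb q hq h₁)
      · exact absurd h₁ (H a ha q hq h₂)
      · exact hFd a ha b hb q hq h₁ h₂
    have hrF : r ∈ F := hF.le_of_ge hT (subset_insert r F) (mem_insert r F)
    exact H r hrF _ (res_mem hr.1 hcd) (hself r hr.1) (hself r hr.1)
  have hcard : #F ≤ #(Low D c) := by
    refine mk_le_of_injective
      (f := fun r : F => (⟨res c r.1, res_mem (hFS r.2).1 hcd⟩ : Low D c)) ?_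
    intro r r' h
    have h' : res c r.1 = res c r'.1 := congrArg Subtype.val h
    exact Subtype.ext (hFd _ r.2 _ r'.2 _ (res_mem (hFS r.2).1 hcd) (hself _ (hFS r.2).1)
      (h' ▸ hself _ (hFS r'.2).1))
  obtain ⟨p', hp', h₁, h₂⟩ := assemble hp c (fun j v => (p j).E ⊆ v.E ∧
      (D j).le v.t (p j).t ctop ∧ ∀ r ∈ F, (r j).E ⊆ v.E ∧
      ∀ q ∈ Low D (bs j), Le D (bs j) q r → (D j).le v.t (r j).t q) (by
    intro j hj hjc
    obtain ⟨hcb, hm⟩ := hmix j hj hjc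
    have hdis : ∀ r r' : F, ∀ q ∈ Low D (bs j), Le D (bs j) q r.1 → Le D (bs j) q r'.1 →
        r = r' := fun r r' q hq a₁ a₂ =>
      Subtype.ext (hFd _ r.2 _ r'.2 _ (res_mem hq hcb)
        ((le_res_left hc Subset.rfl).2 (a₁.anti hcb)) ((le_res_left hc Subset.rfl).2 (a₂.anti hcb)))
    have hPt : (⋃ r : F, (r.1 j).E) ⊆ (D j).Pt :=
      iUnion_subset fun r => ((hFS r.2).1.1 j hj).2.1
    have key : (D j).null (⋃ r : F, (r.1 j).E) ∧ ∃ s ∈ (D j).car (p j).s,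
        (D j).le s (p j).t ctop ∧ ∀ r : F, ∀ q ∈ Low D (bs j), Le D (bs j) q r.1 →
          (D j).le s (r.1 j).t q := by
      rcases hm with hm | ⟨hm, hm'⟩
      · exact ⟨hm.1 F _ hcard fun r => ((hFS r.2).1.1 j hj).2.2.1,
          mix_of_ndc hd hB hj hm.2 hcard hp (fun r : F => r.1) (fun r => (hFS r.2).1)
            (fun r => (hFS r.2).2.1 j hj hjc) hdis⟩
      · refine ⟨(hB j hj).null_mono _ _ (hm ▸ hPt) (hB j hj).null_empty, ?_⟩
        have hs : (p j).s = none := by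
          cases e : (p j).s with
          | none => rfl
          | some a => exact absurd ((hp.1 j hj).1 a e) (by rw [hm]; exact notMem_empty a)
        obtain ⟨s, hsT, a₁, a₂⟩ := hm' F (fun r => (r.1 j).t)
          (fun r => {q | q ∈ Low D (bs j) ∧ Le D (bs j) q r.1}) (p j).t (t_mem hB hp hj)
          (fun r => t_mem hB (hFS r.2).1 hj)
          (fun r => openIn_le (low j) (hB.anti (bs_sub hd hj)) r.1)
          (fun r q hq => ((hFS r.2).2.1 j hj hjc).tle hd hB hj (hFS r.2).1 hq.1 hq.2)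
          (fun r r' q hq hq' => hdis r r' q hq.1 hq.2 hq'.2)
        exact ⟨s, by rw [hs]; exact hsT, a₁, fun r q hq h => a₂ r q ⟨hq, h⟩⟩
    obtain ⟨hnull, s, hs, a₁, a₂⟩ := key
    refine ⟨⟨(p j).s, (p j).E ∪ ⋃ r : F, (r.1 j).E, s⟩,
      ⟨(hp.1 j hj).1, union_subset (hp.1 j hj).2.1 hPt,
        (hB j hj).null_union _ _ (hp.1 j hj).2.2.1 hnull, hs⟩, rfl, subset_union_left, a₁,
      fun r hr => ⟨?_, a₂ ⟨r, hr⟩⟩⟩
    exact (subset_iUnion (fun r : F => (r.1 j).E) ⟨r, hr⟩).trans subset_union_right)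
  refine ⟨p', hp', ⟨h₁, fun j hj hjc => ⟨(h₂ j hj hjc).1, (h₂ j hj hjc).2.1,
    (h₂ j hj hjc).2.2.1⟩⟩, fun l hl hll => ?_⟩
  obtain ⟨r, hr, a₁, a₂, a₃⟩ := dense l hl hll
  obtain ⟨r', hr', q, hq, b₁, b₂⟩ := hmax r ⟨hr, a₂, a₃⟩
  have hg : glue c q p' ∈ Low D d := glue_mem' hq hcd hp'
  refine ⟨q, hq, Le.trans' hd hB hc hcd hr (Low_mono hB hcd hq) b₁ a₁,
    hΦ r' (hFS hr').1 _ hg ?_ (hFS hr').2.2⟩
  refine le_of_mix (e := c) hd hg (fun j _ hjc => (le_glue_left hc Subset.rfl).2 b₂ j hjc)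
    (fun j hj hjc => ?_)
  rw [glue_of_notMem hjc]
  obtain ⟨e₁, -, -, e₂⟩ := h₂ j hj hjc
  exact ⟨e₁.trans ((hFS hr').2.1 j hj hjc).1.symm, (e₂ r' hr').1, (e₂ r' hr').2⟩

end Pool.Agent.MP_a2558b_lc

end

section

namespace Pool.Agent.MP_a2558b_lc

open Cardinal hiding univ
open Set Base

universe u

variable {J Ω : Type u} [Inhabited Ω] [LinearOrder J] [WellFoundedLT J] [Base J] {D : Sys J Ω}
  {c d : Set J}

open Classical in
/-- The condition with lower part `l`, value `v` at `j` and upper part `p`. -/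
noncomputable def segC (j : J) (l p : Cnd J Ω) (v : Vl Ω) : Cnd J Ω :=
  glue (Iio j) l (Function.update p j v)

omit [Inhabited Ω] [WellFoundedLT J] [Base J] in
theorem segC_self (j : J) (l p : Cnd J Ω) (v : Vl Ω) : segC j l p v j = v := by
  classical
  unfold segC
  rw [glue_of_notMem (c := Iio j) (lt_irrefl j)]
  convert Function.update_self j v p

omit [Inhabited Ω] [WellFoundedLT J] [Base J] in
theorem segC_lt {i j : J} (h : i < j) (l p : Cnd J Ω) (v : Vl Ω) : segC j l p v i = l i :=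
  glue_of_mem h

omit [Inhabited Ω] [WellFoundedLT J] [Base J] in
theorem segC_gt {i j : J} (h : j < i) (l p : Cnd J Ω) (v : Vl Ω) : segC j l p v i = p i := by
  classical
  unfold segC
  rw [glue_of_notMem (c := Iio j) (not_lt.2 h.le)]
  convert Function.update_of_ne (ne_of_gt h) v p

omit [Inhabited Ω] [WellFoundedLT J] [Base J] in
theorem segC_ne {i j : J} (h : i ≠ j) (l p : Cnd J Ω) (v w : Vl Ω) :
    segC j l p v i = segC j l p w i := by
  rcases lt_or_gt_of_ne h with h | h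
  · rw [segC_lt h, segC_lt h]
  · rw [segC_gt h, segC_gt h]

omit [WellFoundedLT J] in
theorem segC_mem (hd : IsLowerSet d) {j : J} (hj : j ∈ d) {l p : Cnd J Ω}
    (hl : l ∈ Low D (Iio j)) (hp : p ∈ Low D d) {v : Vl Ω} (hv : OkAt D j v) :
    segC j l p v ∈ Low D d :=
  glue_mem' hl (fun _ hi => hd (le_of_lt hi) hj) (update_mem hp hj hv)

/-- The point `a` at `j` decides the value `x` over the lower part `l` using the term `t`. -/
def segGood (D : Sys J Ω) {Z : Type u} (dec : Cnd J Ω → Z → Prop) (p : Cnd J Ω) (j : J)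
    (l : Cnd J Ω) (x : Z) (a t : Ω) : Prop :=
  ∃ E, OkAt D j ⟨some a, E, t⟩ ∧ (D j).le t (p j).t (res (bs j) l) ∧
    dec (segC j l p ⟨some a, E, t⟩) x

/-- The points at `j` that decide some value over the lower part `l`. -/
def segBad (D : Sys J Ω) {Z : Type u} (dec : Cnd J Ω → Z → Prop) (p : Cnd J Ω) (j : J)
    (l : Cnd J Ω) : Set Ω :=
  {a | a ∈ (D j).Pt ∧ ∃ x t, segGood D dec p j l x a t}

omit [WellFoundedLT J] in
/-- If many points decide a value then a condition without a point decides a value. -/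
theorem seg_remove (hd : IsLowerSet d) (hB : BasicOn D d) {Z : Type u}
    {dec : Cnd J Ω → Z → Prop} (hn : IsNm (Low D d) (Le D d) dec) {j : J} (hj : j ∈ d)
    (h₀ : (D j).Comp #Z) {p l : Cnd J Ω} (hp : p ∈ Low D d) (hl : l ∈ Low D (Iio j))
    (hbad : ¬ (D j).null (segBad D dec p j l)) :
    ∃ E t x, OkAt D j ⟨none, E, t⟩ ∧ (D j).le t (p j).t (res (bs j) l) ∧
      dec (segC j l p ⟨none, E, t⟩) x := by
  classical
  have hb := hB j hj
  obtain ⟨x, hx⟩ := h₀.exists_pos hb le_rfl hbad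
    (fun x => {a | a ∈ (D j).Pt ∧ ∃ t, segGood D dec p j l x a t})
    (fun a ha => by obtain ⟨h, x, t, ht⟩ := ha; exact ⟨x, h, t, ht⟩)
  have hf : ∀ a, ∃ t, (∃ t, segGood D dec p j l x a t) → segGood D dec p j l x a t := by
    intro a
    by_cases h : ∃ t, segGood D dec p j l x a t
    · obtain ⟨t, ht⟩ := h; exact ⟨t, fun _ => ht⟩
    · exact ⟨default, fun h' => absurd h' h⟩
  choose f hf using hf
  obtain ⟨t, ht⟩ := hb.normal _ f (fun a ha => ha.1) hx (fun a ha => by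
    obtain ⟨E, h, -⟩ := hf a ha.2
    exact h.2.2.2)
  set A : Set Ω := {a ∈ {a | a ∈ (D j).Pt ∧ ∃ t, segGood D dec p j l x a t} | f a = t} with hA
  have hAP : A ⊆ (D j).Pt := fun a ha => ha.1.1
  have hAg : ∀ a ∈ A, segGood D dec p j l x a t := fun a ha => ha.2 ▸ hf a ha.1.2
  obtain ⟨a0, ha0⟩ : A.Nonempty := by
    rw [nonempty_iff_ne_empty]
    intro h
    exact ht (h ▸ hb.null_empty)
  obtain ⟨E0, h1, h2, -⟩ := hAg a0 ha0
  have htT : t ∈ (D j).T := hb.y_sub a0 (hAP ha0) h1.2.2.2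
  have hok : OkAt D j ⟨none, (D j).Pt \ A, t⟩ :=
    ⟨fun a h => by simp at h, sdiff_subset, hb.null_diff ht, htT⟩
  refine ⟨(D j).Pt \ A, t, x, hok, h2, hn.reg _ (segC_mem hd hj hl hp hok) x ?_⟩
  intro q hq hle
  obtain ⟨q1, hq1, hle1, b, hb1⟩ : ∃ q1 ∈ Low D d, Le D d q1 q ∧ ∃ b, (q1 j).s = some b := by
    cases e : (q j).s with
    | some b => exact ⟨q, hq, Le.refl hd hB hq, b, e⟩
    | none =>
      obtain ⟨b, hbA, hbE, hbt⟩ := hb.exists_pt hAP ht (hq.1 j hj).2.2.1 (t_mem hB hq hj)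
      obtain ⟨h, h'⟩ := add_pt hd hB hq hj e (hAP hbA) hbE hbt
      exact ⟨_, h, h', b, by rw [Function.update_self]⟩
  have hle2 := Le.trans hd hB hq hq1 hle1 hle
  have hbA : b ∈ A := by
    by_contra h
    refine (hle2 j hj).2.1 b (by rw [segC_self]) hb1 ?_
    rw [segC_self]
    exact ⟨(hq1.1 j hj).1 b hb1, h⟩
  obtain ⟨E, h3, -, h4⟩ := hAg b hbA
  have hw := segC_mem hd hj hl hp h3
  have hq2 := addE_mem hB hq1 hw
  have hle3 := addE_le hd hB hq1 hw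
  have hle4 := Le.trans hd hB hq1 hq2 hle3 hle2
  refine ⟨_, hq2, Le.trans hd hB hq1 hq2 hle3 hle1, hn.mono _ hw _ hq2 ?_ x h4⟩
  intro i hi
  by_cases e : i = j
  · subst e
    refine (dirAt_of ?_ subset_union_right ?_).2
    · rw [segC_self]; exact hb1
    · have := (hle4 i hi).2.2.2
      rw [segC_self] at this ⊢
      exact this
  · exact (leAt_congr rfl (fun _ _ => rfl) (segC_ne e l p _ _)).1 (hle4 i hi)

omit [WellFoundedLT J] in
/-- Removing the largest new point of a deciding condition. -/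
theorem seg_step (hc : IsLowerSet c) (hd : IsLowerSet d) (hB : BasicOn D d) {Z : Type u}
    {dec : Cnd J Ω → Z → Prop} (hn : IsNm (Low D d) (Le D d) dec)
    (h₀ : ∀ j ∈ d, j ∉ c → (D j).Comp #Z) {p' p'' : Cnd J Ω} (hp' : p' ∈ Low D d)
    (hp'' : p'' ∈ Low D d) (hs : ∀ j, (p'' j).s = (p' j).s) (ht : ∀ j, (p'' j).t = (p' j).t)
    (hE : ∀ j, (p' j).E ⊆ (p'' j).E)
    (hbad : ∀ j ∈ d, j ∉ c → ∀ l ∈ Low D (Iio j), (D j).null (segBad D dec p' j l) →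
      segBad D dec p' j l ⊆ (p'' j).E)
    (hred : ∀ j ∈ d, j ∉ c → ∀ x, ∀ r ∈ Low D d, (∀ i ∈ d, j < i → DirAt D i r p') → dec r x →
      ∃ l ∈ Low D (Iic j), strip l = strip (res (Iic j) r) ∧ Le D (Iic j) l r ∧
        dec (glue (Iic j) l p') x)
    {r : Cnd J Ω} (hr : r ∈ Low D d) (hle : ∀ i ∈ d, i ∉ c → LeAt D i r p'') {x : Z}
    (hx : dec r x) {j : J} (hj : j ∈ d) (hjc : j ∉ c) (hne : (r j).s ≠ (p'' j).s)
    (hmax : ∀ i ∈ d, j < i → (r i).s = (p'' i).s) :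
    ∃ r' ∈ Low D d, Le D c r' r ∧ (∀ i ∈ d, i ∉ c → LeAt D i r' p'') ∧ (∃ x, dec r' x) ∧
      ∀ i ∈ d, j ≤ i → (r' i).s = (p'' i).s := by
  have hcj : c ⊆ Iio j := fun i hi => lt_of_not_ge fun h => hjc (hc h hi)
  have hjd : Iic j ⊆ d := fun i hi => hd hi hj
  have hjd' : Iio j ⊆ d := fun i hi => hd (le_of_lt hi) hj
  have hT : ∀ i ∈ d, TDir D i p'' p' := fun i hi => ⟨hs i, hE i, by
    rw [ht i]
    exact (hB i hi).refl _ (t_mem hB hp' hi) _ (ctop_mem (hB.anti (bs_sub hd hi)))⟩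
  have hnone : (p'' j).s = none := by
    cases e : (p'' j).s with
    | none => rfl
    | some b => exact absurd (((hle j hj hjc).1 b e).trans e.symm) hne
  obtain ⟨a, ha⟩ : ∃ a, (r j).s = some a := by
    cases e : (r j).s with
    | none => exact absurd (e.trans hnone.symm) hne
    | some b => exact ⟨b, rfl⟩
  have haE : a ∉ (p'' j).E := (hle j hj hjc).2.1 a hnone ha
  obtain ⟨l0, hl0, hst, hl0r, hdec⟩ := hred j hj hjc x r hr (fun i hi hji =>
    ⟨(hmax i hi hji).trans (hs i), (hle i hi fun h => hjc (hc hji.le h)).trans_tdir hd hB hi hr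
      (hT i hi)⟩) hx
  have hl0d : l0 ∈ Low D d := Low_mono hB hjd hl0
  have hl : res (Iio j) l0 ∈ Low D (Iio j) := res_mem hl0 Iio_subset_Iic_self
  have hl0s : (l0 j).s = some a := by
    have := (strip_eq_iff.1 hst j).1
    rw [res_of_mem (mem_Iic.2 le_rfl)] at this
    exact this.trans ha
  have hl0j : l0 j = ⟨some a, (l0 j).E, (l0 j).t⟩ := by rw [← hl0s]
  have hab : a ∈ segBad D dec p' j (res (Iio j) l0) := by
    refine ⟨(hr.1 j hj).1 a ha, x, (l0 j).t, (l0 j).E, ?_, ?_, ?_⟩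
    · rw [← hl0j]; exact hl0d.1 j hj
    · rw [res_res (sub j)]
      exact (LeAt.trans hd hB hj hr hl0d (hl0r.anti ((sub j).trans Iio_subset_Iic_self))
        (hl0r j (mem_Iic.2 le_rfl)) ((hle j hj hjc).trans_tdir hd hB hj hr (hT j hj))).2.2.2
    · rw [← hl0j]
      convert hdec using 1
      funext i
      rcases lt_trichotomy i j with h | h | h
      · rw [segC_lt h, res_of_mem (mem_Iio.2 h), glue_of_mem (mem_Iic.2 h.le)]
      · rw [h, segC_self, glue_of_mem (mem_Iic.2 le_rfl)]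
      · rw [segC_gt h, glue_of_notMem (c := Iic j) (not_le.2 h)]
  obtain ⟨E, t, x', hok, hlt, hdec'⟩ := seg_remove hd hB hn hj (h₀ j hj hjc) hp' hl
    (fun h => haE (hbad j hj hjc _ hl h hab))
  have h3 := segC_mem hd hj hl hp' hok
  have h4 := addE_mem hB h3 hp''
  have h43 := addE_le hd hB h3 hp''
  have h4l : Le D (Iio j) (addE (segC j (res (Iio j) l0) p' ⟨none, E, t⟩) p'') l0 :=
    (le_congr (isLowerSet_Iio j) (fun _ _ => rfl) fun i hi => by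
      rw [segC_lt hi, res_of_mem hi]).1 (h43.anti hjd')
  have h4r : Le D (Iio j) (addE (segC j (res (Iio j) l0) p' ⟨none, E, t⟩) p'') r :=
    Le.trans' hd hB (isLowerSet_Iio j) hjd' hl0d h4 h4l (hl0r.anti Iio_subset_Iic_self)
  have hdir : ∀ i ∈ d, j ≤ i → DirAt D i (addE (segC j (res (Iio j) l0) p' ⟨none, E, t⟩) p'') p'' := by
    intro i hi hji
    rcases hji.eq_or_lt with e | h
    · subst e
      refine dirAt_of ?_ subset_union_right ?_
      · change (segC j (res (Iio j) l0) p' ⟨none, E, t⟩ j).s = _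
        rw [segC_self, hnone]
      · change (D j).le (segC j (res (Iio j) l0) p' ⟨none, E, t⟩ j).t _ _
        rw [segC_self, ht j]
        rw [res_res (sub j)] at hlt
        exact tle_mono hd hB hj hl0d h4 (h4l.anti (sub j)) hlt
    · exact dirAt_addE hd hB h3 hp'' hi (by rw [segC_gt h, hs i]) (by rw [segC_gt h, ht i])
        subset_union_right
  refine ⟨_, h4, h4r.anti hcj, fun i hi hic => ?_, ⟨x', hn.mono _ h3 _ h4 h43 x' hdec'⟩,
    fun i hi hji => (hdir i hi hji).1⟩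
  rcases lt_or_ge i j with h | h
  · exact LeAt.trans hd hB hi hr h4 (h4r.anti ((sub i).trans (Iio_subset_Iio h.le))) (h4r i h)
      (hle i hi hic)
  · exact (hdir i hi h).2

/-- Removing all new points of a deciding condition. -/
theorem seg_claim (hc : IsLowerSet c) (hd : IsLowerSet d) (hcd : c ⊆ d) (hB : BasicOn D d)
    {Φ : Cnd J Ω → Prop} {p'' : Cnd J Ω}
    (step : ∀ r ∈ Low D d, (∀ i ∈ d, i ∉ c → LeAt D i r p'') → Φ r → ∀ j ∈ d, j ∉ c →
      (r j).s ≠ (p'' j).s → (∀ i ∈ d, j < i → (r i).s = (p'' i).s) →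
      ∃ r' ∈ Low D d, Le D c r' r ∧ (∀ i ∈ d, i ∉ c → LeAt D i r' p'') ∧ Φ r' ∧
        ∀ i ∈ d, j ≤ i → (r' i).s = (p'' i).s)
    {r : Cnd J Ω} (hr : r ∈ Low D d) (hle : ∀ i ∈ d, i ∉ c → LeAt D i r p'') (hx : Φ r) :
    ∃ r' ∈ Low D d, Le D c r' r ∧ (∀ i ∈ d, i ∉ c → DirAt D i r' p'') ∧ Φ r' := by
  have aux : ∀ r ∈ Low D d, (∀ i ∈ d, i ∉ c → LeAt D i r p'') → Φ r →
      (∃ r' ∈ Low D d, Le D c r' r ∧ (∀ i ∈ d, i ∉ c → DirAt D i r' p'') ∧ Φ r') ∨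
      ∃ j ∈ d, (r j).s ≠ (p'' j).s ∧ ∃ r' ∈ Low D d, Le D c r' r ∧
        (∀ i ∈ d, i ∉ c → LeAt D i r' p'') ∧ Φ r' ∧ ∀ i ∈ d, j ≤ i → (r' i).s = (p'' i).s := by
    intro r hr hle hx
    by_cases hX : {j | j ∈ d ∧ j ∉ c ∧ (r j).s ≠ (p'' j).s}.Nonempty
    · have hfin : {j | j ∈ d ∧ j ∉ c ∧ (r j).s ≠ (p'' j).s}.Finite := by
        refine hr.2.2.subset fun j hj h => ?_
        cases e : (p'' j).s with
        | none => exact hj.2.2 (h.trans e.symm)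
        | some b =>
          have := (hle j hj.1 hj.2.1).1 b e
          rw [h] at this
          simp at this
      obtain ⟨j, hj, hmax⟩ := exists_max_image _ id hfin hX
      refine Or.inr ⟨j, hj.1, hj.2.2, step r hr hle hx j hj.1 hj.2.1 hj.2.2 fun i hi hji => ?_⟩
      by_contra h
      exact absurd (hmax i ⟨hi, fun h' => hj.2.1 (hc hji.le h'), h⟩) (not_le.2 hji)
    · refine Or.inl ⟨r, hr, (Le.refl hd hB hr).anti hcd, fun i hi hic => ⟨?_, hle i hi hic⟩, hx⟩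
      by_contra h
      exact hX ⟨i, hi, hic, h⟩
  have main : ∀ j, ∀ r ∈ Low D d, (∀ i ∈ d, i ∉ c → LeAt D i r p'') → Φ r →
      (∀ i ∈ d, j ≤ i → (r i).s = (p'' i).s) →
      ∃ r' ∈ Low D d, Le D c r' r ∧ (∀ i ∈ d, i ∉ c → DirAt D i r' p'') ∧ Φ r' := by
    intro j
    induction j using WellFoundedLT.induction with
    | _ j ih =>
    intro r hr hle hx hj
    rcases aux r hr hle hx with h | ⟨j', hj', hne, r', hr', h1, h2, h3, h4⟩
    · exact h
    · obtain ⟨r'', hr'', h5, h6⟩ :=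
        ih j' (lt_of_not_ge fun h => hne (hj j' hj' h)) r' hr' h2 h3 h4
      exact ⟨r'', hr'', Le.trans' hd hB hc hcd hr' hr'' h5 h1, h6⟩
  rcases aux r hr hle hx with h | ⟨j', -, -, r', hr', h1, h2, h3, h4⟩
  · exact h
  · obtain ⟨r'', hr'', h5, h6⟩ := main j' r' hr' h2 h3 h4
    exact ⟨r'', hr'', Le.trans' hd hB hc hcd hr' hr'' h5 h1, h6⟩

/-- The Prikry property of a segment whose orders depend only on the coordinates below it. -/
theorem seg_tail (hc : IsLowerSet c) (hd : IsLowerSet d) (hcd : c ⊆ d) (hB : BasicOn D d)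
    (hbs : ∀ j ∈ d, j ∉ c → bs j = c) {Z : Type u} [Nonempty Z] (dec : Cnd J Ω → Z → Prop)
    (hn : IsNm (Low D d) (Le D d) dec)
    (h₀ : ∀ j ∈ d, j ∉ c → (D j).Comp #Z)
    (h₁ : ∀ j ∈ d, j ∉ c → (D j).Comp #(Low D (Iio j)))
    (h₂ : ∀ j ∈ d, j ∉ c → Cl D j
      #{w : J × Cnd J Ω | w.1 ∈ d ∧ w.1 ∉ c ∧ w.1 < j ∧ w.2 ∈ Keys D (Iic w.1)})
    (h₃ : ∀ j ∈ d, j ∉ c → Cl D j #(Low D c))
    {p : Cnd J Ω} (hp : p ∈ Low D d) :
    ∃ p' ∈ Low D d, TExt D c d p' p ∧ ∀ l ∈ Low D c, Le D c l p →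
      ∃ l' ∈ Low D c, Le D c l' l ∧ ∃ x, dec (glue c l' p') x := by
  classical
  obtain ⟨p', hp', hext, val, hval⟩ := reduce (c := c) (A := {j : J // j ∈ d ∧ j ∉ c})
    (ι := PUnit.{u + 1}) hd hB (fun a => Iic a.1) (fun a => isLowerSet_Iic a.1)
    (fun a i hi => le_of_not_gt fun h => a.2.2 (hc h.le hi)) (fun a i hi => hd hi a.2.1)
    (fun _ _ => True) (fun _ => dec) (fun _ => hn) (fun j hj hjc => (h₂ j hj hjc).anti (by
      refine mk_le_of_injective (f := fun w => ⟨(w.1.1.1, w.1.2.1),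
        w.1.1.2.1, w.1.1.2.2, not_le.1 w.2.1, w.2.2.1⟩) ?_
      rintro ⟨⟨⟨a, ha⟩, q, i⟩, h⟩ ⟨⟨⟨a', ha'⟩, q', i'⟩, h'⟩ e
      simp only [Subtype.mk.injEq, Prod.mk.injEq] at e ⊢
      exact ⟨e.1, e.2, trivial⟩)) hp
  let N : J → Set Ω := fun j => if j ∈ d ∧ j ∉ c then
    ⋃ l : {l : Cnd J Ω // l ∈ Low D (Iio j) ∧ (D j).null (segBad D dec p' j l)},
      segBad D dec p' j l.1 else ∅
  have hN : ∀ j ∈ d, N j ⊆ (D j).Pt ∧ (D j).null (N j) := by
    intro j hj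
    by_cases hjc : j ∈ c
    · have : N j = ∅ := if_neg fun h => h.2 hjc
      rw [this]
      exact ⟨empty_subset _, (hB j hj).null_empty⟩
    · have : N j = _ := if_pos ⟨hj, hjc⟩
      rw [this]
      refine ⟨iUnion_subset fun l a ha => ha.1, h₁ j hj hjc _ _ ?_ fun l => l.2.2⟩
      exact mk_le_of_injective (f := fun l => ⟨l.1, l.2.1⟩) fun l l' e =>
        Subtype.ext (Subtype.mk.inj e)
  let p'' : Cnd J Ω := fun j => ⟨(p' j).s, (p' j).E ∪ N j, (p' j).t⟩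
  have hN' : ∀ j, ¬ (j ∈ d ∧ j ∉ c) → p'' j = p' j := by
    intro j hj
    have : N j = ∅ := if_neg hj
    simp only [p'', this, union_empty]
  have hp'' : p'' ∈ Low D d := by
    refine ⟨fun j hj => ⟨(hp'.1 j hj).1, union_subset (hp'.1 j hj).2.1 (hN j hj).1,
      (hB j hj).null_union _ _ (hp'.1 j hj).2.2.1 (hN j hj).2, (hp'.1 j hj).2.2.2⟩,
      fun j hj => ?_, hp'.2.2⟩
    rw [hN' j fun h => hj h.1]
    exact hp'.2.1 j hj
  have hext' : TExt D c d p'' p' :=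
    ⟨fun j hj => hN' j fun h => h.2 hj, fun j hj _ => ⟨rfl, subset_union_left,
      (hB j hj).refl _ (t_mem hB hp' hj) _ (ctop_mem (hB.anti (bs_sub hd hj)))⟩⟩
  have hbad : ∀ j ∈ d, j ∉ c → ∀ l ∈ Low D (Iio j), (D j).null (segBad D dec p' j l) →
      segBad D dec p' j l ⊆ (p'' j).E := by
    intro j hj hjc l hl h a ha
    have : N j = _ := if_pos ⟨hj, hjc⟩
    refine Or.inr ?_
    rw [this]
    exact mem_iUnion.2 ⟨⟨l, hl, h⟩, ha⟩
  obtain ⟨q, hq, hqe, hfin⟩ := full_mix hc hd hcd hB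
    (fun j hj hjc => ⟨(hbs j hj hjc).ge, Or.inl (h₃ j hj hjc)⟩) (fun r => ∃ x, dec r x)
    (fun r hr r' hr' h ⟨x, hx⟩ => ⟨x, hn.mono r hr r' hr' h x hx⟩) hp'' p (by
      intro l hl _
      have hg := glue_mem' hl hcd hp''
      obtain ⟨r, hr, hrg, hx⟩ := hn.dense _ hg
      obtain ⟨r', hr', h1, h2⟩ := seg_claim hc hd hcd hB (Φ := fun r => ∃ x, dec r x) (p'' := p'')
        (fun r hr hle ⟨x, hx⟩ j hj hjc hne hmax => seg_step hc hd hB hn h₀ hp' hp''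
          (fun _ => rfl) (fun _ => rfl) (fun _ => subset_union_left) hbad
          (fun j hj hjc x r hr h hx => (hval ⟨j, hj, hjc⟩ PUnit.unit x trivial r hr
            (fun i hi hji => h i hi (not_le.1 hji)) hx).2) hr hle hx hj hjc hne hmax) hr
        (fun i hi hic => (leAt_congr rfl (fun _ _ => rfl) (glue_of_notMem hic)).1 (hrg i hi)) hx
      exact ⟨r', hr', Le.trans' hd hB hc hcd hr hr' h1
        ((le_glue_right hc Subset.rfl).1 (hrg.anti hcd)), h2⟩)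
  exact ⟨q, hq, hqe.trans hd hB (hext'.trans hd hB hext), hfin⟩

end Pool.Agent.MP_a2558b_lc

end

section

namespace Pool.Agent.MP_a2558b_lc

open Cardinal hiding univ
open Set Base

universe u

section Idx

variable {Θ : Type u}

theorem JJ_cases (j : JJ Θ) : (∃ β i, j = pt β i) ∨ ∃ β, j = cc β := by
  obtain ⟨β, i⟩ := j
  induction i using WithTop.recTopCoe with
  | top => exact Or.inr ⟨β, rfl⟩
  | coe i => exact Or.inl ⟨β, i, rfl⟩

@[simp] theorem pt_mem_lev {β i : Θ} {A : Set Θ} : pt β i ∈ lev A ↔ β ∈ A := Iff.rfl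

@[simp] theorem cc_mem_lev {β : Θ} {A : Set Θ} : cc β ∈ lev A ↔ β ∈ A := Iff.rfl

theorem lev_mono {A B : Set Θ} (h : A ⊆ B) : lev A ⊆ lev B := fun _ hj => h hj

@[simp] theorem lev_univ : lev (univ : Set Θ) = univ := rfl

@[simp] theorem lev_empty : lev (∅ : Set Θ) = ∅ := rfl

theorem pt_inj {β i γ i' : Θ} : pt β i = pt γ i' ↔ β = γ ∧ i = i' := by
  simp [pt]

theorem cc_inj {β γ : Θ} : cc β = cc γ ↔ β = γ := by
  simp [cc]

theorem pt_ne_cc {β i γ : Θ} : pt β i ≠ cc γ := by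
  simp [pt, cc]

variable [LinearOrder Θ] {β γ i i' : Θ} {j : JJ Θ}

theorem bs_pt (β i : Θ) : bs (pt β i) = lev (Iio β) := if_neg (by simp [pt])

theorem bs_cc (β : Θ) : bs (cc β) = levC β := if_pos rfl

theorem pt_lt_pt : pt β i < pt γ i' ↔ β < γ ∨ (β = γ ∧ i < i') := by
  simp [pt, Prod.Lex.lt_iff]

theorem pt_le_pt : pt β i ≤ pt γ i' ↔ β < γ ∨ (β = γ ∧ i ≤ i') := by
  simp [pt, Prod.Lex.le_iff]

theorem pt_lt_cc : pt β i < cc γ ↔ β ≤ γ := by
  simp [pt, cc, Prod.Lex.lt_iff, le_iff_lt_or_eq]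

theorem cc_lt_pt : cc β < pt γ i ↔ β < γ := by
  simp [pt, cc, Prod.Lex.lt_iff]

theorem cc_le_pt : cc β ≤ pt γ i ↔ β < γ := by
  simp [pt, cc, Prod.Lex.le_iff]

theorem cc_lt_cc : cc β < cc γ ↔ β < γ := by
  simp [cc, Prod.Lex.lt_iff]

@[simp] theorem pt_mem_levC : pt β i ∈ levC γ ↔ β ≤ γ := pt_lt_cc

@[simp] theorem cc_mem_levC : cc β ∈ levC γ ↔ β < γ := cc_lt_cc

theorem levC_lower (β : Θ) : IsLowerSet (levC β) := isLowerSet_Iio _

theorem levIio_lower (β : Θ) : IsLowerSet (lev (Iio β)) := lev_lower (isLowerSet_Iio β)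

theorem levIic_lower (β : Θ) : IsLowerSet (lev (Iic β)) := lev_lower (isLowerSet_Iic β)

theorem mem_levC : j ∈ levC β ↔ j ∈ lev (Iio β) ∨ ∃ i, j = pt β i := by
  rcases JJ_cases j with ⟨γ, i, rfl⟩ | ⟨γ, rfl⟩
  · simp [pt_inj, le_iff_lt_or_eq]
  · simp [pt_ne_cc.symm]

theorem mem_levIic : j ∈ lev (Iic β) ↔ j ∈ levC β ∨ j = cc β := by
  rcases JJ_cases j with ⟨γ, i, rfl⟩ | ⟨γ, rfl⟩
  · simp [pt_ne_cc]
  · simp [cc_inj, le_iff_lt_or_eq]

theorem levIio_sub_levC (β : Θ) : lev (Iio β) ⊆ levC β := fun _ h => mem_levC.2 (Or.inl h)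

theorem levC_sub_levIic (β : Θ) : levC β ⊆ lev (Iic β) := fun _ h => mem_levIic.2 (Or.inl h)

theorem levIio_sub_Iio (β i : Θ) : lev (Iio β) ⊆ Iio (pt β i) := bs_pt β i ▸ sub _

theorem Iic_pt_sub_levC (β i : Θ) : Iic (pt β i) ⊆ levC β :=
  fun _ h => lt_of_le_of_lt (mem_Iic.1 h) (pt_lt_cc.2 le_rfl)

theorem levIic_sub_levIio (h : β < γ) : lev (Iic β) ⊆ lev (Iio γ) :=
  lev_mono fun _ hx => lt_of_le_of_lt hx h

theorem levIio_sub_bs : lev (Iio (ofLex j).1) ⊆ bs j := by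
  rcases JJ_cases j with ⟨γ, i, rfl⟩ | ⟨γ, rfl⟩
  · rw [bs_pt]; exact Subset.rfl
  · rw [bs_cc]; exact levIio_sub_levC γ

end Idx

variable {Θ Ω : Type u} [LinearOrder Θ] [LinearOrder Ω] [Inhabited Ω] {X : Ctx Θ Ω}
  {D : Sys (JJ Θ) Ω} {β γ : Θ} {k : Θ → Cardinal.{u}} {A : Set Θ}

theorem Valid.anti {B : Set Θ} (h : Valid X D A) (hB : B ⊆ A) : Valid X D B :=
  fun β hβ => h β (hB hβ)

theorem basicOn_lev (hV : Valid X D A) : BasicOn D (lev A) := by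
  intro j hj
  rcases JJ_cases j with ⟨γ, i, rfl⟩ | ⟨γ, rfl⟩
  · obtain ⟨k, hk⟩ := hV γ hj
    rw [bs_pt]; exact hk.1.basic i
  · obtain ⟨k, hk⟩ := hV γ hj
    rw [bs_cc]; exact hk.2.basic

theorem basicOn_univ (hV : Valid X D univ) : BasicOn D univ := basicOn_lev hV

theorem basicOn_levC (hV : Valid X D (Iio β)) (hk : NOK X D β k) : BasicOn D (levC β) := by
  intro j hj
  rcases mem_levC.1 hj with h | ⟨i, rfl⟩
  · exact basicOn_lev hV j h
  · rw [bs_pt]; exact hk.basic i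

theorem cl_pt (hk : NOK X D β k) (i : Θ) : Cl D (pt β i) (clo X D β k i) := by
  refine ⟨hk.comp i, ?_⟩
  rw [bs_pt]; exact hk.ndc i

theorem cl_cc (hk : LevelOK X D β k) : Cl D (cc β) (X.lb β) := by
  refine ⟨fun _ _ _ _ => hk.2.null_all _, ?_⟩
  rw [bs_cc]; exact hk.2.ndc

theorem low_le_clo (i : Θ) : #(Low D (lev (Iio β))) ≤ clo X D β k i :=
  le_self_add.trans le_self_add

theorem mu_le_clo (i : Θ) : Order.succ (X.lb β) ≤ clo X D β k i := le_add_self.trans le_self_add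

theorem k_le_clo {i i' : Θ} (h : i' < i) : k i' ≤ clo X D β k i :=
  (Cardinal.le_sum (fun i' : Iio i => k i') ⟨i', h⟩).trans le_add_self

theorem cl_lb (hV : Valid X D A) {j : JJ Θ} (hj : j ∈ lev A) : Cl D j (X.lb (ofLex j).1) := by
  rcases JJ_cases j with ⟨γ, i, rfl⟩ | ⟨γ, rfl⟩
  · obtain ⟨k, hk⟩ := hV γ hj
    exact (cl_pt hk.1 i).anti ((Order.le_succ _).trans (mu_le_clo i))
  · obtain ⟨k, hk⟩ := hV γ hj
    exact cl_cc hk

namespace Ctx

variable (X)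

omit [Inhabited Ω]

theorem aleph1_le_lb (β : Θ) : ℵ₁ ≤ X.lb β := X.lb_eq β ▸ le_self_add

theorem aleph0_le_lb (β : Θ) : ℵ₀ ≤ X.lb β := aleph0_lt_aleph_one.le.trans (X.aleph1_le_lb β)

theorem κ_le_lb (h : β < γ) : X.κ β ≤ X.lb γ :=
  X.lb_eq γ ▸ (Cardinal.le_sum (fun γ' : Iio γ => X.κ γ') ⟨β, h⟩).trans le_add_self

theorem lb_lt' (β : Θ) : X.lb β < X.κ β := (Order.le_succ _).trans_lt (X.lb_lt β)

theorem aleph0_lt_κ (β : Θ) : ℵ₀ < X.κ β := (X.aleph0_le_lb β).trans_lt (X.lb_lt' β)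

theorem lb_mono (h : β ≤ γ) : X.lb β ≤ X.lb γ := by
  rcases h.eq_or_lt with rfl | h
  exacts [le_rfl, (X.lb_lt' β).le.trans (X.κ_le_lb h)]

theorem κ_le_sum (β : Θ) : X.κ β ≤ sum X.κ := Cardinal.le_sum _ _

include X in
theorem exists_gt (β : Θ) : ∃ γ, β < γ := by
  by_contra h
  push Not at h
  have := X.unc
  refine Set.not_countable_univ (α := Θ) (((X.ct β).insert β).mono fun x _ => ?_)
  exact (h x).eq_or_lt

include X in
theorem exists_bound {s : Set Θ} (hs : s.Countable) : ∃ γ, ∀ x ∈ s, x < γ := by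
  by_contra h
  push Not at h
  have := X.unc
  refine Set.not_countable_univ (α := Θ)
    ((hs.biUnion fun x _ => (X.ct x).insert x).mono fun γ _ => ?_)
  obtain ⟨x, hx, h⟩ := h γ
  exact mem_biUnion hx h.eq_or_lt

theorem kap_mono (h : β ≤ γ) : X.kap β ≤ X.kap γ := by
  rcases h.eq_or_lt with rfl | h
  exacts [le_rfl, ((X.kap_mu _ _ h).trans (X.mu_kap γ)).le]

end Ctx

end Pool.Agent.MP_a2558b_lc

end

section

namespace Pool.Agent.MP_a2558b_lc

open Cardinal hiding univ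
open Set Base

universe u

/-- A normal fine measure on the small subsets of `Y`. -/
structure SCM (κ : Cardinal.{u}) (Y : Type u) where
  U : Ultrafilter (Set Y)
  unc : ℵ₀ < κ
  comp : CardinalInterFilter (U : Filter (Set Y)) κ
  small : ∀ᶠ x : Set Y in U, #x < κ
  fine : ∀ y, ∀ᶠ x : Set Y in U, y ∈ x
  normal : ∀ f : Set Y → Y, (∀ᶠ x : Set Y in U, f x ∈ x) → ∃ y, ∀ᶠ x : Set Y in U, f x = y

theorem Supercompact.scm {κ : Cardinal.{u}} (h : Supercompact κ) (Y : Type u) :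
    Nonempty (SCM κ Y) := by
  obtain ⟨U, h₁, h₂, h₃, h₄⟩ := h.2 Y
  exact ⟨⟨U, h.1, h₁, h₂, h₃, h₄⟩⟩

/-- The trace of `A` on `x` along `e`. -/
def cut {α Y : Type u} (e : α → Y) (x : Set Y) (A : Set α) : Set α := {a | a ∈ A ∧ e a ∈ x}

namespace SCM

variable {κ : Cardinal.{u}} {Y α γ : Type u} (S : SCM κ Y)

theorem all {ι : Type u} (hι : #ι < κ) {Φ : ι → Set Y → Prop}
    (h : ∀ i, ∀ᶠ x in (S.U : Filter (Set Y)), Φ i x) :
    ∀ᶠ x in (S.U : Filter (Set Y)), ∀ i, Φ i x := by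
  haveI := S.comp
  exact (Filter.eventually_cardinal_forall hι).2 h

theorem const {Z : Type u} (hZ : #Z < κ) (f : Set Y → Z) :
    ∃ z, ∀ᶠ x in (S.U : Filter (Set Y)), f x = z := by
  by_contra H
  obtain ⟨x, hx⟩ := (S.all hZ fun z => Ultrafilter.eventually_not.2 (not_exists.1 H z)).exists
  exact hx _ rfl

theorem const_in {e : α → Y} (he : Function.Injective e) (f : Set Y → α)
    (h : ∀ᶠ x in (S.U : Filter (Set Y)), e (f x) ∈ x) :
    ∃ a, ∀ᶠ x in (S.U : Filter (Set Y)), f x = a := by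
  obtain ⟨y, hy⟩ := S.normal (fun x => e (f x)) h
  obtain ⟨x₀, rfl⟩ := hy.exists
  exact ⟨f x₀, hy.mono fun x hx => he hx⟩

theorem diag {e : α → Y} (he : Function.Injective e) {Φ : α → Set Y → Prop}
    (h : ∀ a, ∀ᶠ x in (S.U : Filter (Set Y)), Φ a x) :
    ∀ᶠ x in (S.U : Filter (Set Y)), ∀ a, e a ∈ x → Φ a x := by
  by_contra H
  have H' := (Ultrafilter.eventually_not.2 H).mono fun x hx => by
    push Not at hx
    exact hx
  obtain ⟨f, hf⟩ := H'.choice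
  obtain ⟨a, ha⟩ := S.const_in he f (hf.mono fun x hx => hx.1)
  obtain ⟨x, h₁, h₂, h₃⟩ := (hf.and (ha.and (h a))).exists
  exact h₁.2 (h₂ ▸ h₃)

theorem los_set {e : α → Y} (he : Function.Injective e) (b : Set Y → Set α) :
    ∃ b0 : Set α, ∀ᶠ x in (S.U : Filter (Set Y)), ∀ a, e a ∈ x → (a ∈ b x ↔ a ∈ b0) := by
  refine ⟨{a | ∀ᶠ x in (S.U : Filter (Set Y)), a ∈ b x}, S.diag he fun a => ?_⟩
  by_cases h : ∀ᶠ x in (S.U : Filter (Set Y)), a ∈ b x
  · exact h.mono fun x hx => iff_of_true hx h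
  · exact (Ultrafilter.eventually_not.2 h).mono fun x hx => iff_of_false hx h

theorem sub_small (e : α → Y) {A : Set α} (hA : #A < κ) :
    ∀ᶠ x in (S.U : Filter (Set Y)), ∀ a ∈ A, e a ∈ x := by
  exact (S.all hA fun a : A => S.fine (e a)).mono fun x hx a ha => hx ⟨a, ha⟩

theorem cut_small {e : α → Y} (he : Function.Injective e) :
    ∀ᶠ x in (S.U : Filter (Set Y)), ∀ A, #(cut e x A) < κ := by
  refine S.small.mono fun x hx A => lt_of_le_of_lt ?_ hx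
  exact mk_le_of_injective (f := fun a : cut e x A => (⟨e a, a.2.2⟩ : x))
    fun a b h => Subtype.ext (he (congrArg Subtype.val h))

theorem card_le {e : α → Y} (he : Function.Injective e) {e' : γ → Y}
    (he' : Function.Injective e') {A : Set α} {A' : Set γ} (h : #A ≤ #A') :
    ∀ᶠ x in (S.U : Filter (Set Y)), #(cut e x A) ≤ #(cut e' x A') := by
  obtain ⟨g⟩ := (le_def _ _).1 h
  refine (S.diag he (Φ := fun a x => ∀ h : a ∈ A, e' (g ⟨a, h⟩) ∈ x) fun a => ?_).mono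
    fun x hx => ?_
  · by_cases h : a ∈ A
    · exact (S.fine (e' (g ⟨a, h⟩))).mono fun x hx _ => hx
    · exact Filter.Eventually.of_forall fun x h' => absurd h' h
  · exact mk_le_of_injective (f := fun a : cut e x A =>
      (⟨g ⟨a, a.2.1⟩, (g ⟨a, a.2.1⟩).2, hx a a.2.2 a.2.1⟩ : cut e' x A'))
      fun a b h => by
        have h₁ : g ⟨a, a.2.1⟩ = g ⟨b, b.2.1⟩ := Subtype.ext (Subtype.mk.inj h)
        exact Subtype.ext (Subtype.mk.inj (g.injective h₁))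

theorem seq {I : Type u} (hI : #I < κ) {e : α → Y} (he : Function.Injective e)
    (e' : (I → α) → Y) :
    ∀ᶠ x in (S.U : Filter (Set Y)), ∀ s : I → α, (∀ i, e (s i) ∈ x) → e' s ∈ x := by
  by_contra H
  have H' := (Ultrafilter.eventually_not.2 H).mono fun x hx => by
    push Not at hx
    exact hx
  obtain ⟨s, hs⟩ := H'.choice
  choose a ha using fun i => S.const_in he (fun x => s x i) (hs.mono fun x hx => hx.1 i)
  obtain ⟨x, h₁, h₂, h₃⟩ := (hs.and ((S.all hI ha).and (S.fine (e' a)))).exists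
  exact h₁.2 ((funext h₂ : s x = a) ▸ h₃)

theorem pow {e : α → Y} (he : Function.Injective e) {A : Set α} (h : #A ^ ℵ₀ ≤ #A) :
    ∀ᶠ x in (S.U : Filter (Set Y)), #(cut e x A) ^ ℵ₀ ≤ #(cut e x A) := by
  have e₁ : ∀ B : Type u, #B ^ ℵ₀ = #(ULift.{u} ℕ → B) := fun B => by simp
  rw [e₁] at h
  obtain ⟨g⟩ := (le_def _ _).1 h
  refine (S.seq (I := ULift.{u} ℕ) (by simpa using S.unc) (e := fun a : A => e a)
    (he.comp Subtype.val_injective) fun s => e (g s)).mono fun x hx => ?_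
  rw [e₁]
  refine mk_le_of_injective (f := fun s : ULift.{u} ℕ → cut e x A =>
    (⟨g fun i => ⟨s i, (s i).2.1⟩, (g _).2, hx _ fun i => (s i).2.2⟩ : cut e x A))
    fun s s' h => funext fun i => Subtype.ext ?_
  have h₁ : g (fun i => ⟨s i, (s i).2.1⟩) = g fun i => ⟨s' i, (s' i).2.1⟩ :=
    Subtype.ext (Subtype.mk.inj h)
  exact Subtype.mk.inj (congrFun (g.injective h₁) i)

theorem bdd [LinearOrder α] {e : α → Y} (he : Function.Injective e) {A : Set α}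
    (h : ∀ Z : Set α, #Z ≤ #A → ∃ b, ∀ z ∈ Z, z < b) :
    ∀ᶠ x in (S.U : Filter (Set Y)), ∀ Z : Set α, (∀ z ∈ Z, e z ∈ x) → #Z ≤ #(cut e x A) →
      ∃ b, e b ∈ x ∧ ∀ z ∈ Z, z < b := by
  classical
  by_contra H
  have H' : ∀ᶠ x in (S.U : Filter (Set Y)), ∃ y : Set α × (α → α), (∀ z ∈ y.1, e z ∈ x) ∧
      MapsTo y.2 y.1 (cut e x A) ∧ InjOn y.2 y.1 ∧ ∀ b, e b ∈ x → ∃ z ∈ y.1, b ≤ z := by
    refine (Ultrafilter.eventually_not.2 H).mono fun x hx => ?_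
    push Not at hx
    obtain ⟨Z, h₁, h₂, h₃⟩ := hx
    obtain ⟨g⟩ := (le_def _ _).1 h₂
    refine ⟨(Z, fun a => if h : a ∈ Z then g ⟨a, h⟩ else a), h₁, fun a ha => ?_,
      fun a ha b hb hab => ?_, h₃⟩
    · simp only [dif_pos ha]
      exact (g _).2
    · simp only [dif_pos ha, dif_pos hb] at hab
      exact congrArg Subtype.val (g.injective (Subtype.ext hab))
  obtain ⟨y, hy⟩ := H'.choice
  obtain ⟨Z₀, hZ⟩ := S.los_set he fun x => (y x).1
  have hm : ∀ a : Z₀, ∀ᶠ x in (S.U : Filter (Set Y)), a.1 ∈ (y x).1 := fun a =>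
    (hZ.and (S.fine (e a))).mono fun x hx => (hx.1 a hx.2).2 a.2
  choose g hg using fun a : Z₀ => S.const_in he (fun x => (y x).2 a)
    ((hy.and (hm a)).mono fun x hx => (hx.1.2.1 hx.2).2)
  have hA : ∀ a, g a ∈ A := fun a => by
    obtain ⟨x, h₁, h₂, h₃⟩ := (hy.and ((hm a).and (hg a))).exists
    exact h₃ ▸ (h₁.2.1 h₂).1
  obtain ⟨b, hb⟩ := h Z₀ (mk_le_of_injective (f := fun a => (⟨g a, hA a⟩ : A)) fun a a' haa => by
    obtain ⟨x, h₁, ⟨h₂, h₃⟩, h₄, h₅⟩ :=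
      (hy.and (((hm a).and (hg a)).and ((hm a').and (hg a')))).exists
    exact Subtype.ext (h₁.2.2.1 h₂ h₄ (h₃.trans ((congrArg Subtype.val haa).trans h₅.symm))))
  obtain ⟨x, h₁, h₂, h₃⟩ := (hy.and (hZ.and (S.fine (e b)))).exists
  obtain ⟨z, hz, hbz⟩ := h₁.2.2.2 b h₃
  exact (hb z ((h₂ z (h₁.1 z hz)).1 hz)).not_ge hbz

/-- Named directed closure reflects. -/
theorem ndc {τ Q : Type u} {it : τ → Y} (hit : Function.Injective it) {e : γ → Y}
    (he : Function.Injective e) {le : τ → τ → Q → Prop} {Lo : Set Q} {R : Q → Q → Prop} {tp : Q}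
    (hLo : #Lo < κ) {T : Set τ} {Z : Set γ} (h : NDCOn le Lo R tp T #Z) :
    ∀ᶠ x in (S.U : Filter (Set Y)), NDCOn le Lo R tp (cut it x T) #(cut e x Z) := by
  classical
  by_contra H
  have H' : ∀ᶠ x in (S.U : Filter (Set Y)), ∃ y : (γ → τ) × (γ → Set Q) × τ,
      y.2.2 ∈ cut it x T ∧ (∀ z, y.1 z ∈ cut it x T) ∧ (∀ z, OpenIn Lo R (y.2.1 z)) ∧
      (∀ z, ∀ q ∈ y.2.1 z, le (y.1 z) y.2.2 q) ∧
      (∀ z z', ∀ q ∈ y.2.1 z, q ∈ y.2.1 z' → ∃ q' ∈ Lo, R q' q ∧ ∃ k, q' ∈ y.2.1 k ∧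
        le (y.1 k) (y.1 z) q' ∧ le (y.1 k) (y.1 z') q') ∧
      (∀ z, ∀ q ∈ y.2.1 z, z ∈ cut e x Z) ∧
      ¬ ∃ s ∈ cut it x T, le s y.2.2 tp ∧ ∀ z, ∀ q ∈ y.2.1 z, le s (y.1 z) q := by
    refine (Ultrafilter.eventually_not.2 H).mono fun x hx => ?_
    simp only [NDCOn, not_forall] at hx
    obtain ⟨ι, t, M, t0, h₁, h₂, h₃, h₄, h₅, h₆, h₇⟩ := hx
    obtain ⟨g⟩ := (le_def _ _).1 h₁
    have hg : Function.Injective fun i => (g i).1 := Subtype.val_injective.comp g.injective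
    have e₁ : ∀ i, Function.extend (fun i => (g i).1) t (fun _ => t0) (g i).1 = t i :=
      fun i => hg.extend_apply _ _ i
    have e₂ : ∀ i, Function.extend (fun i => (g i).1) M (fun _ => ∅) (g i).1 = M i :=
      fun i => hg.extend_apply _ _ i
    have e₃ : ∀ z, ∀ q ∈ Function.extend (fun i => (g i).1) M (fun _ => ∅) z,
        ∃ i, (g i).1 = z := fun z q hq => by
      by_contra h'
      rw [Function.extend_apply' _ _ _ h'] at hq
      exact hq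
    refine ⟨(Function.extend (fun i => (g i).1) t (fun _ => t0),
      Function.extend (fun i => (g i).1) M (fun _ => ∅), t0), h₂, fun z => ?_, fun z => ?_,
      fun z q hq => ?_, fun z z' q hq hq' => ?_, fun z q hq => ?_, ?_⟩
    · by_cases h' : ∃ i, (g i).1 = z
      · obtain ⟨i, rfl⟩ := h'
        simp only [e₁]
        exact h₃ i
      · simp only [Function.extend_apply' _ _ _ h']
        exact h₂
    · by_cases h' : ∃ i, (g i).1 = z
      · obtain ⟨i, rfl⟩ := h'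
        simp only [e₂]
        exact h₄ i
      · simp only [Function.extend_apply' _ _ _ h']
        exact ⟨empty_subset _, fun q hq => hq.elim⟩
    · obtain ⟨i, rfl⟩ := e₃ z q hq
      simp only [e₁, e₂] at hq ⊢
      exact h₅ i q hq
    · obtain ⟨i, rfl⟩ := e₃ z q hq
      obtain ⟨i', rfl⟩ := e₃ z' q hq'
      simp only [e₁, e₂] at hq hq' ⊢
      obtain ⟨q', k₁, k₂, k, k₃⟩ := h₆ i i' q hq hq'
      exact ⟨q', k₁, k₂, (g k).1, by simpa only [e₁, e₂] using k₃⟩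
    · obtain ⟨i, rfl⟩ := e₃ z q hq
      exact (g i).2
    · rintro ⟨s, k₁, k₂, k₃⟩
      refine h₇ ⟨s, k₁, k₂, fun i q hq => ?_⟩
      simpa only [e₁] using k₃ (g i).1 q (by simpa only [e₂] using hq)
  obtain ⟨y, hy⟩ := H'.choice
  obtain ⟨t0, ht0⟩ := S.const_in hit (fun x => (y x).2.2) (hy.mono fun x hx => hx.1.2)
  choose t ht using fun z => S.const_in hit (fun x => (y x).1 z)
    (hy.mono fun x hx => (hx.2.1 z).2)
  let M : γ → Set Q := fun z => {q | q ∈ Lo ∧ ∀ᶠ x in (S.U : Filter (Set Y)), q ∈ (y x).2.1 z}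
  have hM : ∀ z, ∀ᶠ x in (S.U : Filter (Set Y)), (y x).2.1 z = M z := fun z => by
    have : ∀ q : Lo, ∀ᶠ x in (S.U : Filter (Set Y)), (q.1 ∈ (y x).2.1 z ↔ q.1 ∈ M z) :=
      fun q => by
        by_cases h : ∀ᶠ x in (S.U : Filter (Set Y)), q.1 ∈ (y x).2.1 z
        · exact h.mono fun x hx => iff_of_true hx ⟨q.2, h⟩
        · exact (Ultrafilter.eventually_not.2 h).mono fun x hx => iff_of_false hx fun h' => h h'.2
    refine (hy.and (S.all hLo this)).mono fun x hx => Set.ext fun q => ⟨fun hq => ?_, fun hq => ?_⟩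
    · exact (hx.2 ⟨q, (hx.1.2.2.1 z).1 hq⟩).1 hq
    · exact (hx.2 ⟨q, hq.1⟩).2 hq
  have good := hy.and (ht0.and (S.diag he fun z => (ht z).and (hM z)))
  have one : ∀ z, ∃ x, _ ∧ e z ∈ x := fun z => (good.and (S.fine (e z))).exists
  obtain ⟨s, hs, hs₁, hs₂⟩ := h Z (fun z => t z) (fun z => M z) t0 le_rfl
    (by
      obtain ⟨x, h₁, h₂, -⟩ := good.exists
      exact h₂ ▸ h₁.1.1)
    (fun z => by
      obtain ⟨x, ⟨h₁, -, h₂⟩, h₃⟩ := one z
      exact (h₂ z h₃).1 ▸ (h₁.2.1 z).1)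
    (fun z => by
      obtain ⟨x, ⟨h₁, -, h₂⟩, h₃⟩ := one z
      exact (h₂ z h₃).2 ▸ h₁.2.2.1 z)
    (fun z q hq => by
      obtain ⟨x, ⟨h₁, h₀, h₂⟩, h₃⟩ := one z
      rw [← (h₂ z h₃).2] at hq
      rw [← (h₂ z h₃).1, ← h₀]
      exact h₁.2.2.2.1 z q hq)
    (fun z z' q hq hq' => by
      obtain ⟨x, ⟨h₁, -, h₂⟩, h₃, h₄⟩ := (good.and ((S.fine (e z)).and (S.fine (e z')))).exists
      rw [← (h₂ z h₃).2] at hq
      rw [← (h₂ z' h₄).2] at hq'
      obtain ⟨q', k₁, k₂, k, k₃, k₄⟩ := h₁.2.2.2.2.1 z z' q hq hq'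
      have k₅ := h₁.2.2.2.2.2.1 k q' k₃
      rw [(h₂ z h₃).1, (h₂ z' h₄).1, (h₂ k k₅.2).1] at k₄
      rw [(h₂ k k₅.2).2] at k₃
      exact ⟨q', k₁, k₂, ⟨k, k₅.1⟩, k₃, k₄⟩)
  obtain ⟨x, ⟨h₁, h₀, h₂⟩, h₃⟩ := (good.and (S.fine (it s))).exists
  refine h₁.2.2.2.2.2.2 ⟨s, ⟨hs, h₃⟩, h₀ ▸ hs₁, fun z q hq => ?_⟩
  have k₅ := h₁.2.2.2.2.2.1 z q hq
  rw [(h₂ z k₅.2).1]
  exact hs₂ ⟨z, k₅.1⟩ q ((h₂ z k₅.2).2 ▸ hq)

end SCM

end Pool.Agent.MP_a2558b_lc

end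

section

namespace Pool.Agent.MP_a2558b_lc

open Cardinal hiding univ
open Set Base

universe u

variable {κ : Cardinal.{u}} {α τ Q : Type u} {C : Crd α τ Q} {Lo : Set Q} {R : Q → Q → Prop}
  {o : τ} {tp : Q}

/-- An ultrafilter that is closed under intersections of size `c` is closed under intersections
of size `2 ^ c`. -/
theorem Crd.Comp.pow (h : C.Basic Lo R o) {c : Cardinal.{u}} (h' : C.Comp c) :
    C.Comp (2 ^ c) := by
  classical
  intro ι E hι hE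
  have h1 : #ι ≤ #(c.out → Bool) := by simpa using hι
  obtain ⟨g⟩ := (Cardinal.le_def _ _).1 h1
  have h2 : ∀ a : α, ∃ w : c.out → Bool, a ∈ ⋃ i, E i → ∃ i, a ∈ E i ∧ g i = w := by
    intro a
    by_cases ha : a ∈ ⋃ i, E i
    · obtain ⟨i, hi⟩ := mem_iUnion.1 ha
      exact ⟨g i, fun _ => ⟨i, hi, rfl⟩⟩
    · exact ⟨fun _ => false, fun h => absurd h ha⟩
  choose w hw using h2
  have h3 : ∀ k : c.out, ∃ b : Bool, C.null {a ∈ C.Pt | w a k ≠ b} := by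
    intro k
    rcases h.ultra {a | w a k = true} with h4 | h4
    · refine ⟨false, h.null_mono _ _ ?_ h4⟩
      intro a ha
      simpa using ha.2
    · refine ⟨true, h.null_mono _ _ ?_ h4⟩
      intro a ha
      exact ⟨ha.1, ha.2⟩
  choose b hb using h3
  have h4 := h' c.out _ (mk_out c).le hb
  have h5 : ∃ F, C.null F ∧ ∀ i, g i = b → E i ⊆ F := by
    by_cases hi : ∃ i, g i = b
    · obtain ⟨i, hi⟩ := hi
      refine ⟨E i, hE i, fun j hj => ?_⟩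
      rw [g.injective (hj.trans hi.symm)]
    · exact ⟨∅, h.null_empty, fun i hi' => absurd ⟨i, hi'⟩ hi⟩
  obtain ⟨F, hF, hF'⟩ := h5
  refine h.null_pt _ (h.null_mono _ _ ?_ (h.null_union _ _ h4 hF))
  rintro a ⟨ha, ha'⟩
  obtain ⟨i, hi, hi'⟩ := hw a ha
  by_cases hab : w a = b
  · exact Or.inr (hF' i (hi'.trans hab) hi)
  · obtain ⟨k, hk⟩ := Function.ne_iff.1 hab
    exact Or.inl (mem_iUnion.2 ⟨k, ha', hk⟩)

theorem mk_small_subsets (hi : κ.IsInaccessible) {T : Set τ} (hT : #T = κ) :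
    #{a : Set τ | a ⊆ T ∧ #a < κ} ≤ κ := by
  have h1 := mk_subset_mk_lt_cof (α := T) (by rw [hT]; exact hi.isStrongPrelimit)
  rw [hT, hi.isRegular.cof_ord] at h1
  refine le_of_le_of_eq ?_ h1
  refine mk_le_of_injective (f := fun a => ⟨Subtype.val ⁻¹' a.1,
    (mk_preimage_of_injective _ _ Subtype.val_injective).trans_lt a.2.2⟩) ?_
  rintro ⟨a, ha⟩ ⟨a', ha'⟩ e
  have e' : (Subtype.val ⁻¹' a : Set T) = Subtype.val ⁻¹' a' := congrArg Subtype.val e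
  refine Subtype.ext (Set.ext fun t => ⟨fun ht => ?_, fun ht => ?_⟩)
  · exact (Set.ext_iff.1 e' ⟨t, ha.1 ht⟩).1 ht
  · exact (Set.ext_iff.1 e' ⟨t, ha'.1 ht⟩).2 ht

/-- The coordinate given by a supercompactness measure on a closed term order. -/
theorem exists_top (hκ : Supercompact κ) (hi : κ.IsInaccessible) {T : Set τ}
    {le : τ → τ → Q → Prop} (h₁ : o ∈ T) (h₂ : ∀ t ∈ T, ∀ q ∈ Lo, le t t q)
    (h₃ : ∀ a b c, ∀ q ∈ Lo, le a b q → le b c q → le a c q)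
    (h₄ : ∀ a b, ∀ q ∈ Lo, ∀ q' ∈ Lo, R q' q → le a b q → le a b q')
    (h₅ : ∀ t ∈ T, ∀ q ∈ Lo, le t o q) {c : Cardinal.{u}} (hc : c < κ)
    (h₆ : NDCOn le Lo R tp T c) (hLo : #Lo < κ) (hT : #T = κ) :
    ∃ C : Crd (Set τ) τ Q, C.T = T ∧ C.le = le ∧ C.Basic Lo R o ∧ C.Act ∧
      (∀ c' < κ, C.Comp c') ∧ C.NDC Lo R tp c ∧ #C.Pt ≤ κ := by
  obtain ⟨S⟩ := hκ.scm τ
  obtain ⟨Z, hZT, hZ⟩ := le_mk_iff_exists_subset.1 (hc.le.trans hT.ge)
  have hsm : ∀ᶠ x in (S.U : Filter (Set τ)), #(x ∩ T : Set τ) < κ :=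
    S.small.mono fun x hx => (mk_le_mk_of_subset inter_subset_left).trans_lt hx
  have hpt : ∀ᶠ x in (S.U : Filter (Set τ)),
      x ∩ T ∈ {a : Set τ | a ⊆ T ∧ #a < κ ∧ NDCOn le Lo R tp a c} := by
    have h1 := S.ndc (it := id) Function.injective_id (e := id) Function.injective_id hLo
      (T := T) (Z := Z) (le := le) (R := R) (tp := tp) (by rw [hZ]; exact h₆)
    have h2 := S.sub_small id (A := Z) (by rw [hZ]; exact hc)
    filter_upwards [h1, h2, hsm] with x hx1 hx2 hx3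
    have e1 : cut id x Z = Z := Set.ext fun a => ⟨fun ha => ha.1, fun ha => ⟨ha, hx2 a ha⟩⟩
    have e2 : cut id x T = x ∩ T := Set.ext fun a => ⟨fun ha => ⟨ha.2, ha.1⟩, fun ha => ⟨ha.2, ha.1⟩⟩
    rw [e1, e2, hZ] at hx1
    exact ⟨inter_subset_right, hx3, hx1⟩
  have hnot : ∀ E : Set (Set τ), (¬ ∀ᶠ x in (S.U : Filter (Set τ)), x ∩ T ∉ E) ↔
      ∀ᶠ x in (S.U : Filter (Set τ)), x ∩ T ∈ E := by
    intro E
    rw [Ultrafilter.eventually_not, not_not]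
  refine ⟨⟨{a | a ⊆ T ∧ #a < κ ∧ NDCOn le Lo R tp a c}, T,
    fun E => ∀ᶠ x in (S.U : Filter (Set τ)), x ∩ T ∉ E, id, le⟩, rfl, rfl,
    ⟨h₁, fun a ha => ha.1, h₂, h₃, h₄, h₅, ?_, ?_, ?_, ?_, ?_, ?_, ?_⟩, ⟨?_, ?_⟩, ?_,
    ⟨h₆, fun a ha => ha.2.2⟩, ?_⟩
  · exact Filter.Eventually.of_forall fun x => notMem_empty _
  · exact fun E E' hE h => h.mono fun x hx hx' => hx (hE hx')
  · intro E E' h h'
    filter_upwards [h, h'] with x hx hx' hx''
    exact hx''.elim hx hx'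
  · intro E h
    filter_upwards [h, hpt] with x hx hx' hx''
    exact hx ⟨hx'', hx'⟩
  · intro E
    by_cases h : ∀ᶠ x in (S.U : Filter (Set τ)), x ∩ T ∉ E
    · exact Or.inl h
    · exact Or.inr (((hnot E).1 h).mono fun x hx hx' => hx'.2 hx)
  · intro t ht
    exact (S.fine t).mono fun x hx hx' => hx'.2 ⟨hx, ht⟩
  · intro A f _ hA hf
    have hA' := (hnot A).1 hA
    obtain ⟨t, ht⟩ := S.normal (fun x => f (x ∩ T)) (hA'.mono fun x hx => (hf _ hx).1)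
    refine ⟨t, (hnot _).2 ?_⟩
    filter_upwards [hA', ht] with x hx hx'
    exact ⟨hx, hx'⟩
  · exact (hnot _).2 hpt
  · intro a
    by_cases ha : T ⊆ a
    · refine hsm.mono fun x hx hx' => ?_
      rw [mem_singleton_iff.1 hx'] at hx
      exact absurd ((mk_le_mk_of_subset ha).trans_lt hx) (by rw [hT]; exact lt_irrefl _)
    · obtain ⟨t, ht, ht'⟩ := not_subset.1 ha
      refine (S.fine t).mono fun x hx hx' => ht' ?_
      rw [← mem_singleton_iff.1 hx']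
      exact ⟨hx, ht⟩
  · intro c' hc' ι E hι hE
    refine (S.all (hι.trans_lt hc') hE).mono fun x hx hx' => ?_
    obtain ⟨i, hi'⟩ := mem_iUnion.1 hx'
    exact hx i hi'
  · refine le_trans (mk_le_mk_of_subset ?_) (mk_small_subsets hi hT)
    intro a ha
    exact ⟨ha.1, ha.2.1⟩

end Pool.Agent.MP_a2558b_lc

end

section

namespace Pool.Agent.MP_a2558b_lc

open Cardinal hiding univ
open Set Base

universe u

set_option linter.unusedSectionVars false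

variable {Θ Ω : Type u} [LinearOrder Θ] [WellFoundedLT Θ] [LinearOrder Ω] [WellFoundedLT Ω]
  [Inhabited Ω] {X : Ctx Θ Ω} {D : Sys (JJ Θ) Ω} {β : Θ} {k : Θ → Cardinal.{u}}

theorem comp_pt (hk : NOK X D β k) (i : Θ) : (D (pt β i)).Comp (2 ^ clo X D β k i) :=
  (hk.comp i).pow (hk.basic i)

namespace Ar

section

variable {J Ω : Type u} [Inhabited Ω] {D : Sys J Ω} {c d : Set J}

theorem mk_le_split {ι : Type u} (e : ι → J) (hc : c ⊆ d) (he : ∀ j ∈ d, j ∈ c ∨ ∃ i, j = e i)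
    {S : Set (Cnd J Ω)} (hS : S ⊆ Low D d) (V : ι → Set (Vl Ω))
    (hV : ∀ p ∈ S, ∀ i, p (e i) ∈ V i) : #S ≤ #(Low D c) * prod fun i => #(V i) := by
  rw [← mk_pi, mul_def]
  refine mk_le_of_injective (f := fun p : S => ((⟨res c p.1, res_mem (hS p.2) hc⟩ : Low D c),
    fun i => (⟨p.1 (e i), hV _ p.2 i⟩ : V i))) fun p q h => Subtype.ext (funext fun j => ?_)
  have h₁ : res c p.1 = res c q.1 := congrArg (fun x => x.1.1) h
  by_cases hj : j ∈ d
  · rcases he j hj with h' | ⟨i, rfl⟩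
    · rw [← res_of_mem (p := p.1) h', h₁, res_of_mem h']
    · exact congrArg (fun x => (x.2 i).1) h
  · rw [(hS p.2).2.1 j hj, (hS q.2).2.1 j hj]

omit [Inhabited Ω] in
theorem mk_vl (P T : Set Ω) (W : Set (Set Ω)) :
    #{v : Vl Ω | (∀ a, v.s = some a → a ∈ P) ∧ v.E ∈ W ∧ v.t ∈ T} ≤ (#P + 1) * #W * #T := by
  rw [← mk_option, mul_def, mul_def]
  refine mk_le_of_surjective (β := {v : Vl Ω | (∀ a, v.s = some a → a ∈ P) ∧ v.E ∈ W ∧ v.t ∈ T})
    (f := fun x : (Option P × W) × T => ⟨⟨x.1.1.map Subtype.val, x.1.2, x.2⟩, fun a ha => ?_,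
      x.1.2.2, x.2.2⟩) ?_
  · obtain ⟨b, -, rfl⟩ := Option.map_eq_some_iff.1 ha
    exact b.2
  · rintro ⟨⟨_ | a, E, t⟩, h₁, h₂, h₃⟩
    · exact ⟨((none, ⟨E, h₂⟩), ⟨t, h₃⟩), rfl⟩
    · exact ⟨((some ⟨a, h₁ a rfl⟩, ⟨E, h₂⟩), ⟨t, h₃⟩), rfl⟩

omit [Inhabited Ω] in
theorem mk_ok {j : J} {Lo : Set (Cnd J Ω)} {R : Cnd J Ω → Cnd J Ω → Prop} {o : Ω}
    (hB : (D j).Basic Lo R o) :
    #{v | OkAt D j v} ≤ (#(D j).Pt + 1) * 2 ^ #(D j).Pt * #(D j).T := by
  rw [← mk_powerset]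
  refine le_trans (mk_le_mk_of_subset ?_) (mk_vl _ _ _)
  exact fun v hv => ⟨hv.1, hv.2.1, hB.car_sub hv.1 hv.2.2.2⟩

end

omit [WellFoundedLT Θ] [WellFoundedLT Ω]

theorem k_inf (hk : NOK X D β k) (i : Θ) : ℵ₀ ≤ k i :=
  (X.aleph0_le_lb β).trans ((Order.le_succ _).trans (hk.kmu i))

theorem mk_ok_pt (hk : NOK X D β k) (i : Θ) : #{v | OkAt D (pt β i) v} ≤ 2 ^ k i := by
  have h₀ := k_inf hk i
  have h₁ := (cantor (k i)).le
  have h₂ := h₀.trans h₁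
  refine (mk_ok (hk.basic i)).trans (mul_le_of_le h₂ (mul_le_of_le h₂ (add_le_of_le h₂
    ((hk.size i).1.trans h₁) (one_le_aleph0.trans h₂)) ?_) ((hk.size i).2.trans h₁))
  exact power_le_power_left two_ne_zero (hk.size i).1

theorem mk_ok_cc (hk : LevelOK X D β k) : #{v | OkAt D (cc β) v} ≤ X.κ β := by
  refine (mk_ok hk.2.basic).trans ?_
  rw [hk.2.pt_eq]
  simpa using hk.2.size

theorem pow_lt {c : Cardinal.{u}} (h : c < X.κ β) : 2 ^ c < X.κ β :=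
  (X.inacc β).isStrongLimit.isStrongPrelimit h

theorem sum_lt (hk : NOK X D β k) : sum k < X.κ β :=
  sum_lt_of_isRegular (X.inacc β).isRegular
    (X.mk_Θ ▸ (X.aleph1_le_lb β).trans_lt (X.lb_lt' β)) hk.klt

theorem prod_ok_lt (hk : NOK X D β k) : (prod fun i => #{v | OkAt D (pt β i) v}) < X.κ β := by
  refine (prod_le_prod _ _ (mk_ok_pt hk)).trans_lt ?_
  rw [← power_sum]
  exact pow_lt (sum_lt hk)

theorem clo_congr {D' : Sys (JJ Θ) Ω} (h : ∀ j ∈ levC β, D j = D' j) :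
    clo X D β k = clo X D' β k := by
  funext i
  rw [clo, clo, Low_congr fun j hj => h j (levIio_sub_levC β hj)]

end Ar

theorem sum_k_lt (hk : NOK X D β k) : sum k < X.κ β := Ar.sum_lt hk

theorem mk_low_Iio_pt (hk : NOK X D β k) (i : Θ) :
    #(Low D (Iio (pt β i))) ≤ 2 ^ clo X D β k i := by
  have h₀ : ℵ₀ ≤ clo X D β k i := (X.aleph0_le_lb β).trans ((Order.le_succ _).trans (mu_le_clo i))
  have h₁ := (cantor (clo X D β k i)).le
  refine (Ar.mk_le_split (fun i' : Iio i => pt β i') (levIio_sub_Iio β i) (fun j hj => ?_)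
    Subset.rfl (fun i' => {v | OkAt D (pt β i') v}) fun p hp i' =>
      hp.1 _ (pt_lt_pt.2 (Or.inr ⟨rfl, i'.2⟩))).trans ?_
  · rcases mem_levC.1 (Iic_pt_sub_levC β i (Iio_subset_Iic_self hj)) with h | ⟨i', rfl⟩
    · exact Or.inl h
    · exact Or.inr ⟨⟨i', ((pt_lt_pt.1 hj).resolve_left (lt_irrefl _)).2⟩, rfl⟩
  · refine mul_le_of_le (h₀.trans h₁) ((low_le_clo i).trans h₁)
      ((prod_le_prod _ _ fun i' : Iio i => Ar.mk_ok_pt hk i').trans ?_)
    rw [← power_sum]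
    exact power_le_power_left two_ne_zero le_add_self

theorem mk_keys_pt (hV : Valid X D (Iio β)) (hk : NOK X D β k) (i : Θ) :
    #(Keys D (Iic (pt β i))) ≤ k i := by
  have _ := hV
  have h₀ := Ar.k_inf hk i
  refine (Ar.mk_le_split (fun i' : Iic i => pt β i')
    ((levIio_sub_Iio β i).trans Iio_subset_Iic_self) (fun j hj => ?_) (fun p hp => hp.1)
    (fun i' => {v : Vl Ω | (∀ a, v.s = some a → a ∈ (D (pt β i')).Pt) ∧ v.E ∈ ({∅} : Set (Set Ω)) ∧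
      v.t ∈ (D (pt β i')).T}) fun p hp i' => ?_).trans ?_
  · rcases mem_levC.1 (Iic_pt_sub_levC β i hj) with h | ⟨i', rfl⟩
    · exact Or.inl h
    · exact Or.inr ⟨⟨i', ((pt_le_pt.1 hj).resolve_left (lt_irrefl _)).2⟩, rfl⟩
  · have h := hp.1.1 (pt β i') (pt_le_pt.2 (Or.inr ⟨rfl, i'.2⟩))
    exact ⟨h.1, hp.2 _, (hk.basic i').car_sub h.1 h.2.2.2⟩
  · refine mul_le_of_le h₀ (hk.klow i) ((prod_le_prod _ (fun _ => k i) fun i' => ?_).trans ?_)
    · have h := hk.kmono i'.2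
      refine (Ar.mk_vl _ _ _).trans (mul_le_of_le h₀ ?_ ((hk.size i').2.trans h))
      rw [mk_singleton, mul_one]
      exact add_le_of_le h₀ ((hk.size i').1.trans h) (one_le_aleph0.trans h₀)
    · rw [prod_const']
      refine (power_le_power_left (aleph0_pos.trans_le h₀).ne' ?_).trans (hk.kpow i)
      exact le_aleph0_iff_set_countable.2 (((X.ct i).insert i).mono fun x hx => hx.eq_or_lt)

theorem mk_low_levC (hk : NOK X D β k) : #(Low D (levC β)) < X.κ β :=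
  (Ar.mk_le_split (fun i => pt β i) (levIio_sub_levC β) (fun _ hj => mem_levC.1 hj)
    Subset.rfl (fun i => {v | OkAt D (pt β i) v}) fun _ hp _ =>
      hp.1 _ (pt_mem_levC.2 le_rfl)).trans_lt
    (mul_lt_of_lt (X.aleph0_lt_κ β).le ((hk.klow β).trans_lt (hk.klt β)) (Ar.prod_ok_lt hk))

theorem mk_low_Iic (hk : LevelOK X D β k) : #(Low D (lev (Iic β))) ≤ X.κ β := by
  refine (Ar.mk_le_split (fun _ : PUnit.{u + 1} => cc β) (levC_sub_levIic β)
    (fun _ hj => (mem_levIic.1 hj).imp_right fun h => ⟨⟨⟩, h⟩)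
    Subset.rfl (fun _ => {v | OkAt D (cc β) v}) fun _ hp _ =>
      hp.1 _ (cc_mem_lev.2 le_rfl)).trans
    (mul_le_of_le (X.aleph0_lt_κ β).le (mk_low_levC hk.1).le ?_)
  rw [prod_const', mk_punit, power_one]
  exact Ar.mk_ok_cc hk

theorem mk_low_Iio (hV : Valid X D (Iio β)) : #(Low D (lev (Iio β))) < X.κ β := by
  have h₁ : #(Low D (lev (Iio β))) ≤ prod fun γ : Iio β => #(Low D (lev (Iic γ.1))) := by
    rw [← mk_pi]
    refine mk_le_of_injective (f := fun (p : Low D (lev (Iio β))) (γ : Iio β) =>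
      (⟨res _ p.1, res_mem p.2 (levIic_sub_levIio γ.2)⟩ : Low D (lev (Iic γ.1))))
      fun p q h => Subtype.ext (funext fun j => ?_)
    by_cases hj : j ∈ lev (Iio β)
    · have e : res (lev (Iic (ofLex j).1)) p.1 = res (lev (Iic (ofLex j).1)) q.1 :=
        congrArg Subtype.val (congrFun h ⟨(ofLex j).1, hj⟩)
      have m : j ∈ lev (Iic (ofLex j).1) := le_refl (ofLex j).1
      rw [← res_of_mem (p := p.1) m, e, res_of_mem m]
    · rw [p.2.2.1 j hj, q.2.2.1 j hj]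
  refine (h₁.trans ((prod_le_prod _ (fun _ => X.lb β) fun γ => ?_).trans ?_)).trans_lt
    (Ar.pow_lt (X.lb_lt' β))
  · obtain ⟨k, hk⟩ := hV γ γ.2
    exact (mk_low_Iic hk).trans (X.κ_le_lb γ.2)
  · rw [prod_const', ← power_self_eq (X.aleph0_le_lb β)]
    exact power_le_power_left (aleph0_pos.trans_le (X.aleph0_le_lb β)).ne'
      ((le_aleph0_iff_set_countable.2 (X.ct β)).trans (X.aleph0_le_lb β))

theorem mixCut_lev (hV : Valid X D univ) {A : Set Θ} (hA : IsLowerSet A) :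
    MixCut D (lev A) univ := by
  intro j _ hj
  have h : lev A ⊆ lev (Iio (ofLex j).1) :=
    lev_mono fun x hx => lt_of_not_ge fun h => hj (hA h hx)
  refine ⟨h.trans levIio_sub_bs, ?_⟩
  rcases JJ_cases j with ⟨γ, i, rfl⟩ | ⟨γ, rfl⟩ <;> obtain ⟨k, hk⟩ := hV γ trivial
  · exact Or.inl ((cl_pt hk.1 i).anti ((mk_le_mk_of_subset fun p hp =>
      Low_mono ((basicOn_univ hV).anti (subset_univ _)) h hp).trans (low_le_clo i)))
  · rw [bs_cc]
    exact Or.inr ⟨hk.2.pt_eq, hk.2.mix⟩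

theorem mixCut_levC (hV : Valid X D univ) (β : Θ) : MixCut D (levC β) univ := by
  intro j _ hj
  rcases JJ_cases j with ⟨γ, i, rfl⟩ | ⟨γ, rfl⟩ <;> obtain ⟨k, hk⟩ := hV γ trivial
  · have h : levC β ⊆ lev (Iio γ) :=
      (levC_sub_levIic β).trans (levIic_sub_levIio (by simpa using hj))
    exact ⟨bs_pt γ i ▸ h, Or.inl ((cl_pt hk.1 i).anti ((mk_le_mk_of_subset fun p hp =>
      Low_mono ((basicOn_univ hV).anti (subset_univ _)) h hp).trans (low_le_clo i)))⟩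
  · rw [bs_cc]
    exact ⟨Iio_subset_Iio (not_lt.1 hj), Or.inr ⟨hk.2.pt_eq, hk.2.mix⟩⟩

/-- The set of direct extensions of `p` on one level is small. -/
theorem mk_level (hk : LevelOK X D β k) (p : Cnd (JJ Θ) Ω) :
    #{v : WithTop Θ → Vl Ω | ∀ i, OkAt D (toLex (β, i)) (v i) ∧ (v i).s = (p (toLex (β, i))).s} ≤
      X.κ β := by
  refine le_trans ?_ (mul_le_of_le (X.aleph0_lt_κ β).le (Ar.prod_ok_lt hk.1).le (Ar.mk_ok_cc hk))
  rw [← mk_pi, mul_def]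
  refine mk_le_of_injective (f := fun v => (fun i : Θ => ⟨v.1 i, (v.2 i).1⟩, ⟨v.1 ⊤, (v.2 ⊤).1⟩))
    fun v w h => Subtype.ext (funext fun i => ?_)
  induction i using WithTop.recTopCoe with
  | top => exact congrArg (fun x => x.2.1) h
  | coe i => exact congrArg (fun x => (x.1 i).1) h

theorem NOK_congr {D' : Sys (JJ Θ) Ω} (h : ∀ j ∈ levC β, D j = D' j) (hk : NOK X D β k) :
    NOK X D' β k := by
  have h₁ := Low_congr fun j hj => h j (levIio_sub_levC β hj)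
  have h₂ := Le_congr fun j hj => h j (levIio_sub_levC β hj)
  have h₃ : ∀ i, D (pt β i) = D' (pt β i) := fun i => h _ (pt_mem_levC.2 le_rfl)
  have h₄ := Ar.clo_congr (X := X) (k := k) h
  obtain ⟨a₁, a₂, a₃, a₄, a₅, a₆, a₇, a₈, a₉, a₀⟩ := hk
  rw [h₄] at a₈ a₉
  rw [h₁] at a₁ a₄ a₉
  rw [h₂] at a₁ a₉
  simp only [h₃] at a₁ a₇ a₈ a₉ a₀
  exact ⟨a₁, a₂, a₃, a₄, a₅, a₆, a₇, a₈, a₉, a₀⟩

theorem LevelOK_congr {D' : Sys (JJ Θ) Ω} (h : ∀ j ∈ lev (Iic β), D j = D' j)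
    (hk : LevelOK X D β k) : LevelOK X D' β k := by
  have h' : ∀ j ∈ levC β, D j = D' j := fun j hj => h j (levC_sub_levIic β hj)
  refine ⟨NOK_congr h' hk.1, ?_⟩
  rw [← Low_congr h', ← Le_congr h', ← h _ (cc_mem_lev.2 le_rfl)]
  exact hk.2

end Pool.Agent.MP_a2558b_lc

end

section

namespace Pool.Agent.MP_a2558b_lc

open Cardinal hiding univ
open Set Base

universe u

theorem cov_sum_le {S T : Type u} {f : S → Cardinal.{u}} {g : T → Cardinal.{u}} (φ : S → T)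
    (hφ : Function.Injective φ) (h : ∀ a, f a ≤ g (φ a)) : sum f ≤ sum g := by
  refine (sum_le_sum f (fun a => g (φ a)) h).trans ?_
  have e₁ : sum (fun a => g (φ a)) = #(Σ a, (g (φ a)).out) := by simp [mk_sigma]
  have e₂ : sum g = #(Σ t, (g t).out) := by simp [mk_sigma]
  rw [e₁, e₂]
  refine mk_le_of_injective (f := fun x => ⟨φ x.1, x.2⟩) ?_
  rintro ⟨a, x⟩ ⟨b, y⟩ h
  obtain rfl := hφ (Sigma.mk.inj h).1
  obtain rfl := eq_of_heq (Sigma.mk.inj h).2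
  rfl

theorem cov_tasks_le {A B ι T : Type u} (P : A → Prop) (K : A → Set B) (R : ι → A → Prop)
    {g : T → Cardinal.{u}} (φ : {a // P a} → T) (hφ : Function.Injective φ)
    (h : ∀ a, #(K a.1) * #{i | R i a.1} ≤ g (φ a)) :
    #{w : A × B × ι | P w.1 ∧ w.2.1 ∈ K w.1 ∧ R w.2.2 w.1} ≤ sum g := by
  refine le_trans ?_ (cov_sum_le φ hφ h)
  have e : sum (fun a : {a // P a} => #(K a.1) * #{i | R i a.1}) =
      #(Σ a : {a // P a}, K a.1 × {i | R i a.1}) := by simp [mk_sigma]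
  rw [e]
  refine mk_le_of_injective
    (f := fun w => ⟨⟨w.1.1, w.2.1⟩, ⟨w.1.2.1, w.2.2.1⟩, ⟨w.1.2.2, w.2.2.2⟩⟩) ?_
  rintro ⟨⟨a, b, i⟩, h₁⟩ ⟨⟨a', b', i'⟩, h₂⟩ h
  obtain rfl : a = a' := congrArg (fun x => x.1.1) h
  obtain rfl : b = b' := congrArg (fun x => x.2.1.1) h
  obtain rfl : i = i' := congrArg (fun x => x.2.2.1) h
  rfl

theorem cov_mul_le {a b c : Cardinal.{u}} (hc : ℵ₀ ≤ c) (ha : a ≤ c) (hb : b ≤ c) : a * b ≤ c :=
  (mul_le_mul' ha hb).trans (mul_eq_self hc).le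

theorem cov_dirAt {J Ω : Type u} [Inhabited Ω] [LinearOrder J] [Base J] {D : Sys J Ω} {j : J}
    {r p : Cnd J Ω} (h : LeAt D j r p) (hs : (r j).s = none) : DirAt D j r p := by
  refine ⟨?_, h⟩
  cases e : (p j).s with
  | none => exact hs
  | some a => exact h.1 a e

variable {Θ Ω : Type u} [LinearOrder Θ] [WellFoundedLT Θ] [LinearOrder Ω] [WellFoundedLT Ω]
  [Inhabited Ω] {X : Ctx Θ Ω} {D : Sys (JJ Θ) Ω} {β : Θ} {k : Θ → Cardinal.{u}}

/-- Covering inside one level. -/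
theorem seg_cov (hV : Valid X D (Iio β)) (hk : NOK X D β k) (i0 : Θ) {ι Z : Type u} [Nonempty Z]
    (hι : #ι ≤ k i0) (dec : ι → Cnd (JJ Θ) Ω → Z → Prop)
    (hn : ∀ i, IsNm (Low D (levC β)) (Le D (levC β)) (dec i))
    {p : Cnd (JJ Θ) Ω} (hp : p ∈ Low D (levC β)) :
    ∃ p' ∈ Low D (levC β), TExt D (Iic (pt β i0)) (levC β) p' p ∧ ∃ V : Set Z, #V ≤ sum k ∧
      ∀ i x, ∀ r ∈ Low D (levC β), (∀ j ∈ levC β, j ∉ Iic (pt β i0) → LeAt D j r p') →
        dec i r x → x ∈ V := by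
  have hB := basicOn_levC hV hk
  have hk0 : ∀ i, ℵ₀ ≤ k i := fun i =>
    (X.aleph0_le_lb β).trans ((Order.le_succ _).trans (hk.kmu i))
  have hb : ∀ a : {i // i0 ≤ i}, #(Keys D (Iic (pt β a.1))) * #{_i : ι | True} ≤ k a.1 :=
    fun a => cov_mul_le (hk0 _) (mk_keys_pt hV hk _)
      ((mk_set_le _).trans (hι.trans (hk.kmono a.2)))
  obtain ⟨p', hp', ht, val, hval⟩ := reduce (c := Iic (pt β i0)) (levC_lower β) hB
    (A := {i // i0 ≤ i}) (fun a => Iic (pt β a.1)) (fun _ => isLowerSet_Iic _)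
    (fun a => Iic_subset_Iic.2 (pt_le_pt.2 (Or.inr ⟨rfl, a.2⟩))) (fun a => Iic_pt_sub_levC β a.1)
    (fun _ _ => True) dec hn (by
      intro j hj hj'
      rcases mem_levC.1 hj with h | ⟨i', rfl⟩
      · exact (hj' (Iio_subset_Iic_self (levIio_sub_Iio β i0 h))).elim
      refine (cl_pt hk i').anti (le_trans ?_ le_add_self)
      refine cov_tasks_le (fun a : {i // i0 ≤ i} => pt β i' ∉ Iic (pt β a.1))
        (fun a => Keys D (Iic (pt β a.1))) (fun _ _ => True)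
        (fun a => ⟨a.1.1, ?_⟩) ?_ fun a => hb a.1
      · by_contra h
        exact a.2 (pt_le_pt.2 (Or.inr ⟨rfl, not_lt.1 h⟩))
      · intro a b h
        exact Subtype.ext (Subtype.ext (congrArg (fun x => x.1) h))) hp
  refine ⟨p', hp', ht, (fun w => val w.1 w.2.1 w.2.2) ''
    {w : {i // i0 ≤ i} × Cnd (JJ Θ) Ω × ι | True ∧ w.2.1 ∈ Keys D (Iic (pt β w.1.1)) ∧ True},
    mk_image_le.trans (cov_tasks_le (fun _ : {i // i0 ≤ i} => True)
      (fun a => Keys D (Iic (pt β a.1))) (fun _ _ => True) (fun a => a.1.1)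
      (fun a b h => Subtype.ext (Subtype.ext h)) fun a => hb a.1), ?_⟩
  intro i x r hr hle hd
  have hf : {i' | (r (pt β i')).s ≠ none}.Finite :=
    hr.2.2.preimage (f := pt β) fun _ _ _ _ h => (pt_inj.1 h).2
  obtain ⟨γ, hγ⟩ := X.exists_bound (hf.insert i0).countable
  have h0 : i0 ≤ γ := (hγ i0 (mem_insert _ _)).le
  refine ⟨(⟨γ, h0⟩, strip (res (Iic (pt β γ)) r), i), ⟨trivial,
    strip_mem (hB.anti (Iic_pt_sub_levC β γ)) (res_mem hr (Iic_pt_sub_levC β γ)), trivial⟩,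
    (hval ⟨γ, h0⟩ i x trivial r hr (fun j hj hj' => ?_) hd).1.symm⟩
  refine cov_dirAt (hle j hj fun h => hj' (le_trans h (pt_le_pt.2 (Or.inr ⟨rfl, h0⟩)))) ?_
  rcases mem_levC.1 hj with h | ⟨i', rfl⟩
  · exact (hj' (Iio_subset_Iic_self (levIio_sub_Iio β γ h))).elim
  · by_contra h
    exact hj' (pt_le_pt.2 (Or.inr ⟨rfl, (hγ i' (mem_insert_of_mem _ h)).le⟩))

/-- Covering along the levels. -/
theorem lev_cov {A0 A : Set Θ} (hA0 : IsLowerSet A0) (hA : IsLowerSet A) (hV : Valid X D A)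
    {ι Z : Type u} [Nonempty Z] (rk : ι → Θ) (hrk : ∀ γ, #{i | rk i ≤ γ} ≤ X.κ γ)
    (dec : ι → Cnd (JJ Θ) Ω → Z → Prop)
    (hn : ∀ i, IsNm (Low D (lev A)) (Le D (lev A)) (dec i))
    {p : Cnd (JJ Θ) Ω} (hp : p ∈ Low D (lev A)) :
    ∃ p' ∈ Low D (lev A), TExt D (lev A0) (lev A) p' p ∧ ∃ V : Set Z,
      #V ≤ sum (fun γ : A => X.κ γ) ∧ ∀ i x, ∀ γ ∈ A, A0 ⊆ Iic γ → rk i ≤ γ →
        ∀ r ∈ Low D (lev A), (∀ j ∈ lev A, j ∉ lev (Iic γ) → DirAt D j r p') →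
          dec i r x → x ∈ V := by
  have hB := basicOn_lev hV
  have hb : ∀ a : {γ // γ ∈ A ∧ A0 ⊆ Iic γ},
      #(Keys D (lev (Iic a.1))) * #{i | rk i ≤ a.1} ≤ X.κ a.1 := fun a => by
    obtain ⟨k, hk⟩ := hV a.1 a.2.1
    exact cov_mul_le (X.aleph0_lt_κ _).le
      ((mk_le_mk_of_subset fun _ h => h.1).trans (mk_low_Iic hk)) (hrk _)
  have hed : ∀ γ ∈ A, lev (Iic γ) ⊆ lev A := fun γ hγ => lev_mono fun _ h => hA h hγ
  obtain ⟨p', hp', ht, val, hval⟩ := reduce (c := lev A0) (lev_lower hA) hB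
    (A := {γ // γ ∈ A ∧ A0 ⊆ Iic γ}) (fun a => lev (Iic a.1)) (fun a => levIic_lower a.1)
    (fun a => lev_mono a.2.2) (fun a => hed a.1 a.2.1)
    (fun i a => rk i ≤ a.1) dec hn (by
      intro j hj _
      refine (cl_lb hV hj).anti ?_
      rw [X.lb_eq]
      refine le_trans ?_ le_add_self
      exact cov_tasks_le (fun a : {γ // γ ∈ A ∧ A0 ⊆ Iic γ} => j ∉ lev (Iic a.1))
        (fun a => Keys D (lev (Iic a.1))) (fun i a => rk i ≤ a.1)
        (fun a => ⟨a.1.1, not_le.1 a.2⟩)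
        (fun a b h => Subtype.ext (Subtype.ext (congrArg (fun x => x.1) h))) fun a => hb a.1) hp
  refine ⟨p', hp', ht, (fun w => val w.1 w.2.1 w.2.2) ''
    {w : {γ // γ ∈ A ∧ A0 ⊆ Iic γ} × Cnd (JJ Θ) Ω × ι |
      True ∧ w.2.1 ∈ Keys D (lev (Iic w.1.1)) ∧ rk w.2.2 ≤ w.1.1},
    mk_image_le.trans (cov_tasks_le (fun _ : {γ // γ ∈ A ∧ A0 ⊆ Iic γ} => True)
      (fun a => Keys D (lev (Iic a.1))) (fun i a => rk i ≤ a.1) (fun a => ⟨a.1.1, a.1.2.1⟩)
      (fun a b h => Subtype.ext (Subtype.ext (congrArg (fun x => x.1) h))) fun a => hb a.1), ?_⟩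
  intro i x γ hγ h0 hi r hr hle hd
  exact ⟨(⟨γ, hγ, h0⟩, strip (res (lev (Iic γ)) r), i), ⟨trivial,
    strip_mem (hB.anti (hed γ hγ)) (res_mem hr (hed γ hγ)), hi⟩,
    (hval ⟨γ, hγ, h0⟩ i x hi r hr hle hd).1.symm⟩

/-- The plain form of covering along the levels. -/
theorem lev_cov' {A : Set Θ} (hA : IsLowerSet A) (hV : Valid X D A)
    {ι Z : Type u} [Nonempty Z] (rk : ι → Θ) (hrA : ∀ i, rk i ∈ A)
    (hrk : ∀ γ, #{i | rk i ≤ γ} ≤ X.κ γ) (dec : ι → Cnd (JJ Θ) Ω → Z → Prop)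
    (hn : ∀ i, IsNm (Low D (lev A)) (Le D (lev A)) (dec i))
    {p : Cnd (JJ Θ) Ω} (hp : p ∈ Low D (lev A)) :
    ∃ p' ∈ Low D (lev A), Le D (lev A) p' p ∧ ∃ V : Set Z,
      #V ≤ sum (fun γ : A => X.κ γ) ∧ ∀ i x, ∀ r ∈ Low D (lev A), Le D (lev A) r p' →
        dec i r x → x ∈ V := by
  obtain ⟨p', hp', ht, V, hV', H⟩ := lev_cov isLowerSet_empty hA hV rk hrk dec hn hp
  refine ⟨p', hp', ht.le (lev_lower hA) (basicOn_lev hV) hp', V, hV', fun i x r hr hle hd => ?_⟩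
  have hf : (insert (rk i) ((fun j : JJ Θ => (ofLex j).1) '' {j | (r j).s ≠ none})).Finite :=
    (hr.2.2.image _).insert _
  obtain ⟨γ, hγ, hm⟩ := exists_max_image _ id hf (insert_nonempty _ _)
  have hγA : γ ∈ A := by
    rcases hγ with rfl | ⟨j, hj, rfl⟩
    · exact hrA i
    · by_contra h
      exact hj (by rw [hr.2.1 j h]; rfl)
  refine H i x γ hγA (empty_subset _) (hm _ (mem_insert _ _)) r hr (fun j hj hj' => ?_) hd
  refine cov_dirAt (hle j hj) ?_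
  by_contra h
  exact hj' (hm _ (mem_insert_of_mem _ ⟨j, h, rfl⟩))

/-- Covering below a level by sets of size `lb β`. -/
theorem low_cov (hV : Valid X D (Iio β)) {ι Z : Type u} [Nonempty Z] (hι : #ι ≤ X.lb β)
    (dec : ι → Cnd (JJ Θ) Ω → Z → Prop)
    (hn : ∀ i, IsNm (Low D (lev (Iio β))) (Le D (lev (Iio β))) (dec i))
    {p : Cnd (JJ Θ) Ω} (hp : p ∈ Low D (lev (Iio β))) :
    ∃ p' ∈ Low D (lev (Iio β)), Le D (lev (Iio β)) p' p ∧ ∃ V : Set Z, #V ≤ X.lb β ∧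
      ∀ i x, ∀ r ∈ Low D (lev (Iio β)), Le D (lev (Iio β)) r p' → dec i r x → x ∈ V := by
  rcases (Iio β).eq_empty_or_nonempty with h0 | ⟨γ0, h0⟩
  · have hL : Low D (lev (Iio β)) = {ctop} := by rw [h0, lev_empty, Low_empty]
    refine ⟨p, hp, Le.refl (levIio_lower β) (basicOn_lev hV) hp, ⋃ i, {x | dec i p x},
      (mk_iUnion_le_sum_mk.trans (sum_le_sum _ (fun _ => 1) fun i => ?_)).trans ?_, ?_⟩
    · exact mk_le_one_iff_set_subsingleton.2 fun x hx y hy => (hn i).func p hp x y hx hy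
    · simpa using hι
    · intro i x r hr _ hd
      rw [hL] at hr hp
      exact mem_iUnion.2 ⟨i, by rw [hp, ← hr]; exact hd⟩
  have e : X.lb β = #((ℵ₁ : Cardinal.{u}).out ⊕ Σ γ : Iio β, (X.κ γ).out) := by
    simp [X.lb_eq, mk_sigma]
  obtain ⟨f⟩ := (Cardinal.le_def _ _).1 (e ▸ hι)
  let g : ((ℵ₁ : Cardinal.{u}).out ⊕ Σ γ : Iio β, (X.κ γ).out) → Θ :=
    Sum.elim (fun _ => γ0) fun y => y.1.1
  have hg : ∀ γ, #{y | g y ≤ γ} ≤ X.κ γ := by
    intro γ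
    have h₁ : {y | g y ≤ γ} ⊆ range Sum.inl ∪
        ⋃ γ' : {γ' : Iio β // γ'.1 ≤ γ}, range fun z : (X.κ γ'.1).out => Sum.inr ⟨γ'.1, z⟩ := by
      rintro (y | ⟨γ', z⟩) hy
      · exact Or.inl ⟨y, rfl⟩
      · exact Or.inr (mem_iUnion.2 ⟨⟨γ', hy⟩, z, rfl⟩)
    refine (mk_le_mk_of_subset h₁).trans ((mk_union_le _ _).trans
      (add_le_of_le (X.aleph0_lt_κ γ).le ?_ ?_))
    · refine mk_range_le.trans ?_
      rw [mk_out]
      exact (X.aleph1_le_lb γ).trans (X.lb_lt' γ).le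
    · refine mk_iUnion_le_sum_mk.trans ((sum_le_sum _ (fun _ => X.κ γ) fun γ' => ?_).trans ?_)
      · refine mk_range_le.trans ?_
        rw [mk_out]
        exact X.κ_mono.monotone γ'.2
      · rw [sum_const']
        have := (X.ct β).to_subtype
        exact cov_mul_le (X.aleph0_lt_κ γ).le (mk_le_aleph0.trans (X.aleph0_lt_κ γ).le) le_rfl
  obtain ⟨p', hp', ht, V, hV', H⟩ := lev_cov' (isLowerSet_Iio β) hV (fun i => g (f i))
    (fun i => by
      rcases f i with y | y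
      exacts [h0, y.1.2])
    (fun γ => le_trans (mk_le_of_injective (f := fun i => ⟨f i.1, i.2⟩)
      fun a b h => Subtype.ext (f.injective (congrArg (fun x => x.1) h))) (hg γ)) dec hn hp
  exact ⟨p', hp', ht, V, hV'.trans (X.lb_eq β ▸ le_add_self), H⟩

end Pool.Agent.MP_a2558b_lc

end

section

namespace Pool.Agent.MP_a2558b_lc

open Cardinal hiding univ
open Set Base

universe u

/-! ### Inaccessible arithmetic -/

theorem inacc_two_pow {κ c : Cardinal.{u}} (h : κ.IsInaccessible) (hc : c < κ) : 2 ^ c < κ :=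
  h.isStrongPrelimit hc

theorem inacc_small_sets {κ : Cardinal.{u}} (h : κ.IsInaccessible) {α : Type u} (hα : #α = κ) :
    #{s : Set α // #s < κ} = κ := by
  have := Cardinal.mk_subset_mk_lt_cof (α := α) (hα ▸ h.isStrongPrelimit)
  rwa [hα, h.isRegular.cof_ord] at this

theorem inacc_pow_le {κ c : Cardinal.{u}} (h : κ.IsInaccessible) (hc : c < κ) : κ ^ c ≤ κ := by
  have h0 : ℵ₀ ≤ κ := h.aleph0_lt.le
  rcases eq_or_ne c 0 with rfl | hc0
  · simpa using Cardinal.one_le_iff_ne_zero.2 h.ne_zero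
  have e : #(c.out × κ.out) = κ := by
    simp only [mk_prod, lift_id, mk_out]
    exact mul_eq_right h0 hc.le hc0
  have e' : κ ^ c = #(c.out → κ.out) := by rw [← power_def, mk_out, mk_out]
  refine e'.trans_le (le_of_le_of_eq ?_ (inacc_small_sets h e))
  refine mk_le_of_injective (f := fun f : c.out → κ.out => (⟨range fun i => (i, f i),
    mk_range_le.trans_lt (by rwa [mk_out])⟩ : {s : Set (c.out × κ.out) // #s < κ}))
    fun f g hfg => funext fun i => ?_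
  have : (i, f i) ∈ range fun i => (i, g i) := by
    have h := congrArg Subtype.val hfg
    dsimp only at h
    rw [← h]; exact mem_range_self i
  obtain ⟨j, hj⟩ := this
  obtain ⟨rfl, h⟩ := Prod.mk.inj hj
  exact h.symm

variable {Θ Ω : Type u} [LinearOrder Θ] [WellFoundedLT Θ] [LinearOrder Ω] [WellFoundedLT Ω]
  [Inhabited Ω]

/-- A small family of valid systems that agree below level `β`, with conditions. -/
structure Fam (X : Ctx Θ Ω) (D0 : Sys (JJ Θ) Ω) (β : Θ) (K : Type u) where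
  D : K → Sys (JJ Θ) Ω
  p : K → Cnd (JJ Θ) Ω
  valid : ∀ N, Valid X (D N) univ
  agree : ∀ N, ∀ j ∈ lev (Iio β), D N j = D0 j
  mem : ∀ N, p N ∈ Low (D N) univ
  card : #K ≤ X.κ β

/-- Terms of the product of the direct extension orders. -/
abbrev Tm0 (Θ Ω K : Type u) : Type u := (K → WithTop Θ → Vl Ω) × Ω

namespace Fam

variable {X : Ctx Θ Ω} {D0 : Sys (JJ Θ) Ω} {β : Θ} {K : Type u} (F : Fam X D0 β K)

def T (γ : Θ) : Set (Tm0 Θ Ω K) :=
  {t | t.2 < X.kap γ ∧ ∀ N i, OkAt (F.D N) (toLex (γ, i)) (t.1 N i) ∧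
    (t.1 N i).s = (F.p N (toLex (γ, i))).s ∧ (F.p N (toLex (γ, i))).E ⊆ (t.1 N i).E ∧
      (F.D N (toLex (γ, i))).le (t.1 N i).t (F.p N (toLex (γ, i))).t ctop}

def le (γ : Θ) (t' t : Tm0 Θ Ω K) (q : Cnd (JJ Θ) Ω) : Prop :=
  ∀ N i, (t.1 N i).E ⊆ (t'.1 N i).E ∧ (F.D N (toLex (γ, i))).le (t'.1 N i).t (t.1 N i).t q

def o (γ : Θ) : Tm0 Θ Ω K := (fun N i => F.p N (toLex (γ, i)), X.w1)

omit [WellFoundedLT Θ] [WellFoundedLT Ω]

theorem basic (N : K) : BasicOn (F.D N) univ := basicOn_univ (F.valid N)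

theorem low_eq (N : K) : Low (F.D N) (lev (Iio β)) = Low D0 (lev (Iio β)) := Low_congr (F.agree N)

theorem le_eq (N : K) : Le (F.D N) (lev (Iio β)) = Le D0 (lev (Iio β)) := Le_congr (F.agree N)

variable {γ : Θ}

theorem sub_bs (h : β ≤ γ) (i : WithTop Θ) : lev (Iio β) ⊆ bs (toLex (γ, i) : JJ Θ) :=
  (lev_mono (Iio_subset_Iio h)).trans (levIio_sub_bs (j := toLex (γ, i)))

theorem mem_bs (N : K) (h : β ≤ γ) (i : WithTop Θ) {q : Cnd (JJ Θ) Ω}
    (hq : q ∈ Low D0 (lev (Iio β))) : q ∈ Low (F.D N) (bs (toLex (γ, i) : JJ Θ)) :=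
  Low_mono ((F.basic N).anti (subset_univ _)) (sub_bs h i) (F.low_eq N ▸ hq)

theorem t_mem_T {t : Tm0 Θ Ω K} (ht : t ∈ F.T γ) (N : K) (i : WithTop Θ) :
    (t.1 N i).t ∈ (F.D N (toLex (γ, i))).T :=
  (F.basic N _ (mem_univ _)).car_sub (ht.2 N i).1.1 (ht.2 N i).1.2.2.2

theorem o_mem (γ : Θ) : F.o γ ∈ F.T γ :=
  ⟨(X.w1_mu γ).trans (X.mu_kap γ), fun N _ => ⟨(F.mem N).1 _ (mem_univ _), rfl, Subset.rfl,
    (TDir.refl isLowerSet_univ (F.basic N) (mem_univ _) (F.mem N) rfl).2.2⟩⟩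

theorem le_refl (h : β ≤ γ) : ∀ t ∈ F.T γ, ∀ q ∈ Low D0 (lev (Iio β)), F.le γ t t q :=
  fun _ ht _ hq N i => ⟨Subset.rfl,
    (F.basic N _ (mem_univ _)).refl _ (F.t_mem_T ht N i) _ (F.mem_bs N h i hq)⟩

theorem le_trans (h : β ≤ γ) : ∀ a b c, ∀ q ∈ Low D0 (lev (Iio β)),
    F.le γ a b q → F.le γ b c q → F.le γ a c q :=
  fun _ _ _ _ hq h₁ h₂ N i => ⟨(h₂ N i).1.trans (h₁ N i).1,
    (F.basic N _ (mem_univ _)).trans _ _ _ _ (F.mem_bs N h i hq) (h₁ N i).2 (h₂ N i).2⟩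

/-- A term inequality forced by a condition below level `β` holds below it. -/
theorem tle (N : K) (h : β ≤ γ) (i : WithTop Θ) {q q' : Cnd (JJ Θ) Ω}
    (hq : q ∈ Low D0 (lev (Iio β))) (hq' : q' ∈ Low (F.D N) (bs (toLex (γ, i) : JJ Θ)))
    (hle : Le D0 (lev (Iio β)) q' q) {a b : Ω} (H : (F.D N (toLex (γ, i))).le a b q) :
    (F.D N (toLex (γ, i))).le a b q' :=
  (F.basic N _ (mem_univ _)).mono _ _ _ (F.mem_bs N h i hq) _ hq'
    (le_of_low (low _) ((F.basic N).anti (subset_univ _)) hq' (F.low_eq N ▸ hq)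
      (F.le_eq N ▸ hle)) H

theorem le_mono (h : β ≤ γ) : ∀ a b, ∀ q ∈ Low D0 (lev (Iio β)), ∀ q' ∈ Low D0 (lev (Iio β)),
    Le D0 (lev (Iio β)) q' q → F.le γ a b q → F.le γ a b q' :=
  fun _ _ _ hq _ hq' hle H N i =>
    ⟨(H N i).1, F.tle N h i hq (F.mem_bs N h i hq') hle (H N i).2⟩

theorem le_top (h : β ≤ γ) : ∀ t ∈ F.T γ, ∀ q ∈ Low D0 (lev (Iio β)), F.le γ t (F.o γ) q :=
  fun _ ht _ hq N i => ⟨(ht.2 N i).2.2.1, tle_of_top isLowerSet_univ (F.basic N) (mem_univ _)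
    (F.mem_bs N h i hq) (ht.2 N i).2.2.2⟩

theorem ndc (hB : BasicOn D0 (lev (Iio β))) (h : β ≤ γ) :
    NDCOn (F.le γ) (Low D0 (lev (Iio β))) (Le D0 (lev (Iio β))) ctop (F.T γ) (X.lb γ) := by
  intro ι t M t0 hι h0 ht hM hb hdir
  have hc := levIio_lower β
  have key : ∀ N i, ∃ s ∈ (F.D N (toLex (γ, i))).car (F.p N (toLex (γ, i))).s,
      (F.D N (toLex (γ, i))).le s (t0.1 N i).t ctop ∧
      ∀ k, ∀ q ∈ M k, (F.D N (toLex (γ, i))).le s ((t k).1 N i).t q := by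
    intro N i
    have hcl : Cl (F.D N) (toLex (γ, i)) (X.lb γ) := cl_lb (F.valid N) (mem_univ _)
    have hBN := (F.basic N).anti (subset_univ (bs (toLex (γ, i) : JJ Θ)))
    have hres : ∀ q ∈ Low (F.D N) (bs (toLex (γ, i) : JJ Θ)),
        res (lev (Iio β)) q ∈ Low D0 (lev (Iio β)) :=
      fun q hq => F.low_eq N ▸ res_mem hq (sub_bs h i)
    have hself : ∀ q ∈ Low (F.D N) (bs (toLex (γ, i) : JJ Θ)),
        Le D0 (lev (Iio β)) q (res (lev (Iio β)) q) := fun q hq =>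
      F.le_eq N ▸ (le_res (low _) hBN hq).anti (sub_bs h i)
    obtain ⟨s, hs, h₁, h₂⟩ := hcl.2.car ((F.mem N).1 _ (mem_univ _)).1 ι
      (fun k => ((t k).1 N i).t)
      (fun k => {q | q ∈ Low (F.D N) (bs (toLex (γ, i) : JJ Θ)) ∧ res (lev (Iio β)) q ∈ M k})
      (t0.1 N i).t hι ((h0.2 N i).2.1 ▸ (h0.2 N i).1.2.2.2)
      (fun k => ((ht k).2 N i).2.1 ▸ ((ht k).2 N i).1.2.2.2)
      (fun k => ⟨fun q hq => hq.1, fun q hq q' hq' hle => ⟨hq', (hM k).2 _ hq.2 _ (hres q' hq')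
        ((le_res_left hc Subset.rfl).2 ((le_res_right hc Subset.rfl).2
          (F.le_eq N ▸ hle.anti (sub_bs h i))))⟩⟩)
      (fun k q hq => F.tle N h i (hres q hq.1) hq.1 (hself q hq.1) (hb k _ hq.2 N i).2)
      (fun k k' q hq hq' => by
        obtain ⟨l, hl, hle, k'', hk, h₃, h₄⟩ := hdir k k' _ hq.2 hq'.2
        have hl' : l ∈ Low (F.D N) (lev (Iio β)) := F.low_eq N ▸ hl
        have hm := glue_mem' hl' (sub_bs h i) hq.1
        have hr : res (lev (Iio β)) (glue (lev (Iio β)) l q) = l :=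
          (res_glue Subset.rfl).trans (res_eq_self hl)
        have hle' : Le D0 (lev (Iio β)) (glue (lev (Iio β)) l q) l := by
          have := hself _ hm
          rwa [hr] at this
        refine ⟨glue (lev (Iio β)) l q, hm, glue_le (low _) hBN hc hm
          (F.le_eq N ▸ (le_res_right hc Subset.rfl).1 hle), k'', ⟨hm, hr.symm ▸ hk⟩,
          F.tle N h i hl hm hle' (h₃ N i).2, F.tle N h i hl hm hle' (h₄ N i).2⟩)
    refine ⟨s, hs, h₁, fun k q hq => h₂ k q ⟨F.mem_bs N h i ((hM k).1 hq), ?_⟩⟩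
    rwa [res_eq_self ((hM k).1 hq)]
  choose s hs h₁ h₂ using key
  refine ⟨(fun N i => ⟨(F.p N (toLex (γ, i))).s, (t0.1 N i).E ∪ ⋃ k, ((t k).1 N i).E, s N i⟩,
    t0.2), ⟨h0.1, fun N i => ⟨⟨((F.mem N).1 _ (mem_univ _)).1, ?_, ?_, hs N i⟩, rfl,
      (h0.2 N i).2.2.1.trans subset_union_left, ?_⟩⟩,
    fun N i => ⟨subset_union_left, h₁ N i⟩, fun k q hq N i =>
      ⟨(subset_iUnion (fun k => ((t k).1 N i).E) k).trans subset_union_right, h₂ N i k q hq⟩⟩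
  · exact union_subset (h0.2 N i).1.2.1 (iUnion_subset fun k => ((ht k).2 N i).1.2.1)
  · have hcl : Cl (F.D N) (toLex (γ, i)) (X.lb γ) := cl_lb (F.valid N) (mem_univ _)
    exact (F.basic N _ (mem_univ _)).null_union _ _ (h0.2 N i).1.2.2.1
      (hcl.1 ι _ hι fun k => ((ht k).2 N i).1.2.2.1)
  · exact (F.basic N _ (mem_univ _)).trans _ _ _ _ (F.mem_bs N h i (ctop_mem hB)) (h₁ N i)
      (h0.2 N i).2.2.2

end Fam

namespace Fam

variable {X : Ctx Θ Ω} {D0 : Sys (JJ Θ) Ω} {β γ : Θ} {K : Type u} (F : Fam X D0 β K)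

theorem mk_T (h : β < γ) : #(F.T γ) = X.κ γ := by
  have hi := X.inacc γ
  have h0 : ℵ₀ ≤ X.κ γ := hi.aleph0_lt.le
  apply le_antisymm
  · let V : K → Set (WithTop Θ → Vl Ω) := fun N => {v | ∀ i, OkAt (F.D N) (toLex (γ, i)) (v i) ∧
      (v i).s = (F.p N (toLex (γ, i))).s}
    have hV : ∀ N, #(V N) ≤ X.κ γ := fun N => by
      obtain ⟨k, hk⟩ := F.valid N γ (mem_univ _)
      exact mk_level hk (F.p N)
    calc #(F.T γ) ≤ #((∀ N, V N) × Iio (X.kap γ)) :=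
          mk_le_of_injective (f := fun t => (fun N => ⟨t.1.1 N, fun i =>
            ⟨(t.2.2 N i).1, (t.2.2 N i).2.1⟩⟩, ⟨t.1.2, t.2.1⟩)) fun t t' e => by
            obtain ⟨e₁, e₂⟩ := Prod.mk.inj e
            exact Subtype.ext (Prod.ext (funext fun N => congrArg Subtype.val (congrFun e₁ N))
              (congrArg Subtype.val e₂))
      _ = (prod fun N => #(V N)) * X.κ γ := by simp [mk_pi, X.mk_kap]
      _ ≤ X.κ γ ^ #K * X.κ γ := by
          gcongr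
          simpa using prod_le_prod _ (fun _ : K => X.κ γ) hV
      _ ≤ X.κ γ * X.κ γ := by
          gcongr
          exact inacc_pow_le hi (F.card.trans_lt (X.κ_mono h))
      _ = X.κ γ := mul_eq_self h0
  · rw [← X.mk_kap]
    exact mk_le_of_injective (f := fun a => ⟨((F.o γ).1, a.1), a.2, (F.o_mem γ).2⟩)
      fun a b e => Subtype.ext (congrArg (fun t => t.1.2) e)

open Classical in
/-- The condition given by a sequence of terms above level `β`. -/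
noncomputable def cnd (N : K) (t : Θ → Tm0 Θ Ω K) : Cnd (JJ Θ) Ω :=
  fun j => if β < (ofLex j).1 then (t (ofLex j).1).1 N (ofLex j).2 else F.p N j

omit [WellFoundedLT Θ] [WellFoundedLT Ω] in
theorem cnd_gt (N : K) (t : Θ → Tm0 Θ Ω K) (h : β < γ) (i : WithTop Θ) :
    F.cnd N t (toLex (γ, i)) = (t γ).1 N i := if_pos h

omit [WellFoundedLT Θ] [WellFoundedLT Ω] in
theorem cnd_le (N : K) (t : Θ → Tm0 Θ Ω K) {j : JJ Θ} (h : j ∈ lev (Iic β)) :
    F.cnd N t j = F.p N j := if_neg (not_lt.2 h)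

omit [WellFoundedLT Θ] [WellFoundedLT Ω] in
theorem cnd_mem (N : K) {t : Θ → Tm0 Θ Ω K} (ht : ∀ γ, β < γ → t γ ∈ F.T γ) :
    F.cnd N t ∈ Low (F.D N) univ := by
  refine ⟨fun j _ => ?_, fun j hj => (hj (mem_univ j)).elim, (F.mem N).2.2.subset fun j hj => ?_⟩
  · by_cases h : β < (ofLex j).1
    · exact (F.cnd_gt N t h (ofLex j).2).symm ▸ ((ht _ h).2 N _).1
    · rw [F.cnd_le N t (not_lt.1 h)]; exact (F.mem N).1 j (mem_univ j)
  · by_cases h : β < (ofLex j).1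
    · have e : (F.cnd N t j).s = (F.p N j).s :=
        (congrArg Vl.s (F.cnd_gt N t h (ofLex j).2)).trans ((ht _ h).2 N _).2.1
      exact fun h' => hj (e.trans h')
    · exact fun h' => hj (F.cnd_le N t (not_lt.1 h) ▸ h')

/-- Below `t` the value of the name `ζ` is below `b`, modulo bounded changes. -/
def Cov (N : K) (ζ : Cnd (JJ Θ) Ω → Ω → Prop) (t : Θ → Tm0 Θ Ω K) (b : Ω) : Prop :=
  ∃ γ0, ∀ γ, γ0 ≤ γ → ∀ r ∈ Low (F.D N) univ,
    (∀ j, j ∉ lev (Iic γ) → DirAt (F.D N) j r (F.cnd N t)) → ∀ x, ζ r x → x < b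

theorem exists_cov (ζ : K → Ω → Cnd (JJ Θ) Ω → Ω → Prop)
    (hζ : ∀ N a, IsNm (Low (F.D N) univ) (Le (F.D N) univ) (ζ N a)) (t : Θ → Tm0 Θ Ω K) (a : Ω) :
    ∃ (t' : Θ → Tm0 Θ Ω K) (b : Ω), (∀ γ, β < γ → t γ ∈ F.T γ) →
      (∀ γ, β < γ → t' γ ∈ F.T γ ∧ F.le γ (t' γ) (t γ) ctop) ∧
        ∀ N, ∀ a' < a, F.Cov N (ζ N a') t' b := by
  by_cases ht : ∀ γ, β < γ → t γ ∈ F.T γ
  swap
  · exact ⟨t, a, fun h => absurd h ht⟩
  obtain ⟨e⟩ : Nonempty (Iio a ↪ Iio X.lam) := (le_def _ _).1 (X.mk_lam ▸ X.small a)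
  choose rk' hrk' using fun z : Iio X.lam => X.lam_cof z.1 z.2
  have wf : WellFounded (fun a b : Θ => a < b) := wellFounded_lt
  let rk : Iio a → Θ := fun i => wf.min {γ | (e i).1 < X.kap γ} ⟨_, hrk' (e i)⟩
  have hrk : ∀ γ, #{i | rk i ≤ γ} ≤ X.κ γ := fun γ => by
    rw [← X.mk_kap]
    exact mk_le_of_injective (f := fun i => ⟨(e i.1).1, lt_of_lt_of_le
      (wf.min_mem {γ | (e i.1).1 < X.kap γ} ⟨_, hrk' (e i.1)⟩) (X.kap_mono i.2)⟩)
      fun i i' h => Subtype.ext (e.injective (Subtype.ext (Subtype.mk.inj h)))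
  choose p' hp' hT V hV H using fun N => lev_cov (A0 := Iic β) (isLowerSet_Iic β) isLowerSet_univ
    (F.valid N) rk hrk (fun i : Iio a => ζ N i.1) (fun i => hζ N i.1) (F.cnd_mem N ht)
  have h0 : ℵ₀ ≤ sum X.κ := (X.aleph0_lt_κ β).le.trans (X.κ_le_sum β)
  have hs : (sum fun γ : (univ : Set Θ) => X.κ γ) ≤ sum X.κ := by
    unfold Cardinal.sum
    refine mk_le_of_injective (f := fun z : Σ γ : (univ : Set Θ), (X.κ γ).out =>
      (⟨z.1.1, z.2⟩ : Σ γ : Θ, (X.κ γ).out)) ?_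
    rintro ⟨⟨i, _⟩, x⟩ ⟨⟨j, _⟩, y⟩ h
    cases h
    rfl
  obtain ⟨b, hb⟩ := X.top_bdd (⋃ N, V N) (mk_iUnion_le_sum_mk.trans
    ((sum_le_sum _ (fun _ => sum X.κ) fun N => (hV N).trans hs).trans (by
      rw [sum_const']
      exact mul_le_of_le h0 (F.card.trans (X.κ_le_sum β)) le_rfl)))
  have hB := F.basic
  refine ⟨fun γ => (fun N i => p' N (toLex (γ, i)), (t γ).2), b, fun _ => ⟨fun γ hγ => ?_,
    fun N a' ha' => ⟨max β (rk ⟨a', ha'⟩), fun γ hγ r hr hd x hx => hb x (mem_iUnion.2 ⟨N,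
      H N ⟨a', ha'⟩ x γ (mem_univ _) (Iic_subset_Iic.2 ((le_max_left _ _).trans hγ))
        ((le_max_right _ _).trans hγ) r hr (fun j _ hj => ?_) hx⟩)⟩⟩⟩
  · have key : ∀ N i, TDir (F.D N) (toLex (γ, i)) (p' N) (F.cnd N t) := fun N i =>
      (hT N).2 _ (mem_univ _) (not_le.2 hγ)
    have key' : ∀ N i, (p' N (toLex (γ, i))).s = ((t γ).1 N i).s ∧
        ((t γ).1 N i).E ⊆ (p' N (toLex (γ, i))).E ∧
        (F.D N (toLex (γ, i))).le (p' N (toLex (γ, i))).t ((t γ).1 N i).t ctop := fun N i => by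
      have := key N i
      unfold TDir at this
      rwa [F.cnd_gt N t hγ] at this
    refine ⟨⟨(ht γ hγ).1, fun N i => ⟨(hp' N).1 _ (mem_univ _),
      (key' N i).1.trans ((ht γ hγ).2 N i).2.1, ((ht γ hγ).2 N i).2.2.1.trans (key' N i).2.1,
      (hB N _ (mem_univ _)).trans _ _ _ _ (ctop_mem ((hB N).anti (subset_univ _))) (key' N i).2.2
        ((ht γ hγ).2 N i).2.2.2⟩⟩, fun N i => (key' N i).2⟩
  · have hlt : β < (ofLex j).1 := lt_of_le_of_lt ((le_max_left _ _).trans hγ) (not_le.1 hj)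
    exact (dirAt_congr rfl (fun _ _ => rfl) (F.cnd_gt N _ hlt (ofLex j).2)).1 (hd j hj)

end Fam

end Pool.Agent.MP_a2558b_lc

end

section

namespace Pool.Agent.MP_a2558b_lc

open Cardinal hiding univ
open Set Base

universe u

variable {Θ Ω : Type u} [LinearOrder Θ] [WellFoundedLT Θ] [LinearOrder Ω] [WellFoundedLT Ω]
  [Inhabited Ω]

namespace Fam

variable {X : Ctx Θ Ω} {D0 : Sys (JJ Θ) Ω} {β : Θ} {K : Type u} (F : Fam X D0 β K)

/-- The level `β` of the system `N` codes small parts of the term orders of the family. -/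
structure Codes (N : K) (Tb : Θ → Set (Tm0 Θ Ω K)) (jt : Θ → Tm0 Θ Ω K → Ω) : Prop where
  sub : ∀ γ, β < γ → Tb γ ⊆ F.T γ
  card : ∀ γ, β < γ → #(Tb γ) ≤ X.κ β
  img : ∀ γ, β < γ → (F.D N (pt β γ)).T = jt γ '' Tb γ
  le : ∀ γ, β < γ → ∀ u ∈ Tb γ, ∀ u' ∈ Tb γ, ∀ q ∈ Low D0 (lev (Iio β)),
    ((F.D N (pt β γ)).le (jt γ u') (jt γ u) q ↔ F.le γ u' u q)

variable {F} {N : K} {Tb : Θ → Set (Tm0 Θ Ω K)} {jt : Θ → Tm0 Θ Ω K → Ω}

omit [WellFoundedLT Θ] [WellFoundedLT Ω]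

theorem pt_mem_bs {γ : Θ} (h : β < γ) (i : WithTop Θ) (δ : Θ) :
    pt β δ ∈ bs (toLex (γ, i) : JJ Θ) :=
  levIio_sub_bs (j := toLex (γ, i)) (pt_mem_lev.2 h)

/-- The master term at one coordinate. -/
theorem Codes.term (H : F.Codes N Tb jt) {γ : Θ} (h : β < γ) (i : WithTop Θ) :
    ∃ s ∈ (F.D N (toLex (γ, i))).car (F.p N (toLex (γ, i))).s,
      (F.D N (toLex (γ, i))).le s (F.p N (toLex (γ, i))).t ctop ∧
      ∀ u ∈ Tb γ, ∀ q ∈ Low (F.D N) (bs (toLex (γ, i) : JJ Θ)), (q (pt β γ)).t = jt γ u →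
        (F.D N (toLex (γ, i))).le s (u.1 N i).t q := by
  have hc := levIio_lower β
  have hcl : Cl (F.D N) (toLex (γ, i)) (X.lb γ) := cl_lb (F.valid N) (mem_univ _)
  have hBN := (F.basic N).anti (subset_univ (bs (toLex (γ, i) : JJ Θ)))
  have hb := pt_mem_bs h i γ
  have hP := hBN _ hb
  rw [bs_pt, F.low_eq, F.le_eq] at hP
  have hres : ∀ q ∈ Low (F.D N) (bs (toLex (γ, i) : JJ Θ)),
      res (lev (Iio β)) q ∈ Low D0 (lev (Iio β)) :=
    fun q hq => F.low_eq N ▸ res_mem hq (sub_bs h.le i)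
  have hself : ∀ q ∈ Low (F.D N) (bs (toLex (γ, i) : JJ Θ)),
      Le D0 (lev (Iio β)) q (res (lev (Iio β)) q) := fun q hq =>
    F.le_eq N ▸ (le_res (low _) hBN hq).anti (sub_bs h.le i)
  obtain ⟨s, hs, h₁, h₂⟩ := hcl.2.car ((F.mem N).1 _ (mem_univ _)).1 (Tb γ)
    (fun u => (u.1.1 N i).t)
    (fun u => {q | q ∈ Low (F.D N) (bs (toLex (γ, i) : JJ Θ)) ∧
      (F.D N (pt β γ)).le (q (pt β γ)).t (jt γ u.1) (res (lev (Iio β)) q)})
    (F.p N (toLex (γ, i))).t ((H.card γ h).trans (X.κ_le_lb h))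
    ((F.mem N).1 _ (mem_univ _)).2.2.2
    (fun u => ((H.sub γ h u.2).2 N i).2.1 ▸ ((H.sub γ h u.2).2 N i).1.2.2.2)
    (fun u => ⟨fun q hq => hq.1, fun q hq q' hq' hle => ⟨hq', by
      have e := (hle _ hb).2.2.2
      rw [bs_pt] at e
      exact hP.trans _ _ _ _ (hres q' hq') e (hP.mono _ _ _ (hres q hq.1) _ (hres q' hq')
        ((le_res_left hc Subset.rfl).2 ((le_res_right hc Subset.rfl).2
          (F.le_eq N ▸ hle.anti (sub_bs h.le i)))) hq.2)⟩⟩)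
    (fun u q hq => tle_of_top isLowerSet_univ (F.basic N) (mem_univ _) hq.1
      ((H.sub γ h u.2).2 N i).2.2.2)
    (fun u u' q hq hq' => by
      have hw := t_mem hBN hq.1 hb
      have hw' := hw
      rw [H.img γ h] at hw'
      obtain ⟨w, hwT, e⟩ := hw'
      refine ⟨q, hq.1, Le.refl (low _) hBN hq.1, ⟨w, hwT⟩, ⟨hq.1, ?_⟩, ?_, ?_⟩
      · have := hP.refl _ hw _ (hres q hq.1)
        rwa [e]
      · exact F.tle N h.le i (hres q hq.1) hq.1 (hself q hq.1)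
          (((H.le γ h _ u.2 _ hwT _ (hres q hq.1)).1 (e ▸ hq.2)) N i).2
      · exact F.tle N h.le i (hres q hq.1) hq.1 (hself q hq.1)
          (((H.le γ h _ u'.2 _ hwT _ (hres q hq.1)).1 (e ▸ hq'.2)) N i).2)
  refine ⟨s, hs, h₁, fun u hu q hq e => h₂ ⟨u, hu⟩ q ⟨hq, ?_⟩⟩
  have := hP.refl _ (t_mem hBN hq hb) _ (hres q hq)
  rwa [← e]

/-- The master condition. -/
theorem Codes.cond (H : F.Codes N Tb jt) :
    ∃ r ∈ Low (F.D N) univ, Le (F.D N) univ r (F.p N) ∧ ∀ γ, β < γ → ∀ i : WithTop Θ,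
      ∀ u ∈ Tb γ, (u.1 N i).E ⊆ (r (toLex (γ, i))).E ∧
        ∀ q ∈ Low (F.D N) (bs (toLex (γ, i) : JJ Θ)), (q (pt β γ)).t = jt γ u →
          (F.D N (toLex (γ, i))).le (r (toLex (γ, i))).t (u.1 N i).t q := by
  classical
  choose! s hs h₁ h₂ using fun (γ : Θ) (h : β < γ) (i : WithTop Θ) => H.term h i
  let t : Θ → Tm0 Θ Ω K := fun γ => (fun N' i => if N' = N then
    ⟨(F.p N (toLex (γ, i))).s, (F.p N (toLex (γ, i))).E ∪ ⋃ u : Tb γ, (u.1.1 N i).E, s γ i⟩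
    else F.p N' (toLex (γ, i)), X.w1)
  have e : ∀ γ i, (t γ).1 N i = ⟨(F.p N (toLex (γ, i))).s,
      (F.p N (toLex (γ, i))).E ∪ ⋃ u : Tb γ, (u.1.1 N i).E, s γ i⟩ := fun γ i => if_pos rfl
  have ht : ∀ γ, β < γ → t γ ∈ F.T γ := fun γ h => ⟨(F.o_mem γ).1, fun N' i => by
    by_cases hN : N' = N
    · subst hN
      rw [e]
      have hcl : Cl (F.D N') (toLex (γ, i)) (X.lb γ) := cl_lb (F.valid N') (mem_univ _)
      have hp := (F.mem N').1 (toLex (γ, i)) (mem_univ _)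
      exact ⟨⟨hp.1, union_subset hp.2.1 (iUnion_subset fun u => ((H.sub γ h u.2).2 N' i).1.2.1),
        (F.basic N' _ (mem_univ _)).null_union _ _ hp.2.2.1
          (hcl.1 _ _ ((H.card γ h).trans (X.κ_le_lb h))
            fun u => ((H.sub γ h u.2).2 N' i).1.2.2.1), hs γ h i⟩, rfl, subset_union_left,
        h₁ γ h i⟩
    · have e' : (t γ).1 N' i = F.p N' (toLex (γ, i)) := if_neg hN
      rw [e']
      exact (F.o_mem γ).2 N' i⟩
  have hm := F.cnd_mem N ht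
  refine ⟨F.cnd N t, hm, TExt.le (c := lev (Iic β)) isLowerSet_univ (F.basic N) hm
    ⟨fun j hj => F.cnd_le N t hj, fun j _ hj => ?_⟩, fun γ h i u hu => ?_⟩
  · have h : β < (ofLex j).1 := not_le.1 hj
    have := ((ht _ h).2 N (ofLex j).2).2
    rw [← F.cnd_gt N t h] at this
    exact this
  · rw [F.cnd_gt N t h, e]
    exact ⟨(subset_iUnion (fun u : Tb γ => (u.1.1 N i).E) ⟨u, hu⟩).trans subset_union_right,
      h₂ γ h i u hu⟩

/-- The master condition forces that `d` is closed under the names. -/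
theorem Codes.master (H : F.Codes N Tb jt) (ζ : Ω → Cnd (JJ Θ) Ω → Ω → Prop)
    (hζ : ∀ a, IsNm (Low (F.D N) univ) (Le (F.D N) univ) (ζ a)) {d : Ω}
    (hcl : ∀ t : Θ → Tm0 Θ Ω K, (∀ γ, β < γ → t γ ∈ Tb γ) → ∀ a < d, ∃ t' : Θ → Tm0 Θ Ω K,
      ∃ b < d, (∀ γ, β < γ → t' γ ∈ Tb γ ∧ F.le γ (t' γ) (t γ) ctop) ∧ F.Cov N (ζ a) t' b) :
    ∃ r ∈ Low (F.D N) univ, Le (F.D N) univ r (F.p N) ∧
      ∀ a < d, ∀ r' ∈ Low (F.D N) univ, Le (F.D N) univ r' r → ∀ x, ζ a r' x → x < d := by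
  classical
  obtain ⟨r, hr, hrp, hm⟩ := H.cond
  refine ⟨r, hr, hrp, fun a ha r' hr' hle x hx => ?_⟩
  have hB := F.basic N
  have hu : IsLowerSet (univ : Set (JJ Θ)) := isLowerSet_univ
  have : Nonempty (Tm0 Θ Ω K) := ⟨F.o β⟩
  choose! t ht₁ ht₂ using fun (γ : Θ) (h : β < γ) =>
    (H.img γ h ▸ t_mem hB hr' (mem_univ (pt β γ)) : (r' (pt β γ)).t ∈ jt γ '' Tb γ)
  obtain ⟨t', b, hb, ht', γ0, hcov⟩ := hcl t ht₁ a ha
  obtain ⟨γ1, hγ1⟩ := X.exists_bound (s := {β, γ0} ∪ ((fun j : JJ Θ => (ofLex j).1) ''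
    {j | (r' j).s ≠ none} ∪ {i | (r' (pt β i)).s ≠ none}))
    ((toFinite _).countable.union ((hr'.2.2.image _).countable.union
      (hr'.2.2.preimage (f := pt β) fun _ _ _ _ h => (pt_inj.1 h).2).countable))
  have hβ : β < γ1 := hγ1 _ (Or.inl (Or.inl rfl))
  have hn₁ : ∀ j : JJ Θ, γ1 < (ofLex j).1 → (r' j).s = none := fun j hj => by
    by_contra h
    exact lt_asymm hj (hγ1 _ (Or.inr (Or.inl ⟨j, h, rfl⟩)))
  have hn₂ : ∀ i, γ1 < i → (r' (pt β i)).s = none := fun i hi => by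
    by_contra h
    exact lt_asymm hi (hγ1 _ (Or.inr (Or.inr h)))
  let r1 : Cnd (JJ Θ) Ω := fun j => if h : ∃ γ, γ1 < γ ∧ j = pt β γ then
    ⟨(r' j).s, (r' j).E, jt h.choose (t' h.choose)⟩ else r' j
  have e₁ : ∀ γ, γ1 < γ → r1 (pt β γ) = ⟨(r' (pt β γ)).s, (r' (pt β γ)).E, jt γ (t' γ)⟩ := by
    intro γ h
    have h' : ∃ γ', γ1 < γ' ∧ pt β γ = pt β γ' := ⟨γ, h, rfl⟩
    have := (pt_inj.1 h'.choose_spec.2).2
    simp only [r1, dif_pos h', ← this]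
  have e₂ : ∀ j, (¬ ∃ γ, γ1 < γ ∧ j = pt β γ) → r1 j = r' j := fun j h => dif_neg h
  have es : ∀ j, (r1 j).s = (r' j).s := fun j => by
    by_cases h : ∃ γ, γ1 < γ ∧ j = pt β γ
    · obtain ⟨γ, h, rfl⟩ := h
      rw [e₁ γ h]
    · rw [e₂ j h]
  have hr1 : r1 ∈ Low (F.D N) univ := by
    refine ⟨fun j _ => ?_, fun j hj => (hj (mem_univ j)).elim, by simpa only [es] using hr'.2.2⟩
    by_cases h : ∃ γ, γ1 < γ ∧ j = pt β γ
    · obtain ⟨γ, h, rfl⟩ := h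
      have h0 := hr'.1 (pt β γ) (mem_univ _)
      rw [e₁ γ h]
      refine ⟨h0.1, h0.2.1, h0.2.2.1, ?_⟩
      rw [hn₂ γ h]
      change jt γ (t' γ) ∈ (F.D N (pt β γ)).T
      rw [H.img γ (hβ.trans h)]
      exact mem_image_of_mem _ (ht' γ (hβ.trans h)).1
    · rw [e₂ j h]; exact hr'.1 j (mem_univ _)
  have hle1 : Le (F.D N) univ r1 r' := by
    intro j _
    by_cases h : ∃ γ, γ1 < γ ∧ j = pt β γ
    · obtain ⟨γ, h, rfl⟩ := h
      have h' := hβ.trans h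
      have hq := res_bs_mem hu hr1 (mem_univ (pt β γ))
      refine (dirAt_of (es _) (by rw [e₁ γ h]) ?_).2
      refine tle_of_top hu hB (mem_univ _) hq ?_
      rw [e₁ γ h, ← ht₂ γ h']
      exact (H.le γ h' _ (ht₁ γ h') _ (ht' γ h').1 _
        (F.low_eq N ▸ ctop_mem (hB.anti (subset_univ _)))).2 (ht' γ h').2
    · exact leAt_refl hu hB (mem_univ _) hr1 (e₂ j h)
  refine lt_trans (hcov γ1 (hγ1 _ (Or.inl (Or.inr rfl))).le r1 hr1 (fun j hj => ?_) x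
    ((hζ a).mono _ hr' _ hr1 hle1 x hx)) hb
  obtain ⟨γ, i⟩ := j
  have h : γ1 < γ := not_le.1 hj
  have h' := hβ.trans h
  have hle2 := Le.trans hu hB hr' hr1 hle1 hle (toLex (γ, i)) (mem_univ _)
  have hle3 := Le.trans hu hB hr hr' hle hrp (toLex (γ, i)) (mem_univ _)
  have hT := (H.sub γ h' (ht' γ h').1).2 N i
  obtain ⟨m₁, m₂⟩ := hm γ h' i _ (ht' γ h').1
  have hq := res_bs_mem hu hr1 (mem_univ (toLex (γ, i) : JJ Θ))
  change DirAt (F.D N) (toLex (γ, i)) r1 (F.cnd N t')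
  refine dirAt_of ?_ ?_ ?_
  · rw [F.cnd_gt N t' h', hT.2.1, es, hn₁ (toLex (γ, i)) h]
    cases e : (F.p N (toLex (γ, i))).s with
    | none => rfl
    | some z =>
      have := hle3.1 z e
      rw [hn₁ (toLex (γ, i)) h] at this
      exact this
  · rw [F.cnd_gt N t' h']
    exact m₁.trans hle2.2.2.1
  · rw [F.cnd_gt N t' h']
    refine (hB _ (mem_univ _)).trans _ _ _ _ hq hle2.2.2.2 (m₂ _ hq ?_)
    rw [res_of_mem (pt_mem_bs h' i γ), e₁ γ h]

end Fam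

end Pool.Agent.MP_a2558b_lc

end

section

namespace Pool.Agent.MP_a2558b_lc

open Cardinal hiding univ
open Set Base

universe u

theorem ctx_mk_Iic_lt {α : Type u} [LinearOrder α] {c : Cardinal.{u}} (hc : ℵ₀ ≤ c) {a : α}
    (h : #(Iio a) < c) : #(Iic a) < c := by
  rw [← Iio_insert]
  exact mk_insert_le.trans_lt (add_lt_of_lt hc h (one_lt_aleph0.trans_le hc))

theorem ctx_mk_Iic_le {α : Type u} [LinearOrder α] {c : Cardinal.{u}} (hc : ℵ₀ ≤ c) {a : α}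
    (h : #(Iio a) ≤ c) : #(Iic a) ≤ c := by
  rw [← Iio_insert]
  exact mk_insert_le.trans (add_le_of_le hc h (one_lt_aleph0.le.trans hc))

theorem Supercompact.inacc {κ : Cardinal.{u}} (h : Supercompact κ) : κ.IsInaccessible := by
  classical
  obtain ⟨h0, hU⟩ := h
  refine ⟨h0, ?_, ?_⟩
  · by_contra hlt
    rw [not_le, ← Ordinal.cof_toType] at hlt
    obtain ⟨s, hs, hcs⟩ := Order.exists_cof_eq κ.ord.ToType
    obtain ⟨U, hC, hsm, hfine, -⟩ := hU κ.ord.ToType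
    have h1 : ∀ a : κ.ord.ToType, {x : Set κ.ord.ToType | Iic a ⊆ x} ∈ U := by
      intro a
      have hc : #(Iic a) < κ := ctx_mk_Iic_lt h0.le (by simpa using mk_Iio_lt a (by simp))
      have := (Filter.eventually_cardinal_forall (l := (U : Filter (Set κ.ord.ToType)))
        (p := fun x (y : Iic a) => (y : κ.ord.ToType) ∈ x) hc).2 fun y => hfine y
      refine Filter.mem_of_superset this fun x hx y hy => hx ⟨y, hy⟩
    have h2 := (Filter.eventually_cardinal_forall (l := (U : Filter (Set κ.ord.ToType)))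
      (p := fun x (a : s) => Iic (a : κ.ord.ToType) ⊆ x) (hcs ▸ hlt)).2 fun a => h1 a
    obtain ⟨x, hx1, hx2⟩ := U.nonempty_of_mem (Filter.inter_mem h2 hsm)
    have hx : x = univ := by
      refine eq_univ_of_forall fun y => ?_
      obtain ⟨a, ha, hya⟩ := hs y
      exact hx1 ⟨a, ha⟩ hya
    rw [hx] at hx2
    simp at hx2
  · by_contra hlt
    obtain ⟨c, hc, hle⟩ := not_isStrongPrelimit_iff.1 hlt
    obtain ⟨U, hC, hsm, hfine, -⟩ := hU κ.out
    have hne : Nonempty κ.out := by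
      rw [← mk_ne_zero_iff, mk_out]
      exact (aleph0_pos.trans h0).ne'
    obtain ⟨e⟩ : Nonempty (κ.out ↪ Set c.out) := by
      rw [← le_def]
      simpa using hle
    have hf : ∀ x : Set κ.out, ∃ y, #x < κ → y ∉ x := by
      intro x
      by_cases hx : ∃ y, y ∉ x
      · obtain ⟨y, hy⟩ := hx
        exact ⟨y, fun _ => hy⟩
      · refine ⟨Classical.arbitrary _, fun hlt' => ?_⟩
        push Not at hx
        rw [eq_univ_of_forall hx] at hlt'
        simp at hlt'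
    choose f hf using hf
    set A : Set c.out := {i | {x | i ∈ e (f x)} ∈ U} with hA
    have h1 : ∀ i : c.out, ∀ᶠ x in (U : Filter (Set κ.out)), (i ∈ e (f x) ↔ i ∈ A) := by
      intro i
      by_cases hi : i ∈ A
      · exact Filter.mem_of_superset hi fun x hx => iff_of_true hx hi
      · have := Ultrafilter.compl_mem_iff_notMem.2 hi
        exact Filter.mem_of_superset this fun x hx => iff_of_false hx hi
    have h2 := (Filter.eventually_cardinal_forall (l := (U : Filter (Set κ.out)))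
      (p := fun x (i : c.out) => (i ∈ e (f x) ↔ i ∈ A)) (by simpa using hc)).2 h1
    obtain ⟨x0, hx0⟩ := U.nonempty_of_mem h2
    obtain ⟨x, ⟨hx1, hx2⟩, hx3⟩ :=
      U.nonempty_of_mem (Filter.inter_mem (Filter.inter_mem h2 hsm) (hfine (f x0)))
    have he : e (f x) = e (f x0) := by
      ext i
      exact (hx1 i).trans (hx0 i).symm
    exact hf x hx2 (e.injective he ▸ hx3)

theorem ctx_exists_pos {Ω : Type u} [LinearOrder Ω] [WellFoundedLT Ω] {c : Cardinal.{u}}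
    (hc : c < #Ω) : ∃ x : Ω, #(Iio x) = c ∧ ∀ y < x, #(Iio y) < c := by
  have h1 : c.ord < Ordinal.type ((· < ·) : Ω → Ω → Prop) := (ord_lt_ord.2 hc).trans_le (ord_le_type _)
  have hcard : ∀ y : Ω, #(Iio y) = (Ordinal.typein ((· < ·) : Ω → Ω → Prop) y).card := fun y =>
    (Ordinal.card_typein (r := ((· < ·) : Ω → Ω → Prop)) y).symm
  refine ⟨Ordinal.enum (α := Ω) (· < ·) ⟨c.ord, h1⟩, ?_, fun y hy => ?_⟩
  · rw [hcard, Ordinal.typein_enum, card_ord]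
  · rw [hcard, ← lt_ord]
    have := (Ordinal.typein_lt_typein ((· < ·) : Ω → Ω → Prop)).2 hy
    rwa [Ordinal.typein_enum] at this

theorem ctx_exists_bound {Ω : Type u} [LinearOrder Ω] {S Z : Set Ω} {c : Cardinal.{u}}
    (hc : ℵ₀ ≤ c) (hS : c < #S) (hZ : #Z ≤ c) (hI : ∀ z ∈ Z, #(Iio z) ≤ c) :
    ∃ b ∈ S, ∀ z ∈ Z, z < b := by
  by_contra hcon
  push Not at hcon
  have hsub : S ⊆ ⋃ z : Z, Iic (z : Ω) := by
    intro b hb
    obtain ⟨z, hz, hbz⟩ := hcon b hb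
    exact mem_iUnion.2 ⟨⟨z, hz⟩, hbz⟩
  have h1 : #(⋃ z : Z, Iic (z : Ω)) ≤ c := by
    refine mk_iUnion_le_sum_mk.trans ?_
    refine (sum_le_sum _ (fun _ => c) fun z : Z => ctx_mk_Iic_le hc (hI z z.2)).trans ?_
    rw [sum_const']
    exact mul_le_of_le hc hZ le_rfl
  exact absurd ((mk_le_mk_of_subset hsub).trans h1) (not_le.2 hS)

theorem ctx_exists_enum {S : Set Cardinal.{u}} (h : ¬ S.Countable) (Θ : Type u) [LinearOrder Θ]
    [WellFoundedLT Θ] (hct : ∀ β : Θ, (Iio β).Countable) :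
    ∃ κ : Θ → Cardinal.{u}, StrictMono κ ∧ ∀ β, κ β ∈ S := by
  rcases InitialSeg.total ((· < ·) : Θ → Θ → Prop) ((· < ·) : S → S → Prop) with f | f
  · exact ⟨fun β => f β, fun a b hab => f.map_rel_iff.2 hab, fun β => (f β).2⟩
  · by_cases hs : Function.Surjective f
    · choose g hg using hs
      refine ⟨fun β => g β, fun a b hab => ?_, fun β => (g β).2⟩
      have : f (g a) < f (g b) := by rwa [hg, hg]
      exact f.map_rel_iff.1 this
    · exfalso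
      obtain ⟨β, hβ⟩ := not_forall.1 hs
      apply h
      have hlt : ∀ s : S, f s ∈ Iio β := by
        intro s
        rcases lt_trichotomy (f s) β with h1 | h1 | h1
        · exact h1
        · exact absurd ⟨s, h1⟩ hβ
        · exact absurd (f.mem_range_of_rel h1) hβ
      have := (hct β).to_subtype
      have hinj : Function.Injective fun s : S => (⟨f s, hlt s⟩ : Iio β) := fun a b hab =>
        f.injective (congrArg Subtype.val hab)
      exact countable_coe_iff.1 hinj.countable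

theorem ctx_transGen_card {Ω : Type u} [LinearOrder Ω] [WellFoundedLT Ω] {r : Ω → Ω → Prop}
    {c : Cardinal.{u}} (hc : ℵ₀ ≤ c) (hlt : ∀ a b, r a b → a < b) (hr : ∀ b, #{a | r a b} ≤ c)
    (b : Ω) : #{a | Relation.TransGen r a b} ≤ c := by
  induction b using WellFoundedLT.induction with
  | ind b ih =>
    have hsub : {a | Relation.TransGen r a b} ⊆
        {a | r a b} ∪ ⋃ d : {a | r a b}, {a | Relation.TransGen r a d} := by
      intro a ha
      cases ha with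
      | single h1 => exact Or.inl h1
      | tail h1 h2 => exact Or.inr (mem_iUnion.2 ⟨⟨_, h2⟩, h1⟩)
    refine (mk_le_mk_of_subset hsub).trans ((mk_union_le _ _).trans (add_le_of_le hc (hr b) ?_))
    refine mk_iUnion_le_sum_mk.trans ?_
    refine (sum_le_sum _ (fun _ => c) fun d : {a | r a b} => ih d (hlt _ _ d.2)).trans ?_
    rw [sum_const']
    exact mul_le_of_le hc (hr b) le_rfl

theorem ctx_lt_of_mk_lt {Ω : Type u} [LinearOrder Ω] {x y : Ω} (h : #(Iio x) < #(Iio y)) :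
    x < y := by
  by_contra hcon
  exact absurd (mk_le_mk_of_subset (Iio_subset_Iio (not_lt.1 hcon))) (not_le.2 h)

theorem exists_ctx (h : ¬ {κ : Cardinal.{u} | Supercompact κ}.Countable) :
    ∃ (Θ Ω : Type u) (_ : LinearOrder Θ) (_ : WellFoundedLT Θ) (_ : LinearOrder Ω)
      (_ : WellFoundedLT Ω), Nonempty (Ctx Θ Ω) := by
  classical
  obtain ⟨Θ, i1, i2, hΘ, hΘt⟩ : ∃ (Θ : Type u) (_ : LinearOrder Θ) (_ : WellFoundedLT Θ),
      #Θ = ℵ₁ ∧ Ordinal.type ((· < ·) : Θ → Θ → Prop) = (ℵ₁ : Cardinal.{u}).ord :=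
    ⟨(ℵ₁ : Cardinal.{u}).ord.ToType, inferInstance, inferInstance, mk_ord_toType _,
      Ordinal.type_toType _⟩
  have hΘlt : ∀ β : Θ, #(Iio β) < ℵ₁ := fun β => hΘ ▸ mk_Iio_lt β (by rw [hΘ, hΘt])
  have hΘle : ∀ β : Θ, #(Iio β) ≤ ℵ₀ := fun β => by
    have := hΘlt β
    rwa [← succ_aleph0, Order.lt_succ_iff] at this
  have hct : ∀ β : Θ, (Iio β).Countable := fun β => le_aleph0_iff_set_countable.1 (hΘle β)
  have hunc : Uncountable Θ := by
    rw [← aleph0_lt_mk_iff, hΘ]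
    exact aleph0_lt_aleph_one
  have hnm : ∀ β : Θ, ∃ γ, β < γ := by
    intro β
    obtain ⟨γ, -, hγ⟩ := ctx_exists_bound (S := (univ : Set Θ)) (Z := {β}) le_rfl
      (by rw [mk_univ, hΘ]; exact aleph0_lt_aleph_one) (by simp) fun z _ => hΘle z
    exact ⟨γ, hγ β rfl⟩
  obtain ⟨κ, hmono, hsc⟩ := ctx_exists_enum h Θ hct
  have hin : ∀ β, (κ β).IsInaccessible := fun β => Supercompact.inacc (hsc β)
  have h01 : (ℵ₀ : Cardinal.{u}) ≤ ℵ₁ := aleph0_lt_aleph_one.le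
  have h1κ : ∀ β, ℵ₁ < κ β := fun β => by
    rw [← succ_aleph0]
    exact (hin β).isSuccLimit.succ_lt (hin β).aleph0_lt
  set lb : Θ → Cardinal.{u} := fun β => ℵ₁ + sum fun γ : Iio β => κ γ with hlb
  have h1lb : ∀ β, ℵ₁ ≤ lb β := fun β => self_le_add_right _ _
  have h0lb : ∀ β, ℵ₀ ≤ lb β := fun β => h01.trans (h1lb β)
  have hκlb : ∀ β γ, γ < β → κ γ ≤ lb β := fun β γ hγ =>
    (le_sum (fun γ : Iio β => κ γ) ⟨γ, hγ⟩).trans (self_le_add_left _ _)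
  have hlble : ∀ β c, ℵ₁ ≤ c → (∀ γ < β, κ γ ≤ c) → lb β ≤ c := by
    intro β c hc hγ
    refine add_le_of_le (h01.trans hc) hc ?_
    refine (sum_le_sum _ (fun _ => c) fun γ : Iio β => hγ γ γ.2).trans ?_
    rw [sum_const']
    exact mul_le_of_le (h01.trans hc) ((hΘle β).trans (h01.trans hc)) le_rfl
  have hlbκ : ∀ β, Order.succ (lb β) < κ β := by
    intro β
    refine (hin β).isSuccLimit.succ_lt (add_lt_of_lt (hin β).aleph0_lt.le (h1κ β) ?_)
    exact sum_lt_of_isRegular (hin β).isRegular ((hΘlt β).trans (h1κ β)) fun γ => hmono γ.2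
  have hκs : ∀ β, κ β < sum κ := by
    intro β
    obtain ⟨γ, hγ⟩ := hnm β
    exact (hmono hγ).trans_le (le_sum κ γ)
  obtain ⟨β0⟩ : Nonempty Θ := inferInstance
  have h1s : ℵ₁ < sum κ := (h1κ β0).trans (hκs β0)
  have h0s : ℵ₀ ≤ sum κ := h01.trans h1s.le
  have hscof : ∀ c < sum κ, ∃ β, c < κ β := by
    intro c hc
    by_contra hcon
    push Not at hcon
    have h1c : ℵ₁ ≤ c := (h1κ β0).le.trans (hcon β0)
    refine absurd ((sum_le_sum _ (fun _ => c) hcon).trans ?_) (not_le.2 hc)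
    rw [sum_const', hΘ]
    exact mul_le_of_le (h01.trans h1c) h1c le_rfl
  obtain ⟨Ω, j1, j2, hΩ, hΩt⟩ : ∃ (Ω : Type u) (_ : LinearOrder Ω) (_ : WellFoundedLT Ω),
      #Ω = Order.succ (sum κ) ∧ Ordinal.type ((· < ·) : Ω → Ω → Prop) = (Order.succ (sum κ)).ord :=
    ⟨(Order.succ (sum κ)).ord.ToType, inferInstance, inferInstance, mk_ord_toType _,
      Ordinal.type_toType _⟩
  have hsΩ : sum κ < #Ω := hΩ ▸ Order.lt_succ _
  have hsmall : ∀ x : Ω, #(Iio x) ≤ sum κ := fun x =>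
    Order.lt_succ_iff.1 (hΩ ▸ mk_Iio_lt x (by rw [hΩ, hΩt]))
  obtain ⟨th⟩ : Nonempty (Θ <i Ω) := by
    refine Ordinal.type_lt_iff.1 ?_
    rw [hΘt, hΩt, ord_lt_ord]
    exact h1s.trans (Order.lt_succ _)
  have hthm : StrictMono th := fun a b hab => th.map_rel_iff.2 hab
  have hthr : range th = Iio th.top := th.range_eq_Iio
  have hw1 : #(Iio th.top) = ℵ₁ := by
    rw [← hthr, mk_range_eq _ hthm.injective, hΘ]
  obtain ⟨lam, hlam, hlami⟩ := ctx_exists_pos hsΩ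
  choose kap hkap hkapi using fun β => ctx_exists_pos ((hκs β).trans hsΩ)
  choose mu hmu hmui using fun β => ctx_exists_pos (((hlbκ β).trans (hκs β)).trans hsΩ)
  have hmui' : ∀ β, ∀ x < mu β, #(Iio x) ≤ lb β := fun β x hx =>
    Order.lt_succ_iff.1 (hmui β x hx)
  have hlamcof : ∀ x < lam, ∃ β, x < kap β := by
    intro x hx
    obtain ⟨β, hβ⟩ := hscof _ (hlami x hx)
    exact ⟨β, ctx_lt_of_mk_lt (by rwa [hkap])⟩
  have hkapm : StrictMono kap := fun a b hab =>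
    ctx_lt_of_mk_lt (by rw [hkap, hkap]; exact hmono hab)
  have he : ∀ b : Ω, ∃ e : Ω → Ω, InjOn e (Iio b) ∧ ∀ a < b, e a < lam := by
    intro b
    obtain ⟨e⟩ : Nonempty (Iio b ↪ Iio lam) := by
      rw [← le_def, hlam]
      exact hsmall b
    refine ⟨fun a => if ha : a < b then e ⟨a, ha⟩ else a, fun a ha a' ha' haa => ?_,
      fun a ha => ?_⟩
    · simp only [dif_pos (mem_Iio.1 ha), dif_pos (mem_Iio.1 ha')] at haa
      exact congrArg Subtype.val (e.injective (Subtype.ext haa))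
    · simp only [dif_pos ha]
      exact (e ⟨a, ha⟩).2
  choose e hei hel using he
  refine ⟨Θ, Ω, i1, i2, j1, j2, ⟨{
    κ := κ
    lb := lb
    sc := hsc
    inacc := hin
    κ_mono := hmono
    ct := hct
    unc := hunc
    mk_Θ := hΘ
    lb_eq := fun _ => rfl
    lb_lt := hlbκ
    w1 := th.top
    lam := lam
    th := th
    kap := kap
    mu := mu
    th_mono := hthm
    th_range := hthr
    mk_kap := hkap
    kap_init := hkapi
    mk_mu := hmu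
    mu_init := hmui'
    mu_bdd := fun β Z hZ hZc => ?_
    w1_mu := fun β => ctx_lt_of_mk_lt (by rw [hw1, hmu]; exact Order.lt_succ_iff.2 (h1lb β))
    mu_kap := fun β => ctx_lt_of_mk_lt (by rw [hmu, hkap]; exact hlbκ β)
    kap_mu := fun β γ hβγ =>
      ctx_lt_of_mk_lt (by rw [hmu, hkap]; exact Order.lt_succ_iff.2 (hκlb γ β hβγ))
    kap_lam := fun β => ctx_lt_of_mk_lt (by rw [hlam, hkap]; exact hκs β)
    lam_cof := hlamcof
    mk_lam := hlam
    small := hsmall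
    top_bdd := fun Z hZ => ?_
    sing := fun x hx1 hx2 => ?_
    Dr := fun m => Relation.TransGen fun a b => a < b ∧ e b a < kap m
    Dr_lt := fun m a b hab => ?_
    Dr_trans := fun m a b c h1 h2 => h1.trans h2
    Dr_mono := fun m m' a b hm hab => ?_
    Dr_total := fun a b hab => ?_
    Dr_card := fun m b => ?_ }⟩⟩
  · exact ctx_exists_bound (S := Iio (mu β)) (h0lb β) (by rw [hmu]; exact Order.lt_succ _) hZc
      fun z hz => hmui' β z (hZ hz)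
  · obtain ⟨b, -, hb⟩ := ctx_exists_bound (S := (univ : Set Ω)) h0s (by rwa [mk_univ]) hZ
      fun z _ => hsmall z
    exact ⟨b, hb⟩
  · have hex : ∃ β, #(Iio x) ≤ κ β := by
      obtain ⟨β, hβ⟩ := hlamcof x hx2
      exact ⟨β, (hkapi β x hβ).le⟩
    obtain ⟨β, hβ, hmin⟩ := WellFounded.has_min (wellFounded_lt (α := Θ)) _ hex
    have hγx : ∀ γ < β, κ γ < #(Iio x) := fun γ hγ => not_le.1 fun h1 => hmin γ h1 hγ
    have h1x : ℵ₁ ≤ #(Iio x) := hw1 ▸ mk_le_mk_of_subset (Iio_subset_Iio hx1.le)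
    have hlbx : lb β ≤ #(Iio x) := hlble β _ h1x fun γ hγ => (hγx γ hγ).le
    rcases lt_trichotomy x (mu β) with h1 | h1 | h1
    · right; left
      have hxlb : #(Iio x) = lb β := (hmui' β x h1).antisymm hlbx
      by_cases hini : ∃ z < x, #(Iio z) = #(Iio x)
      · obtain ⟨z, hz, hzx⟩ := hini
        obtain ⟨g⟩ := Cardinal.eq.1 hzx
        refine ⟨z, hz, fun i => if hi : i < z then g ⟨i, hi⟩ else i, fun i hi => ?_,
          fun b hb => ?_⟩
        · simp only [dif_pos hi]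
          exact (g ⟨i, hi⟩).2
        · refine ⟨g.symm ⟨b, hb⟩, (g.symm ⟨b, hb⟩).2, ?_⟩
          have hi : (g.symm ⟨b, hb⟩ : Ω) < z := (g.symm ⟨b, hb⟩).2
          simp only [dif_pos hi, Subtype.coe_eta, Equiv.apply_symm_apply, le_refl]
      · push Not at hini
        have hini' : ∀ z < x, #(Iio z) < lb β := fun z hz =>
          hxlb ▸ (mk_le_mk_of_subset (Iio_subset_Iio hz.le)).lt_of_ne (hini z hz)
        have h1lb' : ℵ₁ < lb β := hw1 ▸ hini' _ hx1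
        have : Nonempty Θ := ⟨β⟩
        have hinv : ∀ γ, Function.invFun th (th γ) = γ := Function.leftInverse_invFun hthm.injective
        refine ⟨th β, (th.lt_top β).trans hx1, fun i => kap (Function.invFun th i),
          fun i hi => ?_, fun b hb => ?_⟩
        · have hi' : i ∈ range th := hthr ▸ hi.trans (th.lt_top β)
          obtain ⟨γ, rfl⟩ := hi'
          simp only [hinv]
          exact ctx_lt_of_mk_lt (by rw [hkap]; exact hγx γ (hthm.lt_iff_lt.1 hi))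
        · by_contra hcon
          push Not at hcon
          have hb' := hini' b hb
          have : lb β ≤ max ℵ₁ #(Iio b) := by
            refine hlble β _ (le_max_left _ _) fun γ hγ => le_max_of_le_right ?_
            have := hcon (th γ) (hthm hγ)
            rw [hinv] at this
            exact hkap γ ▸ mk_le_mk_of_subset (Iio_subset_Iio this.le)
          exact absurd this (not_le.2 (max_lt h1lb' hb'))
    · exact Or.inl ⟨β, h1⟩
    · exact Or.inr (Or.inr ⟨β, h1, hβ⟩)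
  · induction hab with
    | single h1 => exact h1.1
    | tail _ h2 ih => exact ih.trans h2.1
  · induction hab with
    | single h1 => exact Relation.TransGen.single ⟨h1.1, h1.2.trans_le (hkapm.monotone hm)⟩
    | tail _ h2 ih => exact ih.tail ⟨h2.1, h2.2.trans_le (hkapm.monotone hm)⟩
  · obtain ⟨m, hm⟩ := hlamcof _ (hel b a hab)
    exact ⟨m, Relation.TransGen.single ⟨hab, hm⟩⟩
  · refine ctx_transGen_card (hin m).aleph0_lt.le (fun a b h1 => h1.1) (fun b => ?_) b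
    rw [← hkap m]
    refine mk_le_of_injective (f := fun a => ⟨e b a.1, a.2.2⟩) fun a a' haa => ?_
    exact Subtype.ext (hei b a.2.1 a'.2.1 (congrArg Subtype.val haa))

end Pool.Agent.MP_a2558b_lc

end
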